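import Mathlib

set_option autoImplicit false
set_option linter.all false

/-!
Basic definitions for MP_d14a7e_al (minimal bounded width clones).
Algebras have a ternary operation `v` and a quaternary operation `w`.
All carriers live in `Type`.
-/

namespace Pool.Agent.BWC

/-- algebra with a ternary and a quaternary operation -/
structure Alg (A : Type) where
  v : A → A → A → A
  w : A → A → A → A → A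

variable {A B C : Type}

/-- bounded width identities: idempotent linked weak near unanimity operations -/
structure IsBW (𝔸 : Alg A) : Prop where
  vi : ∀ a, 𝔸.v a a a = a
  wi : ∀ a, 𝔸.w a a a a = a
  v0 : ∀ x y, 𝔸.v y x x = 𝔸.v x x y
  v1 : ∀ x y, 𝔸.v x y x = 𝔸.v x x y
  w0 : ∀ x y, 𝔸.w y x x x = 𝔸.v x x y
  w1 : ∀ x y, 𝔸.w x y x x = 𝔸.v x x y
  w2 : ∀ x y, 𝔸.w x x y x = 𝔸.v x x y
  w3 : ∀ x y, 𝔸.w x x x y = 𝔸.v x x y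

namespace Alg

/-- product of two algebras -/
def prod (𝔸 : Alg A) (𝔹 : Alg B) : Alg (A × B) where
  v p q r := (𝔸.v p.1 q.1 r.1, 𝔹.v p.2 q.2 r.2)
  w p q r s := (𝔸.w p.1 q.1 r.1 s.1, 𝔹.w p.2 q.2 r.2 s.2)

/-- product of a family of algebras -/
def pi {ι : Type} {F : ι → Type} (𝔽 : ∀ i, Alg (F i)) : Alg (∀ i, F i) where
  v p q r := fun i => (𝔽 i).v (p i) (q i) (r i)
  w p q r s := fun i => (𝔽 i).w (p i) (q i) (r i) (s i)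

end Alg

/-- `U` is a subuniverse (possibly empty) -/
def Sub (𝔸 : Alg A) (U : Set A) : Prop :=
  (∀ x ∈ U, ∀ y ∈ U, ∀ z ∈ U, 𝔸.v x y z ∈ U) ∧
  (∀ x ∈ U, ∀ y ∈ U, ∀ z ∈ U, ∀ u ∈ U, 𝔸.w x y z u ∈ U)

/-- `f` is a homomorphism on the subset `U` -/
def HomOn (𝔸 : Alg A) (𝔹 : Alg B) (U : Set A) (f : A → B) : Prop :=
  (∀ x ∈ U, ∀ y ∈ U, ∀ z ∈ U, f (𝔸.v x y z) = 𝔹.v (f x) (f y) (f z)) ∧
  (∀ x ∈ U, ∀ y ∈ U, ∀ z ∈ U, ∀ u ∈ U, f (𝔸.w x y z u) = 𝔹.w (f x) (f y) (f z) (f u))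

/-- terms in `n` variables -/
inductive Tm (n : ℕ) : Type
  | var : Fin n → Tm n
  | v : Tm n → Tm n → Tm n → Tm n
  | w : Tm n → Tm n → Tm n → Tm n → Tm n

namespace Tm

/-- evaluation of a term -/
def eval (𝔸 : Alg A) {n : ℕ} : Tm n → (Fin n → A) → A
  | var i, x => x i
  | v s t u, x => 𝔸.v (s.eval 𝔸 x) (t.eval 𝔸 x) (u.eval 𝔸 x)
  | w s t u r, x => 𝔸.w (s.eval 𝔸 x) (t.eval 𝔸 x) (u.eval 𝔸 x) (r.eval 𝔸 x)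

/-- substitution -/
def subst {n m : ℕ} : Tm n → (Fin n → Tm m) → Tm m
  | var i, σ => σ i
  | v s t u, σ => v (s.subst σ) (t.subst σ) (u.subst σ)
  | w s t u r, σ => w (s.subst σ) (t.subst σ) (u.subst σ) (r.subst σ)

end Tm

/-- binary term operation -/
def t2 (𝔸 : Alg A) (t : Tm 2) (x y : A) : A := t.eval 𝔸 ![x, y]
/-- ternary term operation -/
def t3 (𝔸 : Alg A) (t : Tm 3) (x y z : A) : A := t.eval 𝔸 ![x, y, z]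
/-- quaternary term operation -/
def t4 (𝔸 : Alg A) (t : Tm 4) (x y z u : A) : A := t.eval 𝔸 ![x, y, z, u]

/-- the algebra with operations given by a pair of terms -/
def Alg.der (𝔸 : Alg A) (p : Tm 3) (q : Tm 4) : Alg A where
  v := t3 𝔸 p
  w := t4 𝔸 q

/-- `N` is a subuniverse absorbing `U` by the ternary term `t` -/
def AbsT (𝔸 : Alg A) (t : Tm 3) (N U : Set A) : Prop :=
  Sub 𝔸 N ∧ N ⊆ U ∧
  (∀ x ∈ U, ∀ y ∈ N, ∀ z ∈ N, t3 𝔸 t x y z ∈ N) ∧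
  (∀ x ∈ N, ∀ y ∈ U, ∀ z ∈ N, t3 𝔸 t x y z ∈ N) ∧
  (∀ x ∈ N, ∀ y ∈ N, ∀ z ∈ U, t3 𝔸 t x y z ∈ N)

/-- 3-absorption -/
def Abs3 (𝔸 : Alg A) (N U : Set A) : Prop := ∃ t, AbsT 𝔸 t N U

/-- `N` is a subuniverse absorbing `U` by the binary term `t` -/
def Abs2T (𝔸 : Alg A) (t : Tm 2) (N U : Set A) : Prop :=
  Sub 𝔸 N ∧ N ⊆ U ∧
  (∀ x ∈ U, ∀ y ∈ N, t2 𝔸 t x y ∈ N) ∧
  (∀ x ∈ N, ∀ y ∈ U, t2 𝔸 t x y ∈ N)

/-- 2-absorption -/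
def Abs2 (𝔸 : Alg A) (N U : Set A) : Prop := ∃ t, Abs2T 𝔸 t N U

/-- no proper nonempty 2-absorbing subuniverse -/
def BF (𝔸 : Alg A) (U : Set A) : Prop := ∀ N : Set A, N.Nonempty → Abs2 𝔸 N U → N = U

/-- no proper nonempty 3-absorbing subuniverse -/
def TF (𝔸 : Alg A) (U : Set A) : Prop := ∀ N : Set A, N.Nonempty → Abs3 𝔸 N U → N = U

/-- domain and codomain of a relation -/
def dom (T : Set (A × B)) : Set A := {a | ∃ b, (a, b) ∈ T}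
def cod (T : Set (A × B)) : Set B := {b | ∃ a, (a, b) ∈ T}
/-- forward image -/
def img (T : Set (A × B)) (N : Set A) : Set B := {b | ∃ a ∈ N, (a, b) ∈ T}
/-- inverse relation -/
def inv (T : Set (A × B)) : Set (B × A) := {p | (p.2, p.1) ∈ T}

/-- left-linked: any two elements of the domain are connected -/
def LLinked (T : Set (A × B)) : Prop :=
  ∀ a ∈ dom T, ∀ a' ∈ dom T,
    Relation.ReflTransGen (fun x y => ∃ c, (x, c) ∈ T ∧ (y, c) ∈ T) a a'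

/-- simple algebra -/
def Simple (𝕊 : Alg A) : Prop :=
  ∀ θ : Set (A × A), Sub (𝕊.prod 𝕊) θ → (∀ a, (a, a) ∈ θ) → (∀ a b, (a, b) ∈ θ → (b, a) ∈ θ) →
    (∀ a b c, (a, b) ∈ θ → (b, c) ∈ θ → (a, c) ∈ θ) →
    (∀ a b, (a, b) ∈ θ → a = b) ∨ (∀ a b, (a, b) ∈ θ)

/-- generated subuniverse -/
def Sg (𝔸 : Alg A) (S : Set A) : Set A := ⋂₀ {U | Sub 𝔸 U ∧ S ⊆ U}

/-- `𝔹` satisfies all identities of `𝔸` -/
def Sat (𝔸 : Alg A) (𝔹 : Alg B) : Prop :=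
  ∀ (n : ℕ) (s t : Tm n), (∀ x : Fin n → A, s.eval 𝔸 x = t.eval 𝔸 x) →
    ∀ y : Fin n → B, s.eval 𝔹 y = t.eval 𝔹 y

/-- minimal bounded width algebra -/
def MinBW (𝔸 : Alg A) : Prop :=
  IsBW 𝔸 ∧ ∀ (p : Tm 3) (q : Tm 4), IsBW (𝔸.der p q) →
    ∃ (r : Tm 3) (s : Tm 4), (∀ x y z, t3 (𝔸.der p q) r x y z = 𝔸.v x y z) ∧
      (∀ x y z u, t4 (𝔸.der p q) s x y z u = 𝔸.w x y z u)

/-! ### evaluation -/

theorem t2_eq (𝔸 : Alg A) (t : Tm 2) (x y : A) : t2 𝔸 t x y = t.eval 𝔸 ![x, y] := rfl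
theorem t3_eq (𝔸 : Alg A) (t : Tm 3) (x y z : A) : t3 𝔸 t x y z = t.eval 𝔸 ![x, y, z] := rfl
theorem t4_eq (𝔸 : Alg A) (t : Tm 4) (x y z u : A) :
    t4 𝔸 t x y z u = t.eval 𝔸 ![x, y, z, u] := rfl

theorem eval_fin2 (𝔸 : Alg A) (t : Tm 2) (x : Fin 2 → A) : t.eval 𝔸 x = t2 𝔸 t (x 0) (x 1) := by
  rw [t2_eq]; congr 1; ext i; fin_cases i <;> rfl
theorem eval_fin3 (𝔸 : Alg A) (t : Tm 3) (x : Fin 3 → A) :
    t.eval 𝔸 x = t3 𝔸 t (x 0) (x 1) (x 2) := by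
  rw [t3_eq]; congr 1; ext i; fin_cases i <;> rfl
theorem eval_fin4 (𝔸 : Alg A) (t : Tm 4) (x : Fin 4 → A) :
    t.eval 𝔸 x = t4 𝔸 t (x 0) (x 1) (x 2) (x 3) := by
  rw [t4_eq]; congr 1; ext i; fin_cases i <;> rfl

theorem eval_subst (𝔸 : Alg A) {n m : ℕ} (t : Tm n) (σ : Fin n → Tm m) (x : Fin m → A) :
    (t.subst σ).eval 𝔸 x = t.eval 𝔸 (fun i => (σ i).eval 𝔸 x) := by
  induction t with
  | var i => rfl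
  | v s t u h1 h2 h3 => simp only [Tm.subst, Tm.eval, h1, h2, h3]
  | w s t u r h1 h2 h3 h4 => simp only [Tm.subst, Tm.eval, h1, h2, h3, h4]

theorem eval_idem {𝔸 : Alg A} (h : IsBW 𝔸) {n : ℕ} (t : Tm n) (a : A) :
    t.eval 𝔸 (fun _ => a) = a := by
  induction t with
  | var i => rfl
  | v s t u h1 h2 h3 => simp only [Tm.eval, h1, h2, h3, h.vi]
  | w s t u r h1 h2 h3 h4 => simp only [Tm.eval, h1, h2, h3, h4, h.wi]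

theorem t2_idem {𝔸 : Alg A} (h : IsBW 𝔸) (t : Tm 2) (a : A) : t2 𝔸 t a a = a := by
  have := eval_idem h t a
  rwa [eval_fin2] at this
theorem t3_idem {𝔸 : Alg A} (h : IsBW 𝔸) (t : Tm 3) (a : A) : t3 𝔸 t a a a = a := by
  have := eval_idem h t a
  rwa [eval_fin3] at this
theorem t4_idem {𝔸 : Alg A} (h : IsBW 𝔸) (t : Tm 4) (a : A) : t4 𝔸 t a a a a = a := by
  have := eval_idem h t a
  rwa [eval_fin4] at this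

theorem eval_prod (𝔸 : Alg A) (𝔹 : Alg B) {n : ℕ} (t : Tm n) (x : Fin n → A × B) :
    t.eval (𝔸.prod 𝔹) x = (t.eval 𝔸 (fun i => (x i).1), t.eval 𝔹 (fun i => (x i).2)) := by
  induction t with
  | var i => rfl
  | v s t u h1 h2 h3 => simp only [Tm.eval, h1, h2, h3]; rfl
  | w s t u r h1 h2 h3 h4 => simp only [Tm.eval, h1, h2, h3, h4]; rfl

@[simp] theorem t2_prod (𝔸 : Alg A) (𝔹 : Alg B) (t : Tm 2) (x y : A × B) :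
    t2 (𝔸.prod 𝔹) t x y = (t2 𝔸 t x.1 y.1, t2 𝔹 t x.2 y.2) := by
  rw [t2_eq, eval_prod, eval_fin2, eval_fin2]; rfl
@[simp] theorem t3_prod (𝔸 : Alg A) (𝔹 : Alg B) (t : Tm 3) (x y z : A × B) :
    t3 (𝔸.prod 𝔹) t x y z = (t3 𝔸 t x.1 y.1 z.1, t3 𝔹 t x.2 y.2 z.2) := by
  rw [t3_eq, eval_prod, eval_fin3, eval_fin3]; rfl
@[simp] theorem t4_prod (𝔸 : Alg A) (𝔹 : Alg B) (t : Tm 4) (x y z u : A × B) :
    t4 (𝔸.prod 𝔹) t x y z u = (t4 𝔸 t x.1 y.1 z.1 u.1, t4 𝔹 t x.2 y.2 z.2 u.2) := by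
  rw [t4_eq, eval_prod, eval_fin4, eval_fin4]; rfl

theorem eval_pi {ι : Type} {F : ι → Type} (𝔽 : ∀ i, Alg (F i)) {n : ℕ} (t : Tm n)
    (x : Fin n → (∀ i, F i)) (i : ι) :
    t.eval (Alg.pi 𝔽) x i = t.eval (𝔽 i) (fun k => x k i) := by
  induction t with
  | var i => rfl
  | v s t u h1 h2 h3 =>
    simp only [Tm.eval, ← h1, ← h2, ← h3]; rfl
  | w s t u r h1 h2 h3 h4 =>
    simp only [Tm.eval, ← h1, ← h2, ← h3, ← h4]; rfl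

@[simp] theorem t2_pi {ι : Type} {F : ι → Type} (𝔽 : ∀ i, Alg (F i)) (t : Tm 2)
    (x y : ∀ i, F i) (i : ι) : t2 (Alg.pi 𝔽) t x y i = t2 (𝔽 i) t (x i) (y i) := by
  rw [t2_eq, eval_pi, eval_fin2]; rfl
@[simp] theorem t3_pi {ι : Type} {F : ι → Type} (𝔽 : ∀ i, Alg (F i)) (t : Tm 3)
    (x y z : ∀ i, F i) (i : ι) :
    t3 (Alg.pi 𝔽) t x y z i = t3 (𝔽 i) t (x i) (y i) (z i) := by
  rw [t3_eq, eval_pi, eval_fin3]; rfl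
@[simp] theorem t4_pi {ι : Type} {F : ι → Type} (𝔽 : ∀ i, Alg (F i)) (t : Tm 4)
    (x y z u : ∀ i, F i) (i : ι) :
    t4 (Alg.pi 𝔽) t x y z u i = t4 (𝔽 i) t (x i) (y i) (z i) (u i) := by
  rw [t4_eq, eval_pi, eval_fin4]; rfl

theorem Sub.eval {𝔸 : Alg A} {U : Set A} (h : Sub 𝔸 U) {n : ℕ} (t : Tm n) {x : Fin n → A}
    (hx : ∀ i, x i ∈ U) : t.eval 𝔸 x ∈ U := by
  induction t with
  | var i => exact hx i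
  | v s t u h1 h2 h3 => exact h.1 _ h1 _ h2 _ h3
  | w s t u r h1 h2 h3 h4 => exact h.2 _ h1 _ h2 _ h3 _ h4

theorem Sub.t2 {𝔸 : Alg A} {U : Set A} (h : Sub 𝔸 U) (t : Tm 2) {x y : A} (hx : x ∈ U)
    (hy : y ∈ U) : t2 𝔸 t x y ∈ U :=
  h.eval t (by intro i; fin_cases i <;> assumption)
theorem Sub.t3 {𝔸 : Alg A} {U : Set A} (h : Sub 𝔸 U) (t : Tm 3) {x y z : A} (hx : x ∈ U)
    (hy : y ∈ U) (hz : z ∈ U) : t3 𝔸 t x y z ∈ U :=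
  h.eval t (by intro i; fin_cases i <;> assumption)
theorem Sub.t4 {𝔸 : Alg A} {U : Set A} (h : Sub 𝔸 U) (t : Tm 4) {x y z u : A} (hx : x ∈ U)
    (hy : y ∈ U) (hz : z ∈ U) (hu : u ∈ U) : t4 𝔸 t x y z u ∈ U :=
  h.eval t (by intro i; fin_cases i <;> assumption)

theorem HomOn.eval {𝔸 : Alg A} {𝔹 : Alg B} {U : Set A} (hU : Sub 𝔸 U) {f : A → B}
    (hf : HomOn 𝔸 𝔹 U f) {n : ℕ} (t : Tm n) {x : Fin n → A} (hx : ∀ i, x i ∈ U) :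
    f (t.eval 𝔸 x) = t.eval 𝔹 (fun i => f (x i)) := by
  induction t with
  | var i => rfl
  | v s t u h1 h2 h3 =>
    simp only [Tm.eval]
    rw [hf.1 _ (hU.eval s hx) _ (hU.eval t hx) _ (hU.eval u hx), h1, h2, h3]
  | w s t u r h1 h2 h3 h4 =>
    simp only [Tm.eval]
    rw [hf.2 _ (hU.eval s hx) _ (hU.eval t hx) _ (hU.eval u hx) _ (hU.eval r hx), h1, h2, h3, h4]

theorem HomOn.t2 {𝔸 : Alg A} {𝔹 : Alg B} {U : Set A} (hU : Sub 𝔸 U) {f : A → B}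
    (hf : HomOn 𝔸 𝔹 U f) (t : Tm 2) {x y : A} (hx : x ∈ U) (hy : y ∈ U) :
    f (t2 𝔸 t x y) = t2 𝔹 t (f x) (f y) := by
  rw [t2_eq, hf.eval hU t (by intro i; fin_cases i <;> assumption), eval_fin2]; rfl
theorem HomOn.t3 {𝔸 : Alg A} {𝔹 : Alg B} {U : Set A} (hU : Sub 𝔸 U) {f : A → B}
    (hf : HomOn 𝔸 𝔹 U f) (t : Tm 3) {x y z : A} (hx : x ∈ U) (hy : y ∈ U) (hz : z ∈ U) :
    f (t3 𝔸 t x y z) = t3 𝔹 t (f x) (f y) (f z) := by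
  rw [t3_eq, hf.eval hU t (by intro i; fin_cases i <;> assumption), eval_fin3]; rfl
theorem HomOn.t4 {𝔸 : Alg A} {𝔹 : Alg B} {U : Set A} (hU : Sub 𝔸 U) {f : A → B}
    (hf : HomOn 𝔸 𝔹 U f) (t : Tm 4) {x y z u : A} (hx : x ∈ U) (hy : y ∈ U) (hz : z ∈ U)
    (hu : u ∈ U) :
    f (t4 𝔸 t x y z u) = t4 𝔹 t (f x) (f y) (f z) (f u) := by
  rw [t4_eq, hf.eval hU t (by intro i; fin_cases i <;> assumption), eval_fin4]; rfl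

theorem HomOn.mono {𝔸 : Alg A} {𝔹 : Alg B} {U V : Set A} {f : A → B}
    (hf : HomOn 𝔸 𝔹 U f) (h : V ⊆ U) : HomOn 𝔸 𝔹 V f :=
  ⟨fun x hx y hy z hz => hf.1 x (h hx) y (h hy) z (h hz),
   fun x hx y hy z hz u hu => hf.2 x (h hx) y (h hy) z (h hz) u (h hu)⟩

theorem HomOn.fst (𝔸 : Alg A) (𝔹 : Alg B) (U : Set (A × B)) :
    HomOn (𝔸.prod 𝔹) 𝔸 U Prod.fst :=
  ⟨fun _ _ _ _ _ _ => rfl, fun _ _ _ _ _ _ _ _ => rfl⟩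
theorem HomOn.snd (𝔸 : Alg A) (𝔹 : Alg B) (U : Set (A × B)) :
    HomOn (𝔸.prod 𝔹) 𝔹 U Prod.snd :=
  ⟨fun _ _ _ _ _ _ => rfl, fun _ _ _ _ _ _ _ _ => rfl⟩
theorem HomOn.proj {ι : Type} {F : ι → Type} (𝔽 : ∀ i, Alg (F i)) (i : ι)
    (U : Set (∀ i, F i)) : HomOn (Alg.pi 𝔽) (𝔽 i) U (fun x => x i) :=
  ⟨fun _ _ _ _ _ _ => rfl, fun _ _ _ _ _ _ _ _ => rfl⟩
theorem HomOn.comp {𝔸 : Alg A} {𝔹 : Alg B} {𝔻 : Alg C} {U : Set A} {V : Set B} {f : A → B}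
    {g : B → C} (hf : HomOn 𝔸 𝔹 U f) (hg : HomOn 𝔹 𝔻 V g) (h : ∀ x ∈ U, f x ∈ V) :
    HomOn 𝔸 𝔻 U (fun x => g (f x)) :=
  ⟨fun x hx y hy z hz => by
      show g (f (𝔸.v x y z)) = _
      rw [hf.1 x hx y hy z hz, hg.1 _ (h x hx) _ (h y hy) _ (h z hz)],
   fun x hx y hy z hz u hu => by
      show g (f (𝔸.w x y z u)) = _
      rw [hf.2 x hx y hy z hz u hu, hg.2 _ (h x hx) _ (h y hy) _ (h z hz) _ (h u hu)]⟩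
theorem HomOn.pair {𝔸 : Alg A} {𝔹 : Alg B} {𝔻 : Alg C} {U : Set A} {f : A → B}
    {g : A → C} (hf : HomOn 𝔸 𝔹 U f) (hg : HomOn 𝔸 𝔻 U g) :
    HomOn 𝔸 (𝔹.prod 𝔻) U (fun x => (f x, g x)) :=
  ⟨fun x hx y hy z hz => Prod.ext (hf.1 x hx y hy z hz) (hg.1 x hx y hy z hz),
   fun x hx y hy z hz u hu => Prod.ext (hf.2 x hx y hy z hz u hu) (hg.2 x hx y hy z hz u hu)⟩
theorem HomOn.ofPi {ι : Type} {F : ι → Type} {𝔸 : Alg A} (𝔽 : ∀ i, Alg (F i)) {U : Set A}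
    {f : ∀ i, A → F i} (hf : ∀ i, HomOn 𝔸 (𝔽 i) U (f i)) :
    HomOn 𝔸 (Alg.pi 𝔽) U (fun x i => f i x) :=
  ⟨fun x hx y hy z hz => funext fun i => (hf i).1 x hx y hy z hz,
   fun x hx y hy z hz u hu => funext fun i => (hf i).2 x hx y hy z hz u hu⟩

/-! ### subuniverses -/

theorem Sub.univ (𝔸 : Alg A) : Sub 𝔸 Set.univ :=
  ⟨fun _ _ _ _ _ _ => trivial, fun _ _ _ _ _ _ _ _ => trivial⟩
theorem Sub.empty (𝔸 : Alg A) : Sub 𝔸 ∅ :=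
  ⟨fun _ h => h.elim, fun _ h => h.elim⟩
theorem Sub.singleton {𝔸 : Alg A} (h : IsBW 𝔸) (a : A) : Sub 𝔸 {a} :=
  ⟨fun x hx y hy z hz => by
      rw [Set.mem_singleton_iff] at *; subst hx hy hz; exact h.vi _,
   fun x hx y hy z hz u hu => by
      rw [Set.mem_singleton_iff] at *; subst hx hy hz hu; exact h.wi _⟩
theorem Sub.inter {𝔸 : Alg A} {U V : Set A} (hU : Sub 𝔸 U) (hV : Sub 𝔸 V) :
    Sub 𝔸 (U ∩ V) :=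
  ⟨fun x hx y hy z hz => ⟨hU.1 x hx.1 y hy.1 z hz.1, hV.1 x hx.2 y hy.2 z hz.2⟩,
   fun x hx y hy z hz u hu =>
    ⟨hU.2 x hx.1 y hy.1 z hz.1 u hu.1, hV.2 x hx.2 y hy.2 z hz.2 u hu.2⟩⟩
theorem Sub.sInter {𝔸 : Alg A} {𝒰 : Set (Set A)} (h : ∀ U ∈ 𝒰, Sub 𝔸 U) : Sub 𝔸 (⋂₀ 𝒰) :=
  ⟨fun x hx y hy z hz U hU => (h U hU).1 x (hx U hU) y (hy U hU) z (hz U hU),
   fun x hx y hy z hz u hu U hU =>
    (h U hU).2 x (hx U hU) y (hy U hU) z (hz U hU) u (hu U hU)⟩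
theorem Sub.iInter {𝔸 : Alg A} {κ : Type} {U : κ → Set A} (h : ∀ k, Sub 𝔸 (U k)) :
    Sub 𝔸 (⋂ k, U k) := by
  constructor
  · intro x hx y hy z hz
    simp only [Set.mem_iInter] at *
    exact fun k => (h k).1 x (hx k) y (hy k) z (hz k)
  · intro x hx y hy z hz u hu
    simp only [Set.mem_iInter] at *
    exact fun k => (h k).2 x (hx k) y (hy k) z (hz k) u (hu k)
/-- preimage, inside `U`, of a subuniverse under a homomorphism on `U` -/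
theorem Sub.preim {𝔸 : Alg A} {𝔹 : Alg B} {U : Set A} {V : Set B} {f : A → B}
    (hU : Sub 𝔸 U) (hf : HomOn 𝔸 𝔹 U f) (hV : Sub 𝔹 V) : Sub 𝔸 {x ∈ U | f x ∈ V} :=
  ⟨fun x hx y hy z hz => ⟨hU.1 x hx.1 y hy.1 z hz.1, by
      rw [hf.1 x hx.1 y hy.1 z hz.1]; exact hV.1 _ hx.2 _ hy.2 _ hz.2⟩,
   fun x hx y hy z hz u hu => ⟨hU.2 x hx.1 y hy.1 z hz.1 u hu.1, by
      rw [hf.2 x hx.1 y hy.1 z hz.1 u hu.1]; exact hV.2 _ hx.2 _ hy.2 _ hz.2 _ hu.2⟩⟩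
theorem Sub.image {𝔸 : Alg A} {𝔹 : Alg B} {U : Set A} {f : A → B}
    (hU : Sub 𝔸 U) (hf : HomOn 𝔸 𝔹 U f) : Sub 𝔹 (f '' U) := by
  constructor
  · rintro _ ⟨x, hx, rfl⟩ _ ⟨y, hy, rfl⟩ _ ⟨z, hz, rfl⟩
    exact ⟨_, hU.1 x hx y hy z hz, hf.1 x hx y hy z hz⟩
  · rintro _ ⟨x, hx, rfl⟩ _ ⟨y, hy, rfl⟩ _ ⟨z, hz, rfl⟩ _ ⟨u, hu, rfl⟩
    exact ⟨_, hU.2 x hx y hy z hz u hu, hf.2 x hx y hy z hz u hu⟩
theorem Sub.setprod {𝔸 : Alg A} {𝔹 : Alg B} {U : Set A} {V : Set B} (hU : Sub 𝔸 U)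
    (hV : Sub 𝔹 V) : Sub (𝔸.prod 𝔹) (U ×ˢ V) :=
  ⟨fun x hx y hy z hz => ⟨hU.1 _ hx.1 _ hy.1 _ hz.1, hV.1 _ hx.2 _ hy.2 _ hz.2⟩,
   fun x hx y hy z hz u hu =>
    ⟨hU.2 _ hx.1 _ hy.1 _ hz.1 _ hu.1, hV.2 _ hx.2 _ hy.2 _ hz.2 _ hu.2⟩⟩
theorem Sub.setpi {ι : Type} {F : ι → Type} {𝔽 : ∀ i, Alg (F i)} {U : ∀ i, Set (F i)}
    (h : ∀ i, Sub (𝔽 i) (U i)) : Sub (Alg.pi 𝔽) {x | ∀ i, x i ∈ U i} :=
  ⟨fun x hx y hy z hz i => (h i).1 _ (hx i) _ (hy i) _ (hz i),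
   fun x hx y hy z hz u hu i => (h i).2 _ (hx i) _ (hy i) _ (hz i) _ (hu i)⟩

theorem dom_eq (T : Set (A × B)) : dom T = Prod.fst '' T := by
  ext a; simp [dom]
theorem cod_eq (T : Set (A × B)) : cod T = Prod.snd '' T := by
  ext a; simp [cod]
theorem Sub.dom {𝔸 : Alg A} {𝔹 : Alg B} {T : Set (A × B)} (h : Sub (𝔸.prod 𝔹) T) :
    Sub 𝔸 (dom T) := by
  rw [dom_eq]; exact h.image (HomOn.fst _ _ _)
theorem Sub.cod {𝔸 : Alg A} {𝔹 : Alg B} {T : Set (A × B)} (h : Sub (𝔸.prod 𝔹) T) :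
    Sub 𝔹 (cod T) := by
  rw [cod_eq]; exact h.image (HomOn.snd _ _ _)
theorem Sub.inv {𝔸 : Alg A} {𝔹 : Alg B} {T : Set (A × B)} (h : Sub (𝔸.prod 𝔹) T) :
    Sub (𝔹.prod 𝔸) (inv T) :=
  ⟨fun x hx y hy z hz => h.1 _ hx _ hy _ hz,
   fun x hx y hy z hz u hu => h.2 _ hx _ hy _ hz _ hu⟩
theorem Sub.img {𝔸 : Alg A} {𝔹 : Alg B} {T : Set (A × B)} (h : Sub (𝔸.prod 𝔹) T) {N : Set A}
    (hN : Sub 𝔸 N) : Sub 𝔹 (img T N) := by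
  constructor
  · rintro x ⟨x', hx', hx⟩ y ⟨y', hy', hy⟩ z ⟨z', hz', hz⟩
    exact ⟨_, hN.1 _ hx' _ hy' _ hz', h.1 _ hx _ hy _ hz⟩
  · rintro x ⟨x', hx', hx⟩ y ⟨y', hy', hy⟩ z ⟨z', hz', hz⟩ u ⟨u', hu', hu⟩
    exact ⟨_, hN.2 _ hx' _ hy' _ hz' _ hu', h.2 _ hx _ hy _ hz _ hu⟩
/-- composition of relations -/
def rcomp (S : Set (A × B)) (T : Set (B × C)) : Set (A × C) :=
  {p | ∃ b, (p.1, b) ∈ S ∧ (b, p.2) ∈ T}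
theorem Sub.rcomp {𝔸 : Alg A} {𝔹 : Alg B} {𝔻 : Alg C} {S : Set (A × B)} {T : Set (B × C)}
    (hS : Sub (𝔸.prod 𝔹) S) (hT : Sub (𝔹.prod 𝔻) T) : Sub (𝔸.prod 𝔻) (rcomp S T) := by
  constructor
  · rintro x ⟨x', hx', hx⟩ y ⟨y', hy', hy⟩ z ⟨z', hz', hz⟩
    exact ⟨_, hS.1 _ hx' _ hy' _ hz', hT.1 _ hx _ hy _ hz⟩
  · rintro x ⟨x', hx', hx⟩ y ⟨y', hy', hy⟩ z ⟨z', hz', hz⟩ u ⟨u', hu', hu⟩
    exact ⟨_, hS.2 _ hx' _ hy' _ hz' _ hu', hT.2 _ hx _ hy _ hz _ hu⟩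
theorem Sub.diag {𝔸 : Alg A} {U : Set A} (hU : Sub 𝔸 U) :
    Sub (𝔸.prod 𝔸) {p | p.1 ∈ U ∧ p.1 = p.2} :=
  ⟨fun x hx y hy z hz => ⟨hU.1 _ hx.1 _ hy.1 _ hz.1, by
      show 𝔸.v x.1 y.1 z.1 = 𝔸.v x.2 y.2 z.2
      rw [hx.2, hy.2, hz.2]⟩,
   fun x hx y hy z hz u hu => ⟨hU.2 _ hx.1 _ hy.1 _ hz.1 _ hu.1, by
      show 𝔸.w x.1 y.1 z.1 u.1 = 𝔸.w x.2 y.2 z.2 u.2
      rw [hx.2, hy.2, hz.2, hu.2]⟩⟩

/-! ### generated subuniverses -/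

theorem Sg_sub (𝔸 : Alg A) (S : Set A) : Sub 𝔸 (Sg 𝔸 S) := Sub.sInter fun _ h => h.1
theorem subset_Sg (𝔸 : Alg A) (S : Set A) : S ⊆ Sg 𝔸 S := fun _ hx _ hU => hU.2 hx
theorem Sg_min {𝔸 : Alg A} {S U : Set A} (hU : Sub 𝔸 U) (h : S ⊆ U) : Sg 𝔸 S ⊆ U :=
  fun _ hx => hx U ⟨hU, h⟩
theorem Sg_mono {𝔸 : Alg A} {S S' : Set A} (h : S ⊆ S') : Sg 𝔸 S ⊆ Sg 𝔸 S' :=
  Sg_min (Sg_sub 𝔸 S') (h.trans (subset_Sg 𝔸 S'))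
/-- elements of the subuniverse generated by a finite family are term values -/
theorem mem_Sg_range {𝔸 : Alg A} {n : ℕ} (x : Fin n → A) (a : A) :
    a ∈ Sg 𝔸 (Set.range x) ↔ ∃ t : Tm n, t.eval 𝔸 x = a := by
  constructor
  · intro h
    refine h {a | ∃ t : Tm n, t.eval 𝔸 x = a} ⟨⟨?_, ?_⟩, ?_⟩
    · rintro _ ⟨s, rfl⟩ _ ⟨t, rfl⟩ _ ⟨u, rfl⟩
      exact ⟨Tm.v s t u, rfl⟩
    · rintro _ ⟨s, rfl⟩ _ ⟨t, rfl⟩ _ ⟨u, rfl⟩ _ ⟨r, rfl⟩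
      exact ⟨Tm.w s t u r, rfl⟩
    · rintro _ ⟨i, rfl⟩
      exact ⟨Tm.var i, rfl⟩
  · rintro ⟨t, rfl⟩
    exact (Sg_sub 𝔸 _).eval t fun i => subset_Sg _ _ ⟨i, rfl⟩
theorem mem_Sg_pair {𝔸 : Alg A} (x y a : A) :
    a ∈ Sg 𝔸 {x, y} ↔ ∃ t : Tm 2, t2 𝔸 t x y = a := by
  have : ({x, y} : Set A) = Set.range ![x, y] := by
    ext b; simp [Fin.exists_fin_two, eq_comm, or_comm]
  rw [this, mem_Sg_range]; rfl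
theorem mem_Sg_triple {𝔸 : Alg A} (x y z a : A) :
    a ∈ Sg 𝔸 {x, y, z} ↔ ∃ t : Tm 3, t3 𝔸 t x y z = a := by
  have : ({x, y, z} : Set A) = Set.range ![x, y, z] := by
    ext b
    simp only [Set.mem_insert_iff, Set.mem_singleton_iff, Set.mem_range]
    constructor
    · rintro (rfl | rfl | rfl)
      exacts [⟨0, rfl⟩, ⟨1, rfl⟩, ⟨2, rfl⟩]
    · rintro ⟨i, rfl⟩
      fin_cases i <;> simp
  rw [this, mem_Sg_range]; rfl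

/-! ### bounded width and identities in derived algebras -/

theorem IsBW.prod {𝔸 : Alg A} {𝔹 : Alg B} (h : IsBW 𝔸) (h' : IsBW 𝔹) : IsBW (𝔸.prod 𝔹) where
  vi a := Prod.ext (h.vi _) (h'.vi _)
  wi a := Prod.ext (h.wi _) (h'.wi _)
  v0 x y := Prod.ext (h.v0 _ _) (h'.v0 _ _)
  v1 x y := Prod.ext (h.v1 _ _) (h'.v1 _ _)
  w0 x y := Prod.ext (h.w0 _ _) (h'.w0 _ _)
  w1 x y := Prod.ext (h.w1 _ _) (h'.w1 _ _)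
  w2 x y := Prod.ext (h.w2 _ _) (h'.w2 _ _)
  w3 x y := Prod.ext (h.w3 _ _) (h'.w3 _ _)

theorem IsBW.pi {ι : Type} {F : ι → Type} {𝔽 : ∀ i, Alg (F i)} (h : ∀ i, IsBW (𝔽 i)) :
    IsBW (Alg.pi 𝔽) where
  vi a := funext fun i => (h i).vi _
  wi a := funext fun i => (h i).wi _
  v0 x y := funext fun i => (h i).v0 _ _
  v1 x y := funext fun i => (h i).v1 _ _
  w0 x y := funext fun i => (h i).w0 _ _
  w1 x y := funext fun i => (h i).w1 _ _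
  w2 x y := funext fun i => (h i).w2 _ _
  w3 x y := funext fun i => (h i).w3 _ _

theorem Sat.refl (𝔸 : Alg A) : Sat 𝔸 𝔸 := fun _ _ _ h => h
theorem Sat.trans {𝔸 : Alg A} {𝔹 : Alg B} {𝔻 : Alg C} (h : Sat 𝔸 𝔹) (h' : Sat 𝔹 𝔻) :
    Sat 𝔸 𝔻 := fun n s t e => h' n s t (h n s t e)
theorem Sat.prod {D : Type} {𝔸 : Alg A} {𝔹 : Alg B} {𝔻 : Alg D} (h : Sat 𝔸 𝔹) (h' : Sat 𝔸 𝔻) :
    Sat 𝔸 (𝔹.prod 𝔻) := by
  intro n s t e y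
  rw [eval_prod, eval_prod, h n s t e, h' n s t e]
theorem Sat.pi {ι : Type} {F : ι → Type} {𝔸 : Alg A} {𝔽 : ∀ i, Alg (F i)}
    (h : ∀ i, Sat 𝔸 (𝔽 i)) : Sat 𝔸 (Alg.pi 𝔽) := by
  intro n s t e y
  funext i
  rw [eval_pi, eval_pi, h i n s t e]
theorem Sat.image {𝔸 : Alg A} {𝔹 : Alg B} {𝔻 : Alg C} (h : Sat 𝔸 𝔹) {U : Set B}
    (hU : Sub 𝔹 U) {f : B → C} (hf : HomOn 𝔹 𝔻 U f) (hs : ∀ c, ∃ b ∈ U, f b = c) :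
    Sat 𝔸 𝔻 := by
  intro n s t e y
  choose b hb hb' using fun i => hs (y i)
  have hy : y = fun i => f (b i) := funext fun i => (hb' i).symm
  rw [hy, ← hf.eval hU s hb, ← hf.eval hU t hb, h n s t e]

theorem Sat.isBW {𝔸 : Alg A} {𝔹 : Alg B} (h : Sat 𝔸 𝔹) (hA : IsBW 𝔸) : IsBW 𝔹 := by
  have key : ∀ s t : Tm 2, (∀ x y : A, t2 𝔸 s x y = t2 𝔸 t x y) →
      ∀ x y : B, t2 𝔹 s x y = t2 𝔹 t x y := by
    intro s t e x y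
    refine h 2 s t (fun x => ?_) _
    rw [eval_fin2, eval_fin2, e]
  let X : Tm 2 := Tm.var 0
  let Y : Tm 2 := Tm.var 1
  exact {
    vi := fun a => key (Tm.v X X X) X (fun x _ => hA.vi x) a a
    wi := fun a => key (Tm.w X X X X) X (fun x _ => hA.wi x) a a
    v0 := fun x y => key (Tm.v Y X X) (Tm.v X X Y) (fun x y => hA.v0 x y) x y
    v1 := fun x y => key (Tm.v X Y X) (Tm.v X X Y) (fun x y => hA.v1 x y) x y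
    w0 := fun x y => key (Tm.w Y X X X) (Tm.v X X Y) (fun x y => hA.w0 x y) x y
    w1 := fun x y => key (Tm.w X Y X X) (Tm.v X X Y) (fun x y => hA.w1 x y) x y
    w2 := fun x y => key (Tm.w X X Y X) (Tm.v X X Y) (fun x y => hA.w2 x y) x y
    w3 := fun x y => key (Tm.w X X X Y) (Tm.v X X Y) (fun x y => hA.w3 x y) x y }

/-! ### absorption -/

theorem Abs2.abs3 {𝔸 : Alg A} {N U : Set A} (hU : Sub 𝔸 U) (h : Abs2 𝔸 N U) :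
    Abs3 𝔸 N U := by
  obtain ⟨f, hN, hNU, h1, h2⟩ := h
  let g : Tm 3 := f.subst ![f.subst ![Tm.var 0, Tm.var 1], Tm.var 2]
  have hg : ∀ x y z, t3 𝔸 g x y z = t2 𝔸 f (t2 𝔸 f x y) z := by
    intro x y z
    simp only [t3, g, eval_subst]
    rw [eval_fin2]
    congr 1
    show Tm.eval 𝔸 (f.subst _) _ = _
    rw [eval_subst, eval_fin2]; rfl
  refine ⟨g, hN, hNU, ?_, ?_, ?_⟩
  · intro x hx y hy z hz
    rw [hg]; exact h1 _ (hU.t2 f hx (hNU hy)) _ hz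
  · intro x hx y hy z hz
    rw [hg]; exact h1 _ (hU.t2 f (hNU hx) hy) _ hz
  · intro x hx y hy z hz
    rw [hg]; exact h2 _ (hN.t2 f hx hy) _ hz

theorem AbsT.sub {𝔸 : Alg A} {t : Tm 3} {N U : Set A} (h : AbsT 𝔸 t N U) : Sub 𝔸 N := h.1
theorem AbsT.subset {𝔸 : Alg A} {t : Tm 3} {N U : Set A} (h : AbsT 𝔸 t N U) : N ⊆ U := h.2.1
theorem Abs3.sub {𝔸 : Alg A} {N U : Set A} (h : Abs3 𝔸 N U) : Sub 𝔸 N := h.choose_spec.1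
theorem Abs3.subset {𝔸 : Alg A} {N U : Set A} (h : Abs3 𝔸 N U) : N ⊆ U := h.choose_spec.2.1

theorem AbsT.refl {𝔸 : Alg A} {t : Tm 3} {U : Set A} (h : Sub 𝔸 U) : AbsT 𝔸 t U U :=
  ⟨h, subset_rfl, fun _ hx _ hy _ hz => h.t3 t hx hy hz, fun _ hx _ hy _ hz => h.t3 t hx hy hz,
    fun _ hx _ hy _ hz => h.t3 t hx hy hz⟩

theorem AbsT.inter {𝔸 : Alg A} {t : Tm 3} {N M U : Set A} (h : AbsT 𝔸 t N U)
    (h' : AbsT 𝔸 t M U) : AbsT 𝔸 t (N ∩ M) U :=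
  ⟨h.1.inter h'.1, fun _ hx => h.2.1 hx.1,
    fun x hx y hy z hz => ⟨h.2.2.1 x hx y hy.1 z hz.1, h'.2.2.1 x hx y hy.2 z hz.2⟩,
    fun x hx y hy z hz => ⟨h.2.2.2.1 x hx.1 y hy z hz.1, h'.2.2.2.1 x hx.2 y hy z hz.2⟩,
    fun x hx y hy z hz => ⟨h.2.2.2.2 x hx.1 y hy.1 z hz, h'.2.2.2.2 x hx.2 y hy.2 z hz⟩⟩

/-- restriction to a smaller subuniverse -/
theorem AbsT.restrict {𝔸 : Alg A} {t : Tm 3} {N U V : Set A} (h : AbsT 𝔸 t N U)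
    (hV : Sub 𝔸 V) (hVU : V ⊆ U) : AbsT 𝔸 t (N ∩ V) V :=
  ⟨h.1.inter hV, fun _ hx => hx.2,
    fun x hx y hy z hz => ⟨h.2.2.1 x (hVU hx) y hy.1 z hz.1, hV.t3 t hx hy.2 hz.2⟩,
    fun x hx y hy z hz => ⟨h.2.2.2.1 x hx.1 y (hVU hy) z hz.1, hV.t3 t hx.2 hy hz.2⟩,
    fun x hx y hy z hz => ⟨h.2.2.2.2 x hx.1 y hy.1 z (hVU hz), hV.t3 t hx.2 hy.2 hz⟩⟩

theorem Abs3.restrict {𝔸 : Alg A} {N U V : Set A} (h : Abs3 𝔸 N U)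
    (hV : Sub 𝔸 V) (hVU : V ⊆ U) : Abs3 𝔸 (N ∩ V) V :=
  ⟨h.choose, h.choose_spec.restrict hV hVU⟩

/-- preimage of an absorbing set under a homomorphism -/
theorem AbsT.preim {𝔸 : Alg A} {𝔹 : Alg B} {t : Tm 3} {U : Set A} {M V : Set B} {f : A → B}
    (hU : Sub 𝔸 U) (hf : HomOn 𝔸 𝔹 U f) (hfU : ∀ x ∈ U, f x ∈ V) (h : AbsT 𝔹 t M V) :
    AbsT 𝔸 t {x ∈ U | f x ∈ M} U :=
  ⟨hU.preim hf h.1, fun _ hx => hx.1,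
    fun x hx y hy z hz => ⟨hU.t3 t hx hy.1 hz.1, by
      rw [hf.t3 hU t hx hy.1 hz.1]; exact h.2.2.1 _ (hfU x hx) _ hy.2 _ hz.2⟩,
    fun x hx y hy z hz => ⟨hU.t3 t hx.1 hy hz.1, by
      rw [hf.t3 hU t hx.1 hy hz.1]; exact h.2.2.2.1 _ hx.2 _ (hfU y hy) _ hz.2⟩,
    fun x hx y hy z hz => ⟨hU.t3 t hx.1 hy.1 hz, by
      rw [hf.t3 hU t hx.1 hy.1 hz]; exact h.2.2.2.2 _ hx.2 _ hy.2 _ (hfU z hz)⟩⟩

theorem Abs3.preim {𝔸 : Alg A} {𝔹 : Alg B} {U : Set A} {M V : Set B} {f : A → B}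
    (hU : Sub 𝔸 U) (hf : HomOn 𝔸 𝔹 U f) (hfU : ∀ x ∈ U, f x ∈ V) (h : Abs3 𝔹 M V) :
    Abs3 𝔸 {x ∈ U | f x ∈ M} U :=
  ⟨h.choose, h.choose_spec.preim hU hf hfU⟩

/-- image of an absorbing set under a homomorphism -/
theorem AbsT.image {𝔸 : Alg A} {𝔹 : Alg B} {t : Tm 3} {N U : Set A} {f : A → B}
    (hU : Sub 𝔸 U) (hf : HomOn 𝔸 𝔹 U f) (h : AbsT 𝔸 t N U) :
    AbsT 𝔹 t (f '' N) (f '' U) := by
  refine ⟨h.1.image (hf.mono h.2.1), Set.image_mono h.2.1, ?_, ?_, ?_⟩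
  · rintro _ ⟨x, hx, rfl⟩ _ ⟨y, hy, rfl⟩ _ ⟨z, hz, rfl⟩
    exact ⟨_, h.2.2.1 x hx y hy z hz, hf.t3 hU t hx (h.2.1 hy) (h.2.1 hz)⟩
  · rintro _ ⟨x, hx, rfl⟩ _ ⟨y, hy, rfl⟩ _ ⟨z, hz, rfl⟩
    exact ⟨_, h.2.2.2.1 x hx y hy z hz, hf.t3 hU t (h.2.1 hx) hy (h.2.1 hz)⟩
  · rintro _ ⟨x, hx, rfl⟩ _ ⟨y, hy, rfl⟩ _ ⟨z, hz, rfl⟩
    exact ⟨_, h.2.2.2.2 x hx y hy z hz, hf.t3 hU t (h.2.1 hx) (h.2.1 hy) hz⟩

theorem Abs3.image {𝔸 : Alg A} {𝔹 : Alg B} {N U : Set A} {f : A → B}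
    (hU : Sub 𝔸 U) (hf : HomOn 𝔸 𝔹 U f) (h : Abs3 𝔸 N U) :
    Abs3 𝔹 (f '' N) (f '' U) :=
  ⟨h.choose, h.choose_spec.image hU hf⟩

/-- image of an absorbing set under a relation -/
theorem AbsT.img {𝔸 : Alg A} {𝔹 : Alg B} {t : Tm 3} {N U : Set A} {T : Set (A × B)}
    (hT : Sub (𝔸.prod 𝔹) T) (h : AbsT 𝔸 t N U) :
    AbsT 𝔹 t (img T N) (img T U) := by
  have key : ∀ x y z : A × B, x ∈ T → y ∈ T → z ∈ T →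
      (t3 𝔸 t x.1 y.1 z.1, t3 𝔹 t x.2 y.2 z.2) ∈ T := by
    intro x y z hx hy hz
    rw [← t3_prod]; exact hT.t3 t hx hy hz
  refine ⟨hT.img h.1, fun b ⟨a, ha, hab⟩ => ⟨a, h.2.1 ha, hab⟩, ?_, ?_, ?_⟩
  · rintro x ⟨x', hx', hx⟩ y ⟨y', hy', hy⟩ z ⟨z', hz', hz⟩
    exact ⟨_, h.2.2.1 _ hx' _ hy' _ hz', key _ _ _ hx hy hz⟩
  · rintro x ⟨x', hx', hx⟩ y ⟨y', hy', hy⟩ z ⟨z', hz', hz⟩
    exact ⟨_, h.2.2.2.1 _ hx' _ hy' _ hz', key _ _ _ hx hy hz⟩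
  · rintro x ⟨x', hx', hx⟩ y ⟨y', hy', hy⟩ z ⟨z', hz', hz⟩
    exact ⟨_, h.2.2.2.2 _ hx' _ hy' _ hz', key _ _ _ hx hy hz⟩

theorem Abs3.img {𝔸 : Alg A} {𝔹 : Alg B} {N U : Set A} {T : Set (A × B)}
    (hT : Sub (𝔸.prod 𝔹) T) (h : Abs3 𝔸 N U) : Abs3 𝔹 (img T N) (img T U) :=
  ⟨h.choose, h.choose_spec.img hT⟩

/-- Helly property for three sets -/
theorem AbsT.helly3 {𝔸 : Alg A} {t : Tm 3} {N₁ N₂ N₃ U : Set A} (h1 : AbsT 𝔸 t N₁ U)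
    (h2 : AbsT 𝔸 t N₂ U) (h3 : AbsT 𝔸 t N₃ U) (h12 : (N₁ ∩ N₂).Nonempty)
    (h13 : (N₁ ∩ N₃).Nonempty) (h23 : (N₂ ∩ N₃).Nonempty) : (N₁ ∩ N₂ ∩ N₃).Nonempty := by
  obtain ⟨x, hx1, hx2⟩ := h12
  obtain ⟨y, hy1, hy3⟩ := h13
  obtain ⟨z, hz2, hz3⟩ := h23
  refine ⟨t3 𝔸 t x y z, ⟨?_, ?_⟩, ?_⟩
  · exact h1.2.2.2.2 _ hx1 _ hy1 _ (h2.2.1 hz2)
  · exact h2.2.2.2.1 _ hx2 _ (h1.2.1 hy1) _ hz2
  · exact h3.2.2.1 _ (h1.2.1 hx1) _ hy3 _ hz3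

/-- Helly property -/
theorem AbsT.helly {𝔸 : Alg A} {t : Tm 3} {κ : Type} (K : Finset κ) {N : κ → Set A} {U : Set A}
    (hU : Sub 𝔸 U) (hne : U.Nonempty)
    (h : ∀ k ∈ K, AbsT 𝔸 t (N k) U) (h2 : ∀ k ∈ K, ∀ l ∈ K, (N k ∩ N l).Nonempty) :
    ∃ x ∈ U, ∀ k ∈ K, x ∈ N k := by
  classical
  -- stronger: for all `k, l ∈ K` fixed extra sets
  suffices H : ∀ (K' : Finset κ) (M : Set A), AbsT 𝔸 t M U → M.Nonempty →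
      (∀ k ∈ K', AbsT 𝔸 t (N k) U) →
      (∀ k ∈ K', ∀ l ∈ K', (N k ∩ N l).Nonempty) → (∀ k ∈ K', (M ∩ N k).Nonempty) →
      ∃ x ∈ M, ∀ k ∈ K', x ∈ N k by
    obtain ⟨x, hx, hx'⟩ := H K U (AbsT.refl hU) hne h h2 (fun k hk => by
      obtain ⟨x, hx, _⟩ := h2 k hk k hk
      exact ⟨x, (h k hk).2.1 hx, hx⟩)
    exact ⟨x, hx, hx'⟩
  intro K'
  induction K' using Finset.induction_on with
  | empty => intro M hM hMne _ _ _; exact ⟨hMne.some, hMne.some_mem, by simp⟩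
  | insert a K' ha ih =>
    intro M hM hMne hab h2 hMk
    obtain ⟨x, hx, hx'⟩ := ih (M ∩ N a) (hM.inter (hab a (Finset.mem_insert_self _ _)))
      (hMk a (Finset.mem_insert_self _ _))
      (fun k hk => hab k (Finset.mem_insert_of_mem hk))
      (fun k hk l hl => h2 k (Finset.mem_insert_of_mem hk) l (Finset.mem_insert_of_mem hl))
      (fun k hk => AbsT.helly3 hM (hab a (Finset.mem_insert_self _ _))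
        (hab k (Finset.mem_insert_of_mem hk)) (hMk a (Finset.mem_insert_self _ _))
        (hMk k (Finset.mem_insert_of_mem hk))
        (h2 a (Finset.mem_insert_self _ _) k (Finset.mem_insert_of_mem hk)))
    refine ⟨x, hx.1, fun k hk => ?_⟩
    rcases Finset.mem_insert.1 hk with rfl | hk
    · exact hx.2
    · exact hx' k hk

theorem TF.bf {𝔸 : Alg A} {U : Set A} (hU : Sub 𝔸 U) (h : TF 𝔸 U) : BF 𝔸 U :=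
  fun N hN hab => h N hN (hab.abs3 hU)

theorem TF.image {𝔸 : Alg A} {𝔹 : Alg B} {U : Set A} {f : A → B}
    (hU : Sub 𝔸 U) (hf : HomOn 𝔸 𝔹 U f) (h : TF 𝔸 U) : TF 𝔹 (f '' U) := by
  intro N hN hab
  have h1 := hab.preim hU hf (fun x hx => Set.mem_image_of_mem f hx)
  have h2 := h _ (by
    obtain ⟨b, hb⟩ := hN
    obtain ⟨a, ha, rfl⟩ := hab.subset hb
    exact ⟨a, ha, hb⟩) h1
  refine Set.Subset.antisymm hab.subset ?_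
  rintro _ ⟨x, hx, rfl⟩
  rw [← h2] at hx
  exact hx.2

/-! ### dom / cod / inv helpers -/

@[simp] theorem inv_inv (T : Set (A × B)) : inv (inv T) = T := rfl
@[simp] theorem dom_inv (T : Set (A × B)) : dom (inv T) = cod T := rfl
@[simp] theorem cod_inv (T : Set (A × B)) : cod (inv T) = dom T := rfl
@[simp] theorem mem_inv (T : Set (A × B)) (a : A) (b : B) : (b, a) ∈ inv T ↔ (a, b) ∈ T :=
  Iff.rfl

end Pool.Agent.BWC
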