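import Mathlib

set_option autoImplicit false
set_option linter.all false

/-! A hypergraph with blocks of sizes 3 and 4 without triangles, and its Ramsey property. -/

namespace Pool.Agent.BWC

/-- Blocks: `(X, b)`, `X` a 13-element set of natural numbers, `b : Bool`. -/
abbrev Blk : Type := {X : Finset ℕ // X.card = 13} × Bool

/-- size of a block: 3 for `false`, 4 for `true` -/
def bsz (τ : Blk) : ℕ := cond τ.2 4 3

/-- rank (0-based) of the removed element: `0, 2, 4` for 3-blocks, `6, 8, 10, 12` for 4-blocks -/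
def brk (τ : Blk) (i : Fin (bsz τ)) : Fin 13 :=
  ⟨cond τ.2 6 0 + 2 * i.1, by
    obtain ⟨X, b⟩ := τ
    have h := i.2
    cases b
    · have h' : i.1 < 3 := h
      show 0 + 2 * i.1 < 13
      omega
    · have h' : i.1 < 4 := h
      show 6 + 2 * i.1 < 13
      omega⟩

/-- vertices of the block: `X` without its element of rank `brk τ i`; these are 12-element sets -/
noncomputable def vtx (τ : Blk) (i : Fin (bsz τ)) : Finset ℕ :=
  τ.1.1.erase (τ.1.1.orderEmbOfFin τ.1.2 (brk τ i))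

/-- adjacency -/
def Adj (u w : Finset ℕ) : Prop := ∃ τ i j, i ≠ j ∧ vtx τ i = u ∧ vtx τ j = w

/-- compatible vertices: equal or not adjacent -/
def Cp (u w : Finset ℕ) : Prop := u = w ∨ ¬ Adj u w

theorem Adj.symm {u w : Finset ℕ} (h : Adj u w) : Adj w u := by
  obtain ⟨τ, i, j, hij, h1, h2⟩ := h
  exact ⟨τ, j, i, hij.symm, h2, h1⟩

theorem Cp.symm {u w : Finset ℕ} (h : Cp u w) : Cp w u := by
  rcases h with h | h
  · exact Or.inl h.symm
  · exact Or.inr fun h' => h h'.symm

theorem Cp.refl (u : Finset ℕ) : Cp u u := Or.inl rfl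

/-! auxiliary facts on ranks -/

/-- the rank of `x` in `X` -/
def hyRk (X : Finset ℕ) (x : ℕ) : ℕ := (X.filter (· < x)).card

theorem hyRk_emb (X : Finset ℕ) {n : ℕ} (h : X.card = n) (k : Fin n) :
    hyRk X (X.orderEmbOfFin h k) = k.1 := by
  unfold hyRk
  have h1 : X.filter (· < X.orderEmbOfFin h k) =
      (Finset.Iio k).map (X.orderEmbOfFin h).toEmbedding := by
    ext z
    simp only [Finset.mem_filter, Finset.mem_map, Finset.mem_Iio]
    constructor
    · rintro ⟨hz, hlt⟩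
      have hz' : z ∈ Set.range (X.orderEmbOfFin h) := by
        rw [Finset.range_orderEmbOfFin]; exact hz
      obtain ⟨l, rfl⟩ := hz'
      exact ⟨l, (X.orderEmbOfFin h).lt_iff_lt.1 hlt, rfl⟩
    · rintro ⟨l, hl, rfl⟩
      exact ⟨Finset.orderEmbOfFin_mem X h l, (X.orderEmbOfFin h).lt_iff_lt.2 hl⟩
  rw [h1, Finset.card_map, Fin.card_Iio]

/-- exchanging an element changes the ranks in a controlled way -/
theorem hyRk_exchange {X : Finset ℕ} {x e : ℕ} (hx : x ∈ X) (he : e ∉ X) (z : ℕ) :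
    hyRk (insert e (X.erase x)) z + (if x < z then 1 else 0) =
      hyRk X z + (if e < z then 1 else 0) := by
  unfold hyRk
  have he' : e ∉ X.erase x := fun h => he (Finset.mem_of_mem_erase h)
  rw [Finset.filter_insert, Finset.filter_erase]
  have h2 : ((X.filter (· < z)).erase x).card + (if x < z then 1 else 0) =
      (X.filter (· < z)).card := by
    by_cases hxz : x < z
    · rw [if_pos hxz]
      exact Finset.card_erase_add_one (Finset.mem_filter.2 ⟨hx, hxz⟩)
    · rw [if_neg hxz, Finset.erase_eq_of_notMem]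
      · rfl
      · intro h; exact hxz (Finset.mem_filter.1 h).2
  by_cases hez : e < z
  · rw [if_pos hez, if_pos hez, Finset.card_insert_of_notMem]
    · omega
    · intro h
      exact he (Finset.mem_filter.1 (Finset.mem_of_mem_erase h)).1
  · rw [if_neg hez, if_neg hez]
    omega

/-- the removed element -/
noncomputable def hyX (τ : Blk) (i : Fin (bsz τ)) : ℕ := τ.1.1.orderEmbOfFin τ.1.2 (brk τ i)

theorem hyX_mem (τ : Blk) (i : Fin (bsz τ)) : hyX τ i ∈ τ.1.1 := Finset.orderEmbOfFin_mem _ _ _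

theorem vtx_eq (τ : Blk) (i : Fin (bsz τ)) : vtx τ i = τ.1.1.erase (hyX τ i) := rfl

theorem hyX_rk (τ : Blk) (i : Fin (bsz τ)) :
    hyRk τ.1.1 (hyX τ i) = cond τ.2 6 0 + 2 * i.1 := hyRk_emb _ _ _

theorem hyX_even (τ : Blk) (i : Fin (bsz τ)) : hyRk τ.1.1 (hyX τ i) % 2 = 0 := by
  rw [hyX_rk]
  cases τ.2
  · show (0 + 2 * i.1) % 2 = 0
    omega
  · show (6 + 2 * i.1) % 2 = 0
    omega

theorem brk_lt (τ : Blk) {i j : Fin (bsz τ)} (h : i < j) : brk τ i < brk τ j := by
  show cond τ.2 6 0 + 2 * i.1 < cond τ.2 6 0 + 2 * j.1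
  have : i.1 < j.1 := h
  omega

theorem hyX_lt (τ : Blk) {i j : Fin (bsz τ)} (h : i < j) : hyX τ i < hyX τ j :=
  (τ.1.1.orderEmbOfFin τ.1.2).lt_iff_lt.2 (brk_lt τ h)

theorem hyX_inj (τ : Blk) {i j : Fin (bsz τ)} (h : hyX τ i = hyX τ j) : i = j := by
  rcases lt_trichotomy i j with h1 | h1 | h1
  · exact absurd h (hyX_lt τ h1).ne
  · exact h1
  · exact absurd h (hyX_lt τ h1).ne'

/-- two blocks on the same set which have removed elements in common are equal -/
theorem hy_block_eq {τ σ : Blk} (h : σ.1.1 = τ.1.1) (i : Fin (bsz τ)) (j : Fin (bsz σ))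
    (hij : hyX σ j = hyX τ i) : σ = τ := by
  have h1 := hyX_rk σ j
  have h2 := hyX_rk τ i
  rw [hij, h, h2] at h1
  obtain ⟨⟨X, hX⟩, b⟩ := τ
  obtain ⟨⟨Y, hY⟩, c⟩ := σ
  have h' : Y = X := h
  subst h'
  have hb : b = c := by
    cases b <;> cases c
    · rfl
    · exfalso
      have h3 : 0 + 2 * i.1 = 6 + 2 * j.1 := h1
      have h4 : i.1 < 3 := i.2
      omega
    · exfalso
      have h3 : 6 + 2 * i.1 = 0 + 2 * j.1 := h1
      have h4 : j.1 < 3 := j.2
      omega
    · rfl
  subst hb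
  rfl

/-- consequences of the adjacency of `u` with a vertex of `τ`, `u` not a vertex of `τ` -/
theorem hy_adj {τ : Blk} {u : Finset ℕ} (hu : ∀ i, vtx τ i ≠ u) {i : Fin (bsz τ)}
    (hi : Adj u (vtx τ i)) :
    ∃ e a, e ∉ τ.1.1 ∧ a ∈ insert e (τ.1.1.erase (hyX τ i)) ∧ a ≠ e ∧
      u = (insert e (τ.1.1.erase (hyX τ i))).erase a ∧
      hyRk (insert e (τ.1.1.erase (hyX τ i))) e % 2 = 0 ∧
      hyRk (insert e (τ.1.1.erase (hyX τ i))) a % 2 = 0 := by
  obtain ⟨σ, k, l, hkl, h1, h2⟩ := hi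
  have hX : σ.1.1 = insert (hyX σ l) (τ.1.1.erase (hyX τ i)) := by
    rw [← vtx_eq τ i, ← h2, vtx_eq, Finset.insert_erase (hyX_mem σ l)]
  have hne : hyX σ k ≠ hyX σ l := fun h => hkl (hyX_inj σ h)
  have he : hyX σ l ∉ τ.1.1 := by
    intro hmem
    have h3 : hyX σ l ∉ τ.1.1.erase (hyX τ i) := by
      rw [← vtx_eq τ i, ← h2, vtx_eq]
      exact Finset.notMem_erase _ _
    have h4 : hyX σ l = hyX τ i := by
      by_contra hc
      exact h3 (Finset.mem_erase.2 ⟨hc, hmem⟩)
    have h5 : σ.1.1 = τ.1.1 := by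
      rw [hX, h4, Finset.insert_erase (hyX_mem τ i)]
    have h6 : σ = τ := hy_block_eq h5 i l h4
    subst h6
    exact hu k h1
  refine ⟨hyX σ l, hyX σ k, he, ?_, hne, ?_, ?_, ?_⟩
  · rw [← hX]; exact hyX_mem σ k
  · rw [← hX, ← h1, vtx_eq]
  · rw [← hX]; exact hyX_even σ l
  · rw [← hX]; exact hyX_even σ k

theorem vtx_injective (τ : Blk) : Function.Injective (vtx τ) := by
  intro i j h
  apply hyX_inj τ
  by_contra hc
  have h1 : hyX τ i ∈ vtx τ j := Finset.mem_erase.2 ⟨hc, hyX_mem τ i⟩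
  rw [← h] at h1
  exact Finset.notMem_erase _ _ h1

/-- inside a block distinct vertices are adjacent (and distinct) -/
theorem cp_block (τ : Blk) (i j : Fin (bsz τ)) : Cp (vtx τ i) (vtx τ j) ↔ i = j := by
  constructor
  · rintro (h | h)
    · exact vtx_injective τ h
    · by_contra hc
      exact h ⟨τ, i, j, hc, rfl, rfl⟩
  · rintro rfl
    exact Cp.refl _

/-- **No triangles.**  A set `u` which is not a vertex of the block `τ` is adjacent to at most one
vertex of `τ`.  Proof.  Let `τ = (X, b)`, `w₁ = X \ {x}`, `w₂ = X \ {y}`, `x < y` of even (0-based)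
ranks in `X`, `u` adjacent to both: there are 13-sets `X₁`, `X₂` such that `u, w₁` are obtained
from `X₁` by removing two elements of even rank in `X₁`, of the same group (`{0,2,4}` or
`{6,8,10,12}`); necessarily `X₁ = u ∪ w₁`; same for `X₂ = u ∪ w₂`.
If `u ⊆ X` then `X₁ = X` and `u`, `w₁` belong to a common block of `X`, which is `τ` (the groups
are disjoint), contradiction.  So there is `e ∈ u \ X`; `u \ w₁ = {e} = u \ w₂` has one element,
so `u \ {e} ⊆ w₁ ∩ w₂ = X \ {x,y}` and by cardinality `u = X \ {x,y} ∪ {e}`.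
`X₁ = X \ {x} ∪ {e}`, with removed elements `y` (giving `u`) and `e` (giving `w₁`);
`X₂ = X \ {y} ∪ {e}`, with removed elements `x` and `e`.
Ranks: with `c = #{z ∈ X | z < e}`: rank of `e` in `X₁` is `c - [x < e]`, in `X₂` it is
`c - [y < e]`; both even, so `[x < e] = [y < e]`.
Rank of `y` in `X₁` is `rank_X y - 1 + [e < y]`, even, so `e < y`; rank of `x` in `X₂` is
`rank_X x + [e < x]`, even, so not `e < x`, so `x < e < y`: contradiction. -/
theorem no_triangle (τ : Blk) (u : Finset ℕ) (hu : ∀ i, vtx τ i ≠ u) (i j : Fin (bsz τ))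
    (hi : Adj u (vtx τ i)) (hj : Adj u (vtx τ j)) : i = j := by
  by_contra hij
  wlog hlt : i < j generalizing i j
  · exact this j i hj hi (Ne.symm hij) (lt_of_le_of_ne (not_lt.1 hlt) (Ne.symm hij))
  obtain ⟨e, a, he, ha, hae, hua, r1, r2⟩ := hy_adj hu hi
  obtain ⟨f, b, hf, hb, hbf, hub, s1, s2⟩ := hy_adj hu hj
  have hxy := hyX_lt τ hlt
  have hxX := hyX_mem τ i
  have hyX' := hyX_mem τ j
  have hre := hyX_even τ i
  have hse := hyX_even τ j
  generalize hyX τ i = x at *
  generalize hyX τ j = y at *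
  generalize τ.1.1 = X at *
  -- `e = f`
  have heu : e ∈ u := by
    rw [hua]
    exact Finset.mem_erase.2 ⟨Ne.symm hae, Finset.mem_insert_self _ _⟩
  have hef : e = f := by
    rw [hub] at heu
    rcases Finset.mem_insert.1 (Finset.mem_of_mem_erase heu) with h | h
    · exact h
    · exact absurd (Finset.mem_of_mem_erase h) he
  subst hef
  have hex : e ≠ x := fun h => he (h ▸ hxX)
  have hey : e ≠ y := fun h => he (h ▸ hyX')
  -- `a = y`, `b = x`
  have hyu : y ∉ u := by
    rw [hub]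
    intro h
    rcases Finset.mem_insert.1 (Finset.mem_of_mem_erase h) with h | h
    · exact hey h.symm
    · exact Finset.notMem_erase _ _ h
  have hxu : x ∉ u := by
    rw [hua]
    intro h
    rcases Finset.mem_insert.1 (Finset.mem_of_mem_erase h) with h | h
    · exact hex h.symm
    · exact Finset.notMem_erase _ _ h
  have hay : a = y := by
    by_contra hc
    apply hyu
    rw [hua]
    exact Finset.mem_erase.2 ⟨Ne.symm hc, Finset.mem_insert_of_mem
      (Finset.mem_erase.2 ⟨hxy.ne', hyX'⟩)⟩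
  have hbx : b = x := by
    by_contra hc
    apply hxu
    rw [hub]
    exact Finset.mem_erase.2 ⟨Ne.symm hc, Finset.mem_insert_of_mem
      (Finset.mem_erase.2 ⟨hxy.ne, hxX⟩)⟩
  subst hay hbx
  have e1 := hyRk_exchange hxX he a
  have e2 := hyRk_exchange hyX' he b
  have e3 := hyRk_exchange hxX he e
  have e4 := hyRk_exchange hyX' he e
  rw [if_pos hxy] at e1
  rw [if_neg (not_lt.2 hxy.le)] at e2
  have h1 : e < a := by
    by_contra hc
    rw [if_neg hc] at e1
    omega
  have h2 : ¬ e < b := by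
    intro hc
    rw [if_pos hc] at e2
    omega
  have h3 : b < e := lt_of_le_of_ne (not_lt.1 h2) (Ne.symm hex)
  rw [if_pos h3] at e3
  rw [if_neg (not_lt.2 h1.le)] at e4
  omega

/-- For compatible `u, w` and any block `τ` there is a vertex of `τ` compatible with both.
If `u` is a vertex of `τ`, take it (and similarly for `w`); otherwise by `no_triangle` each of
`u`, `w` excludes at most one of the at least three vertices. -/
theorem cp_ext {u w : Finset ℕ} (h : Cp u w) (τ : Blk) :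
    ∃ k, Cp u (vtx τ k) ∧ Cp w (vtx τ k) := by
  by_cases h1 : ∃ k, vtx τ k = u
  · obtain ⟨k, rfl⟩ := h1
    exact ⟨k, Cp.refl _, h.symm⟩
  by_cases h2 : ∃ k, vtx τ k = w
  · obtain ⟨k, rfl⟩ := h2
    exact ⟨k, h, Cp.refl _⟩
  have h1' : ∀ k, vtx τ k ≠ u := fun k hk => h1 ⟨k, hk⟩
  have h2' : ∀ k, vtx τ k ≠ w := fun k hk => h2 ⟨k, hk⟩
  by_contra hc
  have key : ∀ k, Adj u (vtx τ k) ∨ Adj w (vtx τ k) := by
    intro k
    by_contra hk
    rw [not_or] at hk
    exact hc ⟨k, Or.inr hk.1, Or.inr hk.2⟩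
  have h3 : 3 ≤ bsz τ := by
    unfold bsz
    cases τ.2
    · exact le_refl 3
    · show 3 ≤ 4
      omega
  have a0 := key ⟨0, by omega⟩
  have a1 := key ⟨1, by omega⟩
  have a2 := key ⟨2, by omega⟩
  have n01 : (⟨0, by omega⟩ : Fin (bsz τ)) ≠ ⟨1, by omega⟩ := by
    intro h; exact absurd (Fin.mk.inj_iff.1 h) (by omega)
  have n02 : (⟨0, by omega⟩ : Fin (bsz τ)) ≠ ⟨2, by omega⟩ := by
    intro h; exact absurd (Fin.mk.inj_iff.1 h) (by omega)
  have n12 : (⟨1, by omega⟩ : Fin (bsz τ)) ≠ ⟨2, by omega⟩ := by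
    intro h; exact absurd (Fin.mk.inj_iff.1 h) (by omega)
  rcases a0 with a0 | a0 <;> rcases a1 with a1 | a1 <;> rcases a2 with a2 | a2
  · exact n01 (no_triangle τ u h1' _ _ a0 a1)
  · exact n01 (no_triangle τ u h1' _ _ a0 a1)
  · exact n02 (no_triangle τ u h1' _ _ a0 a2)
  · exact n12 (no_triangle τ w h2' _ _ a1 a2)
  · exact n12 (no_triangle τ u h1' _ _ a1 a2)
  · exact n02 (no_triangle τ w h2' _ _ a0 a2)
  · exact n01 (no_triangle τ w h2' _ _ a0 a1)
  · exact n01 (no_triangle τ w h2' _ _ a0 a1)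

theorem vtx_card (τ : Blk) (i : Fin (bsz τ)) : (vtx τ i).card = 12 := by
  unfold vtx
  rw [Finset.card_erase_of_mem (Finset.orderEmbOfFin_mem _ _ _), τ.1.2]

theorem vtx_subset (τ : Blk) (i : Fin (bsz τ)) : vtx τ i ⊆ τ.1.1 := Finset.erase_subset _ _

end Pool.Agent.BWC
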