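import Pool.Agent.Lib.MP_d14a7e_al.Mixed
import Pool.Agent.Lib.MP_d14a7e_al.Hyper

set_option autoImplicit false
set_option linter.all false

/-! Operations on blocks with common minors. -/

namespace Pool.Agent.BWC

variable {A : Type}

/-- tuple with `b` at place `i` and `a` elsewhere -/
def upd {n : ℕ} (a : A) (i : Fin n) (b : A) : Fin n → A := Function.update (fun _ => a) i b

/-- image of a generated subuniverse -/
theorem BlockA_image_Sg {B : Type} {𝔸 : Alg A} {𝔹 : Alg B} {f : A → B}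
    (hf : HomOn 𝔸 𝔹 Set.univ f) (S : Set A) : f '' Sg 𝔸 S = Sg 𝔹 (f '' S) := by
  refine Set.Subset.antisymm ?_ ?_
  · rintro _ ⟨a, ha, rfl⟩
    have h1 : Sub 𝔸 {x ∈ Set.univ | f x ∈ Sg 𝔹 (f '' S)} :=
      (Sub.univ 𝔸).preim hf (Sg_sub 𝔹 _)
    exact (Sg_min h1 (fun x hx => ⟨trivial, subset_Sg _ _ (Set.mem_image_of_mem f hx)⟩) ha).2
  · refine Sg_min ((Sg_sub 𝔸 S).image (hf.mono (Set.subset_univ _))) ?_
    exact Set.image_mono (subset_Sg 𝔸 S)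

theorem BlockA_Sg_eq {𝔸 : Bool → Alg A} (h2 : Two 𝔸) (k : Bool) (S : Set (A × A)) :
    Sg (sq 𝔸 k) S = Sg (sq 𝔸 false) S := by
  refine Set.Subset.antisymm ?_ ?_
  · exact Sg_min ((h2.sub2 false k _).1 (Sg_sub _ _)) (subset_Sg _ _)
  · exact Sg_min ((h2.sub2 k false _).1 (Sg_sub _ _)) (subset_Sg _ _)

theorem BlockA_bsz_pos (τ : Blk) : 0 < bsz τ := by
  unfold bsz; cases τ.2 <;> simp

/-- extension of compatible pairs -/
theorem BlockA_ext_ne (X : Fin 3 → Blk) (l m : Fin 3) (hlm : l ≠ m) (i : Fin (bsz (X l)))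
    (j : Fin (bsz (X m))) (h : Cp (vtx (X l) i) (vtx (X m) j)) :
    ∃ e : ∀ n, Fin (bsz (X n)), e l = i ∧ e m = j ∧
      ∀ n n', Cp (vtx (X n) (e n)) (vtx (X n') (e n')) := by
  classical
  have hn0 : ∀ l m : Fin 3, l ≠ m → ∃ n : Fin 3, n ≠ l ∧ n ≠ m ∧ ∀ p, p = l ∨ p = m ∨ p = n := by
    decide
  have hn := hn0 l m hlm
  obtain ⟨n, hnl, hnm, hall⟩ := hn
  obtain ⟨k, hk1, hk2⟩ := cp_ext h (X n)
  let e0 : ∀ n, Fin (bsz (X n)) := fun n => ⟨0, BlockA_bsz_pos _⟩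
  let e : ∀ n, Fin (bsz (X n)) :=
    Function.update (Function.update (Function.update e0 n k) m j) l i
  have el : e l = i := Function.update_self _ _ _
  have em : e m = j := by
    simp only [e]
    rw [Function.update_of_ne hlm.symm, Function.update_self]
  have en : e n = k := by
    simp only [e]
    rw [Function.update_of_ne hnl, Function.update_of_ne hnm, Function.update_self]
  refine ⟨e, el, em, ?_⟩
  intro p p'
  rcases hall p with rfl | rfl | rfl <;> rcases hall p' with rfl | rfl | rfl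
  · exact Cp.refl _
  · rw [el, em]; exact h
  · rw [el, en]; exact hk1
  · rw [el, em]; exact h.symm
  · exact Cp.refl _
  · rw [em, en]; exact hk2
  · rw [el, en]; exact hk1.symm
  · rw [em, en]; exact hk2.symm
  · exact Cp.refl _

theorem BlockA_ext_eq (X : Fin 3 → Blk) (l : Fin 3) (i : Fin (bsz (X l))) :
    ∃ e : ∀ n, Fin (bsz (X n)), e l = i ∧
      ∀ n n', Cp (vtx (X n) (e n)) (vtx (X n') (e n')) := by
  have hm0 : ∀ l : Fin 3, ∃ m : Fin 3, l ≠ m := by decide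
  obtain ⟨m, hm⟩ := hm0 l
  obtain ⟨j, hj, _⟩ := cp_ext (Cp.refl (vtx (X l) i)) (X m)
  obtain ⟨e, he, _, h⟩ := BlockA_ext_ne X l m hm i j hj
  exact ⟨e, he, h⟩

/-- variables of the instance -/
abbrev BlockA_V (A : Type) (𝒯 : Finset Blk) : Type := Σ τ : {τ // τ ∈ 𝒯}, (Fin (bsz τ.1) → A)

/-- scopes -/
def BlockA_I (A : Type) (𝒯 : Finset Blk) :
    ({τ // τ ∈ 𝒯} × Bool) ⊕ (Fin 3 → BlockA_V A 𝒯) → Type
  | .inl c => (Fin (bsz c.1.1) → A)
  | .inr _ => Fin 3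

/-- scope maps -/
def BlockA_s (A : Type) (𝒯 : Finset Blk) :
    ∀ c : ({τ // τ ∈ 𝒯} × Bool) ⊕ (Fin 3 → BlockA_V A 𝒯), BlockA_I A 𝒯 c → BlockA_V A 𝒯
  | .inl c, z => ⟨c.1, z⟩
  | .inr X, i => X i

/-- sides -/
def BlockA_side (A : Type) (𝒯 : Finset Blk) :
    ({τ // τ ∈ 𝒯} × Bool) ⊕ (Fin 3 → BlockA_V A 𝒯) → Bool
  | .inl c => c.2
  | .inr _ => false

/-- the instance -/
def BlockA_M (A : Type) [Finite A] (𝒯 : Finset Blk) : MInst (BlockA_V A 𝒯) where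
  ι := ({τ // τ ∈ 𝒯} × Bool) ⊕ (Fin 3 → BlockA_V A 𝒯)
  I := BlockA_I A 𝒯
  s := BlockA_s A 𝒯
  side := BlockA_side A 𝒯
  finI := by
    rintro (c | X)
    · show Finite (Fin (bsz c.1.1) → A)
      infer_instance
    · show Finite (Fin 3)
      infer_instance
  tri := fun x y z => ⟨.inr ![x, y, z], (0 : Fin 3), (1 : Fin 3), (2 : Fin 3), rfl, rfl, rfl⟩

/-- generators of the binary relations -/
def BlockA_G {𝒯 : Finset Blk} (x y : BlockA_V A 𝒯) : Set (A × A) :=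
  {p | ∃ i j, Cp (vtx x.1.1 i) (vtx y.1.1 j) ∧ p = (x.2 i, y.2 j)}

/-- binary relations -/
def BlockA_P (𝔸 : Bool → Alg A) {𝒯 : Finset Blk} (x y : BlockA_V A 𝒯) : Set (A × A) :=
  Sg (sq 𝔸 false) (BlockA_G x y)

/-- generators of the ternary relations -/
def BlockA_G3 {𝒯 : Finset Blk} (X : Fin 3 → BlockA_V A 𝒯) : Set (Fin 3 → A) :=
  {r | ∃ e : ∀ n, Fin (bsz (X n).1.1),
    (∀ n n', Cp (vtx (X n).1.1 (e n)) (vtx (X n').1.1 (e n'))) ∧ r = fun n => (X n).2 (e n)}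

/-- constraint relations -/
def BlockA_R (𝔸 : Bool → Alg A) (𝒯 : Finset Blk) :
    ∀ c : ({τ // τ ∈ 𝒯} × Bool) ⊕ (Fin 3 → BlockA_V A 𝒯), Set (BlockA_I A 𝒯 c → A)
  | .inl c => {h : (Fin (bsz c.1.1) → A) → A |
      ∃ t : Tm (bsz c.1.1), h = fun z => t.eval (𝔸 c.2) z}
  | .inr X => Sg (pwr 𝔸 false (Fin 3)) (BlockA_G3 X)

theorem BlockA_G3_image {𝒯 : Finset Blk} (X : Fin 3 → BlockA_V A 𝒯) (l m : Fin 3) :
    (fun r : Fin 3 → A => (r l, r m)) '' BlockA_G3 X = BlockA_G (X l) (X m) := by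
  ext p
  constructor
  · rintro ⟨_, ⟨e, he, rfl⟩, rfl⟩
    exact ⟨e l, e m, he l m, rfl⟩
  · rintro ⟨i, j, h, rfl⟩
    by_cases hlm : l = m
    · subst hlm
      have hij := (cp_block _ i j).1 h
      subst hij
      obtain ⟨e, he, h'⟩ := BlockA_ext_eq (fun n => (X n).1.1) l i
      exact ⟨fun n => (X n).2 (e n), ⟨e, h', rfl⟩, by simp only [he]⟩
    · obtain ⟨e, he, he', h'⟩ := BlockA_ext_ne (fun n => (X n).1.1) l m hlm i j h
      exact ⟨fun n => (X n).2 (e n), ⟨e, h', rfl⟩, by simp only [he, he']⟩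

theorem BlockA_G_same {𝒯 : Finset Blk} (τ : {τ // τ ∈ 𝒯}) (z z' : Fin (bsz τ.1) → A) :
    BlockA_G (⟨τ, z⟩ : BlockA_V A 𝒯) ⟨τ, z'⟩ = Set.range (fun i => (z i, z' i)) := by
  ext p
  constructor
  · rintro ⟨i, j, h, rfl⟩
    have hij := (cp_block _ i j).1 h
    subst hij
    exact ⟨i, rfl⟩
  · rintro ⟨i, rfl⟩
    exact ⟨i, i, Cp.refl _, rfl⟩

theorem BlockA_homPair (𝔸 : Alg A) {I : Type} (i j : I) :
    HomOn (Alg.pi fun _ : I => 𝔸) (𝔸.prod 𝔸) Set.univ (fun r : I → A => (r i, r j)) :=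
  (HomOn.proj (fun _ : I => 𝔸) i Set.univ).pair (HomOn.proj (fun _ : I => 𝔸) j Set.univ)

theorem BlockA_G3_nonempty {𝒯 : Finset Blk} (X : Fin 3 → BlockA_V A 𝒯) :
    (BlockA_G3 X).Nonempty := by
  obtain ⟨e, he, h'⟩ := BlockA_ext_eq (fun n => (X n).1.1) 0 ⟨0, BlockA_bsz_pos _⟩
  exact ⟨_, e, h', rfl⟩

theorem BlockA_ok [Finite A] [Nonempty A] {𝔸 : Bool → Alg A} (h2 : Two 𝔸) (𝒯 : Finset Blk) :
    MOk 𝔸 (BlockA_M A 𝒯) (BlockA_P 𝔸) (BlockA_R 𝔸 𝒯) where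
  subR := by
    rintro (c | X)
    · constructor
      · rintro _ ⟨s, rfl⟩ _ ⟨t, rfl⟩ _ ⟨u, rfl⟩
        exact ⟨Tm.v s t u, rfl⟩
      · rintro _ ⟨s, rfl⟩ _ ⟨t, rfl⟩ _ ⟨u, rfl⟩ _ ⟨r, rfl⟩
        exact ⟨Tm.w s t u r, rfl⟩
    · exact Sg_sub _ _
  neR := by
    rintro (c | X)
    · exact ⟨_, Tm.var ⟨0, BlockA_bsz_pos _⟩, rfl⟩
    · obtain ⟨r, hr⟩ := BlockA_G3_nonempty X
      exact ⟨r, subset_Sg _ _ hr⟩
  pr := by
    rintro (⟨τ, k⟩ | X) i j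
    · change (Fin (bsz τ.1) → A) at i j
      show (fun r : (Fin (bsz τ.1) → A) → A => (r i, r j)) ''
        {h : (Fin (bsz τ.1) → A) → A | ∃ t : Tm (bsz τ.1), h = fun z => t.eval (𝔸 k) z} =
        Sg (sq 𝔸 false) (BlockA_G (⟨τ, i⟩ : BlockA_V A 𝒯) ⟨τ, j⟩)
      rw [BlockA_G_same, ← BlockA_Sg_eq h2 k]
      ext p
      rw [mem_Sg_range]
      constructor
      · rintro ⟨_, ⟨t, rfl⟩, rfl⟩
        exact ⟨t, by rw [eval_prod]⟩
      · rintro ⟨t, rfl⟩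
        exact ⟨_, ⟨t, rfl⟩, by rw [eval_prod]⟩
    · change Fin 3 at i j
      show (fun r : Fin 3 → A => (r i, r j)) '' Sg (pwr 𝔸 false (Fin 3)) (BlockA_G3 X) =
        Sg (sq 𝔸 false) (BlockA_G (X i) (X j))
      rw [BlockA_image_Sg (BlockA_homPair (𝔸 false) i j), BlockA_G3_image]

theorem BlockA_diag {𝔸 : Bool → Alg A} {𝒯 : Finset Blk} (x y : BlockA_V A 𝒯) (a b : A)
    (i : Fin (bsz x.1.1)) (j : Fin (bsz y.1.1)) (hij : vtx x.1.1 i = vtx y.1.1 j)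
    (hx : x.2 = upd a i b) (hy : y.2 = upd a j b) {p : A × A} (hp : p ∈ BlockA_P 𝔸 x y) :
    p.1 = p.2 := by
  have hS := Sub.diag (Sub.univ (𝔸 false))
  refine (Sg_min hS ?_ hp).2
  rintro _ ⟨i', j', h, rfl⟩
  refine ⟨trivial, ?_⟩
  show x.2 i' = y.2 j'
  rw [hx, hy]
  unfold upd
  by_cases h1 : i' = i
  · subst h1
    rw [hij] at h
    have := (cp_block _ j j').1 h
    subst this
    rw [Function.update_self, Function.update_self]
  · have h3 : j' ≠ j := by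
      rintro rfl
      rw [← hij] at h
      exact h1 ((cp_block _ i' i).1 h)
    rw [Function.update_of_ne h1, Function.update_of_ne h3]

/-- **Finite systems of blocks.**  Proof: apply `mixed` to the following instance.
`V = Σ τ : {τ // τ ∈ 𝒯}, (Fin (bsz τ) → A)` (finite; if you prefer let `V` be a subtype).
`P (τ,z) (τ',z') = Sg (sq 𝔸 false) {(z i, z' j) | Cp (vtx τ i) (vtx τ' j)}`.
Constraints: for `τ ∈ 𝒯` and `k : Bool`: `I = (Fin (bsz τ) → A)`, `s z = (τ,z)`, side `k`,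
`R = {h | ∃ t : Tm (bsz τ), h = fun z => t.eval (𝔸 k) z}`: its projection to `z, z'` is
`Sg (sq 𝔸 k) {(z i, z' i)} = P (τ,z) (τ,z')` by `cp_block` and `h2.inv`
(`mem_Sg_range`, `Sg` is common to both sides as the subuniverses of `A²` are).
For `x y z : V`: `I = Fin 3`, `s = ![x,y,z]`, side `false`,
`R = Sg (pwr 𝔸 false (Fin 3)) {![z i, z' j, z'' k] | pairwise Cp}`: its projection to two of the
coordinates is generated by the projections of the generators, which are the generators of `P`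
by `cp_ext` (for a pair of equal coordinates use `Cp.refl`, `cp_block`).
A solution `σ` gives `h τ z = σ (τ,z)` (extended arbitrarily to `τ ∉ 𝒯`).  Terms: by the first
constraints.  Minors: `(σ (τ, upd a i b), σ (τ', upd a j b)) ∈ P`, and if `vtx τ i = vtx τ' j` all
generators of this `P` are diagonal: for `i' ≠ i`, `j' ≠ j` it is `(a,a)`; `(i,j)` gives `(b,b)`;
`Cp (vtx τ i) (vtx τ' j')` with `vtx τ i = vtx τ' j` implies `j' = j` by `cp_block`, and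
symmetrically. -/
theorem finite_blocks [Finite A] [Nonempty A] {𝔸 : Bool → Alg A} (h2 : Two 𝔸)
    (𝒯 : Finset Blk) :
    ∃ h : ∀ τ : Blk, (Fin (bsz τ) → A) → A,
      (∀ τ ∈ 𝒯, ∀ k, ∃ t : Tm (bsz τ), h τ = fun z => t.eval (𝔸 k) z) ∧
      (∀ τ ∈ 𝒯, ∀ τ' ∈ 𝒯, ∀ i j, vtx τ i = vtx τ' j →
        ∀ a b, h τ (upd a i b) = h τ' (upd a j b)) := by
  classical
  have hok := BlockA_ok h2 𝒯
  obtain ⟨σ, hσ⟩ := mixed h2 hok
  refine ⟨fun τ z => if hτ : τ ∈ 𝒯 then σ ⟨⟨τ, hτ⟩, z⟩ else Classical.arbitrary A, ?_, ?_⟩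
  · intro τ hτ k
    obtain ⟨t, ht⟩ := hσ (.inl (⟨τ, hτ⟩, k))
    refine ⟨t, ?_⟩
    simp only [dif_pos hτ]
    exact ht
  · intro τ hτ τ' hτ' i j hij a b
    simp only [dif_pos hτ, dif_pos hτ']
    have h1 := hok.memR (hσ (.inr ![⟨⟨τ, hτ⟩, upd a i b⟩, ⟨⟨τ', hτ'⟩, upd a j b⟩,
      ⟨⟨τ', hτ'⟩, upd a j b⟩])) (0 : Fin 3) (1 : Fin 3)
    exact BlockA_diag (𝔸 := 𝔸) (⟨⟨τ, hτ⟩, upd a i b⟩ : BlockA_V A 𝒯) ⟨⟨τ', hτ'⟩, upd a j b⟩ a b i j
      hij rfl rfl h1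

end Pool.Agent.BWC
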