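import Mathlib

set_option autoImplicit false
set_option linter.all false

/-! A Ramsey property. -/

namespace Pool.Agent.BWC

/-- **Ramsey property.**  For every coloring of finite sets of naturals by a finite set of colors
there is a 13-set all of whose 12-subsets have the same color.
Proof.  `𝒰` = a nonprincipal ultrafilter on `ℕ` (`Filter.hyperfilter ℕ`).  For a function
`f : ℕ → F`, `F` finite, there is a unique color `lim f` with `∀ᶠ x in 𝒰, f x = lim f`.
`c₀ = c`, `c_{j+1} s = lim (fun x => c_j (insert x s))`; `ε = c₁₂ ∅`.
By induction on `n` there is a set `X` of `n` elements such that `c_{12-|s|} s = ε` for all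
`s ⊆ X` with `|s| ≤ 12`: given `X`, for each `s ⊆ X` with `|s| < 12` the set
`{x | c_{12-|s|-1} (insert x s) = ε}` is in `𝒰`, and so is `{x | x ∉ X}`; add a
common element. -/
theorem ramsey {F : Type} [Finite F] (c : Finset ℕ → F) :
    ∃ (X : Finset ℕ) (f : F), X.card = 13 ∧ ∀ s ⊆ X, s.card = 12 → c s = f := by
  classical
  have hlim : ∀ f : ℕ → F, ∃ a : F, ∀ᶠ x in (Filter.hyperfilter ℕ : Filter ℕ), f x = a := by
    intro f
    obtain ⟨a, ha⟩ := Ultrafilter.eq_pure_of_finite ((Filter.hyperfilter ℕ).map f)
    refine ⟨a, ?_⟩
    have h1 : {a} ∈ (Filter.hyperfilter ℕ).map f := by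
      rw [ha]; exact Ultrafilter.mem_pure.mpr rfl
    exact Ultrafilter.mem_map.mp h1
  choose lim hl using hlim
  let C : ℕ → Finset ℕ → F := fun j =>
    Nat.rec c (fun _ g s => lim (fun x => g (insert x s))) j
  have hC : ∀ j s, ∀ᶠ x in (Filter.hyperfilter ℕ : Filter ℕ), C j (insert x s) = C (j + 1) s :=
    fun j s => hl (fun x => C j (insert x s))
  have key : ∀ n : ℕ, ∃ X : Finset ℕ, X.card = n ∧
      ∀ s ⊆ X, s.card ≤ 12 → C (12 - s.card) s = C 12 ∅ := by
    intro n
    induction n with
    | zero =>
      refine ⟨∅, rfl, ?_⟩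
      intro s hs _
      have h0 : s = ∅ := Finset.subset_empty.mp hs
      subst h0
      rfl
    | succ n ih =>
      obtain ⟨X, hX, h⟩ := ih
      have h1 : ∀ s ∈ X.powerset, ∀ᶠ x in (Filter.hyperfilter ℕ : Filter ℕ),
          s.card < 12 → C (12 - s.card - 1) (insert x s) = C 12 ∅ := by
        intro s hs
        by_cases hc : s.card < 12
        · have h2 := hC (12 - s.card - 1) s
          have h3 : 12 - s.card - 1 + 1 = 12 - s.card := by omega
          rw [h3] at h2
          filter_upwards [h2] with x hx _
          rw [hx]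
          exact h s (Finset.mem_powerset.mp hs) hc.le
        · exact Filter.Eventually.of_forall (fun x hx => absurd hx hc)
      have h2 := (Filter.eventually_all_finset X.powerset).mpr h1
      have h3 : ∀ᶠ x in (Filter.hyperfilter ℕ : Filter ℕ), x ∉ X := by
        have h4 : {x | x ∉ X} ∈ (Filter.cofinite : Filter ℕ) := by
          simp only [Filter.mem_cofinite]
          have h5 : {x | x ∉ X}ᶜ = (X : Set ℕ) := by
            ext x; simp
          rw [h5]
          exact X.finite_toSet
        exact Filter.hyperfilter_le_cofinite h4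
      obtain ⟨x, hx1, hx2⟩ := (h2.and h3).exists
      refine ⟨insert x X, by rw [Finset.card_insert_of_notMem hx2, hX], ?_⟩
      intro s hs hsc
      by_cases hxs : x ∈ s
      · have e1 : insert x (s.erase x) = s := Finset.insert_erase hxs
        have e2 : s.erase x ⊆ X := by
          intro y hy
          have hy1 := Finset.mem_erase.mp hy
          rcases Finset.mem_insert.mp (hs hy1.2) with h6 | h6
          · exact absurd h6 hy1.1
          · exact h6
        have e3 : (s.erase x).card + 1 = s.card := Finset.card_erase_add_one hxs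
        have e4 := hx1 (s.erase x) (Finset.mem_powerset.mpr e2) (by omega)
        rw [e1] at e4
        have e5 : 12 - (s.erase x).card - 1 = 12 - s.card := by omega
        rw [e5] at e4
        exact e4
      · refine h s ?_ hsc
        intro y hy
        rcases Finset.mem_insert.mp (hs hy) with h6 | h6
        · exact absurd (h6 ▸ hy) hxs
        · exact h6
  obtain ⟨X, hX, h⟩ := key 13
  refine ⟨X, C 12 ∅, hX, ?_⟩
  intro s hs hc
  have h7 := h s hs hc.le
  rw [hc] at h7
  exact h7

end Pool.Agent.BWC
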