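import Pool.Agent.Lib.MP_d14a7e_al.BlockA
import Pool.Agent.Lib.MP_d14a7e_al.Ramsey

set_option autoImplicit false
set_option linter.all false

/-! Operations on blocks with common minors. -/

namespace Pool.Agent.BWC

variable {A : Type}

/-- **Compactness.**  Let `𝒰` be an ultrafilter on `Finset Blk` finer than `atTop`, `h_𝒯` from
`finite_blocks`, `h τ` = the value `g` such that `∀ᶠ 𝒯 in 𝒰, h_𝒯 τ = g` (finitely many values). -/
theorem all_blocks [Finite A] [Nonempty A] {𝔸 : Bool → Alg A} (h2 : Two 𝔸) :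
    ∃ h : ∀ τ : Blk, (Fin (bsz τ) → A) → A,
      (∀ τ, ∀ k, ∃ t : Tm (bsz τ), h τ = fun z => t.eval (𝔸 k) z) ∧
      (∀ τ τ', ∀ i j, vtx τ i = vtx τ' j → ∀ a b, h τ (upd a i b) = h τ' (upd a j b)) := by
  classical
  choose H hH1 hH2 using fun 𝒯 : Finset Blk => finite_blocks h2 𝒯
  let 𝒰 : Ultrafilter (Finset Blk) := Ultrafilter.of Filter.atTop
  have hU : (𝒰 : Filter (Finset Blk)) ≤ Filter.atTop := Ultrafilter.of_le _
  have hval : ∀ τ : Blk, ∃ g : (Fin (bsz τ) → A) → A, ∀ᶠ 𝒯 in (𝒰 : Filter (Finset Blk)),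
      H 𝒯 τ = g := by
    intro τ
    rw [← Ultrafilter.eventually_exists_iff]
    exact Filter.Eventually.of_forall fun 𝒯 => ⟨H 𝒯 τ, rfl⟩
  choose h hh using hval
  have hmem : ∀ τ : Blk, ∀ᶠ 𝒯 in (𝒰 : Filter (Finset Blk)), τ ∈ 𝒯 := by
    intro τ
    have : ∀ᶠ 𝒯 : Finset Blk in Filter.atTop, τ ∈ 𝒯 := by
      filter_upwards [Filter.eventually_ge_atTop ({τ} : Finset Blk)] with 𝒯 h𝒯
      exact h𝒯 (Finset.mem_singleton_self τ)
    exact hU this
  refine ⟨h, ?_, ?_⟩
  · intro τ k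
    obtain ⟨𝒯, h1, h2'⟩ := ((hh τ).and (hmem τ)).exists
    obtain ⟨t, ht⟩ := hH1 𝒯 τ h2' k
    exact ⟨t, by rw [← h1, ht]⟩
  · intro τ τ' i j hij a b
    obtain ⟨𝒯, ⟨h1, h2'⟩, h3, h4⟩ :=
      (((hh τ).and (hmem τ)).and ((hh τ').and (hmem τ'))).exists
    rw [← h1, ← h3]
    exact hH2 𝒯 τ h2' τ' h4 i j hij a b

/-- **Common bounded width pair.**  Color a 12-set `u` by the operation `(a,b) ↦ h τ (upd a i b)`
for some `τ, i` with `vtx τ i = u` (independent of the choice); `ramsey` gives `X`; take the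
3-block and the 4-block of `X`. -/
theorem common_pair [Finite A] [Nonempty A] {𝔸 : Bool → Alg A} (h2 : Two 𝔸) :
    ∃ (p : Bool → Tm 3) (q : Bool → Tm 4),
      (𝔸 false).der (p false) (q false) = (𝔸 true).der (p true) (q true) ∧
      ∀ k, IsBW ((𝔸 k).der (p k) (q k)) := by
  classical
  obtain ⟨h, h1, h3⟩ := all_blocks h2
  have hcol : ∀ u : Finset ℕ, ∃ f : A → A → A, ∀ τ i, vtx τ i = u →
      ∀ a b, h τ (upd a i b) = f a b := by
    intro u
    by_cases hu : ∃ τ, ∃ i, vtx τ i = u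
    · obtain ⟨τ, i, hi⟩ := hu
      exact ⟨fun a b => h τ (upd a i b), fun τ' i' hi' a b =>
        h3 τ' τ i' i (hi'.trans hi.symm) a b⟩
    · exact ⟨fun a _ => a, fun τ i hi => absurd ⟨τ, i, hi⟩ hu⟩
  choose c hc using hcol
  obtain ⟨X, f, hX, hXf⟩ := ramsey c
  have key : ∀ (b : Bool) (i : Fin (bsz (⟨X, hX⟩, b))) (x y : A),
      h (⟨X, hX⟩, b) (upd x i y) = f x y := by
    intro b i x y
    rw [hc _ _ i rfl x y, hXf _ (vtx_subset (⟨X, hX⟩, b) i) (vtx_card _ _)]
  choose p hp using fun k : Bool => h1 (⟨X, hX⟩, false) k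
  choose q hq using fun k : Bool => h1 (⟨X, hX⟩, true) k
  let p' : Bool → Tm 3 := p
  let q' : Bool → Tm 4 := q
  let h3' : (Fin 3 → A) → A := h (⟨X, hX⟩, false)
  let h4' : (Fin 4 → A) → A := h (⟨X, hX⟩, true)
  have hp' : ∀ k x y z, t3 (𝔸 k) (p' k) x y z = h3' ![x, y, z] := by
    intro k x y z
    exact (congrFun (hp k) ![x, y, z]).symm
  have hq' : ∀ k x y z u, t4 (𝔸 k) (q' k) x y z u = h4' ![x, y, z, u] := by
    intro k x y z u
    exact (congrFun (hq k) ![x, y, z, u]).symm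
  have e30 : ∀ x y, h3' ![y, x, x] = f x y := by
    intro x y
    rw [← key false (0 : Fin 3) x y]
    change h3' _ = h3' _
    congr 1
    funext i
    fin_cases i <;> rfl
  have e31 : ∀ x y, h3' ![x, y, x] = f x y := by
    intro x y
    rw [← key false (1 : Fin 3) x y]
    change h3' _ = h3' _
    congr 1
    funext i
    fin_cases i <;> rfl
  have e32 : ∀ x y, h3' ![x, x, y] = f x y := by
    intro x y
    rw [← key false (2 : Fin 3) x y]
    change h3' _ = h3' _
    congr 1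
    funext i
    fin_cases i <;> rfl
  have e40 : ∀ x y, h4' ![y, x, x, x] = f x y := by
    intro x y
    rw [← key true (0 : Fin 4) x y]
    change h4' _ = h4' _
    congr 1
    funext i
    fin_cases i <;> rfl
  have e41 : ∀ x y, h4' ![x, y, x, x] = f x y := by
    intro x y
    rw [← key true (1 : Fin 4) x y]
    change h4' _ = h4' _
    congr 1
    funext i
    fin_cases i <;> rfl
  have e42 : ∀ x y, h4' ![x, x, y, x] = f x y := by
    intro x y
    rw [← key true (2 : Fin 4) x y]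
    change h4' _ = h4' _
    congr 1
    funext i
    fin_cases i <;> rfl
  have e43 : ∀ x y, h4' ![x, x, x, y] = f x y := by
    intro x y
    rw [← key true (3 : Fin 4) x y]
    change h4' _ = h4' _
    congr 1
    funext i
    fin_cases i <;> rfl
  refine ⟨p', q', ?_, fun k => ?_⟩
  · unfold Alg.der
    congr 1
    · funext x y z
      rw [hp', hp']
    · funext x y z u
      rw [hq', hq']
  · constructor
    · intro a
      exact t3_idem (h2.bw k) _ a
    · intro a
      exact t4_idem (h2.bw k) _ a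
    · intro x y
      change t3 (𝔸 k) (p' k) y x x = t3 (𝔸 k) (p' k) x x y
      rw [hp', hp', e30, e32]
    · intro x y
      change t3 (𝔸 k) (p' k) x y x = t3 (𝔸 k) (p' k) x x y
      rw [hp', hp', e31, e32]
    · intro x y
      change t4 (𝔸 k) (q' k) y x x x = t3 (𝔸 k) (p' k) x x y
      rw [hp', hq', e40, e32]
    · intro x y
      change t4 (𝔸 k) (q' k) x y x x = t3 (𝔸 k) (p' k) x x y
      rw [hp', hq', e41, e32]
    · intro x y
      change t4 (𝔸 k) (q' k) x x y x = t3 (𝔸 k) (p' k) x x y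
      rw [hp', hq', e42, e32]
    · intro x y
      change t4 (𝔸 k) (q' k) x x x y = t3 (𝔸 k) (p' k) x x y
      rw [hp', hq', e43, e32]

end Pool.Agent.BWC
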