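import Pool.Agent.Lib.MP_d14a7e_al.Basic

set_option autoImplicit false
set_option linter.all false

/-! Binary operations: iteration; semilattice-like improvements; derived bounded width pair. -/

namespace Pool.Agent.BWC

variable {A B C : Type}

/-- `x ↦ (y ↦ g x y)` iterated `K` times -/
def itr (g : B → B → B) (K : ℕ) (x y : B) : B := (g x)^[K] y
/-- auxiliary -/
def uu (g : B → B → B) (K : ℕ) (x y : B) : B := itr g K x (itr g K y x)
/-- improved operation -/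
def ff (g : B → B → B) (K : ℕ) (x y : B) : B := itr (uu g K) K x y

/-- `K`-th iterates of selfmaps of `A` are idempotent -/
def GoodK (A : Type) (K : ℕ) : Prop := 0 < K ∧ ∀ (g : A → A) (x : A), g^[K] (g^[K] x) = g^[K] x

/-- e.g. `K = (Nat.card A)!`, or the product over all `g` of exponents of idempotent powers -/
theorem exists_goodK (A : Type) [Finite A] : ∃ K, GoodK A K := by
  classical
  have step : ∀ g : A → A, ∃ K : ℕ, 0 < K ∧ ∀ x, g^[K] (g^[K] x) = g^[K] x := by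
    intro g
    obtain ⟨i, j, hij, he⟩ : ∃ i j : ℕ, i < j ∧ g^[i] = g^[j] := by
      obtain ⟨i, j, hne, he⟩ := Finite.exists_ne_map_eq_of_infinite (fun n : ℕ => g^[n])
      rcases lt_or_gt_of_ne hne with h | h
      · exact ⟨i, j, h, he⟩
      · exact ⟨j, i, h, he.symm⟩
    obtain ⟨d, rfl⟩ : ∃ d, j = i + d := ⟨j - i, by omega⟩
    have hd : 0 < d := by omega
    have h1 : ∀ n x, g^[n + i + d] x = g^[n + i] x := by
      intro n x
      rw [add_assoc, Function.iterate_add_apply, ← he, ← Function.iterate_add_apply]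
    have h2 : ∀ k n x, g^[n + i + k * d] x = g^[n + i] x := by
      intro k
      induction k with
      | zero => intro n x; simp
      | succ k ih =>
        intro n x
        have e : n + i + (k + 1) * d = (n + k * d) + i + d := by ring
        rw [e, h1]
        have e2 : n + k * d + i = n + i + k * d := by ring
        rw [e2, ih]
    refine ⟨(i + 1) * d, by positivity, fun x => ?_⟩
    rw [← Function.iterate_add_apply]
    have hge : i ≤ (i + 1) * d := by nlinarith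
    obtain ⟨m, hm⟩ : ∃ m, (i + 1) * d = m + i := ⟨(i + 1) * d - i, by omega⟩
    have h3 := h2 (i + 1) m x
    rw [← hm] at h3
    exact h3
  choose K hK0 hK using step
  haveI := Fintype.ofFinite A
  refine ⟨∏ g : A → A, K g, Finset.prod_pos fun g _ => hK0 g, fun g x => ?_⟩
  obtain ⟨m, hm⟩ := Finset.dvd_prod_of_mem K (Finset.mem_univ g)
  have hmpos : 0 < m := by
    rcases Nat.eq_zero_or_pos m with h0 | h0
    · exfalso
      have h1 : 0 < ∏ g : A → A, K g := Finset.prod_pos fun g _ => hK0 g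
      rw [hm, h0, mul_zero] at h1
      exact lt_irrefl _ h1
    · exact h0
  have hit : ∀ m x, (g^[K g])^[m + 1] x = g^[K g] x := by
    intro m
    induction m with
    | zero => intro x; rfl
    | succ m ih => intro x; rw [Function.iterate_succ_apply, ih, hK]
  obtain ⟨m', rfl⟩ : ∃ m', m = m' + 1 := ⟨m - 1, by omega⟩
  have e : ∀ x, g^[∏ g : A → A, K g] x = g^[K g] x := by
    intro x
    rw [hm, Function.iterate_mul, hit]
  rw [e, e, hK]

theorem edgeA_iter_fix {B : Type} {f : B → B} {b : B} (h : f b = b) (n : ℕ) : f^[n] b = b := by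
  induction n with
  | zero => rfl
  | succ n ih => rw [Function.iterate_succ_apply, h, ih]

theorem edgeA_iter_mem {B : Type} {f : B → B} {G : Set B} (h : ∀ x ∈ G, f x ∈ G) (n : ℕ) :
    ∀ x ∈ G, f^[n] x ∈ G := by
  induction n with
  | zero => intro x hx; exact hx
  | succ n ih => intro x hx; rw [Function.iterate_succ_apply]; exact ih _ (h x hx)

theorem edgeA_iter_pos {B : Type} {f : B → B} {G : Set B} (h : ∀ x ∈ G, f x ∈ G) {n : ℕ}
    (hn : 0 < n) {x : B} (hx : f x ∈ G) : f^[n] x ∈ G := by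
  obtain ⟨m, rfl⟩ : ∃ m, n = m + 1 := ⟨n - 1, by omega⟩
  rw [Function.iterate_succ_apply]
  exact edgeA_iter_mem h m _ hx

/-- Let `z = ff x y`.  `ff x z = z` as the `K`-th iterate of `uu x` is idempotent.  `z` is in the
image of `uu x` (`0 < K`), so `itr g K x z = z` (idempotent iterate); so
`uu z x = itr z (itr x z) = itr z z = z`, and then `ff z x = z` since `uu z z = z`. -/
theorem ff_PA {g : A → A → A} (hg : ∀ x, g x x = x) {K : ℕ} (hK : GoodK A K) (x y : A) :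
    ff g K x (ff g K x y) = ff g K x y ∧ ff g K (ff g K x y) x = ff g K x y := by
  have h1 : ff g K x (ff g K x y) = ff g K x y := by
    unfold ff
    exact hK.2 _ _
  refine ⟨h1, ?_⟩
  set z := ff g K x y with hz
  have h2 : itr g K x z = z := by
    obtain ⟨m, hm⟩ : ∃ m, K = m + 1 := ⟨K - 1, by have := hK.1; omega⟩
    have h3 : z = uu g K x ((uu g K x)^[m] y) := by
      rw [hz]
      unfold ff
      show (uu g K x)^[K] y = _
      conv_lhs => rw [hm]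
      rw [Function.iterate_succ_apply', ← hm]
    rw [h3]
    exact hK.2 _ _
  have hzz : g z z = z := hg z
  have h4 : itr g K z z = z := edgeA_iter_fix hzz K
  have h5 : uu g K z x = z := by
    unfold uu
    rw [h2, h4]
  have h6 : uu g K z z = z := by
    unfold uu
    rw [h4, h4]
  have h7 : (uu g K z)^[K] x ∈ ({z} : Set A) := by
    apply edgeA_iter_pos _ hK.1
    · exact h5
    · rintro _ rfl
      exact h6
  exact h7

theorem ff_join {g : B → B → B} (hg : ∀ x, g x x = x) {K : ℕ} (hK : 0 < K) {a b : B}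
    (h1 : g a b = b) (h2 : g b a = b) : ff g K a b = b ∧ ff g K b a = b := by
  have hbb : itr g K b b = b := edgeA_iter_fix (hg b) K
  have hab : itr g K a b = b := edgeA_iter_fix h1 K
  have hba : itr g K b a = b := by
    have : (g b)^[K] a ∈ ({b} : Set B) := by
      apply edgeA_iter_pos _ hK
      · exact h2
      · rintro _ rfl
        exact hg _
    exact this
  have u1 : uu g K a b = b := by unfold uu; rw [hba, hab]
  have u2 : uu g K b a = b := by unfold uu; rw [hab, hbb]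
  have u3 : uu g K b b = b := by unfold uu; rw [hbb, hbb]
  refine ⟨edgeA_iter_fix u1 K, ?_⟩
  have : (uu g K b)^[K] a ∈ ({b} : Set B) := by
    apply edgeA_iter_pos _ hK
    · exact u2
    · rintro _ rfl
      exact u3
  exact this

theorem ff_closure {g : B → B → B} {K : ℕ} (hK : 0 < K) {G : Set B} {a : B}
    (h1 : ∀ x ∈ G, g a x ∈ G) (h2 : ∀ x ∈ G, ∀ y ∈ G, g x y ∈ G) (h3 : ∀ x ∈ G, g x a ∈ G) :
    ∀ x ∈ G, ff g K a x ∈ G := by
  intro x hx
  apply edgeA_iter_mem _ K x hx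
  intro y hy
  unfold uu
  apply edgeA_iter_mem h1 K
  exact edgeA_iter_pos (h2 y hy) hK (h3 y hy)

theorem ff_abs {g : B → B → B} {K : ℕ} (hK : 0 < K) {N U : Set B} (hNU : N ⊆ U)
    (h1 : ∀ x ∈ U, ∀ y ∈ N, g x y ∈ N) (h2 : ∀ x ∈ N, ∀ y ∈ U, g x y ∈ N) :
    ∀ x ∈ U, ∀ y ∈ N, ff g K x y ∈ N := by
  intro x hx y hy
  apply edgeA_iter_mem _ K y hy
  intro y hy
  unfold uu
  apply edgeA_iter_mem (h1 x hx) K
  exact edgeA_iter_pos (fun n hn => h2 y hy n (hNU hn)) hK (h2 y hy x hx)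

/-- the term for `ff` (define it by iterating `Tm.subst`; change the definition if convenient,
only `t2_ffT` is used elsewhere) -/
def itrT (t : Tm 2) : ℕ → Tm 2
  | 0 => Tm.var 1
  | (K + 1) => t.subst ![Tm.var 0, itrT t K]
def uuT (t : Tm 2) (K : ℕ) : Tm 2 :=
  (itrT t K).subst ![Tm.var 0, (itrT t K).subst ![Tm.var 1, Tm.var 0]]
def ffT (t : Tm 2) (K : ℕ) : Tm 2 := itrT (uuT t K) K

theorem t2_ffT (𝔹 : Alg B) (t : Tm 2) (K : ℕ) (x y : B) :
    t2 𝔹 (ffT t K) x y = ff (t2 𝔹 t) K x y := by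
  have h1 : ∀ (t : Tm 2) (K : ℕ) (x y : B), t2 𝔹 (itrT t K) x y = itr (t2 𝔹 t) K x y := by
    intro t K x y
    induction K with
    | zero => rfl
    | succ K ih =>
      unfold itr at ih ⊢
      rw [Function.iterate_succ_apply', ← ih]
      show (t.subst ![Tm.var 0, itrT t K]).eval 𝔹 ![x, y] = _
      rw [eval_subst, eval_fin2]
      rfl
  have h2 : ∀ x y : B, t2 𝔹 (uuT t K) x y = uu (t2 𝔹 t) K x y := by
    intro x y
    unfold uu
    rw [← h1, ← h1]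
    show ((itrT t K).subst _).eval 𝔹 ![x, y] = _
    rw [eval_subst, eval_fin2]
    show t2 𝔹 (itrT t K) x (((itrT t K).subst ![Tm.var 1, Tm.var 0]).eval 𝔹 ![x, y]) = _
    rw [eval_subst, eval_fin2]
    rfl
  unfold ffT ff
  rw [h1]
  have h3 : t2 𝔹 (uuT t K) = uu (t2 𝔹 t) K := by
    funext x y
    exact h2 x y
  rw [h3]

theorem edgeA_sub2 (𝔹 : Alg B) (f : Tm 2) {n : ℕ} (s t : Tm n) (x : Fin n → B) :
    (f.subst ![s, t]).eval 𝔹 x = t2 𝔹 f (s.eval 𝔹 x) (t.eval 𝔹 x) := by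
  rw [eval_subst, eval_fin2]
  rfl

/-- the derived pair of terms: with `h(x;y,z) = f(f(x,y),f(x,z))`,
`v1 = v(h(x;y,z), h(y;x,z), h(z;x,y))` -/
def v1T (f : Tm 2) : Tm 3 :=
  let h : Fin 3 → Fin 3 → Fin 3 → Tm 3 := fun i j k =>
    f.subst ![f.subst ![Tm.var i, Tm.var j], f.subst ![Tm.var i, Tm.var k]]
  Tm.v (h 0 1 2) (h 1 0 2) (h 2 0 1)
/-- with `h4(x;y,z,u) = f(f(f(x,y),f(x,z)),f(x,u))`,
`w1 = w(h4(x;y,z,u), h4(y;x,z,u), h4(z;x,y,u), h4(u;x,y,z))` -/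
def w1T (f : Tm 2) : Tm 4 :=
  let h : Fin 4 → Fin 4 → Fin 4 → Fin 4 → Tm 4 := fun i j k l =>
    f.subst ![f.subst ![f.subst ![Tm.var i, Tm.var j], f.subst ![Tm.var i, Tm.var k]],
      f.subst ![Tm.var i, Tm.var l]]
  Tm.w (h 0 1 2 3) (h 1 0 2 3) (h 2 0 1 3) (h 3 0 1 2)

theorem t3_v1T (𝔹 : Alg B) (f : Tm 2) (x y z : B) :
    t3 𝔹 (v1T f) x y z =
      𝔹.v (t2 𝔹 f (t2 𝔹 f x y) (t2 𝔹 f x z)) (t2 𝔹 f (t2 𝔹 f y x) (t2 𝔹 f y z))
        (t2 𝔹 f (t2 𝔹 f z x) (t2 𝔹 f z y)) := by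
  unfold t3 v1T
  simp only [Tm.eval, edgeA_sub2]
  rfl

theorem t4_w1T (𝔹 : Alg B) (f : Tm 2) (x y z u : B) :
    t4 𝔹 (w1T f) x y z u =
      𝔹.w (t2 𝔹 f (t2 𝔹 f (t2 𝔹 f x y) (t2 𝔹 f x z)) (t2 𝔹 f x u))
        (t2 𝔹 f (t2 𝔹 f (t2 𝔹 f y x) (t2 𝔹 f y z)) (t2 𝔹 f y u))
        (t2 𝔹 f (t2 𝔹 f (t2 𝔹 f z x) (t2 𝔹 f z y)) (t2 𝔹 f z u))
        (t2 𝔹 f (t2 𝔹 f (t2 𝔹 f u x) (t2 𝔹 f u y)) (t2 𝔹 f u z)) := by
  unfold t4 w1T
  simp only [Tm.eval, edgeA_sub2]
  rfl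

/-- the derived pair satisfies the bounded width identities: with (P), (A),
`v1(y,x,x) = v(f(y,x), f(x,y), f(x,y))` etc. -/
theorem isBW_der {𝔸 : Alg A} (hA : IsBW 𝔸) {f : Tm 2}
    (hP : ∀ x y, t2 𝔸 f x (t2 𝔸 f x y) = t2 𝔸 f x y)
    (hQ : ∀ x y, t2 𝔸 f (t2 𝔸 f x y) x = t2 𝔸 f x y) :
    IsBW (𝔸.der (v1T f) (w1T f)) := by
  have hi : ∀ x, t2 𝔸 f x x = x := fun x => t2_idem hA f x
  have ev : (𝔸.der (v1T f) (w1T f)).v = t3 𝔸 (v1T f) := rfl
  have ew : (𝔸.der (v1T f) (w1T f)).w = t4 𝔸 (w1T f) := rfl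
  constructor
  · intro a
    simp only [ev, t3_v1T, hi, hA.vi]
  · intro a
    simp only [ew, t4_w1T, hi, hA.wi]
  · intro x y
    simp only [ev, t3_v1T, hi, hP, hQ, hA.v0 (t2 𝔸 f x y) (t2 𝔸 f y x)]
  · intro x y
    simp only [ev, t3_v1T, hi, hP, hQ, hA.v1 (t2 𝔸 f x y) (t2 𝔸 f y x)]
  · intro x y
    simp only [ev, ew, t3_v1T, t4_w1T, hi, hP, hQ, hA.w0 (t2 𝔸 f x y) (t2 𝔸 f y x)]
  · intro x y
    simp only [ev, ew, t3_v1T, t4_w1T, hi, hP, hQ, hA.w1 (t2 𝔸 f x y) (t2 𝔸 f y x)]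
  · intro x y
    simp only [ev, ew, t3_v1T, t4_w1T, hi, hP, hQ, hA.w2 (t2 𝔸 f x y) (t2 𝔸 f y x)]
  · intro x y
    simp only [ev, ew, t3_v1T, t4_w1T, hi, hP, hQ, hA.w3 (t2 𝔸 f x y) (t2 𝔸 f y x)]

/-- expansion of a term over the derived operations -/
def expd {n : ℕ} (p : Tm 3) (q : Tm 4) : Tm n → Tm n
  | Tm.var i => Tm.var i
  | Tm.v s t u => p.subst ![expd p q s, expd p q t, expd p q u]
  | Tm.w s t u r => q.subst ![expd p q s, expd p q t, expd p q u, expd p q r]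

theorem eval_expd (𝔹 : Alg B) (p : Tm 3) (q : Tm 4) {n : ℕ} (t : Tm n) (x : Fin n → B) :
    (expd p q t).eval 𝔹 x = t.eval (𝔹.der p q) x := by
  induction t with
  | var i => rfl
  | v s t u h1 h2 h3 =>
    show (p.subst ![expd p q s, expd p q t, expd p q u]).eval 𝔹 x = _
    rw [eval_subst, eval_fin3]
    show t3 𝔹 p ((expd p q s).eval 𝔹 x) ((expd p q t).eval 𝔹 x) ((expd p q u).eval 𝔹 x) = _
    rw [h1, h2, h3]
    rfl
  | w s t u r h1 h2 h3 h4 =>
    show (q.subst ![expd p q s, expd p q t, expd p q u, expd p q r]).eval 𝔹 x = _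
    rw [eval_subst, eval_fin4]
    show t4 𝔹 q ((expd p q s).eval 𝔹 x) ((expd p q t).eval 𝔹 x) ((expd p q u).eval 𝔹 x)
      ((expd p q r).eval 𝔹 x) = _
    rw [h1, h2, h3, h4]
    rfl

/-- minimality passes to algebras satisfying the identities (by `eval_expd`) -/
theorem min_sat {𝔸 : Alg A} {𝔹 : Alg B} (h : MinBW 𝔸) (hs : Sat 𝔸 𝔹) {p : Tm 3} {q : Tm 4}
    (hpq : IsBW (𝔸.der p q)) :
    ∃ (r : Tm 3) (s : Tm 4), (∀ x y z, t3 (𝔹.der p q) r x y z = 𝔹.v x y z) ∧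
      (∀ x y z u, t4 (𝔹.der p q) s x y z u = 𝔹.w x y z u) := by
  obtain ⟨r, s, hr, hs'⟩ := h.2 p q hpq
  refine ⟨r, s, fun x y z => ?_, fun x y z u => ?_⟩
  · have h1 := hs 3 (expd p q r) (Tm.v (Tm.var 0) (Tm.var 1) (Tm.var 2)) (by
      intro x
      rw [eval_expd, eval_fin3, hr]
      rfl) ![x, y, z]
    rw [eval_expd] at h1
    exact h1
  · have h1 := hs 4 (expd p q s) (Tm.w (Tm.var 0) (Tm.var 1) (Tm.var 2) (Tm.var 3)) (by
      intro x
      rw [eval_expd, eval_fin4, hs']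
      rfl) ![x, y, z, u]
    rw [eval_expd] at h1
    exact h1

theorem sub_of_der {𝔸 : Alg A} {𝔹 : Alg B} (h : MinBW 𝔸) (hs : Sat 𝔸 𝔹) {p : Tm 3} {q : Tm 4}
    (hpq : IsBW (𝔸.der p q)) {U : Set B} (hU : Sub (𝔹.der p q) U) : Sub 𝔹 U := by
  obtain ⟨r, s, hr, hs'⟩ := min_sat h hs hpq
  refine ⟨fun x hx y hy z hz => ?_, fun x hx y hy z hz u hu => ?_⟩
  · rw [← hr]
    exact hU.t3 r hx hy hz
  · rw [← hs']
    exact hU.t4 s hx hy hz hu

end Pool.Agent.BWC
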