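import Pool.Agent.Lib.MP_d14a7e_al.Quot
import Pool.Agent.Lib.MP_d14a7e_al.EdgeA

set_option autoImplicit false
set_option linter.all false

/-! From clones to algebras. -/

namespace Pool.Agent.BWC

/-- clone of term operations -/
def Clo {A : Type} (𝔸 : Alg A) (k : ℕ) : Set ((Fin k → A) → A) :=
  Set.range fun (t : Tm k) (x : Fin k → A) => t.eval 𝔸 x

/-- the three notions of the frozen statement, spelled out -/
def IsCl {n : ℕ} (E : ∀ k : ℕ, Set ((Fin k → Fin n) → Fin n)) : Prop :=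
  (∀ (k : ℕ) (i : Fin k), (fun x : Fin k → Fin n => x i) ∈ E k) ∧
  (∀ (k m : ℕ) (f : (Fin k → Fin n) → Fin n) (g : Fin k → (Fin m → Fin n) → Fin n),
    f ∈ E k → (∀ i, g i ∈ E m) → (fun x : Fin m → Fin n => f (fun i => g i x)) ∈ E m)

def HasBW {n : ℕ} (E : ∀ k : ℕ, Set ((Fin k → Fin n) → Fin n)) : Prop :=
  ∃ v ∈ E 3, ∃ w ∈ E 4,
    (∀ a : Fin n, v ![a, a, a] = a) ∧
    (∀ a : Fin n, w ![a, a, a, a] = a) ∧
    (∀ x y : Fin n, v ![y, x, x] = v ![x, y, x] ∧ v ![x, y, x] = v ![x, x, y]) ∧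
    (∀ x y : Fin n, w ![y, x, x, x] = w ![x, y, x, x] ∧
        w ![x, y, x, x] = w ![x, x, y, x] ∧ w ![x, x, y, x] = w ![x, x, x, y]) ∧
    (∀ x y : Fin n, v ![y, x, x] = w ![y, x, x, x])

def Inv2' {n : ℕ} (E : ∀ k : ℕ, Set ((Fin k → Fin n) → Fin n)) (R : Set (Fin n × Fin n)) : Prop :=
  ∀ (k : ℕ) (f : (Fin k → Fin n) → Fin n), f ∈ E k →
    ∀ x y : Fin k → Fin n, (∀ i, (x i, y i) ∈ R) → (f x, f y) ∈ R

theorem clo_isCl {n : ℕ} (𝔸 : Alg (Fin n)) : IsCl (Clo 𝔸) := by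
  refine ⟨fun k i => ⟨Tm.var i, rfl⟩, ?_⟩
  rintro k m _ g ⟨t, rfl⟩ hg
  choose s hs using hg
  refine ⟨t.subst s, ?_⟩
  funext x
  show (t.subst s).eval 𝔸 x = t.eval 𝔸 (fun i => g i x)
  rw [eval_subst]
  congr 1
  funext i
  exact congrFun (hs i) x

theorem clo_hasBW {n : ℕ} {𝔸 : Alg (Fin n)} (h : IsBW 𝔸) : HasBW (Clo 𝔸) := by
  refine ⟨_, ⟨Tm.v (Tm.var 0) (Tm.var 1) (Tm.var 2), rfl⟩,
    _, ⟨Tm.w (Tm.var 0) (Tm.var 1) (Tm.var 2) (Tm.var 3), rfl⟩, ?_, ?_, ?_, ?_, ?_⟩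
  · intro a; exact h.vi a
  · intro a; exact h.wi a
  · intro x y
    refine ⟨?_, ?_⟩
    · show 𝔸.v y x x = 𝔸.v x y x
      rw [h.v0, h.v1]
    · show 𝔸.v x y x = 𝔸.v x x y
      exact h.v1 x y
  · intro x y
    refine ⟨?_, ?_, ?_⟩
    · show 𝔸.w y x x x = 𝔸.w x y x x
      rw [h.w0, h.w1]
    · show 𝔸.w x y x x = 𝔸.w x x y x
      rw [h.w1, h.w2]
    · show 𝔸.w x x y x = 𝔸.w x x x y
      rw [h.w2, h.w3]
  · intro x y
    show 𝔸.v y x x = 𝔸.w y x x x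
    rw [h.v0, h.w0]

theorem clo_inv2 {n : ℕ} (𝔸 : Alg (Fin n)) (R : Set (Fin n × Fin n)) :
    Inv2' (Clo 𝔸) R ↔ Sub (𝔸.prod 𝔸) R := by
  constructor
  · intro h
    constructor
    · intro x hx y hy z hz
      refine h 3 _ ⟨Tm.v (Tm.var 0) (Tm.var 1) (Tm.var 2), rfl⟩ ![x.1, y.1, z.1]
        ![x.2, y.2, z.2] ?_
      intro i
      fin_cases i
      · exact hx
      · exact hy
      · exact hz
    · intro x hx y hy z hz u hu
      refine h 4 _ ⟨Tm.w (Tm.var 0) (Tm.var 1) (Tm.var 2) (Tm.var 3), rfl⟩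
        ![x.1, y.1, z.1, u.1] ![x.2, y.2, z.2, u.2] ?_
      intro i
      fin_cases i
      · exact hx
      · exact hy
      · exact hz
      · exact hu
  · rintro h k _ ⟨t, rfl⟩ x y hxy
    have := h.eval t (x := fun i => (x i, y i)) hxy
    rw [eval_prod] at this
    exact this

theorem clo_der_subset {n : ℕ} (𝔸 : Alg (Fin n)) (p : Tm 3) (q : Tm 4) (k : ℕ) :
    Clo (𝔸.der p q) k ⊆ Clo 𝔸 k := by
  rintro _ ⟨t, rfl⟩
  refine ⟨expd p q t, ?_⟩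
  funext x
  exact eval_expd 𝔸 p q t x

/-- a minimal bounded width clone is the clone of a minimal bounded width algebra -/
theorem exists_alg {n : ℕ} {C : ∀ k : ℕ, Set ((Fin k → Fin n) → Fin n)} (h1 : IsCl C)
    (h2 : HasBW C)
    (h3 : ∀ F : ∀ k : ℕ, Set ((Fin k → Fin n) → Fin n), IsCl F → HasBW F → (∀ k, F k ⊆ C k) →
      F = C) :
    ∃ 𝔸 : Alg (Fin n), MinBW 𝔸 ∧ C = Clo 𝔸 := by
  obtain ⟨v, hv, w, hw, hvi, hwi, hvv, hww, hvw⟩ := h2
  let 𝔸 : Alg (Fin n) := ⟨fun x y z => v ![x, y, z], fun x y z u => w ![x, y, z, u]⟩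
  have hBW : IsBW 𝔸 := by
    refine ⟨hvi, hwi, ?_, ?_, ?_, ?_, ?_, ?_⟩
    · intro x y
      show v ![y, x, x] = v ![x, x, y]
      rw [(hvv x y).1, (hvv x y).2]
    · intro x y
      exact (hvv x y).2
    · intro x y
      show w ![y, x, x, x] = v ![x, x, y]
      rw [← hvw, (hvv x y).1, (hvv x y).2]
    · intro x y
      show w ![x, y, x, x] = v ![x, x, y]
      rw [← (hww x y).1, ← hvw, (hvv x y).1, (hvv x y).2]
    · intro x y
      show w ![x, x, y, x] = v ![x, x, y]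
      rw [← (hww x y).2.1, ← (hww x y).1, ← hvw, (hvv x y).1, (hvv x y).2]
    · intro x y
      show w ![x, x, x, y] = v ![x, x, y]
      rw [← (hww x y).2.2, ← (hww x y).2.1, ← (hww x y).1, ← hvw, (hvv x y).1, (hvv x y).2]
  have hsub : ∀ k, Clo 𝔸 k ⊆ C k := by
    rintro k _ ⟨t, rfl⟩
    induction t with
    | var i => exact h1.1 k i
    | v s t u hs ht hu =>
      have := h1.2 3 k v ![fun x => s.eval 𝔸 x, fun x => t.eval 𝔸 x, fun x => u.eval 𝔸 x] hv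
        (by intro i; fin_cases i; exacts [hs, ht, hu])
      convert this using 1
      funext x
      show v ![s.eval 𝔸 x, t.eval 𝔸 x, u.eval 𝔸 x] = _
      congr 1
      funext i
      fin_cases i <;> rfl
    | w s t u r hs ht hu hr =>
      have := h1.2 4 k w ![fun x => s.eval 𝔸 x, fun x => t.eval 𝔸 x, fun x => u.eval 𝔸 x,
        fun x => r.eval 𝔸 x] hw
        (by intro i; fin_cases i; exacts [hs, ht, hu, hr])
      convert this using 1
      funext x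
      show w ![s.eval 𝔸 x, t.eval 𝔸 x, u.eval 𝔸 x, r.eval 𝔸 x] = _
      congr 1
      funext i
      fin_cases i <;> rfl
  have hC : Clo 𝔸 = C := h3 _ (clo_isCl 𝔸) (clo_hasBW hBW) hsub
  refine ⟨𝔸, ⟨hBW, ?_⟩, hC.symm⟩
  intro p q hpq
  have hD : Clo (𝔸.der p q) = C := h3 _ (clo_isCl _) (clo_hasBW hpq)
    (fun k => (clo_der_subset 𝔸 p q k).trans (hsub k))
  have hv' : v ∈ Clo (𝔸.der p q) 3 := by rw [hD]; exact hv
  have hw' : w ∈ Clo (𝔸.der p q) 4 := by rw [hD]; exact hw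
  obtain ⟨r, hr⟩ := hv'
  obtain ⟨s, hs⟩ := hw'
  refine ⟨r, s, ?_, ?_⟩
  · intro x y z
    exact congrFun hr ![x, y, z]
  · intro x y z u
    exact congrFun hs ![x, y, z, u]

end Pool.Agent.BWC
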