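import Pool.Agent.Lib.MP_d14a7e_al.CenterDefs

set_option autoImplicit false
set_option linter.all false

/-! Center lemma, part B: essential relations of arity `k ≥ 3` give essential relations of
arity `k+1`. -/

namespace Pool.Agent.BWC

variable {A B C : Type}

/-- reindexing -/
theorem Ess.reindex {𝔸 : Alg A} {N U : Set A} {ι κ : Type} (e : ι ≃ κ) (h : Ess 𝔸 N U ι) :
    Ess 𝔸 N U κ := by
  obtain ⟨S, hS, hSU, hSN, hw⟩ := h
  refine ⟨{g | g ∘ e ∈ S}, ⟨?_, ?_⟩, ?_, ?_, ?_⟩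
  · intro x hx y hy z hz
    exact hS.1 _ hx _ hy _ hz
  · intro x hx y hy z hz u hu
    exact hS.2 _ hx _ hy _ hz _ hu
  · intro r hr i
    have := hSU _ hr (e.symm i)
    simpa using this
  · intro r hr
    obtain ⟨i, hi⟩ := hSN _ hr
    exact ⟨e i, hi⟩
  · intro i
    obtain ⟨r, hr, hr'⟩ := hw (e.symm i)
    refine ⟨r ∘ e.symm, ?_, ?_⟩
    · show (r ∘ e.symm) ∘ e ∈ S
      have : (r ∘ e.symm) ∘ e = r := by
        funext j
        simp
      rw [this]
      exact hr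
    · intro j hj
      apply hr'
      intro hh
      exact hj (by simpa using hh)

/-- the set of entries at `none` of the tuples with all other entries in `N` -/
private def QQ {μ : Type} (N : Set A) (S : Set (Option μ → A)) : Set A :=
  {z | ∃ r ∈ S, r none = z ∧ ∀ j, r (some j) ∈ N}

private def ER (𝔸 : Alg A) (N U : Set A) {ι : Type} (S : Set (ι → A)) : Prop :=
  Sub (Alg.pi fun _ : ι => 𝔸) S ∧ (∀ r ∈ S, ∀ i, r i ∈ U) ∧
    (∀ r ∈ S, ∃ i, r i ∉ N) ∧ ∀ i, ∃ r ∈ S, ∀ j, j ≠ i → r j ∈ N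

private theorem QQ_sub {𝔸 : Alg A} {N U : Set A} (hN : Sub 𝔸 N) {μ : Type}
    {S : Set (Option μ → A)} (hS : ER 𝔸 N U S) : Sub 𝔸 (QQ N S) := by
  constructor
  · rintro x ⟨p, hp, hp0, hp1⟩ y ⟨q, hq, hq0, hq1⟩ z ⟨r, hr, hr0, hr1⟩
    refine ⟨_, hS.1.1 _ hp _ hq _ hr, ?_, ?_⟩
    · show 𝔸.v (p none) (q none) (r none) = _
      rw [hp0, hq0, hr0]
    · intro j
      exact hN.1 _ (hp1 j) _ (hq1 j) _ (hr1 j)
  · rintro x ⟨p, hp, hp0, hp1⟩ y ⟨q, hq, hq0, hq1⟩ z ⟨r, hr, hr0, hr1⟩ u ⟨s, hs, hs0, hs1⟩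
    refine ⟨_, hS.1.2 _ hp _ hq _ hr _ hs, ?_, ?_⟩
    · show 𝔸.w (p none) (q none) (r none) (s none) = _
      rw [hp0, hq0, hr0, hs0]
    · intro j
      exact hN.2 _ (hp1 j) _ (hq1 j) _ (hr1 j) _ (hs1 j)

/-- restriction of the coordinate `none` to a subuniverse which contains `N` and meets `Q` -/
private theorem ER_restrict {𝔸 : Alg A} {N U : Set A} {μ : Type}
    {S : Set (Option μ → A)} (hS : ER 𝔸 N U S) {W : Set A} (hW : Sub 𝔸 W) (hNW : N ⊆ W)
    (hne : (QQ N S ∩ W).Nonempty) :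
    ER 𝔸 N U {r | r ∈ S ∧ r none ∈ W} ∧ QQ N {r | r ∈ S ∧ r none ∈ W} = QQ N S ∩ W := by
  refine ⟨⟨⟨?_, ?_⟩, ?_, ?_, ?_⟩, ?_⟩
  · intro x hx y hy z hz
    exact ⟨hS.1.1 _ hx.1 _ hy.1 _ hz.1, hW.1 _ hx.2 _ hy.2 _ hz.2⟩
  · intro x hx y hy z hz u hu
    exact ⟨hS.1.2 _ hx.1 _ hy.1 _ hz.1 _ hu.1, hW.2 _ hx.2 _ hy.2 _ hz.2 _ hu.2⟩
  · intro r hr i
    exact hS.2.1 r hr.1 i
  · intro r hr
    exact hS.2.2.1 r hr.1
  · intro i
    cases i with
    | none =>
      obtain ⟨z, ⟨r, hr, hr0, hr1⟩, hzW⟩ := hne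
      refine ⟨r, ⟨hr, by rw [hr0]; exact hzW⟩, ?_⟩
      intro j hj
      cases j with
      | none => exact absurd rfl hj
      | some j => exact hr1 j
    | some i =>
      obtain ⟨r, hr, hr1⟩ := hS.2.2.2 (some i)
      exact ⟨r, ⟨hr, hNW (hr1 none (by simp))⟩, hr1⟩
  · ext z
    constructor
    · rintro ⟨r, ⟨hr, hrW⟩, hr0, hr1⟩
      exact ⟨⟨r, hr, hr0, hr1⟩, by rw [← hr0]; exact hrW⟩
    · rintro ⟨⟨r, hr, hr0, hr1⟩, hz⟩
      exact ⟨r, ⟨hr, by rw [hr0]; exact hz⟩, hr0, hr1⟩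

/-- a minimal choice -/
private theorem exists_min [Finite A] {𝔸 : Alg A} {N U : Set A} {μ : Type}
    (h : Ess 𝔸 N U (Option μ)) :
    ∃ S : Set (Option μ → A), ER 𝔸 N U S ∧ ∀ W : Set A, Sub 𝔸 W → N ⊆ W →
      (QQ N S ∩ W).Nonempty → QQ N S ⊆ W := by
  classical
  have hex : ∃ n : ℕ, ∃ S : Set (Option μ → A), ER 𝔸 N U S ∧ (QQ N S).ncard = n := by
    obtain ⟨S, hS⟩ := h
    exact ⟨_, S, hS, rfl⟩
  obtain ⟨S, hS, hn⟩ := Nat.find_spec hex
  refine ⟨S, hS, ?_⟩
  intro W hW hNW hne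
  obtain ⟨h1, h2⟩ := ER_restrict hS hW hNW hne
  have h3 : Nat.find hex ≤ (QQ N S ∩ W).ncard := Nat.find_min' hex ⟨_, h1, by rw [h2]⟩
  rw [← hn] at h3
  have h4 : QQ N S ∩ W = QQ N S :=
    Set.eq_of_subset_of_ncard_le Set.inter_subset_left h3 (Set.toFinite _)
  rw [← h4]
  exact Set.inter_subset_right

private def T1 {κ : Type} (z : A) (g : Option (Option (Option (Option κ))) → A) :
    Option (Option (Option κ)) → A
  | none => z
  | some j => g (some (some j))

private def T2 {κ : Type} (z x y : A) (b : κ → A) : Option (Option (Option κ)) → A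
  | none => z
  | some none => x
  | some (some none) => y
  | some (some (some k)) => b k

private def GG {κ : Type} (x y : A) (r : Option (Option (Option κ)) → A) :
    Option (Option (Option (Option κ))) → A
  | none => x
  | some none => y
  | some (some j) => r (some j)

private theorem T1_GG {κ : Type} (x y : A) (r : Option (Option (Option κ)) → A) :
    T1 (r none) (GG x y r) = r := by
  funext i
  cases i with
  | none => rfl
  | some i => rfl

private theorem T2_self {κ : Type} (r : Option (Option (Option κ)) → A) :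
    T2 (r none) (r (some none)) (r (some (some none))) (fun k => r (some (some (some k)))) = r := by
  funext i
  rcases i with _ | _ | _ | i <;> rfl

private theorem T1_v {κ : Type} (𝔸 : Alg A) (z z' z'' : A)
    (g g' g'' : Option (Option (Option (Option κ))) → A) :
    T1 (𝔸.v z z' z'') ((Alg.pi fun _ => 𝔸).v g g' g'') =
      (Alg.pi fun _ => 𝔸).v (T1 z g) (T1 z' g') (T1 z'' g'') := by
  funext i
  cases i <;> rfl

private theorem T1_w {κ : Type} (𝔸 : Alg A) (z z' z'' z3 : A)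
    (g g' g'' g3 : Option (Option (Option (Option κ))) → A) :
    T1 (𝔸.w z z' z'' z3) ((Alg.pi fun _ => 𝔸).w g g' g'' g3) =
      (Alg.pi fun _ => 𝔸).w (T1 z g) (T1 z' g') (T1 z'' g'') (T1 z3 g3) := by
  funext i
  cases i <;> rfl

private theorem T2_v {κ : Type} (𝔸 : Alg A) (z z' z'' x x' x'' y y' y'' : A) (b b' b'' : κ → A) :
    T2 (𝔸.v z z' z'') (𝔸.v x x' x'') (𝔸.v y y' y'') ((Alg.pi fun _ => 𝔸).v b b' b'') =
      (Alg.pi fun _ => 𝔸).v (T2 z x y b) (T2 z' x' y' b') (T2 z'' x'' y'' b'') := by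
  funext i
  rcases i with _ | _ | _ | i <;> rfl

private theorem T2_w {κ : Type} (𝔸 : Alg A) (z z' z'' z3 x x' x'' x3 y y' y'' y3 : A)
    (b b' b'' b3 : κ → A) :
    T2 (𝔸.w z z' z'' z3) (𝔸.w x x' x'' x3) (𝔸.w y y' y'' y3)
      ((Alg.pi fun _ => 𝔸).w b b' b'' b3) =
      (Alg.pi fun _ => 𝔸).w (T2 z x y b) (T2 z' x' y' b') (T2 z'' x'' y'' b'')
        (T2 z3 x3 y3 b3) := by
  funext i
  rcases i with _ | _ | _ | i <;> rfl

/-- Key step.  Let `N` be a subuniverse of `U` such that for `a ∈ U`, `a ∉ N` the pair `(a,a)` is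
not generated by `{a} × N ∪ N × {a}`.
Arity `k = Option (Option (Option κ))`, `κ` finite.  Write a tuple as `(x, z)` with
`z = r none`, `x = r ∘ some`.
Among all essential relations `S` of this arity choose one for which
`Q = {z | ∃ r ∈ S, r none = z ∧ ∀ j, r (some j) ∈ N}` has the least cardinality.
`Q` is nonempty (witness for the coordinate `none`) and disjoint from `N`.  Take `a ∈ Q`, let
`Δ = Sg ({a} × N ∪ N × {a})`, symmetric, contained in `U × U`.
(1) `Q ∩ {z | (a,z) ∈ Δ} = ∅`: otherwise `{r ∈ S | (a, r none) ∈ Δ}` is essential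
(`N ⊆ {z | (a,z) ∈ Δ}`, so the witnesses for the other coordinates stay; for the coordinate
`none` take a witness with last entry in the intersection) with a smaller `Q`
(it misses `a` by the hypothesis).
(2) `Q ∩ {z | ∃ q ∈ Q, (q,z) ∈ Δ} = ∅`: `a` is not in this set by (1) and symmetry, `N` is
contained in `{z | ∃ q ∈ Q, (q,z) ∈ Δ}`, so otherwise we get a smaller `Q` again.
So `Δ ∩ Q² = ∅`.
New relation, arity `Option⁴ κ`: all `g` such that there are `z z' : A` and `b : κ → A` with values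
in `N` with: the tuple (`none ↦ z`, `some j ↦ g (some (some j))`) is in `S`,
the tuple (`none ↦ z'`, `some none ↦ g none`, `some (some none) ↦ g (some none)`,
`some (some (some k)) ↦ b k`) is in `S`, and `(z, z') ∈ Δ`.
It is a subuniverse, avoids `N^k` (both `z, z'` would be in `Q`), witnesses: for
`some (some j)`: witness `r` of `S` for `some j` together with a tuple of `S` with `z' = a` and all
other entries in `N`, `(z, a) ∈ Δ` as `z ∈ N`;
for `none` and `some none`: first tuple with `z = a` and all others in `N`, second tuple: the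
witness of `S` for the coordinate `some none`, resp. `some (some none)`, it has `z' ∈ N`. -/
theorem ess_step [Finite A] {𝔸 : Alg A} (hA : IsBW 𝔸) {N U : Set A} (hU : Sub 𝔸 U)
    (hN : Sub 𝔸 N) (hNU : N ⊆ U)
    (hZ : ∀ a ∈ U, a ∉ N →
      (a, a) ∉ Sg (𝔸.prod 𝔸) ({p | p.1 = a ∧ p.2 ∈ N} ∪ {p | p.1 ∈ N ∧ p.2 = a}))
    {κ : Type} [Finite κ] (h : Ess 𝔸 N U (Option (Option (Option κ)))) :
    Ess 𝔸 N U (Option (Option (Option (Option κ)))) := by
  obtain ⟨S, hS, hmin⟩ := exists_min h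
  -- the set `Q`
  have hQs : Sub 𝔸 (QQ N S) := QQ_sub hN hS
  have hQN : ∀ z ∈ QQ N S, z ∉ N := by
    rintro z ⟨r, hr, hr0, hr1⟩ hz
    obtain ⟨i, hi⟩ := hS.2.2.1 r hr
    cases i with
    | none => exact hi (by rw [hr0]; exact hz)
    | some i => exact hi (hr1 i)
  have hQU : QQ N S ⊆ U := by
    rintro z ⟨r, hr, hr0, hr1⟩
    rw [← hr0]
    exact hS.2.1 r hr none
  obtain ⟨q, hq, hq1⟩ := hS.2.2.2 none
  have hq1' : ∀ j, q (some j) ∈ N := fun j => hq1 _ (by simp)
  set a := q none with ha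
  have haQ : a ∈ QQ N S := ⟨q, hq, rfl, hq1'⟩
  have haU : a ∈ U := hQU haQ
  have haN : a ∉ N := hQN a haQ
  set G : Set (A × A) := {p | p.1 = a ∧ p.2 ∈ N} ∪ {p | p.1 ∈ N ∧ p.2 = a} with hG
  set Δ := Sg (𝔸.prod 𝔸) G with hΔ
  have hΔs : Sub (𝔸.prod 𝔸) Δ := Sg_sub _ _
  have haa : (a, a) ∉ Δ := hZ a haU haN
  have han : ∀ n ∈ N, (a, n) ∈ Δ := fun n hn => subset_Sg _ _ (Or.inl ⟨rfl, hn⟩)
  have hna : ∀ n ∈ N, (n, a) ∈ Δ := fun n hn => subset_Sg _ _ (Or.inr ⟨hn, rfl⟩)
  have hsym : ∀ x y, (x, y) ∈ Δ → (y, x) ∈ Δ := by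
    have h1 : Δ ⊆ inv Δ := by
      apply Sg_min hΔs.inv
      rintro ⟨x, y⟩ hxy
      rcases hxy with hxy | hxy
      · obtain ⟨h1, h2⟩ := hxy
        simp only at h1 h2
        subst h1
        exact hna _ h2
      · obtain ⟨h1, h2⟩ := hxy
        simp only at h1 h2
        subst h2
        exact han _ h1
    intro x y hxy
    exact h1 hxy
  -- (1)
  have h1 : ∀ z ∈ QQ N S, (a, z) ∉ Δ := by
    intro z hz haz
    have hW : Sub 𝔸 {z | (a, z) ∈ Δ} := by
      constructor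
      · intro x hx y hy z hz
        have := hΔs.1 _ hx _ hy _ hz
        have h2 : (𝔸.prod 𝔸).v (a, x) (a, y) (a, z) = (a, 𝔸.v x y z) := by
          show (𝔸.v a a a, _) = _
          rw [hA.vi]
        rwa [h2] at this
      · intro x hx y hy z hz u hu
        have := hΔs.2 _ hx _ hy _ hz _ hu
        have h2 : (𝔸.prod 𝔸).w (a, x) (a, y) (a, z) (a, u) = (a, 𝔸.w x y z u) := by
          show (𝔸.w a a a a, _) = _
          rw [hA.wi]
        rwa [h2] at this
    exact haa (hmin _ hW (fun n hn => han n hn) ⟨z, hz, haz⟩ haQ)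
  -- (2)
  have h2 : ∀ x ∈ QQ N S, ∀ y ∈ QQ N S, (x, y) ∉ Δ := by
    intro x hx y hy hxy
    have hW : Sub 𝔸 (img Δ (QQ N S)) := hΔs.img hQs
    have h3 := hmin _ hW (fun n hn => ⟨a, haQ, han n hn⟩) ⟨y, hy, x, hx, hxy⟩ haQ
    obtain ⟨x', hx', hx'a⟩ := h3
    exact h1 x' hx' (hsym _ _ hx'a)
  -- the new relation
  refine ⟨{g | ∃ (z z' : A) (b : κ → A), (∀ k, b k ∈ N) ∧ T1 z g ∈ S ∧
    T2 z' (g none) (g (some none)) b ∈ S ∧ (z, z') ∈ Δ}, ⟨?_, ?_⟩, ?_, ?_, ?_⟩
  · rintro g ⟨z, z', b, hb, hg1, hg2, hz⟩ g' ⟨y, y', b', hb', hg1', hg2', hz'⟩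
      g'' ⟨x, x', b'', hb'', hg1'', hg2'', hz''⟩
    refine ⟨𝔸.v z y x, 𝔸.v z' y' x', (Alg.pi fun _ => 𝔸).v b b' b'', ?_, ?_, ?_, ?_⟩
    · intro k
      exact hN.1 _ (hb k) _ (hb' k) _ (hb'' k)
    · rw [T1_v]
      exact hS.1.1 _ hg1 _ hg1' _ hg1''
    · have := hS.1.1 _ hg2 _ hg2' _ hg2''
      rw [← T2_v] at this
      exact this
    · exact hΔs.1 _ hz _ hz' _ hz''
  · rintro g ⟨z, z', b, hb, hg1, hg2, hz⟩ g' ⟨y, y', b', hb', hg1', hg2', hz'⟩
      g'' ⟨x, x', b'', hb'', hg1'', hg2'', hz''⟩ g3 ⟨u, u', b3, hb3, hg13, hg23, hz3⟩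
    refine ⟨𝔸.w z y x u, 𝔸.w z' y' x' u', (Alg.pi fun _ => 𝔸).w b b' b'' b3, ?_, ?_, ?_, ?_⟩
    · intro k
      exact hN.2 _ (hb k) _ (hb' k) _ (hb'' k) _ (hb3 k)
    · rw [T1_w]
      exact hS.1.2 _ hg1 _ hg1' _ hg1'' _ hg13
    · have := hS.1.2 _ hg2 _ hg2' _ hg2'' _ hg23
      rw [← T2_w] at this
      exact this
    · exact hΔs.2 _ hz _ hz' _ hz'' _ hz3
  · rintro g ⟨z, z', b, hb, hg1, hg2, hz⟩ i
    rcases i with _ | _ | i
    · exact hS.2.1 _ hg2 (some none)
    · exact hS.2.1 _ hg2 (some (some none))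
    · exact hS.2.1 _ hg1 (some i)
  · rintro g ⟨z, z', b, hb, hg1, hg2, hz⟩
    by_contra hcon
    push Not at hcon
    apply h2 z ⟨_, hg1, rfl, fun j => hcon _⟩ z' ⟨_, hg2, rfl, ?_⟩ hz
    intro j
    rcases j with _ | _ | j
    · exact hcon none
    · exact hcon (some none)
    · exact hb j
  · intro i
    rcases i with _ | _ | i
    · -- witness for `none`
      obtain ⟨r, hr, hr1⟩ := hS.2.2.2 (some none)
      refine ⟨GG (r (some none)) (r (some (some none))) q, ⟨a, r none,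
        fun k => r (some (some (some k))), ?_, ?_, ?_, ?_⟩, ?_⟩
      · intro k
        exact hr1 _ (by simp)
      · rw [ha, T1_GG]
        exact hq
      · show T2 _ (r (some none)) (r (some (some none))) _ ∈ S
        rw [T2_self]
        exact hr
      · exact han _ (hr1 _ (by simp))
      · intro j hj
        rcases j with _ | _ | j
        · exact absurd rfl hj
        · exact hr1 _ (by simp)
        · exact hq1' j
    · -- witness for `some none`
      obtain ⟨r, hr, hr1⟩ := hS.2.2.2 (some (some none))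
      refine ⟨GG (r (some none)) (r (some (some none))) q, ⟨a, r none,
        fun k => r (some (some (some k))), ?_, ?_, ?_, ?_⟩, ?_⟩
      · intro k
        exact hr1 _ (by simp)
      · rw [ha, T1_GG]
        exact hq
      · show T2 _ (r (some none)) (r (some (some none))) _ ∈ S
        rw [T2_self]
        exact hr
      · exact han _ (hr1 _ (by simp))
      · intro j hj
        rcases j with _ | _ | j
        · exact hr1 _ (by simp)
        · exact absurd rfl hj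
        · exact hq1' j
    · -- witness for `some (some i)`
      obtain ⟨r, hr, hr1⟩ := hS.2.2.2 (some i)
      refine ⟨GG (q (some none)) (q (some (some none))) r, ⟨r none, a,
        fun k => q (some (some (some k))), ?_, ?_, ?_, ?_⟩, ?_⟩
      · intro k
        exact hq1' _
      · rw [T1_GG]
        exact hr
      · show T2 _ (q (some none)) (q (some (some none))) _ ∈ S
        rw [ha, T2_self]
        exact hq
      · exact hna _ (hr1 _ (by simp))
      · intro j hj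
        rcases j with _ | _ | j
        · exact hq1' _
        · exact hq1' _
        · refine hr1 (some j) ?_
          intro hh
          apply hj
          rw [hh]

end Pool.Agent.BWC
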