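import Pool.Agent.Lib.MP_d14a7e_al.CenterDefs

set_option autoImplicit false
set_option linter.all false

/-! Center lemma, part C: no ternary essential relation implies 3-absorption. -/

namespace Pool.Agent.BWC

variable {A B C : Type}

/-- triples in `U` with at least two entries in `N` -/
private def cgood (N U : Set A) (z : Fin 3 → A) : Prop :=
  (∀ i, z i ∈ U) ∧ ∃ i, ∀ j, j ≠ i → z j ∈ N

private theorem centerC_main {𝔸 : Alg A} {N U : Set A} (hU : Sub 𝔸 U)
    (hN : Sub 𝔸 N) (h : ¬ Ess 𝔸 N U (Fin 3)) :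
    ∀ (n : ℕ) (T : Finset (Fin 3 → A)), T.card = n → (∀ z ∈ T, cgood N U z) →
      ∃ t : Tm 3, ∀ z ∈ T, t.eval 𝔸 z ∈ N := by
  classical
  intro n
  induction n using Nat.strong_induction_on with
  | _ n ih =>
    intro T hT hg
    by_cases h2 : T.card ≤ 2
    · -- a variable works
      have hch : ∀ z : Fin 3 → A, ∃ i : Fin 3, z ∈ T → ∀ j, j ≠ i → z j ∈ N := by
        intro z
        by_cases hz : z ∈ T
        · obtain ⟨i, hi⟩ := (hg z hz).2
          exact ⟨i, fun _ => hi⟩
        · exact ⟨0, fun hz' => absurd hz' hz⟩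
      choose e he using hch
      have h3 : ∃ j : Fin 3, j ∉ T.image e := by
        by_contra hcon
        push Not at hcon
        have h4 : (Finset.univ : Finset (Fin 3)) ⊆ T.image e := fun j _ => hcon j
        have h5 := Finset.card_le_card h4
        have h6 : (T.image e).card ≤ T.card := Finset.card_image_le
        rw [Finset.card_univ, Fintype.card_fin] at h5
        omega
      obtain ⟨j, hj⟩ := h3
      refine ⟨Tm.var j, fun z hz => ?_⟩
      exact he z hz j fun hji => hj (hji ▸ Finset.mem_image_of_mem e hz)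
    · rw [not_le] at h2
      obtain ⟨z₀, hz₀, z₁, hz₁, z₂, hz₂, h01, h02, h12⟩ := Finset.two_lt_card.1 h2
      let z : Fin 3 → (Fin 3 → A) := ![z₀, z₁, z₂]
      have hz : ∀ i, z i ∈ T := by
        intro i; fin_cases i
        exacts [hz₀, hz₁, hz₂]
      have hinj : ∀ i j, j ≠ i → z j ≠ z i := by
        intro i j hij
        fin_cases i <;> fin_cases j <;> simp_all [z] <;>
          first | exact fun h => h01 h.symm | exact fun h => h02 h.symm | exact fun h => h12 h.symm
      let T' := T.filter fun y => ∀ i, y ≠ z i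
      let S : Set (Fin 3 → A) := {r | ∃ t : Tm 3, (∀ y ∈ T', t.eval 𝔸 y ∈ N) ∧
        ∀ i, r i = t.eval 𝔸 (z i)}
      have hS : Sub (Alg.pi fun _ : Fin 3 => 𝔸) S := by
        constructor
        · rintro r ⟨t, ht, hr⟩ r' ⟨t', ht', hr'⟩ r'' ⟨t'', ht'', hr''⟩
          refine ⟨Tm.v t t' t'', fun y hy => hN.1 _ (ht y hy) _ (ht' y hy) _ (ht'' y hy),
            fun i => ?_⟩
          show 𝔸.v (r i) (r' i) (r'' i) = _
          rw [hr, hr', hr'']; rfl
        · rintro r ⟨t, ht, hr⟩ r' ⟨t', ht', hr'⟩ r'' ⟨t'', ht'', hr''⟩ r₃ ⟨t₃, ht₃, hr₃⟩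
          refine ⟨Tm.w t t' t'' t₃, fun y hy => hN.2 _ (ht y hy) _ (ht' y hy) _ (ht'' y hy) _
            (ht₃ y hy), fun i => ?_⟩
          show 𝔸.w (r i) (r' i) (r'' i) (r₃ i) = _
          rw [hr, hr', hr'', hr₃]; rfl
      have hSU : ∀ r ∈ S, ∀ i, r i ∈ U := by
        rintro r ⟨t, ht, hr⟩ i
        rw [hr]
        exact hU.eval t (hg (z i) (hz i)).1
      have hwit : ∀ i, ∃ r ∈ S, ∀ j, j ≠ i → r j ∈ N := by
        intro i
        obtain ⟨t, ht⟩ := ih ((T.erase (z i)).card)
          (by rw [← hT]; exact Finset.card_erase_lt_of_mem (hz i)) (T.erase (z i)) rfl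
          (fun y hy => hg y (Finset.mem_of_mem_erase hy))
        refine ⟨fun k => t.eval 𝔸 (z k), ⟨t, fun y hy => ht y ?_, fun _ => rfl⟩, fun j hj => ?_⟩
        · have hy' := Finset.mem_filter.1 hy
          exact Finset.mem_erase.2 ⟨hy'.2 i, hy'.1⟩
        · exact ht _ (Finset.mem_erase.2 ⟨hinj i j hj, hz j⟩)
      have hex : ∃ r ∈ S, ∀ i, r i ∈ N := by
        by_contra hcon
        push Not at hcon
        exact h ⟨S, hS, hSU, hcon, hwit⟩
      obtain ⟨r, ⟨t, ht, hr⟩, hrN⟩ := hex
      refine ⟨t, fun y hy => ?_⟩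
      by_cases hyz : ∀ i, y ≠ z i
      · exact ht y (Finset.mem_filter.2 ⟨hy, hyz⟩)
      · push Not at hyz
        obtain ⟨i, rfl⟩ := hyz
        rw [← hr i]; exact hrN i

/-- If there is no ternary essential relation then `N` 3-absorbs `U`.
Proof: for a finite set `T` of triples `z : Fin 3 → A` with entries in `U`, at least two of them
in `N`, there is `t : Tm 3` with `t.eval 𝔸 z ∈ N` for all `z ∈ T`.  Induction on the
cardinality of `T` (as a `Finset`; `A` is finite).
`|T| ≤ 2`: two triples have a common position with both entries in `N`: a variable works.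
`|T| ≥ 3`: pick distinct `z₁ z₂ z₃ ∈ T`, `T' = T \ {z₁,z₂,z₃}`;
`S = {(t z₁, t z₂, t z₃) | t : Tm 3, t z ∈ N for z ∈ T'}` is a subuniverse of `A^3` (index `Fin 3`)
with entries in `U`; by induction (for `T \ {zᵢ}`) it has the required witnesses; since there is no
ternary essential relation it meets `N^3`.
Then apply it to the set of all such triples. -/
theorem abs3_of_not_ess [Finite A] {𝔸 : Alg A} (hA : IsBW 𝔸) {N U : Set A} (hU : Sub 𝔸 U)
    (hN : Sub 𝔸 N) (hNU : N ⊆ U) (h : ¬ Ess 𝔸 N U (Fin 3)) : Abs3 𝔸 N U := by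
  classical
  have hfin : {z : Fin 3 → A | cgood N U z}.Finite := Set.toFinite _
  obtain ⟨t, ht⟩ := centerC_main hU hN h _ hfin.toFinset rfl
    (fun z hz => by simpa using hz)
  have ht' : ∀ z : Fin 3 → A, cgood N U z → t.eval 𝔸 z ∈ N := fun z hz =>
    ht z (by simpa using hz)
  refine ⟨t, hN, hNU, ?_, ?_, ?_⟩
  · intro x hx y hy z hz
    refine ht' ![x, y, z] ⟨?_, 0, ?_⟩
    · intro i; fin_cases i
      exacts [hx, hNU hy, hNU hz]
    · intro j hj; fin_cases j
      exacts [absurd rfl hj, hy, hz]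
  · intro x hx y hy z hz
    refine ht' ![x, y, z] ⟨?_, 1, ?_⟩
    · intro i; fin_cases i
      exacts [hNU hx, hy, hNU hz]
    · intro j hj; fin_cases j
      exacts [hx, absurd rfl hj, hz]
  · intro x hx y hy z hz
    refine ht' ![x, y, z] ⟨?_, 2, ?_⟩
    · intro i; fin_cases i
      exacts [hNU hx, hNU hy, hz]
    · intro j hj; fin_cases j
      exacts [hx, hy, absurd rfl hj]

end Pool.Agent.BWC
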