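import Pool.Agent.Lib.MP_d14a7e_al.CenterA
import Pool.Agent.Lib.MP_d14a7e_al.CenterB
import Pool.Agent.Lib.MP_d14a7e_al.CenterC

set_option autoImplicit false
set_option linter.all false

/-! Center lemma. -/

namespace Pool.Agent.BWC

variable {A B C : Type}

/-- **Center lemma.** -/
theorem center [Finite A] [Finite B] {𝔸 : Alg A} {𝔹 : Alg B} (hA : IsBW 𝔸) (hB : IsBW 𝔹)
    {Θ : Set (A × B)} (hΘ : Sub (𝔸.prod 𝔹) Θ) (hM : BF 𝔹 (cod Θ)) :
    Abs3 𝔸 (Cen Θ) (dom Θ) := by
  refine abs3_of_not_ess hA hΘ.dom (Cen_sub hB hΘ) (fun a ha => ha.1) ?_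
  intro h3
  have step : ∀ n : ℕ, Ess 𝔸 (Cen Θ) (dom Θ) (Option (Option (Option (Fin n)))) := by
    intro n
    induction n with
    | zero =>
      refine Ess.reindex (Finite.card_eq.mp ?_).some h3
      simp
    | succ n ih =>
      have := ess_step hA hΘ.dom (Cen_sub hB hΘ) (fun a ha => ha.1)
        (fun a ha ha' => center_Z hA hB hΘ hM ha ha') ih
      refine Ess.reindex (Finite.card_eq.mp ?_).some this
      simp
  obtain ⟨ι, hfin, hcard, hne⟩ := center_tree hA hB hΘ hM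
  apply hne
  obtain ⟨n, hn⟩ := Nat.exists_eq_add_of_le hcard
  refine Ess.reindex (Finite.card_eq.mp ?_).some (step n)
  rw [hn]
  simp
  omega

end Pool.Agent.BWC
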