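import Pool.Agent.Lib.MP_d14a7e_al.CenterDefs

set_option autoImplicit false
set_option linter.all false

/-! Center lemma, part A: the star powers of `v` absorb the center. -/

namespace Pool.Agent.BWC

variable {A B C : Type}

/-- The center is a subuniverse.  Easy: if `(a,m),(b,m),(c,m) ∈ Θ` for all `m` then, by
idempotence in `𝔹`, `(v a b c, m) = v((a,m),(b,m),(c,m)) ∈ Θ`. -/
theorem Cen_sub {𝔸 : Alg A} {𝔹 : Alg B} (hB : IsBW 𝔹) {Θ : Set (A × B)}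
    (hΘ : Sub (𝔸.prod 𝔹) Θ) : Sub 𝔸 (Cen Θ) := by
  constructor
  · intro x hx y hy z hz
    refine ⟨hΘ.dom.1 x hx.1 y hy.1 z hz.1, fun m hm => ?_⟩
    have h := hΘ.1 (x, m) (hx.2 m hm) (y, m) (hy.2 m hm) (z, m) (hz.2 m hm)
    have h2 : (𝔸.prod 𝔹).v (x, m) (y, m) (z, m) = (𝔸.v x y z, m) := by
      show (𝔸.v x y z, 𝔹.v m m m) = _
      rw [hB.vi]
    rwa [h2] at h
  · intro x hx y hy z hz u hu
    refine ⟨hΘ.dom.2 x hx.1 y hy.1 z hz.1 u hu.1, fun m hm => ?_⟩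
    have h := hΘ.2 (x, m) (hx.2 m hm) (y, m) (hy.2 m hm) (z, m) (hz.2 m hm) (u, m) (hu.2 m hm)
    have h2 : (𝔸.prod 𝔹).w (x, m) (y, m) (z, m) (u, m) = (𝔸.w x y z u, m) := by
      show (𝔸.w x y z u, 𝔹.w m m m m) = _
      rw [hB.wi]
    rwa [h2] at h

/-- the fibre of `Θ` over `a` -/
def centerA_fib (Θ : Set (A × B)) (a : A) : Set B := {m | (a, m) ∈ Θ}

theorem centerA_fib_sub {𝔸 : Alg A} {𝔹 : Alg B} (hA : IsBW 𝔸) {Θ : Set (A × B)}
    (hΘ : Sub (𝔸.prod 𝔹) Θ) (a : A) : Sub 𝔹 (centerA_fib Θ a) := by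
  constructor
  · intro x hx y hy z hz
    have h := hΘ.1 (a, x) hx (a, y) hy (a, z) hz
    have h2 : (𝔸.prod 𝔹).v (a, x) (a, y) (a, z) = (a, 𝔹.v x y z) := by
      show (𝔸.v a a a, 𝔹.v x y z) = _
      rw [hA.vi]
    rwa [h2] at h
  · intro x hx y hy z hz u hu
    have h := hΘ.2 (a, x) hx (a, y) hy (a, z) hz (a, u) hu
    have h2 : (𝔸.prod 𝔹).w (a, x) (a, y) (a, z) (a, u) = (a, 𝔹.w x y z u) := by
      show (𝔸.w a a a a, 𝔹.w x y z u) = _
      rw [hA.wi]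
    rwa [h2] at h

theorem centerA_fib_ne {Θ : Set (A × B)} {a : A} (ha : a ∈ dom Θ) (haC : a ∉ Cen Θ) :
    centerA_fib Θ a ≠ cod Θ := by
  intro h
  apply haC
  refine ⟨ha, fun m hm => ?_⟩
  rw [← h] at hm
  exact hm

theorem centerA_fib_subset {Θ : Set (A × B)} {a : A} : centerA_fib Θ a ⊆ cod Θ :=
  fun m hm => ⟨a, hm⟩

/-- (Z).  Let `a ∉ Cen Θ`.  Then `(a,a)` is not generated by `{a} × Cen ∪ Cen × {a}`.
Proof: put `L = {m | (a,m) ∈ Θ}`, a nonempty proper subuniverse of `M = cod Θ`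
(`hM` = BF says it is not 2-absorbing).
The set `G` of all pairs `(p,q)` such that there is `t : Tm 2` with
`∀ l ∈ L, ∀ m ∈ M, (p, t(l,m)) ∈ Θ` and `∀ m ∈ M, ∀ l ∈ L, (q, t(m,l)) ∈ Θ`
is a subuniverse of `𝔸 × 𝔸` (combine the terms by `Tm.v`, `Tm.w`) and contains the generators:
`(a,c)` by `t = var 0`, `(c,a)` by `t = var 1` (`c` in the center).
If `(a,a) ∈ G`, then `t` shows that `L` 2-absorbs `M`, contradiction. -/
theorem center_Z {𝔸 : Alg A} {𝔹 : Alg B} (hA : IsBW 𝔸) (hB : IsBW 𝔹) {Θ : Set (A × B)}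
    (hΘ : Sub (𝔸.prod 𝔹) Θ) (hM : BF 𝔹 (cod Θ)) {a : A} (ha : a ∈ dom Θ) (haC : a ∉ Cen Θ) :
    (a, a) ∉ Sg (𝔸.prod 𝔸) ({p | p.1 = a ∧ p.2 ∈ Cen Θ} ∪ {p | p.1 ∈ Cen Θ ∧ p.2 = a}) := by
  intro hmem
  have hG : Sub (𝔸.prod 𝔸) {p : A × A | ∃ t : Tm 2,
      (∀ l ∈ centerA_fib Θ a, ∀ m ∈ cod Θ, (p.1, t2 𝔹 t l m) ∈ Θ) ∧
      (∀ m ∈ cod Θ, ∀ l ∈ centerA_fib Θ a, (p.2, t2 𝔹 t m l) ∈ Θ)} := by
    constructor
    · rintro x ⟨r, hr1, hr2⟩ y ⟨s, hs1, hs2⟩ z ⟨t, ht1, ht2⟩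
      refine ⟨Tm.v r s t, fun l hl m hm => ?_, fun m hm l hl => ?_⟩
      · exact hΘ.1 _ (hr1 l hl m hm) _ (hs1 l hl m hm) _ (ht1 l hl m hm)
      · exact hΘ.1 _ (hr2 m hm l hl) _ (hs2 m hm l hl) _ (ht2 m hm l hl)
    · rintro x ⟨r, hr1, hr2⟩ y ⟨s, hs1, hs2⟩ z ⟨t, ht1, ht2⟩ u ⟨q, hq1, hq2⟩
      refine ⟨Tm.w r s t q, fun l hl m hm => ?_, fun m hm l hl => ?_⟩
      · exact hΘ.2 _ (hr1 l hl m hm) _ (hs1 l hl m hm) _ (ht1 l hl m hm) _ (hq1 l hl m hm)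
      · exact hΘ.2 _ (hr2 m hm l hl) _ (hs2 m hm l hl) _ (ht2 m hm l hl) _ (hq2 m hm l hl)
  obtain ⟨t, ht1, ht2⟩ := Sg_min hG (by
    rintro p (⟨h1, h2⟩ | ⟨h1, h2⟩)
    · refine ⟨Tm.var 0, fun l hl m hm => ?_, fun m hm l hl => ?_⟩
      · show (p.1, l) ∈ Θ
        rw [h1]
        exact hl
      · show (p.2, m) ∈ Θ
        exact h2.2 m hm
    · refine ⟨Tm.var 1, fun l hl m hm => ?_, fun m hm l hl => ?_⟩
      · show (p.1, m) ∈ Θ
        exact h1.2 m hm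
      · show (p.2, l) ∈ Θ
        rw [h2]
        exact hl) hmem
  apply centerA_fib_ne ha haC
  apply hM
  · obtain ⟨b, hb⟩ := ha
    exact ⟨b, hb⟩
  · exact ⟨t, centerA_fib_sub hA hΘ a, centerA_fib_subset, fun x hx y hy => ht2 x hx y hy,
      fun x hx y hy => ht1 x hx y hy⟩

/-- index types of ternary trees -/
def centerA_Tr : ℕ → Type
  | 0 => Unit
  | K + 1 => Fin 3 × centerA_Tr K

/-- star powers of `v` -/
def centerA_V (𝔸 : Alg A) : (K : ℕ) → (centerA_Tr K → A) → A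
  | 0, x => x ()
  | K + 1, x => 𝔸.v (centerA_V 𝔸 K fun s => x (0, s)) (centerA_V 𝔸 K fun s => x (1, s))
      (centerA_V 𝔸 K fun s => x (2, s))

theorem centerA_Tr_card (K : ℕ) : Finite (centerA_Tr K) ∧ Nat.card (centerA_Tr K) = 3 ^ K := by
  induction K with
  | zero =>
    refine ⟨inferInstanceAs (Finite Unit), ?_⟩
    show Nat.card Unit = 1
    simp
  | succ K ih =>
    obtain ⟨h1, h2⟩ := ih
    refine ⟨inferInstanceAs (Finite (Fin 3 × centerA_Tr K)), ?_⟩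
    show Nat.card (Fin 3 × centerA_Tr K) = 3 ^ (K + 1)
    rw [Nat.card_prod, h2, pow_succ, Nat.card_eq_fintype_card, Fintype.card_fin, mul_comm]

theorem centerA_V_mem {𝔸 : Alg A} {U : Set A} (hU : Sub 𝔸 U) (K : ℕ) (x : centerA_Tr K → A)
    (hx : ∀ s, x s ∈ U) : centerA_V 𝔸 K x ∈ U := by
  induction K with
  | zero => exact hx ()
  | succ K ih =>
    exact hU.1 _ (ih _ fun s => hx (0, s)) _ (ih _ fun s => hx (1, s)) _
      (ih _ fun s => hx (2, s))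

theorem centerA_V_pi {ι : Type} (𝔸 : Alg A) (K : ℕ) (r : centerA_Tr K → (ι → A)) (j : ι) :
    centerA_V (Alg.pi fun _ : ι => 𝔸) K r j = centerA_V 𝔸 K fun s => r s j := by
  induction K with
  | zero => rfl
  | succ K ih =>
    show 𝔸.v (centerA_V (Alg.pi fun _ : ι => 𝔸) K (fun s => r (0, s)) j)
      (centerA_V (Alg.pi fun _ : ι => 𝔸) K (fun s => r (1, s)) j)
      (centerA_V (Alg.pi fun _ : ι => 𝔸) K (fun s => r (2, s)) j) = _
    rw [ih, ih, ih]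
    rfl

/-- the step: one entry `c` outside the center -/
theorem centerA_step [Finite B] {𝔸 : Alg A} {𝔹 : Alg B} (hA : IsBW 𝔸) (hB : IsBW 𝔹)
    {Θ : Set (A × B)} (hΘ : Sub (𝔸.prod 𝔹) Θ) (hM : BF 𝔹 (cod Θ)) {c d : A} (hc : c ∈ dom Θ)
    (hcC : c ∉ Cen Θ)
    (h1 : ∀ m ∈ cod Θ, ∀ l ∈ centerA_fib Θ c, 𝔹.v m m l ∈ centerA_fib Θ d)
    (h2 : ∀ m ∈ cod Θ, ∀ l ∈ centerA_fib Θ c, 𝔹.v l l m ∈ centerA_fib Θ d) :
    (centerA_fib Θ c).ncard < (centerA_fib Θ d).ncard := by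
  have hsub : centerA_fib Θ c ⊆ centerA_fib Θ d := by
    intro l hl
    have h := h1 l (centerA_fib_subset hl) l hl
    rwa [hB.vi] at h
  apply Set.ncard_lt_ncard _ (Set.toFinite _)
  refine ⟨hsub, fun hcon => ?_⟩
  apply centerA_fib_ne hc hcC
  apply hM
  · obtain ⟨b, hb⟩ := hc
    exact ⟨b, hb⟩
  · refine ⟨Tm.v (Tm.var 0) (Tm.var 0) (Tm.var 1), centerA_fib_sub hA hΘ c, centerA_fib_subset,
      fun x hx y hy => hcon (h1 x hx y hy), fun x hx y hy => hcon (h2 y hy x hx)⟩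

theorem centerA_claim [Finite B] {𝔸 : Alg A} {𝔹 : Alg B} (hA : IsBW 𝔸) (hB : IsBW 𝔹)
    {Θ : Set (A × B)} (hΘ : Sub (𝔸.prod 𝔹) Θ) (hM : BF 𝔹 (cod Θ)) (K : ℕ)
    (x : centerA_Tr K → A) (hx : ∀ s, x s ∈ dom Θ) (s₀ : centerA_Tr K)
    (hs : ∀ s, s ≠ s₀ → x s ∈ Cen Θ) :
    centerA_V 𝔸 K x ∈ Cen Θ ∨ K + 1 ≤ (centerA_fib Θ (centerA_V 𝔸 K x)).ncard := by
  induction K with
  | zero =>
    right
    obtain ⟨b, hb⟩ := hx ()
    have h : (centerA_fib Θ (centerA_V 𝔸 0 x)).Nonempty := ⟨b, hb⟩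
    rw [zero_add, Nat.one_le_iff_ne_zero]
    exact h.ncard_pos.ne'
  | succ K ih =>
    obtain ⟨i₀, s₁⟩ := s₀
    have hC := Cen_sub hB hΘ
    have hD : ∀ i, centerA_V 𝔸 K (fun s => x (i, s)) ∈ dom Θ := fun i =>
      centerA_V_mem hΘ.dom K _ fun s => hx (i, s)
    have hb : ∀ i, i ≠ i₀ → centerA_V 𝔸 K (fun s => x (i, s)) ∈ Cen Θ := by
      intro i hi
      apply centerA_V_mem hC
      intro s
      apply hs
      intro h
      exact hi (congrArg Prod.fst h)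
    have hc := ih (fun s => x (i₀, s)) (fun s => hx (i₀, s)) s₁ (by
      intro s hs'
      apply hs
      intro h
      exact hs' (congrArg Prod.snd h))
    by_cases hcC : centerA_V 𝔸 K (fun s => x (i₀, s)) ∈ Cen Θ
    · left
      have hall : ∀ i, centerA_V 𝔸 K (fun s => x (i, s)) ∈ Cen Θ := by
        intro i
        by_cases h : i = i₀
        · rw [h]
          exact hcC
        · exact hb i h
      exact hC.1 _ (hall 0) _ (hall 1) _ (hall 2)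
    · right
      have hc' := hc.resolve_left hcC
      have key : (centerA_fib Θ (centerA_V 𝔸 K fun s => x (i₀, s))).ncard <
          (centerA_fib Θ (centerA_V 𝔸 (K + 1) x)).ncard := by
        have hv : ∀ m₀ m₁ m₂, (centerA_V 𝔸 K (fun s => x (0, s)), m₀) ∈ Θ →
            (centerA_V 𝔸 K (fun s => x (1, s)), m₁) ∈ Θ →
            (centerA_V 𝔸 K (fun s => x (2, s)), m₂) ∈ Θ →
            𝔹.v m₀ m₁ m₂ ∈ centerA_fib Θ (centerA_V 𝔸 (K + 1) x) := by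
          intro m₀ m₁ m₂ g₀ g₁ g₂
          exact hΘ.1 _ g₀ _ g₁ _ g₂
        have hbm : ∀ i, i ≠ i₀ → ∀ m ∈ cod Θ, (centerA_V 𝔸 K (fun s => x (i, s)), m) ∈ Θ :=
          fun i hi m hm => (hb i hi).2 m hm
        have hsub : ∀ l ∈ centerA_fib Θ (centerA_V 𝔸 K fun s => x (i₀, s)), l ∈ cod Θ :=
          fun l hl => centerA_fib_subset hl
        apply centerA_step hA hB hΘ hM (hD i₀) hcC
        · intro m hm l hl
          fin_cases i₀
          · rw [← hB.v0]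
            exact hv _ _ _ hl (hbm 1 (by decide) m hm) (hbm 2 (by decide) m hm)
          · rw [← hB.v1]
            exact hv _ _ _ (hbm 0 (by decide) m hm) hl (hbm 2 (by decide) m hm)
          · exact hv _ _ _ (hbm 0 (by decide) m hm) (hbm 1 (by decide) m hm) hl
        · intro m hm l hl
          have hlM := hsub l hl
          fin_cases i₀
          · exact hv _ _ _ hl (hbm 1 (by decide) l hlM) (hbm 2 (by decide) m hm)
          · exact hv _ _ _ (hbm 0 (by decide) l hlM) hl (hbm 2 (by decide) m hm)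
          · rw [← hB.v0]
            exact hv _ _ _ (hbm 0 (by decide) m hm) (hbm 1 (by decide) l hlM) hl
      omega

/-- Some finite arity `≥ 3` has no essential relation.
Proof: index types `Tr 0 = Unit`, `Tr (K+1) = Fin 3 × Tr K`, operations
`V 0 x = x ()`, `V (K+1) x = v (V K (x (0,·))) (V K (x (1,·))) (V K (x (2,·)))`.
For `c ∈ dom Θ` let `Θ[c] = {m | (c,m) ∈ Θ}`, `M = cod Θ`, `Cn = Cen Θ`.
Claim: if all entries of `x : Tr K → A` are in `dom Θ` and all but at most one are in `Cn`, then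
`V K x ∈ dom Θ` and (`V K x ∈ Cn` or `K + 1 ≤ (Θ[V K x]).ncard`).
Step: two of the three subtrees give elements `b, b'` of `Cn` (`V K` of a tuple in `Cn` is in `Cn`,
`Cen_sub`), the third gives `c` with `L = Θ[c]`, `L = M` or `K+1 ≤ |L|`.
`Θ[v(b,b',c)] ⊇ {v(m,m',l)}` (same with the other positions of `c`) `⊇ L` by idempotence.
If this set of values is contained in `L ≠ M` then `L` 2-absorbs `M` by the term `v(x,x,y)` (use
the weak near unanimity identities, e.g. `v(l,l,m) = v(m,l,l)`), contradicting `hM`.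
So `Θ[v(..)]` is strictly larger than `L`.
For `K ≥ |M|` the claim gives `V K x ∈ Cn`.  An essential relation `S` of arity `Tr K` with
witnesses `r i` would contain `V K (fun i => r i)` (computed coordinatewise, `S` is closed under
`v`), all of whose coordinates are in `Cn`: contradiction.  Take `K = |M| + 1`,
`Nat.card (Tr K) = 3 ^ K ≥ 3`. -/
theorem center_tree [Finite A] [Finite B] {𝔸 : Alg A} {𝔹 : Alg B} (hA : IsBW 𝔸) (hB : IsBW 𝔹)
    {Θ : Set (A × B)} (hΘ : Sub (𝔸.prod 𝔹) Θ) (hM : BF 𝔹 (cod Θ)) :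
    ∃ ι : Type, Finite ι ∧ 3 ≤ Nat.card ι ∧ ¬ Ess 𝔸 (Cen Θ) (dom Θ) ι := by
  obtain ⟨h1, h2⟩ := centerA_Tr_card ((cod Θ).ncard + 1)
  refine ⟨centerA_Tr ((cod Θ).ncard + 1), h1, ?_, ?_⟩
  · rw [h2, pow_succ]
    have := Nat.one_le_pow (cod Θ).ncard 3 (by norm_num)
    omega
  · rintro ⟨S, hS, hSU, hSn, hSw⟩
    choose r hrS hr using hSw
    have hmem := centerA_V_mem hS _ r hrS
    obtain ⟨j, hj⟩ := hSn _ hmem
    apply hj
    rw [centerA_V_pi]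
    rcases centerA_claim hA hB hΘ hM _ (fun s => r s j) (fun s => hSU _ (hrS s) j) j
      (fun s hs => hr s j hs.symm) with h | h
    · exact h
    · exfalso
      have h3 := Set.ncard_le_ncard (centerA_fib_subset (Θ := Θ)
        (a := centerA_V 𝔸 ((cod Θ).ncard + 1) fun s => r s j)) (Set.toFinite _)
      omega

end Pool.Agent.BWC
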