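import Pool.Agent.Lib.MP_d14a7e_al.Basic

set_option autoImplicit false
set_option linter.all false

/-! Essential relations (definition only). -/

namespace Pool.Agent.BWC

variable {A B C : Type}

/-- the center of a relation -/
def Cen (Θ : Set (A × B)) : Set A := {a | a ∈ dom Θ ∧ ∀ m ∈ cod Θ, (a, m) ∈ Θ}

/-- there is an `ι`-ary relation on `U`, a subuniverse, disjoint from `B^ι`, which for every
coordinate `i` has a tuple lying in `B` at all coordinates other than `i` -/
def Ess (𝔸 : Alg A) (B U : Set A) (ι : Type) : Prop :=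
  ∃ S : Set (ι → A), Sub (Alg.pi fun _ : ι => 𝔸) S ∧ (∀ r ∈ S, ∀ i, r i ∈ U) ∧
    (∀ r ∈ S, ∃ i, r i ∉ B) ∧ ∀ i, ∃ r ∈ S, ∀ j, j ≠ i → r j ∈ B

end Pool.Agent.BWC
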