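import Pool.Agent.Lib.MP_d14a7e_al.EdgeA

set_option autoImplicit false
set_option linter.all false

/-! Edges in the variety of a minimal bounded width algebra. -/

namespace Pool.Agent.BWC

variable {A B C D : Type}

/-- semilattice edge -/
def Edge (𝔹 : Alg B) (a b : B) : Prop := ∃ t : Tm 2, t2 𝔹 t a b = b ∧ t2 𝔹 t b a = b

/-- the term `v` -/
def vT : Tm 3 := Tm.v (Tm.var 0) (Tm.var 1) (Tm.var 2)
/-- the term `s(x,y) = v(x,x,y)` -/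
def sT : Tm 2 := Tm.v (Tm.var 0) (Tm.var 0) (Tm.var 1)

@[simp] theorem t3_vT (𝔹 : Alg B) (x y z : B) : t3 𝔹 vT x y z = 𝔹.v x y z := rfl
@[simp] theorem t2_sT (𝔹 : Alg B) (x y : B) : t2 𝔹 sT x y = 𝔹.v x x y := rfl

theorem Edge_sat2 {𝔸 : Alg A} {𝔹 : Alg B} (h : Sat 𝔸 𝔹) (s t : Tm 2)
    (e : ∀ x y, t2 𝔸 s x y = t2 𝔸 t x y) (x y : B) : t2 𝔹 s x y = t2 𝔹 t x y := by
  refine h 2 s t (fun x => ?_) _
  rw [eval_fin2, eval_fin2, e]

theorem Edge_subst2 (𝔹 : Alg B) (f p q : Tm 2) (x y : B) :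
    t2 𝔹 (f.subst ![p, q]) x y = t2 𝔹 f (t2 𝔹 p x y) (t2 𝔹 q x y) := by
  rw [t2_eq, eval_subst, eval_fin2]; rfl

/-- the identities (P), (A) for `ffT t K`, `K` good for `A`, hold in `𝔹` -/
theorem Edge_PA {𝔸 : Alg A} {𝔹 : Alg B} (hA : IsBW 𝔸) (hs : Sat 𝔸 𝔹) {K : ℕ} (hK : GoodK A K)
    (t : Tm 2) (x y : B) :
    t2 𝔹 (ffT t K) x (t2 𝔹 (ffT t K) x y) = t2 𝔹 (ffT t K) x y ∧
      t2 𝔹 (ffT t K) (t2 𝔹 (ffT t K) x y) x = t2 𝔹 (ffT t K) x y := by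
  have hPA : ∀ x y : A, t2 𝔸 (ffT t K) x (t2 𝔸 (ffT t K) x y) = t2 𝔸 (ffT t K) x y ∧
      t2 𝔸 (ffT t K) (t2 𝔸 (ffT t K) x y) x = t2 𝔸 (ffT t K) x y := by
    intro x y
    simp only [t2_ffT]
    exact ff_PA (t2_idem hA t) hK x y
  constructor
  · have := Edge_sat2 hs ((ffT t K).subst ![Tm.var 0, ffT t K]) (ffT t K) (fun x y => by
      rw [Edge_subst2]; exact (hPA x y).1) x y
    rw [Edge_subst2] at this
    exact this
  · have := Edge_sat2 hs ((ffT t K).subst ![ffT t K, Tm.var 0]) (ffT t K) (fun x y => by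
      rw [Edge_subst2]; exact (hPA x y).2) x y
    rw [Edge_subst2] at this
    exact this

/-- In terms of generated subuniverses (so edges only depend on the invariant binary relations).
`mem_Sg_pair` for `𝔹.prod 𝔹`. -/
theorem edge_iff {𝔹 : Alg B} {a b : B} :
    Edge 𝔹 a b ↔ (b, b) ∈ Sg (𝔹.prod 𝔹) {(a, b), (b, a)} := by
  rw [mem_Sg_pair]
  simp only [Edge, t2_prod, Prod.mk.injEq]

/-- variables of a term -/
def Tm.vars {n : ℕ} : Tm n → Set (Fin n)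
  | Tm.var i => {i}
  | Tm.v s t u => s.vars ∪ t.vars ∪ u.vars
  | Tm.w s t u r => s.vars ∪ t.vars ∪ u.vars ∪ r.vars

theorem Tm.vars_nonempty {n : ℕ} (t : Tm n) : t.vars.Nonempty := by
  induction t with
  | var i => exact ⟨i, rfl⟩
  | v s t u h1 h2 h3 => exact (h1.inl).inl
  | w s t u r h1 h2 h3 h4 => exact ((h1.inl).inl).inl

/-- terms over operations which are joins on `{a, b}` are joins of their variables -/
theorem Edge_join_term {𝔼 : Alg B} {a b : B}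
    (hva : 𝔼.v a a a = a) (hwa : 𝔼.w a a a a = a)
    (hv : ∀ x y z, (x = a ∨ x = b) → (y = a ∨ y = b) → (z = a ∨ z = b) →
      (x = b ∨ y = b ∨ z = b) → 𝔼.v x y z = b)
    (hw : ∀ x y z u, (x = a ∨ x = b) → (y = a ∨ y = b) → (z = a ∨ z = b) → (u = a ∨ u = b) →
      (x = b ∨ y = b ∨ z = b ∨ u = b) → 𝔼.w x y z u = b)
    {n : ℕ} (t : Tm n) (x : Fin n → B) (hx : ∀ i, x i = a ∨ x i = b) :
    ((∃ i ∈ t.vars, x i = b) → t.eval 𝔼 x = b) ∧ ((∀ i ∈ t.vars, x i = a) → t.eval 𝔼 x = a) := by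
  classical
  -- first: the values are in `{a, b}`
  have key : ∀ t : Tm n, t.eval 𝔼 x = a ∨ t.eval 𝔼 x = b := by
    intro t
    induction t with
    | var i => exact hx i
    | v s t u h1 h2 h3 =>
      by_cases hb : s.eval 𝔼 x = b ∨ t.eval 𝔼 x = b ∨ u.eval 𝔼 x = b
      · right; exact hv _ _ _ h1 h2 h3 hb
      · push Not at hb
        left
        show 𝔼.v _ _ _ = a
        rw [h1.resolve_right hb.1, h2.resolve_right hb.2.1, h3.resolve_right hb.2.2, hva]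
    | w s t u r h1 h2 h3 h4 =>
      by_cases hb : s.eval 𝔼 x = b ∨ t.eval 𝔼 x = b ∨ u.eval 𝔼 x = b ∨ r.eval 𝔼 x = b
      · right; exact hw _ _ _ _ h1 h2 h3 h4 hb
      · push Not at hb
        left
        show 𝔼.w _ _ _ _ = a
        rw [h1.resolve_right hb.1, h2.resolve_right hb.2.1, h3.resolve_right hb.2.2.1,
          h4.resolve_right hb.2.2.2, hwa]
  induction t with
  | var i =>
    refine ⟨?_, ?_⟩
    · rintro ⟨j, hj, hjb⟩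
      rw [Set.mem_singleton_iff.1 hj] at hjb
      exact hjb
    · intro h; exact h i rfl
  | v s t u h1 h2 h3 =>
    refine ⟨?_, ?_⟩
    · rintro ⟨j, (hj | hj) | hj, hjb⟩
      · exact hv _ _ _ (key s) (key t) (key u) (Or.inl (h1.1 ⟨j, hj, hjb⟩))
      · exact hv _ _ _ (key s) (key t) (key u) (Or.inr (Or.inl (h2.1 ⟨j, hj, hjb⟩)))
      · exact hv _ _ _ (key s) (key t) (key u) (Or.inr (Or.inr (h3.1 ⟨j, hj, hjb⟩)))
    · intro h
      show 𝔼.v _ _ _ = a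
      rw [h1.2 fun i hi => h i (Or.inl (Or.inl hi)), h2.2 fun i hi => h i (Or.inl (Or.inr hi)),
        h3.2 fun i hi => h i (Or.inr hi), hva]
  | w s t u r h1 h2 h3 h4 =>
    refine ⟨?_, ?_⟩
    · rintro ⟨j, ((hj | hj) | hj) | hj, hjb⟩
      · exact hw _ _ _ _ (key s) (key t) (key u) (key r) (Or.inl (h1.1 ⟨j, hj, hjb⟩))
      · exact hw _ _ _ _ (key s) (key t) (key u) (key r) (Or.inr (Or.inl (h2.1 ⟨j, hj, hjb⟩)))
      · exact hw _ _ _ _ (key s) (key t) (key u) (key r)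
          (Or.inr (Or.inr (Or.inl (h3.1 ⟨j, hj, hjb⟩))))
      · exact hw _ _ _ _ (key s) (key t) (key u) (key r)
          (Or.inr (Or.inr (Or.inr (h4.1 ⟨j, hj, hjb⟩))))
    · intro h
      show 𝔼.w _ _ _ _ = a
      rw [h1.2 fun i hi => h i (Or.inl (Or.inl (Or.inl hi))),
        h2.2 fun i hi => h i (Or.inl (Or.inl (Or.inr hi))),
        h3.2 fun i hi => h i (Or.inl (Or.inr hi)), h4.2 fun i hi => h i (Or.inr hi), hwa]

/-- **Main fact**: every term acts on an edge `a → b` as the join of a nonempty set of its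
variables.  Proof: `f = ffT t K` for `K` good for `A`, `t` a term witnessing the edge, is a join
on `{a,b}` (`ff_join`), satisfies (P), (A) in `𝔸` (`ff_PA`).  By `isBW_der`, `min_sat` the
operations of `𝔹` are terms in `v1, w1`; on `{a, b}` the operations `v1, w1` are the joins of all
variables (`t3_v1T`, `t4_w1T`); terms in the derived algebra act as joins of the sets of variables
occurring (induction on the term). -/
theorem edge_main [Finite A] {𝔸 : Alg A} {𝔹 : Alg B} (h : MinBW 𝔸) (hs : Sat 𝔸 𝔹) {a b : B}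
    (hab : Edge 𝔹 a b) {n : ℕ} (t : Tm n) :
    ∃ I : Set (Fin n), I.Nonempty ∧ ∀ x : Fin n → B, (∀ i, x i = a ∨ x i = b) →
      ((∃ i ∈ I, x i = b) → t.eval 𝔹 x = b) ∧ ((∀ i ∈ I, x i = a) → t.eval 𝔹 x = a) := by
  obtain ⟨K, hK⟩ := exists_goodK A
  obtain ⟨e, he1, he2⟩ := hab
  have hB : IsBW 𝔹 := hs.isBW h.1
  obtain ⟨f, hf⟩ : ∃ f : Tm 2, f = ffT e K := ⟨_, rfl⟩
  have hfj : t2 𝔹 f a b = b ∧ t2 𝔹 f b a = b := by
    rw [hf]; simp only [t2_ffT]; exact ff_join (t2_idem hB e) hK.1 he1 he2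
  have haa : t2 𝔹 f a a = a := t2_idem hB f a
  have hbb : t2 𝔹 f b b = b := t2_idem hB f b
  have hP : ∀ x y, t2 𝔸 f x (t2 𝔸 f x y) = t2 𝔸 f x y := fun x y => by
    rw [hf]; exact (Edge_PA h.1 (Sat.refl 𝔸) hK e x y).1
  have hQ : ∀ x y, t2 𝔸 f (t2 𝔸 f x y) x = t2 𝔸 f x y := fun x y => by
    rw [hf]; exact (Edge_PA h.1 (Sat.refl 𝔸) hK e x y).2
  obtain ⟨r, s, hr, hs'⟩ := min_sat h hs (isBW_der h.1 hP hQ)
  have hder : (𝔹.der (v1T f) (w1T f)).der r s = 𝔹 := by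
    obtain ⟨v, w⟩ := 𝔹
    have e1 : t3 (Alg.der ⟨v, w⟩ (v1T f) (w1T f)) r = v := by
      funext x y z; exact hr x y z
    have e2 : t4 (Alg.der ⟨v, w⟩ (v1T f) (w1T f)) s = w := by
      funext x y z u; exact hs' x y z u
    show Alg.mk _ _ = _
    rw [e1, e2]
  have ht : ∀ x : Fin n → B, t.eval 𝔹 x = (expd r s t).eval (𝔹.der (v1T f) (w1T f)) x := by
    intro x
    rw [eval_expd, hder]
  refine ⟨(expd r s t).vars, Tm.vars_nonempty _, fun x hx => ?_⟩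
  rw [ht x]
  refine Edge_join_term ?_ ?_ ?_ ?_ _ x hx
  · exact t3_idem hB _ a
  · exact t4_idem hB _ a
  · intro x y z hx hy hz hb
    show t3 𝔹 (v1T f) x y z = b
    rw [t3_v1T]
    obtain ⟨h1, h2⟩ := hfj
    rcases hx with rfl | rfl <;> rcases hy with rfl | rfl <;> rcases hz with rfl | rfl <;>
      simp_all [hB.vi]
  · intro x y z u hx hy hz hu hb
    show t4 𝔹 (w1T f) x y z u = b
    rw [t4_w1T]
    obtain ⟨h1, h2⟩ := hfj
    rcases hx with rfl | rfl <;> rcases hy with rfl | rfl <;> rcases hz with rfl | rfl <;>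
      rcases hu with rfl | rfl <;> simp_all [hB.wi]

/-- `v` is the join of all three variables, so `s` is the join (if `I` for `vT` is nonempty, the
identities `v(b,a,a) = v(a,b,a) = v(a,a,b)` give that it acts as the full join;
for `a = b` trivial). -/
theorem edge_s [Finite A] {𝔸 : Alg A} {𝔹 : Alg B} (h : MinBW 𝔸) (hs : Sat 𝔸 𝔹) {a b : B}
    (hab : Edge 𝔹 a b) : t2 𝔹 sT a b = b ∧ t2 𝔹 sT b a = b := by
  have hB : IsBW 𝔹 := hs.isBW h.1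
  obtain ⟨I, ⟨i, hi⟩, hI⟩ := edge_main h hs hab vT
  have key : ∀ x y z : B, (x = a ∨ x = b) → (y = a ∨ y = b) → (z = a ∨ z = b) →
      (![x, y, z] i = b) → 𝔹.v x y z = b := by
    intro x y z hx hy hz hb
    have := (hI ![x, y, z] (by intro j; fin_cases j <;> assumption)).1 ⟨i, hi, hb⟩
    exact this
  have haa : a = a ∨ a = b := Or.inl rfl
  have hbb : b = a ∨ b = b := Or.inr rfl
  rw [t2_sT, t2_sT]
  fin_cases i
  · refine ⟨?_, ?_⟩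
    · rw [← hB.v0]; exact key _ _ _ hbb haa haa rfl
    · exact key _ _ _ hbb hbb haa rfl
  · refine ⟨?_, ?_⟩
    · rw [← hB.v1]; exact key _ _ _ haa hbb haa rfl
    · exact key _ _ _ hbb hbb haa rfl
  · refine ⟨?_, ?_⟩
    · exact key _ _ _ haa haa hbb rfl
    · rw [← hB.v0]; exact key _ _ _ haa hbb hbb rfl

/-- the basic binary term: `f0 = ffT sT K`, `K` good for `A` -/
theorem exists_f0 [Finite A] {𝔸 : Alg A} (h : MinBW 𝔸) :
    ∃ f : Tm 2, ∀ {B : Type} (𝔹 : Alg B), Sat 𝔸 𝔹 →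
      (∀ x y, t2 𝔹 f x (t2 𝔹 f x y) = t2 𝔹 f x y) ∧
      (∀ x y, t2 𝔹 f (t2 𝔹 f x y) x = t2 𝔹 f x y) ∧
      (∀ a b, Edge 𝔹 a b → t2 𝔹 f a b = b ∧ t2 𝔹 f b a = b) ∧
      (∀ (G : Set B) (a : B), (∀ x ∈ G, 𝔹.v a a x ∈ G) → (∀ x ∈ G, ∀ y ∈ G, 𝔹.v x x y ∈ G) →
        (∀ x ∈ G, 𝔹.v x x a ∈ G) → ∀ x ∈ G, t2 𝔹 f a x ∈ G) := by
  obtain ⟨K, hK⟩ := exists_goodK A
  refine ⟨ffT sT K, fun {B} 𝔹 hs => ⟨fun x y => (Edge_PA h.1 hs hK sT x y).1,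
    fun x y => (Edge_PA h.1 hs hK sT x y).2, ?_, ?_⟩⟩
  · intro a b hab
    have hB : IsBW 𝔹 := hs.isBW h.1
    have := edge_s h hs hab
    simp only [t2_ffT]
    exact ff_join (t2_idem hB sT) hK.1 this.1 this.2
  · intro G a h1 h2 h3 x hx
    rw [t2_ffT]
    exact ff_closure hK.1 (g := t2 𝔹 sT) h1 h2 h3 x hx

theorem edge_refl {𝔹 : Alg B} (hB : IsBW 𝔹) (a : B) : Edge 𝔹 a a :=
  ⟨Tm.var 0, rfl, rfl⟩

/-- an edge of `𝔹` is preserved by homomorphisms -/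
theorem Edge.hom {𝔹 : Alg B} {𝔻 : Alg D} {U : Set B} (hU : Sub 𝔹 U) {g : B → D}
    (hg : HomOn 𝔹 𝔻 U g) {a b : B} (ha : a ∈ U) (hb : b ∈ U) (hab : Edge 𝔹 a b) :
    Edge 𝔻 (g a) (g b) := by
  obtain ⟨t, h1, h2⟩ := hab
  refine ⟨t, ?_, ?_⟩
  · rw [← hg.t2 hU t ha hb, h1]
  · rw [← hg.t2 hU t hb ha, h2]

/-- edges in products are coordinatewise (the common term `f0` is a join on both) -/
theorem edge_prod [Finite A] {𝔸 : Alg A} (h : MinBW 𝔸) {𝔹 : Alg B} {𝔻 : Alg D} (hB : Sat 𝔸 𝔹)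
    (hD : Sat 𝔸 𝔻) {a b : B × D} :
    Edge (𝔹.prod 𝔻) a b ↔ Edge 𝔹 a.1 b.1 ∧ Edge 𝔻 a.2 b.2 := by
  obtain ⟨f, hf⟩ := exists_f0 h
  constructor
  · intro hab
    exact ⟨hab.hom (Sub.univ _) (HomOn.fst 𝔹 𝔻 Set.univ) trivial trivial,
      hab.hom (Sub.univ _) (HomOn.snd 𝔹 𝔻 Set.univ) trivial trivial⟩
  · rintro ⟨h1, h2⟩
    refine ⟨f, ?_, ?_⟩
    · rw [t2_prod, ((hf 𝔹 hB).2.2.1 _ _ h1).1, ((hf 𝔻 hD).2.2.1 _ _ h2).1]
    · rw [t2_prod, ((hf 𝔹 hB).2.2.1 _ _ h1).2, ((hf 𝔻 hD).2.2.1 _ _ h2).2]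

theorem edge_pi [Finite A] {𝔸 : Alg A} (h : MinBW 𝔸) {ι : Type} {F : ι → Type}
    {𝔽 : ∀ i, Alg (F i)} (hF : ∀ i, Sat 𝔸 (𝔽 i)) {a b : ∀ i, F i} :
    Edge (Alg.pi 𝔽) a b ↔ ∀ i, Edge (𝔽 i) (a i) (b i) := by
  obtain ⟨f, hf⟩ := exists_f0 h
  constructor
  · intro hab i
    exact hab.hom (Sub.univ _) (HomOn.proj 𝔽 i Set.univ) trivial trivial
  · intro h1
    refine ⟨f, ?_, ?_⟩
    · funext i
      rw [t2_pi, ((hf (𝔽 i) (hF i)).2.2.1 _ _ (h1 i)).1]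
    · funext i
      rw [t2_pi, ((hf (𝔽 i) (hF i)).2.2.1 _ _ (h1 i)).2]

/-- edges lift along homomorphisms defined on a subuniverse: `r' = f0 (r, r'')` -/
theorem Edge.lift [Finite A] {𝔸 : Alg A} (h : MinBW 𝔸) {𝔹 : Alg B} {𝔻 : Alg D} (hB : Sat 𝔸 𝔹)
    (hD : Sat 𝔸 𝔻) {R : Set B} (hR : Sub 𝔹 R) {g : B → D} (hg : HomOn 𝔹 𝔻 R g) {r r'' : B}
    (hr : r ∈ R) (hr'' : r'' ∈ R) (he : Edge 𝔻 (g r) (g r'')) :
    ∃ r' ∈ R, Edge 𝔹 r r' ∧ g r' = g r'' := by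
  obtain ⟨f, hf⟩ := exists_f0 h
  refine ⟨t2 𝔹 f r r'', hR.t2 f hr hr'', ⟨f, (hf 𝔹 hB).1 _ _, (hf 𝔹 hB).2.1 _ _⟩, ?_⟩
  rw [hg.t2 hR f hr hr'', ((hf 𝔻 hD).2.2.1 _ _ he).1]

/-- 3-absorbing sets are closed under edges (`edge_main` for the absorbing term) -/
theorem AbsT.up [Finite A] {𝔸 : Alg A} (h : MinBW 𝔸) {𝔹 : Alg B} (hB : Sat 𝔸 𝔹) {t : Tm 3}
    {N U : Set B} (hN : AbsT 𝔹 t N U) {a b : B} (ha : a ∈ N) (hb : b ∈ U) (he : Edge 𝔹 a b) :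
    b ∈ N := by
  obtain ⟨I, ⟨i, hi⟩, hI⟩ := edge_main h hB he t
  have key : ∀ x y z : B, (x = a ∨ x = b) → (y = a ∨ y = b) → (z = a ∨ z = b) →
      (![x, y, z] i = b) → t3 𝔹 t x y z = b := by
    intro x y z hx hy hz hb
    have := (hI ![x, y, z] (by intro j; fin_cases j <;> assumption)).1 ⟨i, hi, hb⟩
    exact this
  have haa : a = a ∨ a = b := Or.inl rfl
  have hbb : b = a ∨ b = b := Or.inr rfl
  fin_cases i
  · rw [← key b a a hbb haa haa rfl]; exact hN.2.2.1 _ hb _ ha _ ha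
  · rw [← key a b a haa hbb haa rfl]; exact hN.2.2.2.1 _ ha _ hb _ ha
  · rw [← key a a b haa haa hbb rfl]; exact hN.2.2.2.2 _ ha _ ha _ hb

theorem Abs3.up [Finite A] {𝔸 : Alg A} (h : MinBW 𝔸) {𝔹 : Alg B} (hB : Sat 𝔸 𝔹)
    {N U : Set B} (hN : Abs3 𝔹 N U) {a b : B} (ha : a ∈ N) (hb : b ∈ U) (he : Edge 𝔹 a b) :
    b ∈ N :=
  hN.choose_spec.up h hB ha hb he

/-- every element of `U` has an edge into a nonempty 2-absorbing set: for `t` 2-absorbing,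
`f = ffT t K` (`K` good for `A`), the edge `a → f(a,b) ∈ N` (`ff_abs`, and (P), (A) hold in `𝔹` as
they hold in `𝔸`). -/
theorem abs2_edge [Finite A] {𝔸 : Alg A} (h : MinBW 𝔸) {𝔹 : Alg B} (hB : Sat 𝔸 𝔹)
    {N U : Set B} (hU : Sub 𝔹 U) (hN : Abs2 𝔹 N U) (hne : N.Nonempty) {a : B} (ha : a ∈ U) :
    ∃ b ∈ N, Edge 𝔹 a b := by
  obtain ⟨K, hK⟩ := exists_goodK A
  obtain ⟨t, hNs, hNU, h1, h2⟩ := hN
  obtain ⟨b, hb⟩ := hne
  refine ⟨t2 𝔹 (ffT t K) a b, ?_, ffT t K, ?_⟩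
  · rw [t2_ffT]; exact ff_abs hK.1 hNU h1 h2 a ha b hb
  · exact Edge_PA h.1 hB hK t a b

end Pool.Agent.BWC
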