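import Pool.Agent.Lib.MP_d14a7e_al.BlockB
import Pool.Agent.Lib.MP_d14a7e_al.Bridge

set_option autoImplicit false
set_option linter.all false

/-! The theorem for clones. -/

namespace Pool.Agent.BWC

theorem clones_eq {n : ℕ} {C D : ∀ k : ℕ, Set ((Fin k → Fin n) → Fin n)}
    (hC1 : IsCl C) (hC2 : HasBW C)
    (hC3 : ∀ F : ∀ k : ℕ, Set ((Fin k → Fin n) → Fin n), IsCl F → HasBW F → (∀ k, F k ⊆ C k) →
      F = C)
    (hD1 : IsCl D) (hD2 : HasBW D)
    (hD3 : ∀ F : ∀ k : ℕ, Set ((Fin k → Fin n) → Fin n), IsCl F → HasBW F → (∀ k, F k ⊆ D k) →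
      F = D)
    (hinv : ∀ R : Set (Fin n × Fin n), Inv2' C R ↔ Inv2' D R) : C = D := by
  rcases Nat.eq_zero_or_pos n with hn | hn
  · subst hn
    funext k
    ext f
    have key : ∀ E : ∀ k : ℕ, Set ((Fin k → Fin 0) → Fin 0), IsCl E → f ∈ E k := by
      intro E hE
      rcases Nat.eq_zero_or_pos k with hk | hk
      · subst hk
        exact (f Fin.elim0).elim0
      · have : f = fun x => x ⟨0, hk⟩ := by
          funext x
          exact (x ⟨0, hk⟩).elim0
        rw [this]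
        exact hE.1 k _
    exact ⟨fun _ => key D hD1, fun _ => key C hC1⟩
  · haveI : Nonempty (Fin n) := ⟨⟨0, hn⟩⟩
    obtain ⟨𝔸, hA, hCA⟩ := exists_alg hC1 hC2 hC3
    obtain ⟨𝔹, hB, hDB⟩ := exists_alg hD1 hD2 hD3
    let 𝔼 : Bool → Alg (Fin n) := fun b => cond b 𝔹 𝔸
    have h2 : Two 𝔼 := by
      refine ⟨fun k => ?_, fun P => ?_⟩
      · cases k
        · exact hA
        · exact hB
      · show Sub (𝔸.prod 𝔸) P ↔ Sub (𝔹.prod 𝔹) P
        rw [← clo_inv2, ← clo_inv2, ← hCA, ← hDB]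
        exact hinv P
    obtain ⟨p, q, hpq, hbw⟩ := common_pair h2
    have e1 : Clo (𝔸.der (p false) (q false)) = C :=
      hC3 _ (clo_isCl _) (clo_hasBW (hbw false)) (fun k => by
        rw [hCA]; exact clo_der_subset _ _ _ _)
    have e2 : Clo (𝔹.der (p true) (q true)) = D :=
      hD3 _ (clo_isCl _) (clo_hasBW (hbw true)) (fun k => by
        rw [hDB]; exact clo_der_subset _ _ _ _)
    have hpq' : 𝔸.der (p false) (q false) = 𝔹.der (p true) (q true) := hpq
    rw [← e1, ← e2, hpq']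

end Pool.Agent.BWC
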