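import Pool.Agent.Lib.MP_d14a7e_al.Reach

set_option autoImplicit false
set_option linter.all false

/-! The iteration lemma and the Helly property over a base. -/

namespace Pool.Agent.BWC

variable {A B D : Type}

/-- **Iteration lemma.**  Let `f` be from `exists_f0`.  Apply its last property to
`G' = g '' G ⊆ D` and `a = g P`: `v a a (g X) = g (v P Q X)`, `v (g X) (g X) (g Y) = g (v X X Y)`,
`v (g X) (g X) a = g (v X X P)`.  So for `X ∈ G`, `f(a, g X) = g X'` with `X' ∈ G`, and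
`a → f(a, ·)` is an edge by (P), (A). -/
theorem it_lemma [Finite A] {𝔸 : Alg A} (h : MinBW 𝔸) {𝔹 : Alg B} {𝔻 : Alg D} (hB : Sat 𝔸 𝔹)
    (hD : Sat 𝔸 𝔻) {R : Set B} (hR : Sub 𝔹 R) {g : B → D} (hg : HomOn 𝔹 𝔻 R g) {P Q : B}
    (hP : P ∈ R) (hQ : Q ∈ R) (hPQ : g P = g Q) {G : Set B} (hG : G ⊆ R) (hne : G.Nonempty)
    (h1 : ∀ X ∈ G, 𝔹.v P Q X ∈ G) (h2 : ∀ X ∈ G, ∀ Y ∈ G, 𝔹.v X X Y ∈ G)
    (h3 : ∀ X ∈ G, 𝔹.v X X P ∈ G) :
    ∃ X ∈ G, Edge 𝔻 (g P) (g X) := by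
  obtain ⟨f, hf⟩ := exists_f0 h
  obtain ⟨hf1, hf2, -, hf4⟩ := hf 𝔻 hD
  obtain ⟨X₀, hX₀⟩ := hne
  have key : ∀ x ∈ g '' G, t2 𝔻 f (g P) x ∈ g '' G := by
    refine hf4 (g '' G) (g P) ?_ ?_ ?_
    · rintro _ ⟨X, hX, rfl⟩
      refine ⟨𝔹.v P Q X, h1 X hX, ?_⟩
      rw [hg.1 P hP Q hQ X (hG hX), ← hPQ]
    · rintro _ ⟨X, hX, rfl⟩ _ ⟨Y, hY, rfl⟩
      exact ⟨𝔹.v X X Y, h2 X hX Y hY, hg.1 X (hG hX) X (hG hX) Y (hG hY)⟩
    · rintro _ ⟨X, hX, rfl⟩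
      exact ⟨𝔹.v X X P, h3 X hX, hg.1 X (hG hX) X (hG hX) P hP⟩
  obtain ⟨X, hX, hgX⟩ := key (g X₀) ⟨X₀, hX₀, rfl⟩
  refine ⟨X, hX, f, ?_, ?_⟩
  · rw [hgX]; exact hf1 _ _
  · rw [hgX]; exact hf2 _ _

/-- **Helly over a base.**  `M k` (`k ∈ κ`) absorbed by `v` in `R`, pairwise intersecting; `Cl` a
nonempty subset of `g '' R` closed under edges in `g '' R`; over each point of `Cl` there is an
element of each single `M k`.  Then `⋂ M k` has an element over `Cl`.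
Proof.  For a finite set `K` of indices claim: for all `x ∈ Cl` there are `x* ∈ Cl` reachable from
`x` (`ReachIn 𝔻 (g '' R)`), `r ∈ R` in all `M k`, `k ∈ K`, with `g r = x*`.  Induction on `|K|`;
`|K| ≤ 1` clear.  Let `k₁ ≠ k₂` be in `K`.  By the claim for `K \ {k₁}`: `a` reachable from `x`,
`P₀ ∈ ⋂ M k` (`k ≠ k₁`) over `a`.  By the claim for `K \ {k₂}` and `a`: `b` reachable from `a` and
`Q ∈ ⋂ M k` (`k ≠ k₂`) over `b`.  Lift the path from `a` to `b` starting at `P₀`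
(`ReachIn.lift`): `P` over `b`, reachable from `P₀` in `R`, so `P ∈ M k` for `k ≠ k₁`
(`AbsT.up`, `UpIn.reach`).  Now `g P = g Q = b`.  `G = ⋂_{k ∈ K} M k` (inside `R`) satisfies the
hypotheses of `it_lemma`: `v P Q X ∈ M k` since `X ∈ M k` and `P` or `Q` is in `M k`;
`v X X P ∈ M k`.  `G` is nonempty: for `Z ∈ M k₁ ∩ M k₂`, `v P Q Z ∈ G`.  `it_lemma` gives `X ∈ G`
with an edge `b → g X`, so `x* = g X`. -/
theorem helly_base [Finite A] {𝔸 : Alg A} (h : MinBW 𝔸) {𝔹 : Alg B} {𝔻 : Alg D}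
    (hB : Sat 𝔸 𝔹) (hD : Sat 𝔸 𝔻) {R : Set B} (hR : Sub 𝔹 R) {g : B → D}
    (hg : HomOn 𝔹 𝔻 R g) {κ : Type} [Finite κ] {M : κ → Set B} (hM : ∀ k, AbsT 𝔹 vT (M k) R)
    (h2 : ∀ k l, (M k ∩ M l).Nonempty) {Cl : Set D} (hCl : Cl ⊆ g '' R) (hne : Cl.Nonempty)
    (hup : UpIn 𝔻 Cl (g '' R)) (h1 : ∀ k, ∀ x ∈ Cl, ∃ r ∈ M k, g r = x) :
    ∃ r ∈ R, (∀ k, r ∈ M k) ∧ g r ∈ Cl := by
  classical
  haveI := Fintype.ofFinite κ
  have key : ∀ (n : ℕ) (K : Finset κ), K.card = n → ∀ x ∈ Cl,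
      ∃ r ∈ R, (∀ k ∈ K, r ∈ M k) ∧ ReachIn 𝔻 (g '' R) x (g r) := by
    intro n
    induction n with
    | zero =>
      intro K hK x hx
      obtain ⟨r, hr, rfl⟩ := hCl hx
      rw [Finset.card_eq_zero] at hK
      subst hK
      exact ⟨r, hr, fun k hk => absurd hk (Finset.notMem_empty k), Relation.ReflTransGen.refl⟩
    | succ n ih =>
      intro K hK x hx
      by_cases hc : ∃ k₁ ∈ K, ∃ k₂ ∈ K, k₁ ≠ k₂
      · obtain ⟨k₁, hk₁, k₂, hk₂, hne₁₂⟩ := hc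
        have hc₁ : (K.erase k₁).card = n := by rw [Finset.card_erase_of_mem hk₁, hK]; rfl
        have hc₂ : (K.erase k₂).card = n := by rw [Finset.card_erase_of_mem hk₂, hK]; rfl
        obtain ⟨P₀, hP₀, hP₀M, hr₁⟩ := ih (K.erase k₁) hc₁ x hx
        have ha : g P₀ ∈ Cl := hup.reach hr₁ hx
        obtain ⟨Q, hQ, hQM, hr₂⟩ := ih (K.erase k₂) hc₂ (g P₀) ha
        obtain ⟨P, hP, hPr, hPQ⟩ := ReachIn.lift h hB hD hR hg hP₀ hr₂
        have hPM : ∀ k ∈ K, k ≠ k₁ → P ∈ M k := by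
          intro k hk hne
          have hup' : UpIn 𝔹 (M k) R := fun a ha b hb he => (hM k).up h hB ha hb he
          exact hup'.reach hPr (hP₀M k (Finset.mem_erase.mpr ⟨hne, hk⟩))
        have hQM' : ∀ k ∈ K, k ≠ k₂ → Q ∈ M k := fun k hk hne =>
          hQM k (Finset.mem_erase.mpr ⟨hne, hk⟩)
        obtain ⟨Z, hZ1, hZ2⟩ := h2 k₁ k₂
        have hZR : Z ∈ R := (hM k₁).2.1 hZ1
        have h1' : ∀ k ∈ K, ∀ X ∈ M k, 𝔹.v P Q X ∈ M k := by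
          intro k hk X hX
          by_cases hkk : k = k₁
          · subst hkk
            exact (hM k).2.2.1 P hP Q (hQM' k hk hne₁₂) X hX
          · exact (hM k).2.2.2.1 P (hPM k hk hkk) Q hQ X hX
        obtain ⟨X, hX, he⟩ := it_lemma h hB hD hR hg hP hQ hPQ
          (G := {X | X ∈ R ∧ ∀ k ∈ K, X ∈ M k}) (fun X hX => hX.1)
          ⟨𝔹.v P Q Z, hR.1 P hP Q hQ Z hZR, by
            intro k hk
            by_cases hkk : k = k₁
            · subst hkk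
              exact h1' k hk Z hZ1
            · by_cases hkk' : k = k₂
              · subst hkk'
                exact h1' k hk Z hZ2
              · exact (hM k).2.2.2.2 P (hPM k hk hkk) Q (hQM' k hk hkk') Z hZR⟩
          (fun X hX => ⟨hR.1 P hP Q hQ X hX.1, fun k hk => h1' k hk X (hX.2 k hk)⟩)
          (fun X hX Y hY => ⟨hR.1 X hX.1 X hX.1 Y hY.1, fun k hk =>
            (hM k).1.1 X (hX.2 k hk) X (hX.2 k hk) Y (hY.2 k hk)⟩)
          (fun X hX => ⟨hR.1 X hX.1 X hX.1 P hP, fun k hk =>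
            (hM k).2.2.2.2 X (hX.2 k hk) X (hX.2 k hk) P hP⟩)
        refine ⟨X, hX.1, hX.2, ?_⟩
        refine Relation.ReflTransGen.trans hr₁ (Relation.ReflTransGen.trans hr₂ ?_)
        rw [← hPQ]
        exact Relation.ReflTransGen.single ⟨he, ⟨P, hP, rfl⟩, ⟨X, hX.1, rfl⟩⟩
      · obtain ⟨k, hk⟩ : K.Nonempty := by
          rw [← Finset.card_pos]; omega
        obtain ⟨r, hr, hgr⟩ := h1 k x hx
        refine ⟨r, (hM k).2.1 hr, ?_, ?_⟩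
        · intro l hl
          by_cases hlk : l = k
          · rw [hlk]; exact hr
          · exact absurd ⟨l, hl, k, hk, hlk⟩ hc
        · rw [hgr]; exact Relation.ReflTransGen.refl
  obtain ⟨x, hx⟩ := hne
  obtain ⟨r, hr, hrM, hreach⟩ := key _ Finset.univ rfl x hx
  exact ⟨r, hr, fun k => hrM k (Finset.mem_univ k), hup.reach hreach hx⟩

end Pool.Agent.BWC
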