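import Pool.Agent.Lib.MP_d14a7e_al.Basic

set_option autoImplicit false
set_option linter.all false

/-! Linkedness. -/

namespace Pool.Agent.BWC

variable {A B C : Type}

private theorem link_lift {X Y : Type} {r : X → X → Prop} {p : Y → Y → Prop} (f : X → Y)
    (h : ∀ a b, r a b → p (f a) (f b)) {a b : X} (hab : Relation.ReflTransGen r a b) :
    Relation.ReflTransGen p (f a) (f b) := by
  induction hab with
  | refl => exact Relation.ReflTransGen.refl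
  | tail _ hbc ih => exact ih.tail (h _ _ hbc)

/-- Restricting to an absorbing set on the right keeps linkedness.
Proof: `t = t`, `a, b ∈ dom {p ∈ T | p.2 ∈ N}` with neighbours `c, d ∈ N`, path
`a = x₀, x₁, …, xₙ = b` in `T` with common neighbours `cᵢ`.  Then
`t(a,a,xᵢ)` and `t(a,a,xᵢ₊₁)` have the common neighbour `t(c,c,cᵢ) ∈ N`, so `a = t(a,a,a)` is
connected to `t(a,a,b)`; similarly (`t(c,cᵢ,d)`) `t(a,a,b)` to `t(a,b,b)` and (`t(cᵢ,d,d)`)
`t(a,b,b)` to `t(b,b,b) = b`. -/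
theorem llinked_absorb {𝔸 : Alg A} {𝔹 : Alg B} (hA : IsBW 𝔸) (hB : IsBW 𝔹)
    {T : Set (A × B)} (hT : Sub (𝔸.prod 𝔹) T) (hL : LLinked T) {N : Set B}
    (hN : Abs3 𝔹 N (cod T)) : LLinked {p | p ∈ T ∧ p.2 ∈ N} := by
  obtain ⟨t, hNs, hNsub, h1, h2, h3⟩ := hN
  have key : ∀ {x y z : A} {x' y' z' : B}, (x, x') ∈ T → (y, y') ∈ T → (z, z') ∈ T →
      (t3 𝔸 t x y z, t3 𝔹 t x' y' z') ∈ T := by
    intro x y z x' y' z' hx hy hz
    have := hT.t3 t hx hy hz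
    rwa [t3_prod] at this
  rintro a ⟨c, hac, hc⟩ b ⟨d, hbd, hd⟩
  have hc : c ∈ N := hc
  have hd : d ∈ N := hd
  have hpath := hL a ⟨c, hac⟩ b ⟨d, hbd⟩
  have s1 := link_lift
    (p := fun x y => ∃ e, (x, e) ∈ {p | p ∈ T ∧ p.2 ∈ N} ∧ (y, e) ∈ {p | p ∈ T ∧ p.2 ∈ N})
    (fun x => t3 𝔸 t a a x) (by
      rintro x y ⟨e, hxe, hye⟩
      have he : t3 𝔹 t c c e ∈ N := h3 c hc c hc e ⟨x, hxe⟩
      exact ⟨t3 𝔹 t c c e, ⟨key hac hac hxe, he⟩, ⟨key hac hac hye, he⟩⟩) hpath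
  have s2 := link_lift
    (p := fun x y => ∃ e, (x, e) ∈ {p | p ∈ T ∧ p.2 ∈ N} ∧ (y, e) ∈ {p | p ∈ T ∧ p.2 ∈ N})
    (fun x => t3 𝔸 t a x b) (by
      rintro x y ⟨e, hxe, hye⟩
      have he : t3 𝔹 t c e d ∈ N := h2 c hc e ⟨x, hxe⟩ d hd
      exact ⟨t3 𝔹 t c e d, ⟨key hac hxe hbd, he⟩, ⟨key hac hye hbd, he⟩⟩) hpath
  have s3 := link_lift
    (p := fun x y => ∃ e, (x, e) ∈ {p | p ∈ T ∧ p.2 ∈ N} ∧ (y, e) ∈ {p | p ∈ T ∧ p.2 ∈ N})
    (fun x => t3 𝔸 t x b b) (by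
      rintro x y ⟨e, hxe, hye⟩
      have he : t3 𝔹 t e d d ∈ N := h1 e ⟨x, hxe⟩ d hd d hd
      exact ⟨t3 𝔹 t e d d, ⟨key hxe hbd hbd, he⟩, ⟨key hye hbd hbd, he⟩⟩) hpath
  have s4 := (s1.trans s2).trans s3
  simp only [t3_idem hA] at s4
  exact s4

/-- a left-linked relation is right-linked -/
theorem LLinked.inv {T : Set (A × B)} (hL : LLinked T) : LLinked (inv T) := by
  rintro c ⟨a, hac⟩ d ⟨b, hbd⟩
  have hac' : (a, c) ∈ T := hac
  have hbd' : (b, d) ∈ T := hbd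
  have hpath := hL a ⟨c, hac'⟩ b ⟨d, hbd'⟩
  have key : ∀ x, Relation.ReflTransGen (fun x y => ∃ c, (x, c) ∈ T ∧ (y, c) ∈ T) a x →
      ∀ d, (x, d) ∈ T → Relation.ReflTransGen
        (fun x y => ∃ c, (x, c) ∈ Pool.Agent.BWC.inv T ∧ (y, c) ∈ Pool.Agent.BWC.inv T) c d := by
    intro x hx
    induction hx with
    | refl => intro d hd; exact Relation.ReflTransGen.single ⟨a, hac, hd⟩
    | tail _ hyz ih =>
      intro d hd
      obtain ⟨e, hye, hze⟩ := hyz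
      exact (ih e hye).tail ⟨_, hze, hd⟩
  exact key b hpath d hbd'

/-- Dichotomy for a simple algebra on the left.  The relation
`θ = ReflTransGen (fun x y => ∃ c, (x,c) ∈ T ∧ (y,c) ∈ T)` on `S` is a congruence
(closed under `v`, `w`: by idempotence change one argument at a time, or show that
the transitive closure of a reflexive subuniverse relation is a subuniverse). -/
theorem simple_dich {S : Type} {𝕊 : Alg S} {𝔹 : Alg B} (hS : IsBW 𝕊) (hB : IsBW 𝔹)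
    {T : Set (S × B)} (hT : Sub (𝕊.prod 𝔹) T) (hdom : ∀ s, s ∈ dom T) (hs : Simple 𝕊) :
    (∀ s s' b, (s, b) ∈ T → (s', b) ∈ T → s = s') ∨ LLinked T := by
  have hv : ∀ {x y z : S} {x' y' z' : B}, (x, x') ∈ T → (y, y') ∈ T → (z, z') ∈ T →
      (𝕊.v x y z, 𝔹.v x' y' z') ∈ T := fun hx hy hz => hT.1 _ hx _ hy _ hz
  have hw : ∀ {x y z u : S} {x' y' z' u' : B}, (x, x') ∈ T → (y, y') ∈ T → (z, z') ∈ T →
      (u, u') ∈ T → (𝕊.w x y z u, 𝔹.w x' y' z' u') ∈ T :=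
    fun hx hy hz hu => hT.2 _ hx _ hy _ hz _ hu
  set r : S → S → Prop := fun x y => ∃ c, (x, c) ∈ T ∧ (y, c) ∈ T with hr
  have hlift : ∀ (f : S → S), (∀ x y, r x y → r (f x) (f y)) → ∀ x y,
      Relation.ReflTransGen r x y → Relation.ReflTransGen r (f x) (f y) :=
    fun f hf x y h => link_lift f hf h
  have hsub : Sub (𝕊.prod 𝕊) {p : S × S | Relation.ReflTransGen r p.1 p.2} := by
   constructor
   · rintro ⟨x1, x2⟩ hx ⟨y1, y2⟩ hy ⟨z1, z2⟩ hz
     show Relation.ReflTransGen r (𝕊.v x1 y1 z1) (𝕊.v x2 y2 z2)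
     have hx' : Relation.ReflTransGen r x1 x2 := hx
     have hy' : Relation.ReflTransGen r y1 y2 := hy
     have hz' : Relation.ReflTransGen r z1 z2 := hz
     have e1 := hlift (fun x => 𝕊.v x y1 z1) (by
       rintro x y ⟨c, hxc, hyc⟩
       obtain ⟨d, hd⟩ := hdom y1
       obtain ⟨e, he⟩ := hdom z1
       exact ⟨_, hv hxc hd he, hv hyc hd he⟩) _ _ hx'
     have e2 := hlift (fun y => 𝕊.v x2 y z1) (by
       rintro x y ⟨c, hxc, hyc⟩
       obtain ⟨d, hd⟩ := hdom x2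
       obtain ⟨e, he⟩ := hdom z1
       exact ⟨_, hv hd hxc he, hv hd hyc he⟩) _ _ hy'
     have e3 := hlift (fun z => 𝕊.v x2 y2 z) (by
       rintro x y ⟨c, hxc, hyc⟩
       obtain ⟨d, hd⟩ := hdom x2
       obtain ⟨e, he⟩ := hdom y2
       exact ⟨_, hv hd he hxc, hv hd he hyc⟩) _ _ hz'
     exact (e1.trans e2).trans e3
   · rintro ⟨x1, x2⟩ hx ⟨y1, y2⟩ hy ⟨z1, z2⟩ hz ⟨u1, u2⟩ hu
     show Relation.ReflTransGen r (𝕊.w x1 y1 z1 u1) (𝕊.w x2 y2 z2 u2)
     have hx' : Relation.ReflTransGen r x1 x2 := hx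
     have hy' : Relation.ReflTransGen r y1 y2 := hy
     have hz' : Relation.ReflTransGen r z1 z2 := hz
     have hu' : Relation.ReflTransGen r u1 u2 := hu
     have e1 := hlift (fun x => 𝕊.w x y1 z1 u1) (by
       rintro x y ⟨c, hxc, hyc⟩
       obtain ⟨d, hd⟩ := hdom y1
       obtain ⟨e, he⟩ := hdom z1
       obtain ⟨f, hf⟩ := hdom u1
       exact ⟨_, hw hxc hd he hf, hw hyc hd he hf⟩) _ _ hx'
     have e2 := hlift (fun y => 𝕊.w x2 y z1 u1) (by
       rintro x y ⟨c, hxc, hyc⟩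
       obtain ⟨d, hd⟩ := hdom x2
       obtain ⟨e, he⟩ := hdom z1
       obtain ⟨f, hf⟩ := hdom u1
       exact ⟨_, hw hd hxc he hf, hw hd hyc he hf⟩) _ _ hy'
     have e3 := hlift (fun z => 𝕊.w x2 y2 z u1) (by
       rintro x y ⟨c, hxc, hyc⟩
       obtain ⟨d, hd⟩ := hdom x2
       obtain ⟨e, he⟩ := hdom y2
       obtain ⟨f, hf⟩ := hdom u1
       exact ⟨_, hw hd he hxc hf, hw hd he hyc hf⟩) _ _ hz'
     have e4 := hlift (fun u => 𝕊.w x2 y2 z2 u) (by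
       rintro x y ⟨c, hxc, hyc⟩
       obtain ⟨d, hd⟩ := hdom x2
       obtain ⟨e, he⟩ := hdom y2
       obtain ⟨f, hf⟩ := hdom z2
       exact ⟨_, hw hd he hf hxc, hw hd he hf hyc⟩) _ _ hu'
     exact ((e1.trans e2).trans e3).trans e4
  have hrefl : ∀ a, (a, a) ∈ {p : S × S | Relation.ReflTransGen r p.1 p.2} := fun a =>
    Relation.ReflTransGen.refl
  have hsymm : ∀ a b, (a, b) ∈ {p : S × S | Relation.ReflTransGen r p.1 p.2} →
      (b, a) ∈ {p : S × S | Relation.ReflTransGen r p.1 p.2} := by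
    intro a b hab
    have hab' : Relation.ReflTransGen r a b := hab
    show Relation.ReflTransGen r b a
    clear hab
    induction hab' with
    | refl => exact Relation.ReflTransGen.refl
    | tail _ hbc ih =>
      obtain ⟨c, h1, h2⟩ := hbc
      exact Relation.ReflTransGen.head ⟨c, h2, h1⟩ ih
  have htrans : ∀ a b c, (a, b) ∈ {p : S × S | Relation.ReflTransGen r p.1 p.2} →
      (b, c) ∈ {p : S × S | Relation.ReflTransGen r p.1 p.2} →
      (a, c) ∈ {p : S × S | Relation.ReflTransGen r p.1 p.2} := fun a b c hab hbc =>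
    Relation.ReflTransGen.trans hab hbc
  rcases hs {p | Relation.ReflTransGen r p.1 p.2} hsub hrefl hsymm htrans with h | h
  · left
    intro s s' b hsb hsb'
    exact h s s' (Relation.ReflTransGen.single ⟨b, hsb, hsb'⟩)
  · right
    intro a _ a' _
    exact h a a'

end Pool.Agent.BWC
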