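import Pool.Agent.Lib.MP_d14a7e_al.MixedDefs

set_option autoImplicit false
set_option linter.all false

/-! Third reduction: all domains absorption free. -/

namespace Pool.Agent.BWC

variable {A V : Type}

/-- **Third reduction.**  Proof.  `φ : D_{x0} → S` simple quotient for both sides
(`exists_simple_quotient'`); `S` is TF on both sides (`TF.image`), fix `s0 : S`.
For `y : V` let `T y = {(s, b) | ∃ a, (a,b) ∈ P x0 y ∧ φ a = s}`, a subuniverse of
`𝕊 k × 𝔸 k` for both `k` with `dom = univ`, `cod = Dm P y`.  By `simple_full` `T y` is functional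
(`(s,b), (s',b) ∈ T y → s = s'`), write `y ∈ W`, or it is everything.
(a) for `y, z ∈ V`, `(b,c) ∈ P y z`: `triP` gives `a` with `(a,b) ∈ P x0 y`, `(a,c) ∈ P x0 z`, so
there is a common `s` with `(s,b) ∈ T y`, `(s,c) ∈ T z`.
`By y = {b | b ∈ Dm P y ∧ (y ∈ W → (s0,b) ∈ T y)}`, `P' y z = {p ∈ P y z | p.1 ∈ By y, p.2 ∈ By z}`,
`R' c = {r ∈ R c | ∀ i, r i ∈ By (s i)}`.
To show `pr_ij R' c = P' (s i) (s j)`: let `(a,b) ∈ P' (s i) (s j)`.
If no `k` in the scope is in `W`, then `R' c = R c`.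
Otherwise fix `k` with `s k ∈ W`; for `r ∈ R c` let `χ r` be the unique `s` with
`(s, r k) ∈ T (s k)`; a homomorphism `R c → S`.
By (a), for any `l` in the scope with `s l ∈ W`, `(χ r, r l) ∈ T (s l)`.  So `r ∈ R' c` iff
`χ r = s0`.
If `s i ∈ W` (or `s j ∈ W`): take `r ∈ R c` over `(a,b)`; `(χ r, a) ∈ T (s i)` and `(s0, a)` too,
so `χ r = s0`.
If `s i, s j ∉ W`: relation `Q = {(χ r, (r i, r j)) | r ∈ R c} ⊆ S × P (s i) (s j)`.
By `simple_dich` (side of `c`) it is left-linked or functional.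
Functional: `Γ = {(r i, r j, χ r)}`, apply `xyP`; the hypothesis `h1`: `{(r i, χ r)}` is all of
`Dm × S`: given `b ∈ Dm P (s i)` and `s`, `(s,b) ∈ T (s i)` (`s i ∉ W`), so there is
`e` with `(e,b) ∈ P x0 (s i)`, `φ e = s`; `triP` gives `c'` with `(e,c') ∈ P x0 (s k)`,
`(b,c') ∈ P (s i) (s k)`; take `r ∈ R c` with `r i = b`, `r k = c'`, then `χ r = s`.
So `S` would be a subsingleton, but it is nontrivial.
Left-linked: by `cn` the set `Z` of `p ∈ P (s i) (s j)` related to all `s` is nonempty and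
3-absorbing in `P (s i) (s j)`; its projections are nonempty 3-absorbing subuniverses of the
TF sets `Dm P (s i)`, `Dm P (s j)`, so they are full; by `ud`,
`Z ⊇ MM (P (s i) (s j)) = P (s i) (s j)`.  So there is `r` over `(a,b)` with `χ r = s0`.
Nonempty: `Dm P' x0 ≠ ∅`, in fact for `R' c`: if `I c` is empty `R' c = R c`; otherwise
`P' (s i) (s i)` is nonempty since `By y` is (it contains `b` with `(s0,b) ∈ T y`).
`P' x0 x0 ≠ P x0 x0`: `x0 ∈ W` and `φ` is not constant on `Dm P x0`. -/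
theorem red3 [Finite A] [Nonempty A] {𝔸 : Bool → Alg A} (h2 : Two 𝔸) {M : MInst V}
    {P : V → V → Set (A × A)} {R : ∀ c, Set (M.I c → A)} (h : MOk 𝔸 M P R)
    (hmin : ∀ x y, MM (sq 𝔸 false) (P x y) = P x y) (htf : ∀ x, TF (𝔸 false) (Dm P x))
    {x0 : V} (hnt : (Dm P x0).Nontrivial) :
    ∃ (P' : V → V → Set (A × A)) (R' : ∀ c, Set (M.I c → A)), MOk 𝔸 M P' R' ∧
      (∀ x y, P' x y ⊆ P x y) ∧ P' x0 x0 ≠ P x0 x0 ∧ ∀ c, R' c ⊆ R c := by
  classical
  obtain ⟨S, 𝕊, φ, hfS, hnS, hSbw, hφ, hφs, hSs⟩ :=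
    exists_simple_quotient' h2.inv h2.bw (U := Dm P x0) (fun k => h.subDm h2 k x0) hnt
  have himφ : φ '' (Dm P x0) = Set.univ := by
    refine Set.eq_univ_of_forall fun s => ?_
    obtain ⟨a, ha, rfl⟩ := hφs s
    exact ⟨a, ha, rfl⟩
  have hStf : ∀ k, TF (𝕊 k) Set.univ := by
    intro k
    have h1 := TF.image (h.subDm h2 k x0) (hφ k)
      (h2.tf false k (h.subDm h2 false x0) (htf x0))
    rwa [himφ] at h1
  obtain ⟨s0⟩ : Nonempty S := inferInstance
  -- membership in the domains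
  have hmemDm : ∀ {c : M.ι} {r : M.I c → A}, r ∈ R c → ∀ i, r i ∈ Dm P (M.s c i) :=
    fun hr i => h.memR hr i i
  -- the relations `T y`
  obtain ⟨T, hTdef⟩ : ∃ T : V → Set (S × A), ∀ y s b,
      (s, b) ∈ T y ↔ ∃ a, (a, b) ∈ P x0 y ∧ φ a = s :=
    ⟨fun y => {q | ∃ a, (a, q.2) ∈ P x0 y ∧ φ a = q.1}, fun _ _ _ => Iff.rfl⟩
  have hdomx0 : ∀ {y : V} {a b : A}, (a, b) ∈ P x0 y → a ∈ Dm P x0 := by
    intro y a b hab
    rw [← h.domP x0 y]
    exact ⟨b, hab⟩
  have subT : ∀ k y, Sub ((𝕊 k).prod (𝔸 k)) (T y) := by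
    intro k y
    have hhom : HomOn (sq 𝔸 k) ((𝕊 k).prod (𝔸 k)) (P x0 y) (fun p => (φ p.1, p.2)) := by
      refine HomOn.pair ?_ (HomOn.snd _ _ _)
      exact HomOn.comp (HomOn.fst (𝔸 k) (𝔸 k) (P x0 y)) (hφ k)
        (fun x hx => hdomx0 (y := y) (b := x.2) hx)
    have h1 := (h.subP h2 k x0 y).image hhom
    have h3 : T y = (fun p : A × A => (φ p.1, p.2)) '' (P x0 y) := by
      ext ⟨s, b⟩
      rw [hTdef]
      constructor
      · rintro ⟨a, ha, rfl⟩
        exact ⟨(a, b), ha, rfl⟩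
      · rintro ⟨⟨a, b'⟩, ha, hab⟩
        rw [Prod.mk.injEq] at hab
        obtain ⟨h4, h5⟩ := hab
        simp only at h4 h5
        subst h5
        exact ⟨a, ha, h4⟩
    rw [h3]
    exact h1
  have domT : ∀ y s, s ∈ dom (T y) := by
    intro y s
    obtain ⟨a, ha, rfl⟩ := hφs s
    rw [← h.domP x0 y] at ha
    obtain ⟨b, hb⟩ := ha
    exact ⟨b, (hTdef _ _ _).2 ⟨a, hb, rfl⟩⟩
  have codT : ∀ y, cod (T y) = Dm P y := by
    intro y
    rw [← h.codP x0 y]
    ext b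
    constructor
    · rintro ⟨s, hs⟩
      obtain ⟨a, ha, -⟩ := (hTdef _ _ _).1 hs
      exact ⟨a, ha⟩
    · rintro ⟨a, ha⟩
      exact ⟨φ a, (hTdef _ _ _).2 ⟨a, ha, rfl⟩⟩
  obtain ⟨W, hWdef⟩ : ∃ W : V → Prop, ∀ y, W y ↔
      ∀ s s' b, (s, b) ∈ T y → (s', b) ∈ T y → s = s' := ⟨fun y => _, fun _ => Iff.rfl⟩
  have hfull : ∀ y, ¬ W y → ∀ s, ∀ b ∈ Dm P y, (s, b) ∈ T y := by
    intro y hy s b hb
    have hc : TF (𝔸 false) (cod (T y)) := by rw [codT]; exact htf y
    rcases simple_full (hSbw false) (h2.bw false) (subT false y) (domT y) (hSs false)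
      (hStf false) hc with h3 | h3
    · exact absurd ((hWdef y).2 h3) hy
    · exact h3 s b (by rw [codT]; exact hb)
  have keya : ∀ y z b c, (b, c) ∈ P y z → ∃ s, (s, b) ∈ T y ∧ (s, c) ∈ T z := by
    intro y z b c hbc
    obtain ⟨a, h3, h4⟩ := h.triP x0 hbc
    exact ⟨φ a, (hTdef _ _ _).2 ⟨a, h.symP.1 h3, rfl⟩, (hTdef _ _ _).2 ⟨a, h.symP.1 h4, rfl⟩⟩
  -- the new domains
  obtain ⟨B, hBdef⟩ : ∃ B : V → Set A, ∀ y b, b ∈ B y ↔
      (b ∈ Dm P y ∧ (W y → (s0, b) ∈ T y)) :=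
    ⟨fun y => {b | b ∈ Dm P y ∧ (W y → (s0, b) ∈ T y)}, fun _ _ => Iff.rfl⟩
  have subB : ∀ k y, Sub (𝔸 k) (B y) := by
    intro k y
    by_cases hy : W y
    · have h3 : B y = Dm P y ∩ img (T y) {s0} := by
        ext b
        rw [hBdef]
        constructor
        · rintro ⟨h4, h5⟩
          exact ⟨h4, s0, rfl, h5 hy⟩
        · rintro ⟨h4, s, hs, h5⟩
          rw [Set.mem_singleton_iff] at hs
          subst hs
          exact ⟨h4, fun _ => h5⟩
      rw [h3]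
      exact (h.subDm h2 k y).inter ((subT k y).img (Sub.singleton (hSbw k) s0))
    · have h3 : B y = Dm P y := by
        ext b
        rw [hBdef]
        exact ⟨fun h4 => h4.1, fun h4 => ⟨h4, fun h5 => absurd h5 hy⟩⟩
      rw [h3]
      exact h.subDm h2 k y
  have neB : ∀ y, (B y).Nonempty := by
    intro y
    obtain ⟨b, hb⟩ := domT y s0
    refine ⟨b, (hBdef y b).2 ⟨?_, fun _ => hb⟩⟩
    rw [← codT]
    exact ⟨s0, hb⟩
  -- the main point
  have main : ∀ (c : M.ι) (i j : M.I c) (a b : A), (a, b) ∈ P (M.s c i) (M.s c j) →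
      a ∈ B (M.s c i) → b ∈ B (M.s c j) →
      ∃ r ∈ R c, (∀ l, r l ∈ B (M.s c l)) ∧ r i = a ∧ r j = b := by
    intro c i j a b hab ha hb
    -- an extension
    have hext : ∀ (i j : M.I c) (a b : A), (a, b) ∈ P (M.s c i) (M.s c j) →
        ∃ r ∈ R c, r i = a ∧ r j = b := by
      intro i j a b hab
      rw [← h.pr c i j] at hab
      obtain ⟨r, hr, hrab⟩ := hab
      rw [Prod.mk.injEq] at hrab
      exact ⟨r, hr, hrab.1, hrab.2⟩
    by_cases hex : ∃ k : M.I c, W (M.s c k)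
    swap
    · obtain ⟨r, hr, h3, h4⟩ := hext i j a b hab
      refine ⟨r, hr, fun l => ?_, h3, h4⟩
      rw [hBdef]
      exact ⟨hmemDm hr l, fun hl => absurd ⟨l, hl⟩ hex⟩
    obtain ⟨k, hk⟩ := hex
    have hkW := (hWdef _).1 hk
    obtain ⟨χ, hχ⟩ : ∃ χ : (M.I c → A) → S, ∀ r ∈ R c, (χ r, r k) ∈ T (M.s c k) := by
      have h3 : ∀ r : M.I c → A, ∃ s, r ∈ R c → (s, r k) ∈ T (M.s c k) := by
        intro r
        by_cases hr : r ∈ R c
        · have h4 := hmemDm hr k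
          rw [← codT] at h4
          obtain ⟨s, hs⟩ := h4
          exact ⟨s, fun _ => hs⟩
        · exact ⟨s0, fun h4 => absurd h4 hr⟩
      choose χ hχ using h3
      exact ⟨χ, fun r hr => hχ r hr⟩
    have factb : ∀ r ∈ R c, ∀ l, W (M.s c l) → (χ r, r l) ∈ T (M.s c l) := by
      intro r hr l hl
      obtain ⟨s, h3, h4⟩ := keya _ _ _ _ (h.memR hr k l)
      rw [hkW _ _ _ (hχ r hr) h3]
      exact h4
    have factc : ∀ r ∈ R c, χ r = s0 → ∀ l, r l ∈ B (M.s c l) := by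
      intro r hr h3 l
      rw [hBdef]
      refine ⟨hmemDm hr l, fun hl => ?_⟩
      rw [← h3]
      exact factb r hr l hl
    by_cases hWi : W (M.s c i)
    · obtain ⟨r, hr, h3, h4⟩ := hext i j a b hab
      refine ⟨r, hr, factc r hr ?_, h3, h4⟩
      refine (hWdef _).1 hWi _ _ a ?_ (((hBdef _ _).1 ha).2 hWi)
      have := factb r hr i hWi
      rwa [h3] at this
    by_cases hWj : W (M.s c j)
    · obtain ⟨r, hr, h3, h4⟩ := hext i j a b hab
      refine ⟨r, hr, factc r hr ?_, h3, h4⟩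
      refine (hWdef _).1 hWj _ _ b ?_ (((hBdef _ _).1 hb).2 hWj)
      have := factb r hr j hWj
      rwa [h4] at this
    -- neither is in `W`
    have hχhom : HomOn (pwr 𝔸 (M.side c) (M.I c)) (𝕊 (M.side c)) (R c) χ := by
      constructor
      · intro x hx y hy z hz
        refine hkW _ _ _ (hχ _ ((h.subR c).1 x hx y hy z hz)) ?_
        exact (subT (M.side c) (M.s c k)).1 _ (hχ x hx) _ (hχ y hy) _ (hχ z hz)
      · intro x hx y hy z hz u hu
        refine hkW _ _ _ (hχ _ ((h.subR c).2 x hx y hy z hz u hu)) ?_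
        exact (subT (M.side c) (M.s c k)).2 _ (hχ x hx) _ (hχ y hy) _ (hχ z hz) _ (hχ u hu)
    have hpi : HomOn (pwr 𝔸 (M.side c) (M.I c)) (𝔸 (M.side c)) (R c) (fun r => r i) :=
      HomOn.proj (fun _ : M.I c => 𝔸 (M.side c)) i (R c)
    have hpj : HomOn (pwr 𝔸 (M.side c) (M.I c)) (𝔸 (M.side c)) (R c) (fun r => r j) :=
      HomOn.proj (fun _ : M.I c => 𝔸 (M.side c)) j (R c)
    have lemL : ∀ l, ¬ W (M.s c l) → ∀ b ∈ Dm P (M.s c l), ∀ s, ∃ r ∈ R c, r l = b ∧ χ r = s := by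
      intro l hl b hb s
      obtain ⟨e, he, hes⟩ := (hTdef _ _ _).1 (hfull _ hl s b hb)
      obtain ⟨c', h3, h4⟩ := h.triP (M.s c k) he
      obtain ⟨r, hr, h5, h6⟩ := hext l k b c' h4
      refine ⟨r, hr, h5, ?_⟩
      refine hkW _ _ c' ?_ ((hTdef _ _ _).2 ⟨e, h3, hes⟩)
      have := hχ r hr
      rwa [h6] at this
    have haD : a ∈ Dm P (M.s c i) := ((hBdef _ _).1 ha).1
    -- the relation `Q`
    set Q : Set (S × (A × A)) := (fun r : M.I c → A => (χ r, (r i, r j))) '' R c with hQ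
    have subQ : Sub ((𝕊 (M.side c)).prod (sq 𝔸 (M.side c))) Q :=
      (h.subR c).image (HomOn.pair hχhom (HomOn.pair hpi hpj))
    have hdomQ : ∀ s, s ∈ dom Q := by
      intro s
      obtain ⟨r, hr, h3, h4⟩ := lemL i hWi a haD s
      exact ⟨(r i, r j), r, hr, by rw [← h4]⟩
    have hbw2 : IsBW (sq 𝔸 (M.side c)) := (h2.bw _).prod (h2.bw _)
    rcases simple_dich (hSbw _) hbw2 subQ hdomQ (hSs _) with hfun | hlink
    · -- functional
      exfalso
      have hΓ : Sub ((𝔸 (M.side c)).prod ((𝔸 (M.side c)).prod (𝕊 (M.side c))))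
          ((fun r : M.I c → A => (r i, (r j, χ r))) '' R c) :=
        (h.subR c).image (HomOn.pair hpi (HomOn.pair hpj hχhom))
      have hsub : Subsingleton S := by
        refine xyP (h2.bw _) (h2.bw _) (hSbw _) hΓ ((h.neR c).image _) ?_ ?_ ?_ (hStf _) (hSs _)
        · rintro x y s s' ⟨r, hr, h3⟩ ⟨r', hr', h4⟩
          simp only [Prod.mk.injEq] at h3 h4
          refine hfun s s' (x, y) ⟨r, hr, ?_⟩ ⟨r', hr', ?_⟩
          · simp only [Prod.mk.injEq]
            exact ⟨h3.2.2, h3.1, h3.2.1⟩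
          · simp only [Prod.mk.injEq]
            exact ⟨h4.2.2, h4.1, h4.2.1⟩
        · rintro x y s ⟨r, hr, h3⟩ s'
          simp only [Prod.mk.injEq] at h3
          obtain ⟨r', hr', h4, h5⟩ := lemL i hWi x (by rw [← h3.1]; exact hmemDm hr i) s'
          refine ⟨r' j, r', hr', ?_⟩
          simp only [Prod.mk.injEq]
          exact ⟨h4, trivial, h5⟩
        · rintro x y s ⟨r, hr, h3⟩ s'
          simp only [Prod.mk.injEq] at h3
          obtain ⟨r', hr', h4, h5⟩ := lemL j hWj y (by rw [← h3.2.1]; exact hmemDm hr j) s'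
          refine ⟨r' i, r', hr', ?_⟩
          simp only [Prod.mk.injEq]
          exact ⟨trivial, h4, h5⟩
      exact not_subsingleton S hsub
    · -- linked
      have hdomQ' : dom Q = Set.univ := Set.eq_univ_of_forall hdomQ
      have hcodQ : cod Q = P (M.s c i) (M.s c j) := by
        rw [← h.pr c i j]
        ext p
        constructor
        · rintro ⟨s, r, hr, h3⟩
          simp only [Prod.mk.injEq] at h3
          exact ⟨r, hr, h3.2⟩
        · rintro ⟨r, hr, h3⟩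
          exact ⟨χ r, r, hr, by rw [← h3]⟩
      have hQne : Q.Nonempty := (h.neR c).image _
      obtain ⟨hZne, hZabs⟩ := cn (hSbw _) hbw2 subQ hlink hQne
        (by rw [hdomQ']; exact hStf _)
      rw [hcodQ] at hZabs
      set Z := Cen (inv Q) with hZ
      have hsubP := h.subP h2 (M.side c) (M.s c i) (M.s c j)
      have hdomZ : dom Z = dom (P (M.s c i) (M.s c j)) := by
        have h3 : Abs3 (𝔸 (M.side c)) (dom Z) (dom (P (M.s c i) (M.s c j))) := by
          rw [dom_eq, dom_eq]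
          exact hZabs.image hsubP (HomOn.fst _ _ _)
        rw [h.domP] at h3 ⊢
        refine h2.tf false _ (h.subDm h2 false _) (htf _) _ ?_ h3
        obtain ⟨p, hp⟩ := hZne
        exact ⟨p.1, p.2, hp⟩
      have hcodZ : cod Z = cod (P (M.s c i) (M.s c j)) := by
        have h3 : Abs3 (𝔸 (M.side c)) (cod Z) (cod (P (M.s c i) (M.s c j))) := by
          rw [cod_eq, cod_eq]
          exact hZabs.image hsubP (HomOn.snd _ _ _)
        rw [h.codP] at h3 ⊢
        refine h2.tf false _ (h.subDm h2 false _) (htf _) _ ?_ h3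
        obtain ⟨p, hp⟩ := hZne
        exact ⟨p.2, p.1, hp⟩
      have h3 := ud (h2.min (M.side c)) hsubP hZabs hdomZ hcodZ
      have h4 : MM ((𝔸 (M.side c)).prod (𝔸 (M.side c))) (P (M.s c i) (M.s c j))
          = P (M.s c i) (M.s c j) := by
        have h5 := h2.mm2 (M.side c) false (P (M.s c i) (M.s c j))
        rw [hmin] at h5
        exact h5
      rw [h4] at h3
      have h5 := h3 hab
      obtain ⟨-, h6⟩ := h5
      have h7 : ((a, b), s0) ∈ inv Q := by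
        refine h6 s0 ?_
        rw [cod_inv, hdomQ']
        trivial
      obtain ⟨r, hr, h8⟩ := (mem_inv Q s0 (a, b)).1 h7
      simp only [Prod.mk.injEq] at h8
      exact ⟨r, hr, factc r hr h8.1, h8.2.1, h8.2.2⟩
  -- assembly
  refine ⟨fun y z => {p | p ∈ P y z ∧ p.1 ∈ B y ∧ p.2 ∈ B z},
    fun c => {r | r ∈ R c ∧ ∀ i, r i ∈ B (M.s c i)}, ⟨?_, ?_, ?_⟩, ?_, ?_, ?_⟩
  · intro c
    exact (h.subR c).inter (Sub.setpi fun i => subB (M.side c) (M.s c i))
  · intro c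
    by_cases hI : Nonempty (M.I c)
    · obtain ⟨i⟩ := hI
      obtain ⟨b, hb⟩ := neB (M.s c i)
      obtain ⟨r, hr, h3, -⟩ := main c i i b b ((hBdef _ _).1 hb).1 hb hb
      exact ⟨r, hr, h3⟩
    · obtain ⟨r, hr⟩ := h.neR c
      exact ⟨r, hr, fun i => absurd ⟨i⟩ hI⟩
  · intro c i j
    ext ⟨a, b⟩
    constructor
    · rintro ⟨r, ⟨hr, h3⟩, h4⟩
      simp only [Prod.mk.injEq] at h4
      obtain ⟨rfl, rfl⟩ := h4
      exact ⟨h.memR hr i j, h3 i, h3 j⟩
    · rintro ⟨hab, ha, hb⟩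
      obtain ⟨r, hr, h3, h4, h5⟩ := main c i j a b hab ha hb
      refine ⟨r, ⟨hr, h3⟩, ?_⟩
      simp only [Prod.mk.injEq]
      exact ⟨h4, h5⟩
  · intro x y p hp
    exact hp.1
  · intro heq
    obtain ⟨s1, hs1⟩ := exists_ne s0
    obtain ⟨a, ha, has⟩ := hφs s1
    have hx0 : W x0 := by
      rw [hWdef]
      intro s s' b hs hs'
      obtain ⟨a, ha, rfl⟩ := (hTdef _ _ _).1 hs
      obtain ⟨a', ha', rfl⟩ := (hTdef _ _ _).1 hs'
      rw [h.diagP ha, h.diagP ha']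
    have h3 : (a, a) ∈ P x0 x0 := ha
    rw [← heq] at h3
    have h4 := ((hBdef _ _).1 h3.2.1).2 hx0
    obtain ⟨a', ha', h5⟩ := (hTdef _ _ _).1 h4
    rw [h.diagP ha'] at h5
    exact hs1 (by rw [← has, h5])
  · intro c r hr
    exact hr.1

end Pool.Agent.BWC
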