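import Pool.Agent.Lib.MP_d14a7e_al.MixedA
import Pool.Agent.Lib.MP_d14a7e_al.MixedB

set_option autoImplicit false
set_option linter.all false

/-! The mixed consistency theorem. -/

namespace Pool.Agent.BWC

variable {A V : Type}

/-- **Mixed theorem.** -/
theorem mixed [Finite A] [Nonempty A] [Finite V] {𝔸 : Bool → Alg A} (h2 : Two 𝔸) {M : MInst V}
    {P : V → V → Set (A × A)} {R : ∀ c, Set (M.I c → A)} (h : MOk 𝔸 M P R) :
    ∃ σ : V → A, ∀ c, (fun i => σ (M.s c i)) ∈ R c := by
  classical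
  haveI := Fintype.ofFinite V
  suffices H : ∀ n : ℕ, ∀ (P : V → V → Set (A × A)) (R : ∀ c, Set (M.I c → A)),
      ∑ x : V, ∑ y : V, (P x y).ncard = n → MOk 𝔸 M P R →
      ∃ σ : V → A, ∀ c, (fun i => σ (M.s c i)) ∈ R c from H _ P R rfl h
  intro n
  induction n using Nat.strong_induction_on with
  | _ n ih =>
    intro P R hn h
    have small : (∃ (P' : V → V → Set (A × A)) (R' : ∀ c, Set (M.I c → A)), MOk 𝔸 M P' R' ∧
        (∀ x y, P' x y ⊆ P x y) ∧ (∃ x0 y0, P' x0 y0 ≠ P x0 y0) ∧ ∀ c, R' c ⊆ R c) →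
        ∃ σ : V → A, ∀ c, (fun i => σ (M.s c i)) ∈ R c := by
      rintro ⟨P', R', h1, h3, ⟨x0, y0, h4⟩, h5⟩
      have hle : ∀ x y, (P' x y).ncard ≤ (P x y).ncard :=
        fun x y => Set.ncard_le_ncard (h3 x y) (Set.toFinite _)
      have hlt : (P' x0 y0).ncard < (P x0 y0).ncard :=
        Set.ncard_lt_ncard (lt_of_le_of_ne (h3 x0 y0) h4) (Set.toFinite _)
      have : ∑ x : V, ∑ y : V, (P' x y).ncard < n := by
        rw [← hn]
        refine Finset.sum_lt_sum (fun x _ => Finset.sum_le_sum fun y _ => hle x y)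
          ⟨x0, Finset.mem_univ _, ?_⟩
        exact Finset.sum_lt_sum (fun y _ => hle x0 y) ⟨y0, Finset.mem_univ _, hlt⟩
      obtain ⟨σ, hσ⟩ := ih _ this P' R' rfl h1
      exact ⟨σ, fun c => h5 c (hσ c)⟩
    by_cases hmin : ∀ x y, MM (sq 𝔸 false) (P x y) = P x y
    · by_cases htf : ∀ x, TF (𝔸 false) (Dm P x)
      · by_cases hnt : ∃ x0, (Dm P x0).Nontrivial
        · obtain ⟨x0, hx0⟩ := hnt
          obtain ⟨P', R', h1, h3, h4, h5⟩ := red3 h2 h hmin htf hx0
          exact small ⟨P', R', h1, h3, ⟨x0, x0, h4⟩, h5⟩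
        · have hsub : ∀ x, (Dm P x).Subsingleton := fun x =>
            Set.not_nontrivial_iff.1 (fun h' => hnt ⟨x, h'⟩)
          have hne : ∀ x, (Dm P x).Nonempty := by
            intro x
            obtain ⟨⟨a, b⟩, hab⟩ := h.neP x x
            have := h.diagP hab
            subst this
            exact ⟨a, hab⟩
          refine ⟨fun x => (hne x).some, fun c => ?_⟩
          obtain ⟨r, hr⟩ := h.neR c
          have : (fun i => (hne (M.s c i)).some) = r := by
            funext i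
            exact hsub _ (hne (M.s c i)).some_mem (h.memR hr i i)
          rw [this]; exact hr
      · push Not at htf
        obtain ⟨x0, hx0⟩ := htf
        unfold TF at hx0
        push Not at hx0
        obtain ⟨N, hne, hN, hND⟩ := hx0
        obtain ⟨P', R', h1, h3, h4, h5⟩ := red2 h2 h hmin hN hne hND
        exact small ⟨P', R', h1, h3, ⟨x0, x0, h4⟩, h5⟩
    · push Not at hmin
      obtain ⟨x0, y0, h0⟩ := hmin
      exact small ⟨_, _, h.red1 h2, fun x y => MM_subset (h.subP h2 false x y), ⟨x0, y0, h0⟩,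
        fun c => MM_subset (h.subR c)⟩

end Pool.Agent.BWC
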