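import Pool.Agent.Lib.MP_d14a7e_al.MixedDefs

set_option autoImplicit false
set_option linter.all false

/-! Second reduction: some domain has a proper 3-absorbing subuniverse. -/

namespace Pool.Agent.BWC

variable {A V : Type}

/-- paths starting in an up-closed set stay in it -/
private theorem MIXA_reach {B : Type} {𝔹 : Alg B} {T U : Set B} (hT : UpIn 𝔹 T U) {a b : B}
    (h : ReachIn 𝔹 U a b) (ha : a ∈ T) : ReachIn 𝔹 T a b := by
  have key : ReachIn 𝔹 T a b ∧ b ∈ T := by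
    unfold ReachIn at h ⊢
    induction h with
    | refl => exact ⟨Relation.ReflTransGen.refl, ha⟩
    | tail h1 h2 ih =>
      have hb := hT _ ih.2 _ h2.2.2 h2.1
      exact ⟨ih.1.tail ⟨h2.1, ih.2, hb⟩, hb⟩
  exact key.1

private theorem MIXA_mono {B : Type} {𝔹 : Alg B} {T U : Set B} (hTU : T ⊆ U) {a b : B}
    (h : ReachIn 𝔹 T a b) : ReachIn 𝔹 U a b :=
  Relation.ReflTransGen.mono (r := fun x y => Edge 𝔹 x y ∧ x ∈ T ∧ y ∈ T)
    (fun _ _ h' => ⟨h'.1, hTU h'.2.1, hTU h'.2.2⟩) _ _ h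

/-- recurrent elements of an up-closed set are recurrent -/
private theorem MIXA_rec {B : Type} {𝔹 : Alg B} {T U : Set B} (hT : UpIn 𝔹 T U) (hTU : T ⊆ U)
    {a : B} (ha : a ∈ Rec 𝔹 T) : a ∈ Rec 𝔹 U :=
  ⟨hTU ha.1, fun b hb => MIXA_mono hTU (ha.2 b (MIXA_reach hT hb ha.1))⟩

/-- **Second reduction.**  All `P x y` are `MM`-minimal, `N` is a nonempty proper 3-absorbing
subuniverse of `Dm P x0`.
Proof.  `Dm P x = cod (P x0 x)` is `MM`-minimal too (`MM_image`), so `N` is not 2-absorbing on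
either side (2-absorbing nonempty sets are up-closed and contain all recurrent elements,
`abs2_edge`, `Abs3.up`), so by `abs_v` (and `Two.abs3`) `v` of both algebras absorbs `N`.
`Ny y = img (P x0 y) N`, absorbed by `v` of both sides in `Dm P y` (`AbsT.img`), `Ny x0 = N`.
By `triP`: for `b ∈ Ny y` and `z` there is `c ∈ Ny z` with `(b,c) ∈ P y z`.
Put `P¹ x y = {p ∈ P x y | p.1 ∈ Ny x ∧ p.2 ∈ Ny y}`,
`R¹ c = {r ∈ R c | ∀ i, r i ∈ Ny (s i)}`.
Claim: `pr_ij R¹ c` is up-closed in `P¹` and contains all recurrent elements of `P¹ (s i) (s j)`.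
Up-closed: an edge from `(r i, r j)`, `r ∈ R¹ c`, to an element of `P¹` lifts to an edge `r → r'`
of `R c` (`Edge.lift`), and `r' ∈ R¹ c` as the `Ny` are up-closed.
Recurrent: let `p` be recurrent in `P¹`, so (as `P¹` is up-closed in `P (s i) (s j)`) it is
recurrent in `P (s i) (s j)`; `Cl` = its sink class, contained in `Ny × Ny`.
`helly_base` with `R = R c`, `g = (r i, r j)`, `κ = I c`, `M k = {r ∈ R c | r k ∈ Ny (s k)}`:
pairwise intersecting by `triP`-type extension (`b ∈ Ny (s k)` has `c ∈ Ny (s l)` with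
`(b,c) ∈ P`, and `(b,c)` extends to `r ∈ R c`).  Over each `(a,b) ∈ Cl` there is an element of
`M k`:  `Q = pr_ij (M k)` 3-absorbs `P (s i) (s j)`; `a ∈ Ny (s i)` gives `(a,β) ∈ Q` for some
`β`, `b ∈ Ny (s j)` gives `(α,b) ∈ Q`; by `ph_lemma` `Q` meets `Cl`, and
being up-closed it contains `Cl`.  So some `r ∈ R¹ c` lies over `Cl`, and `pr_ij R¹ c ⊇ Cl ∋ p` by
up-closedness.
New instance: `P' = MM P¹`, `R' c = MM (R¹ c)`; `pr_ij R' c = MM (pr_ij R¹ c)` (`MM_image`)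
`= MM P¹` (`MM_of_between`).  Nonempty as `P¹` is nonempty.
`P' x0 x0 ⊆ {(a,a) | a ∈ N}` is a proper subset of `P x0 x0`. -/
theorem red2 [Finite A] [Nonempty A] {𝔸 : Bool → Alg A} (h2 : Two 𝔸) {M : MInst V}
    {P : V → V → Set (A × A)} {R : ∀ c, Set (M.I c → A)} (h : MOk 𝔸 M P R)
    (hmin : ∀ x y, MM (sq 𝔸 false) (P x y) = P x y) {x0 : V} {N : Set A}
    (hN : Abs3 (𝔸 false) N (Dm P x0)) (hne : N.Nonempty) (hprop : N ≠ Dm P x0) :
    ∃ (P' : V → V → Set (A × A)) (R' : ∀ c, Set (M.I c → A)), MOk 𝔸 M P' R' ∧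
      (∀ x y, P' x y ⊆ P x y) ∧ P' x0 x0 ≠ P x0 x0 ∧ ∀ c, R' c ⊆ R c := by
  classical
  haveI := M.finI
  have sq_sat : ∀ k, Sat (𝔸 k) (sq 𝔸 k) := fun k => (Sat.refl _).prod (Sat.refl _)
  have pw_sat : ∀ k (I : Type), Sat (𝔸 k) (pwr 𝔸 k I) := fun k I => Sat.pi fun _ => Sat.refl _
  have hsubD : ∀ k x, Sub (𝔸 k) (Dm P x) := fun k x => h.subDm h2 k x
  have hNk : ∀ k, Abs3 (𝔸 k) N (Dm P x0) := fun k => h2.abs3 false k (hsubD false x0) hN
  have hDfst : Prod.fst '' (P x0 x0) = Dm P x0 := by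
    ext a
    constructor
    · rintro ⟨⟨a, b⟩, hab, rfl⟩
      have := h.diagP hab
      subst this
      exact hab
    · intro ha
      exact ⟨(a, a), ha, rfl⟩
  have hMMk : ∀ k x y, MM (sq 𝔸 k) (P x y) = P x y := fun k x y => by
    rw [h2.mm2 k false, hmin]
  have hMMD : ∀ k, MM (𝔸 k) (Dm P x0) = Dm P x0 := fun k => by
    have := MM_image (h2.min k) (sq_sat k) (Sat.refl (𝔸 k)) (h.subP h2 k x0 x0)
      (HomOn.fst (𝔸 k) (𝔸 k) _)
    rw [hMMk, hDfst] at this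
    exact this.symm
  have hv : ∀ k, AbsT (𝔸 k) vT N (Dm P x0) := by
    intro k
    rcases abs_v (h2.min k) (Sat.refl (𝔸 k)) (hsubD k x0) (hNk k) with h' | h'
    · exact h'
    · exfalso
      apply hprop
      refine Set.Subset.antisymm (hNk k).subset ?_
      rw [← hMMD k]
      have hup : UpIn (𝔸 k) N (Dm P x0) := fun a ha b hb he =>
        (hNk k).up (h2.min k) (Sat.refl _) ha hb he
      refine MM_min (hNk k).sub (hNk k).subset hup ?_
      intro a ha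
      obtain ⟨b, hb, he⟩ := abs2_edge (h2.min k) (Sat.refl _) (hsubD k x0) h' hne ha.1
      have hab : ReachIn (𝔸 k) (Dm P x0) a b :=
        Relation.ReflTransGen.single ⟨he, ha.1, (hNk k).subset hb⟩
      exact hup.reach (ha.2 b hab) hb
  -- the sets `Ny`
  obtain ⟨Ny, hNy⟩ : ∃ Ny : V → Set A, ∀ y, Ny y = img (P x0 y) N := ⟨_, fun _ => rfl⟩
  have himD : ∀ y, img (P x0 y) (Dm P x0) = Dm P y := by
    intro y
    rw [← h.codP x0 y]
    ext b
    constructor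
    · rintro ⟨a, _, hab⟩
      exact ⟨a, hab⟩
    · rintro ⟨a, hab⟩
      refine ⟨a, ?_, hab⟩
      rw [← h.domP x0 y]
      exact ⟨b, hab⟩
  have hNyAbs : ∀ k y, AbsT (𝔸 k) vT (Ny y) (Dm P y) := by
    intro k y
    have := (hv k).img (h.subP h2 k x0 y)
    rw [himD] at this
    rw [hNy]
    exact this
  have hNy0 : Ny x0 = N := by
    rw [hNy]
    ext b
    constructor
    · rintro ⟨a, ha, hab⟩
      have := h.diagP hab
      subst this
      exact ha
    · intro hb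
      exact ⟨b, hb, (hNk false).subset hb⟩
  have hext : ∀ y z, ∀ b ∈ Ny y, ∃ c ∈ Ny z, (b, c) ∈ P y z := by
    intro y z b hb
    rw [hNy] at hb
    obtain ⟨a, ha, hab⟩ := hb
    obtain ⟨c, hc1, hc2⟩ := h.triP z hab
    exact ⟨c, by rw [hNy]; exact ⟨a, ha, hc1⟩, hc2⟩
  have hNyne : ∀ y, (Ny y).Nonempty := by
    intro y
    obtain ⟨a, ha⟩ := hne
    obtain ⟨c, hc, _⟩ := hext x0 y a (by rw [hNy0]; exact ha)
    exact ⟨c, hc⟩
  have hNyup : ∀ k y, UpIn (𝔸 k) (Ny y) (Dm P y) := fun k y a ha b hb he =>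
    (hNyAbs k y).up (h2.min k) (Sat.refl _) ha hb he
  -- first step relations
  obtain ⟨P1, hP1⟩ : ∃ P1 : V → V → Set (A × A), ∀ x y, P1 x y = P x y ∩ (Ny x ×ˢ Ny y) :=
    ⟨_, fun _ _ => rfl⟩
  obtain ⟨R1, hR1⟩ : ∃ R1 : ∀ c, Set (M.I c → A), ∀ c, R1 c =
      R c ∩ {r | ∀ i, r i ∈ Ny (M.s c i)} := ⟨_, fun _ => rfl⟩
  have hP1sub : ∀ k x y, Sub (sq 𝔸 k) (P1 x y) := by
    intro k x y
    rw [hP1]
    exact (h.subP h2 k x y).inter ((hNyAbs k x).1.setprod (hNyAbs k y).1)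
  have hR1sub : ∀ c, Sub (pwr 𝔸 (M.side c) (M.I c)) (R1 c) := by
    intro c
    rw [hR1]
    exact (h.subR c).inter (Sub.setpi fun i => (hNyAbs (M.side c) (M.s c i)).1)
  have hP1P : ∀ x y, P1 x y ⊆ P x y := by
    intro x y
    rw [hP1]
    exact Set.inter_subset_left
  have hR1R : ∀ c, R1 c ⊆ R c := by
    intro c
    rw [hR1]
    exact Set.inter_subset_left
  have hmemD : ∀ {x y : V} {a b : A}, (a, b) ∈ P x y → a ∈ Dm P x ∧ b ∈ Dm P y := by
    intro x y a b hab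
    refine ⟨?_, ?_⟩
    · rw [← h.domP x y]; exact ⟨b, hab⟩
    · rw [← h.codP x y]; exact ⟨a, hab⟩
  have hrD : ∀ {c : M.ι} {r : M.I c → A}, r ∈ R c → ∀ i, r i ∈ Dm P (M.s c i) := by
    intro c r hr i
    exact h.memR hr i i
  -- `P1` is up-closed in `P`
  have hP1up : ∀ k x y, UpIn (sq 𝔸 k) (P1 x y) (P x y) := by
    intro k x y a ha b hb he
    rw [hP1] at ha ⊢
    have he' := (edge_prod (h2.min k) (Sat.refl (𝔸 k)) (Sat.refl (𝔸 k))).1 he
    have hb' := hmemD (a := b.1) (b := b.2) hb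
    exact ⟨hb, hNyup k x _ ha.2.1 _ hb'.1 he'.1, hNyup k y _ ha.2.2 _ hb'.2 he'.2⟩
  -- projections are homomorphisms
  have hpr : ∀ c (i j : M.I c) (W : Set (M.I c → A)),
      HomOn (pwr 𝔸 (M.side c) (M.I c)) (sq 𝔸 (M.side c)) W (fun r => (r i, r j)) := by
    intro c i j W
    exact (HomOn.proj (fun _ : M.I c => 𝔸 (M.side c)) i W).pair
      (HomOn.proj (fun _ : M.I c => 𝔸 (M.side c)) j W)
  -- up-closedness of the projection of `R1 c`
  have hupT : ∀ c (i j : M.I c), UpIn (sq 𝔸 (M.side c)) ((fun r : M.I c → A => (r i, r j)) '' R1 c)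
      (P1 (M.s c i) (M.s c j)) := by
    rintro c i j _ ⟨r, hr, rfl⟩ p hp he
    have hpP : p ∈ P (M.s c i) (M.s c j) := hP1P _ _ hp
    rw [← h.pr c i j] at hpP
    obtain ⟨r'', hr'', rfl⟩ := hpP
    obtain ⟨r', hr', he', hgr⟩ := Edge.lift (h2.min (M.side c)) (pw_sat _ _) (sq_sat _)
      (h.subR c) (hpr c i j _) (hR1R c hr) hr'' he
    refine ⟨r', ?_, hgr⟩
    rw [hR1] at hr ⊢
    refine ⟨hr', fun k => ?_⟩
    have hek := (edge_pi (h2.min (M.side c)) (fun _ : M.I c => Sat.refl (𝔸 (M.side c)))).1 he' k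
    exact hNyup (M.side c) _ _ (hr.2 k) _ (hrD hr' k) hek
  -- every recurrent element is in the projection
  have hrecT : ∀ c (i j : M.I c), Rec (sq 𝔸 (M.side c)) (P1 (M.s c i) (M.s c j)) ⊆
      (fun r : M.I c → A => (r i, r j)) '' R1 c := by
    intro c i j p hp
    have hpU : p ∈ Rec (sq 𝔸 (M.side c)) (P (M.s c i) (M.s c j)) :=
      MIXA_rec (hP1up _ _ _) (hP1P _ _) hp
    obtain ⟨Cl, hCl⟩ : ∃ Cl : Set (A × A), Cl =
      {b | ReachIn (sq 𝔸 (M.side c)) (P (M.s c i) (M.s c j)) p b} := ⟨_, rfl⟩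
    have hClP1 : Cl ⊆ P1 (M.s c i) (M.s c j) := by
      intro b hb
      rw [hCl] at hb
      exact (hP1up (M.side c) _ _).reach hb hp.1
    have hClRec : ∀ q ∈ Cl, q ∈ Rec (sq 𝔸 (M.side c)) (P (M.s c i) (M.s c j)) := by
      intro q hq
      rw [hCl] at hq
      exact Rec.reach hpU hq
    -- the sets `M k`
    obtain ⟨Mk, hMk⟩ : ∃ Mk : M.I c → Set (M.I c → A), ∀ k, Mk k =
      {r ∈ R c | r k ∈ Ny (M.s c k)} := ⟨_, fun _ => rfl⟩
    have hMkabs : ∀ k, AbsT (pwr 𝔸 (M.side c) (M.I c)) vT (Mk k) (R c) := by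
      intro k
      rw [hMk]
      exact AbsT.preim (h.subR c) (HomOn.proj (fun _ : M.I c => 𝔸 (M.side c)) k _)
        (fun r hr => hrD hr k) (hNyAbs (M.side c) (M.s c k))
    have hextR : ∀ (k l : M.I c), ∀ b ∈ Ny (M.s c k), ∃ r ∈ Mk l, r k = b := by
      intro k l b hb
      obtain ⟨d, hd, hbd⟩ := hext (M.s c k) (M.s c l) b hb
      rw [← h.pr c k l] at hbd
      obtain ⟨r, hr, hrk⟩ := hbd
      simp only [Prod.mk.injEq] at hrk
      refine ⟨r, ?_, hrk.1⟩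
      rw [hMk]
      exact ⟨hr, by rw [hrk.2]; exact hd⟩
    have hpair : ∀ k l, (Mk k ∩ Mk l).Nonempty := by
      intro k l
      obtain ⟨b, hb⟩ := hNyne (M.s c k)
      obtain ⟨r, hr, hrk⟩ := hextR k l b hb
      refine ⟨r, ?_, hr⟩
      rw [hMk]
      exact ⟨(hMkabs l).subset hr, by rw [hrk]; exact hb⟩
    have hover : ∀ k, ∀ x ∈ Cl, ∃ r ∈ Mk k, (fun r : M.I c → A => (r i, r j)) r = x := by
      rintro k ⟨a, b⟩ hab
      have hab1 := hClP1 hab
      rw [hP1] at hab1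
      have hQ : Abs3 (sq 𝔸 (M.side c)) ((fun r : M.I c → A => (r i, r j)) '' Mk k)
          (P (M.s c i) (M.s c j)) := by
        rw [← h.pr c i j]
        exact ⟨vT, (hMkabs k).image (h.subR c) (hpr c i j _)⟩
      obtain ⟨r1, hr1, hr1i⟩ := hextR i k a hab1.2.1
      obtain ⟨r2, hr2, hr2j⟩ := hextR j k b hab1.2.2
      have hβ : (a, r1 j) ∈ (fun r : M.I c → A => (r i, r j)) '' Mk k :=
        ⟨r1, hr1, by show (r1 i, r1 j) = _; rw [hr1i]⟩
      have hα : (r2 i, b) ∈ (fun r : M.I c → A => (r i, r j)) '' Mk k :=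
        ⟨r2, hr2, by show (r2 i, r2 j) = _; rw [hr2j]⟩
      obtain ⟨q, hq, hreach⟩ := ph_lemma (h2.min (M.side c)) (h.subP h2 (M.side c) _ _) hQ
        (hClRec _ hab) hβ hα
      have hback := (hClRec _ hab).2 q hreach
      have hupQ : UpIn (sq 𝔸 (M.side c)) ((fun r : M.I c → A => (r i, r j)) '' Mk k)
          (P (M.s c i) (M.s c j)) := fun a ha b hb he =>
        hQ.up (h2.min (M.side c)) (sq_sat _) ha hb he
      have := hupQ.reach hback hq
      obtain ⟨r, hr, hrab⟩ := this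
      exact ⟨r, hr, hrab⟩
    obtain ⟨r, hr, hrM, hrCl⟩ := helly_base (h2.min (M.side c)) (pw_sat _ _) (sq_sat _)
      (h.subR c) (hpr c i j _) hMkabs hpair (Cl := Cl)
      (by
        rw [h.pr c i j]
        exact hClP1.trans (hP1P _ _))
      ⟨p, by rw [hCl]; exact Relation.ReflTransGen.refl⟩
      (by
        rw [h.pr c i j]
        intro a ha b hb he
        have haU := hP1P _ _ (hClP1 ha)
        rw [hCl] at ha ⊢
        exact Relation.ReflTransGen.tail ha ⟨he, haU, hb⟩)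
      hover
    have hrR1 : r ∈ R1 c := by
      rw [hR1]
      refine ⟨hr, fun k => ?_⟩
      have := hrM k
      rw [hMk] at this
      exact this.2
    have hreachp : ReachIn (sq 𝔸 (M.side c)) (P (M.s c i) (M.s c j)) (r i, r j) p := by
      have h1 := hrCl
      rw [hCl] at h1
      exact hpU.2 _ h1
    have hreachp1 : ReachIn (sq 𝔸 (M.side c)) (P1 (M.s c i) (M.s c j)) (r i, r j) p :=
      MIXA_reach (hP1up _ _ _) hreachp (hClP1 hrCl)
    exact (hupT c i j).reach hreachp1 ⟨r, hrR1, rfl⟩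
  have hTP1 : ∀ c (i j : M.I c), (fun r : M.I c → A => (r i, r j)) '' R1 c ⊆
      P1 (M.s c i) (M.s c j) := by
    rintro c i j _ ⟨r, hr, rfl⟩
    rw [hR1] at hr
    rw [hP1]
    exact ⟨h.memR hr.1 i j, hr.2 i, hr.2 j⟩
  have hP1ne : ∀ x y, (P1 x y).Nonempty := by
    intro x y
    obtain ⟨b, hb⟩ := hNyne x
    obtain ⟨c, hc, hbc⟩ := hext x y b hb
    exact ⟨(b, c), by rw [hP1]; exact ⟨hbc, hb, hc⟩⟩
  have hR1ne : ∀ c, (R1 c).Nonempty := by
    intro c
    by_cases hI : Nonempty (M.I c)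
    · obtain ⟨i⟩ := hI
      obtain ⟨p, hp⟩ := hP1ne (M.s c i) (M.s c i)
      obtain ⟨q, hq, _⟩ := exists_rec (𝔹 := sq 𝔸 (M.side c)) hp
      obtain ⟨r, hr, _⟩ := hrecT c i i hq
      exact ⟨r, hr⟩
    · obtain ⟨r, hr⟩ := h.neR c
      refine ⟨r, ?_⟩
      rw [hR1]
      exact ⟨hr, fun i => (hI ⟨i⟩).elim⟩
  refine ⟨fun x y => MM (sq 𝔸 false) (P1 x y),
    fun c => MM (pwr 𝔸 (M.side c) (M.I c)) (R1 c), ⟨fun c => MM_sub (hR1sub c),
      fun c => MM_nonempty (hR1ne c), fun c i j => ?_⟩,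
    fun x y => (MM_subset (hP1sub false x y)).trans (hP1P x y), ?_,
    fun c => (MM_subset (hR1sub c)).trans (hR1R c)⟩
  · show (fun r : M.I c → A => (r i, r j)) '' MM (pwr 𝔸 (M.side c) (M.I c)) (R1 c) =
      MM (sq 𝔸 false) (P1 (M.s c i) (M.s c j))
    rw [MM_image (h2.min (M.side c)) (pw_sat _ _) (sq_sat _) (hR1sub c) (hpr c i j _),
      MM_of_between (hP1sub (M.side c) _ _) ((hR1sub c).image (hpr c i j _)) (hTP1 c i j)
        (hupT c i j) (hrecT c i j), h2.mm2 (M.side c) false]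
  · intro heq
    apply hprop
    refine Set.Subset.antisymm (hNk false).subset ?_
    intro a ha
    have ha' : (a, a) ∈ P x0 x0 := ha
    rw [← heq] at ha'
    have := MM_subset (hP1sub false x0 x0) ha'
    rw [hP1, hNy0] at this
    exact this.2.1

end Pool.Agent.BWC
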