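import Pool.Agent.Lib.MP_d14a7e_al.PH

set_option autoImplicit false
set_option linter.all false

/-! Mixed instances: constraints of two algebras with the same binary invariants. -/

namespace Pool.Agent.BWC

variable {A V : Type}

/-- two minimal algebras on `A` with the same binary invariants -/
structure Two (𝔸 : Bool → Alg A) : Prop where
  min : ∀ k, MinBW (𝔸 k)
  inv : SameInv 𝔸

/-- shape of a mixed instance -/
structure MInst (V : Type) where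
  ι : Type
  I : ι → Type
  s : ∀ c, I c → V
  side : ι → Bool
  finI : ∀ c, Finite (I c)
  tri : ∀ x y z, ∃ c i j k, s c i = x ∧ s c j = y ∧ s c k = z

/-- power of `𝔸 k` -/
abbrev pwr (𝔸 : Bool → Alg A) (k : Bool) (I : Type) : Alg (I → A) := Alg.pi fun _ : I => 𝔸 k
/-- square of `𝔸 k` -/
abbrev sq (𝔸 : Bool → Alg A) (k : Bool) : Alg (A × A) := (𝔸 k).prod (𝔸 k)

/-- consistent mixed instance: constraint relations `R c`, with binary projections `P` -/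
structure MOk (𝔸 : Bool → Alg A) (M : MInst V) (P : V → V → Set (A × A))
    (R : ∀ c, Set (M.I c → A)) : Prop where
  subR : ∀ c, Sub (pwr 𝔸 (M.side c) (M.I c)) (R c)
  neR : ∀ c, (R c).Nonempty
  pr : ∀ c i j, (fun r : M.I c → A => (r i, r j)) '' R c = P (M.s c i) (M.s c j)

/-- domain of a variable -/
def Dm (P : V → V → Set (A × A)) (x : V) : Set A := {a | (a, a) ∈ P x x}

section two
variable {𝔸 : Bool → Alg A}

theorem Two.bw (h : Two 𝔸) (k : Bool) : IsBW (𝔸 k) := (h.min k).1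

/-- from `h.inv` -/
theorem Two.sub2 (h : Two 𝔸) (k l : Bool) (P : Set (A × A)) : Sub (sq 𝔸 k) P ↔ Sub (sq 𝔸 l) P := by
  cases k <;> cases l <;> first | exact Iff.rfl | exact h.inv P | exact (h.inv P).symm

/-- unary: use the diagonal of `U` -/
theorem Two.sub1 (h : Two 𝔸) (k l : Bool) (U : Set A) : Sub (𝔸 k) U ↔ Sub (𝔸 l) U := by
  have key : ∀ k l : Bool, Sub (𝔸 k) U → Sub (𝔸 l) U := by
    intro k l hU
    have h1 : Sub (sq 𝔸 l) {p : A × A | p.1 ∈ U ∧ p.1 = p.2} := (h.sub2 k l _).1 hU.diag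
    have h2 := h1.dom
    have h3 : dom {p : A × A | p.1 ∈ U ∧ p.1 = p.2} = U := by
      ext a
      constructor
      · rintro ⟨b, hb⟩
        exact hb.1
      · intro ha
        exact ⟨a, ha, rfl⟩
    rwa [h3] at h2
  exact ⟨key k l, key l k⟩

private theorem md_Sg_eq {B : Type} {𝔹 𝔻 : Alg B} (h : ∀ U : Set B, Sub 𝔹 U ↔ Sub 𝔻 U)
    (S : Set B) : Sg 𝔹 S = Sg 𝔻 S := by
  unfold Sg
  congr 1
  ext U
  exact and_congr_left fun _ => h U

/-- `edge_iff` -/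
theorem Two.edge (h : Two 𝔸) (k l : Bool) (a b : A) : Edge (𝔸 k) a b ↔ Edge (𝔸 l) a b := by
  rw [edge_iff, edge_iff, md_Sg_eq (fun U => h.sub2 k l U)]

/-- `edge_prod` -/
theorem Two.edge2 [Finite A] (h : Two 𝔸) (k l : Bool) (a b : A × A) :
    Edge (sq 𝔸 k) a b ↔ Edge (sq 𝔸 l) a b := by
  rw [edge_prod (h.min k) (Sat.refl _) (Sat.refl _), edge_prod (h.min l) (Sat.refl _) (Sat.refl _),
    h.edge k l, h.edge k l]

theorem Two.reach2 [Finite A] (h : Two 𝔸) (k l : Bool) (P : Set (A × A)) (a b : A × A) :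
    ReachIn (sq 𝔸 k) P a b ↔ ReachIn (sq 𝔸 l) P a b := by
  have key : (fun x y => Edge (sq 𝔸 k) x y ∧ x ∈ P ∧ y ∈ P) =
      (fun x y => Edge (sq 𝔸 l) x y ∧ x ∈ P ∧ y ∈ P) := by
    funext x y
    rw [h.edge2 k l]
  unfold ReachIn
  rw [key]

theorem Two.rec2 [Finite A] (h : Two 𝔸) (k l : Bool) (P : Set (A × A)) :
    Rec (sq 𝔸 k) P = Rec (sq 𝔸 l) P := by
  ext a
  unfold Rec
  simp only [Set.mem_setOf_eq, h.reach2 k l]

theorem Two.mm2 [Finite A] (h : Two 𝔸) (k l : Bool) (P : Set (A × A)) :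
    MM (sq 𝔸 k) P = MM (sq 𝔸 l) P := by
  unfold MM
  congr 1
  ext T
  have hup : UpIn (sq 𝔸 k) T P ↔ UpIn (sq 𝔸 l) T P := by
    unfold UpIn
    simp only [h.edge2 k l]
  simp only [Set.mem_setOf_eq]
  rw [h.sub2 k l, hup, h.rec2 k l]

/-- `abs3_iff`: 3-absorption of unary sets is common -/
theorem Two.abs3 [Finite A] [Nonempty A] (h : Two 𝔸) (k l : Bool) {U N : Set A}
    (hU : Sub (𝔸 k) U) (hN : Abs3 (𝔸 k) N U) : Abs3 (𝔸 l) N U := by
  have h1 := (abs3_iff (h.min k) (Sat.refl _) hU hN.subset).1 hN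
  exact (abs3_iff (h.min l) (Sat.refl _) ((h.sub1 k l U).1 hU) hN.subset).2
    ((h.sub2 k l _).1 h1)

theorem Two.tf [Finite A] [Nonempty A] (h : Two 𝔸) (k l : Bool) {U : Set A}
    (hU : Sub (𝔸 k) U) (hN : TF (𝔸 k) U) : TF (𝔸 l) U := by
  intro N hne hab
  exact hN N hne (h.abs3 l k ((h.sub1 k l U).1 hU) hab)

end two

/-! ### basic facts on consistent mixed instances -/

namespace MOk

variable {𝔸 : Bool → Alg A} {M : MInst V} {P : V → V → Set (A × A)}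
  {R : ∀ c, Set (M.I c → A)}

/-- `P x y` is a subuniverse on both sides (image of `R c` for a `c` whose scope contains
`x`, `y`; `Two.sub2`) -/
theorem subP (h : MOk 𝔸 M P R) (h2 : Two 𝔸) (k : Bool) (x y : V) : Sub (sq 𝔸 k) (P x y) := by
  obtain ⟨c, i, j, -, hi, hj, -⟩ := M.tri x y y
  have h1 := (h.subR c).image ((HomOn.proj (fun _ : M.I c => 𝔸 (M.side c)) i (R c)).pair
    (HomOn.proj (fun _ : M.I c => 𝔸 (M.side c)) j (R c)))
  rw [h.pr c i j, hi, hj] at h1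
  exact (h2.sub2 (M.side c) k _).1 h1

theorem neP (h : MOk 𝔸 M P R) (x y : V) : (P x y).Nonempty := by
  obtain ⟨c, i, j, -, hi, hj, -⟩ := M.tri x y y
  obtain ⟨r, hr⟩ := h.neR c
  refine ⟨(r i, r j), ?_⟩
  rw [← hi, ← hj, ← h.pr c i j]
  exact ⟨r, hr, rfl⟩

theorem diagP (h : MOk 𝔸 M P R) {x : V} {a b : A} (hab : (a, b) ∈ P x x) : a = b := by
  obtain ⟨c, i, -, -, hi, -, -⟩ := M.tri x x x
  have h1 := h.pr c i i
  rw [hi] at h1
  rw [← h1] at hab
  obtain ⟨r, -, hr⟩ := hab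
  rw [Prod.mk.injEq] at hr
  exact hr.1.symm.trans hr.2

theorem symP (h : MOk 𝔸 M P R) {x y : V} {a b : A} : (a, b) ∈ P x y ↔ (b, a) ∈ P y x := by
  obtain ⟨c, i, j, -, hi, hj, -⟩ := M.tri x y y
  have h1 := h.pr c i j
  have h2 := h.pr c j i
  rw [hi, hj] at h1 h2
  rw [← h1, ← h2]
  constructor
  · rintro ⟨r, hr, he⟩
    rw [Prod.mk.injEq] at he
    exact ⟨r, hr, Prod.ext he.2 he.1⟩
  · rintro ⟨r, hr, he⟩
    rw [Prod.mk.injEq] at he
    exact ⟨r, hr, Prod.ext he.2 he.1⟩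

/-- for a scope containing `x, y, z` -/
theorem triP (h : MOk 𝔸 M P R) {x y : V} (z : V) {a b : A} (hab : (a, b) ∈ P x y) :
    ∃ c, (a, c) ∈ P x z ∧ (b, c) ∈ P y z := by
  obtain ⟨c, i, j, k, hi, hj, hk⟩ := M.tri x y z
  have h1 := h.pr c i j
  have h2 := h.pr c i k
  have h3 := h.pr c j k
  rw [hi, hj] at h1
  rw [hi, hk] at h2
  rw [hj, hk] at h3
  rw [← h1] at hab
  obtain ⟨r, hr, he⟩ := hab
  rw [Prod.mk.injEq] at he
  refine ⟨r k, ?_, ?_⟩
  · rw [← h2]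
    exact ⟨r, hr, Prod.ext he.1 rfl⟩
  · rw [← h3]
    exact ⟨r, hr, Prod.ext he.2 rfl⟩

theorem domP (h : MOk 𝔸 M P R) (x y : V) : dom (P x y) = Dm P x := by
  ext a
  constructor
  · rintro ⟨b, hb⟩
    obtain ⟨c, hc, -⟩ := h.triP x hb
    have := h.diagP hc
    subst this
    exact hc
  · intro ha
    obtain ⟨c, hc, -⟩ := h.triP y ha
    exact ⟨c, hc⟩

theorem codP (h : MOk 𝔸 M P R) (x y : V) : cod (P x y) = Dm P y := by
  rw [← h.domP y x]
  ext b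
  exact ⟨fun ⟨a, ha⟩ => ⟨a, h.symP.1 ha⟩, fun ⟨a, ha⟩ => ⟨a, h.symP.1 ha⟩⟩

theorem subDm (h : MOk 𝔸 M P R) (h2 : Two 𝔸) (k : Bool) (x : V) : Sub (𝔸 k) (Dm P x) := by
  rw [← h.domP x x]
  exact (h.subP h2 k x x).dom

theorem memR (h : MOk 𝔸 M P R) {c : M.ι} {r : M.I c → A} (hr : r ∈ R c) (i j : M.I c) :
    (r i, r j) ∈ P (M.s c i) (M.s c j) := by
  rw [← h.pr c i j]; exact ⟨r, hr, rfl⟩

/-- **First reduction** (`MM_image`, `Two.mm2`) -/
theorem red1 [Finite A] (h : MOk 𝔸 M P R) (h2 : Two 𝔸) :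
    MOk 𝔸 M (fun x y => MM (sq 𝔸 false) (P x y))
      (fun c => MM (pwr 𝔸 (M.side c) (M.I c)) (R c)) where
  subR c := MM_sub (h.subR c)
  neR c := by
    haveI := M.finI c
    exact MM_nonempty (h.neR c)
  pr c i j := by
    haveI := M.finI c
    have hg : HomOn (pwr 𝔸 (M.side c) (M.I c)) (sq 𝔸 (M.side c)) (R c)
        (fun r : M.I c → A => (r i, r j)) :=
      (HomOn.proj (fun _ : M.I c => 𝔸 (M.side c)) i (R c)).pair
        (HomOn.proj (fun _ : M.I c => 𝔸 (M.side c)) j (R c))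
    have h1 := MM_image (h2.min (M.side c)) (Sat.pi fun _ => Sat.refl _)
      ((Sat.refl _).prod (Sat.refl _)) (h.subR c) hg
    rw [h1, h.pr c i j]
    exact h2.mm2 (M.side c) false _

end MOk

end Pool.Agent.BWC
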