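import Pool.Agent.Lib.MP_d14a7e_al.Edge

set_option autoImplicit false
set_option linter.all false

/-! The binary relation attached to a unary set. -/

namespace Pool.Agent.BWC

variable {A B C D : Type}

/-- pairs of elements of `U` one of which is in `N` -/
def rho (U N : Set B) : Set (B × B) := {p | p.1 ∈ U ∧ p.2 ∈ U ∧ (p.1 ∈ N ∨ p.2 ∈ N)}

/-- If `rho U N` is a subuniverse then `v` absorbs `N` or `N` is 2-absorbing.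
`N` is a subuniverse as `x ∈ N ↔ (x,x) ∈ rho U N`.
Suppose `v(a,b,c) ∉ N` with `a, b ∈ N`, `c ∈ U`.
For `q₀ q₁ ∈ U`, `q₂ ∈ N` the pairs `(a,q₀), (b,q₁), (c,q₂)` are in `rho U N`, so
`v(q₀,q₁,q₂) ∈ N`.  Then `s(x,y) = v(x,x,y)` (term `sT`) 2-absorbs: `s(u,n) = v(u,u,n) ∈ N`,
`s(n,u) = v(n,n,u) = v(u,n,n) ∈ N`.  Similarly if `v` fails to absorb at another position. -/
theorem rho_abs {𝔹 : Alg B} (hB : IsBW 𝔹) {U N : Set B} (hU : Sub 𝔹 U) (hNU : N ⊆ U)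
    (h : Sub (𝔹.prod 𝔹) (rho U N)) : AbsT 𝔹 vT N U ∨ Abs2 𝔹 N U := by
  classical
  have hd : ∀ {x : B}, x ∈ N → (x, x) ∈ rho U N := fun {x} hx => ⟨hNU hx, hNU hx, Or.inl hx⟩
  have hN : Sub 𝔹 N := by
    constructor
    · intro x hx y hy z hz
      rcases (h.1 _ (hd hx) _ (hd hy) _ (hd hz)).2.2 with h1 | h1 <;> exact h1
    · intro x hx y hy z hz u hu
      rcases (h.2 _ (hd hx) _ (hd hy) _ (hd hz) _ (hd hu)).2.2 with h1 | h1 <;> exact h1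
  by_cases h1 : ∀ x ∈ U, ∀ y ∈ N, ∀ z ∈ N, 𝔹.v x y z ∈ N
  · by_cases h2 : ∀ x ∈ N, ∀ y ∈ U, ∀ z ∈ N, 𝔹.v x y z ∈ N
    · by_cases h3 : ∀ x ∈ N, ∀ y ∈ N, ∀ z ∈ U, 𝔹.v x y z ∈ N
      · exact Or.inl ⟨hN, hNU, h1, h2, h3⟩
      · push Not at h3
        obtain ⟨a, ha, b, hb, c, hc, hn⟩ := h3
        have key : ∀ q₀ ∈ U, ∀ q₁ ∈ U, ∀ q₂ ∈ N, 𝔹.v q₀ q₁ q₂ ∈ N := by
          intro q₀ h0 q₁ h1 q₂ h2
          have := (h.1 (a, q₀) ⟨hNU ha, h0, Or.inl ha⟩ (b, q₁) ⟨hNU hb, h1, Or.inl hb⟩ (c, q₂)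
            ⟨hc, hNU h2, Or.inr h2⟩).2.2
          exact this.resolve_left hn
        refine Or.inr ⟨sT, hN, hNU, ?_, ?_⟩
        · intro x hx y hy
          rw [t2_sT]; exact key _ hx _ hx _ hy
        · intro x hx y hy
          rw [t2_sT, ← hB.v0]; exact key _ hy _ (hNU hx) _ hx
    · push Not at h2
      obtain ⟨a, ha, c, hc, b, hb, hn⟩ := h2
      have key : ∀ q₀ ∈ U, ∀ q₁ ∈ N, ∀ q₂ ∈ U, 𝔹.v q₀ q₁ q₂ ∈ N := by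
        intro q₀ h0 q₁ h1 q₂ h2
        have := (h.1 (a, q₀) ⟨hNU ha, h0, Or.inl ha⟩ (c, q₁) ⟨hc, hNU h1, Or.inr h1⟩ (b, q₂)
          ⟨hNU hb, h2, Or.inl hb⟩).2.2
        exact this.resolve_left hn
      refine Or.inr ⟨sT, hN, hNU, ?_, ?_⟩
      · intro x hx y hy
        rw [t2_sT, ← hB.v1]; exact key _ hx _ hy _ hx
      · intro x hx y hy
        rw [t2_sT]; exact key _ (hNU hx) _ hx _ hy
  · push Not at h1
    obtain ⟨c, hc, a, ha, b, hb, hn⟩ := h1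
    have key : ∀ q₀ ∈ N, ∀ q₁ ∈ U, ∀ q₂ ∈ U, 𝔹.v q₀ q₁ q₂ ∈ N := by
      intro q₀ h0 q₁ h1 q₂ h2
      have := (h.1 (c, q₀) ⟨hc, hNU h0, Or.inr h0⟩ (a, q₁) ⟨hNU ha, h1, Or.inl ha⟩ (b, q₂)
        ⟨hNU hb, h2, Or.inl hb⟩).2.2
      exact this.resolve_left hn
    refine Or.inr ⟨sT, hN, hNU, ?_, ?_⟩
    · intro x hx y hy
      rw [t2_sT, ← hB.v0]; exact key _ hy _ hx _ hx
    · intro x hx y hy
      rw [t2_sT]; exact key _ hx _ (hNU hx) _ hy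

theorem rho_abs3 {𝔹 : Alg B} (hB : IsBW 𝔹) {U N : Set B} (hU : Sub 𝔹 U) (hNU : N ⊆ U)
    (h : Sub (𝔹.prod 𝔹) (rho U N)) : Abs3 𝔹 N U := by
  rcases rho_abs hB hU hNU h with h | h
  · exact ⟨_, h⟩
  · exact h.abs3 hU

/-- disjoint nonempty `N, N'` with `rho` relations invariant: `N ∪ N'` is a subuniverse, since
`{(p,q) | p ∈ N ∨ q ∈ N'}` (`p, q ∈ U`) is the composition
`{(p,q) | ∃ r, (p,r) ∈ rho U N ∧ (r,q) ∈ rho U N'}`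
(if `p ∉ N` then `r ∈ N`, so `r ∉ N'`, so `q ∈ N'`). -/
theorem rho_union {𝔹 : Alg B} {U N N' : Set B} (hNU : N ⊆ U) (hNU' : N' ⊆ U)
    (hd : Disjoint N N') (hne : N.Nonempty) (hne' : N'.Nonempty)
    (h : Sub (𝔹.prod 𝔹) (rho U N)) (h' : Sub (𝔹.prod 𝔹) (rho U N')) : Sub 𝔹 (N ∪ N') := by
  have hP := h.rcomp h'
  obtain ⟨n, hn⟩ := hne
  obtain ⟨n', hn'⟩ := hne'
  have h1 : ∀ {x : B}, x ∈ N ∪ N' → (x, x) ∈ rcomp (rho U N) (rho U N') := by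
    rintro x (hx | hx)
    · exact ⟨n', ⟨hNU hx, hNU' hn', Or.inl hx⟩, ⟨hNU' hn', hNU hx, Or.inl hn'⟩⟩
    · exact ⟨n, ⟨hNU' hx, hNU hn, Or.inr hn⟩, ⟨hNU hn, hNU' hx, Or.inr hx⟩⟩
  have h2 : ∀ {x : B}, (x, x) ∈ rcomp (rho U N) (rho U N') → x ∈ N ∪ N' := by
    rintro x ⟨r, hr, hr'⟩
    rcases hr.2.2 with h3 | h3
    · exact Or.inl h3
    · rcases hr'.2.2 with h4 | h4
      · exact (Set.disjoint_left.mp hd h3 h4).elim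
      · exact Or.inr h4
  constructor
  · intro x hx y hy z hz
    exact h2 (hP.1 _ (h1 hx) _ (h1 hy) _ (h1 hz))
  · intro x hx y hy z hz u hu
    exact h2 (hP.2 _ (h1 hx) _ (h1 hy) _ (h1 hz) _ (h1 hu))

end Pool.Agent.BWC
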