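import Pool.Agent.Lib.MP_d14a7e_al.XYA

set_option autoImplicit false
set_option linter.all false

/-! Joint surjectivity of families of homomorphisms to simple TF algebras. -/

namespace Pool.Agent.BWC

/-- A homomorphism from a product of TF algebras onto a simple TF algebra `S` which is
onto `U i × S` together with each coordinate: `S` is trivial.
Here `f` is defined on `P = {x | ∀ i, x i ∈ U i}`.
Proof: suppose `S` is not a subsingleton.  Fix `i`; relation
`T = {(f (Function.update y i x), y) | y ∈ P, x ∈ U i} ⊆ S × P`.  By `simple_full`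
(`P` is TF by `TF.setpi`) either `f (update y i x)` does not depend on `x ∈ U i`
for `y ∈ P`, or for all `y ∈ P`, `s` there is `x ∈ U i` with `f (update y i x) = s`.
In the second case apply `xy_prod` to `UX = U i`, `UY = P`,
`Γ = {(x,y,s) | x ∈ U i, y ∈ P, s = f (update y i x)}`
(`h1` from `hi`: given `x, s` there is `z ∈ P`, `z i = x`, `f z = s`).
So the first case holds for all `i` and `f` is constant on `P`. -/
theorem st_const {ι S : Type} [Finite ι] [Finite S] {F : ι → Type} [∀ i, Finite (F i)]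
    {𝔽 : ∀ i, Alg (F i)} {𝕊 : Alg S} (hF : ∀ i, IsBW (𝔽 i)) (hS : IsBW 𝕊)
    {U : ∀ i, Set (F i)} (hU : ∀ i, Sub (𝔽 i) (U i)) (hUne : ∀ i, (U i).Nonempty)
    (hUtf : ∀ i, TF (𝔽 i) (U i)) {f : (∀ i, F i) → S}
    (hf : HomOn (Alg.pi 𝔽) 𝕊 {x | ∀ i, x i ∈ U i} f)
    (honto : ∀ s, ∃ x, (∀ i, x i ∈ U i) ∧ f x = s)
    (hi : ∀ i, ∀ a ∈ U i, ∀ s, ∃ x, (∀ i, x i ∈ U i) ∧ x i = a ∧ f x = s)
    (hStf : TF 𝕊 Set.univ) (hSs : Simple 𝕊) : Subsingleton S := by
  classical
  by_contra hns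
  have hP : Sub (Alg.pi 𝔽) {x | ∀ i, x i ∈ U i} := Sub.setpi hU
  have hPi : IsBW (Alg.pi 𝔽) := IsBW.pi hF
  have hPtf : TF (Alg.pi 𝔽) {x | ∀ i, x i ∈ U i} := TF.setpi hF hU hUtf
  -- updates
  have hupm : ∀ (i : ι) (y : ∀ i, F i) (x : F i), (∀ j, y j ∈ U j) → x ∈ U i →
      ∀ j, Function.update y i x j ∈ U j := by
    intro i y x hy hx j
    by_cases hj : j = i
    · subst hj
      rw [Function.update_self]; exact hx
    · rw [Function.update_of_ne hj]; exact hy j
  have hupv : ∀ (i : ι) (y1 y2 y3 : ∀ i, F i) (x1 x2 x3 : F i),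
      (Alg.pi 𝔽).v (Function.update y1 i x1) (Function.update y2 i x2) (Function.update y3 i x3) =
        Function.update ((Alg.pi 𝔽).v y1 y2 y3) i ((𝔽 i).v x1 x2 x3) := by
    intro i y1 y2 y3 x1 x2 x3
    funext j
    by_cases hj : j = i
    · subst hj
      simp [Alg.pi]
    · simp [Alg.pi, Function.update_of_ne hj]
  have hupw : ∀ (i : ι) (y1 y2 y3 y4 : ∀ i, F i) (x1 x2 x3 x4 : F i),
      (Alg.pi 𝔽).w (Function.update y1 i x1) (Function.update y2 i x2) (Function.update y3 i x3)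
        (Function.update y4 i x4) =
        Function.update ((Alg.pi 𝔽).w y1 y2 y3 y4) i ((𝔽 i).w x1 x2 x3 x4) := by
    intro i y1 y2 y3 y4 x1 x2 x3 x4
    funext j
    by_cases hj : j = i
    · subst hj
      simp [Alg.pi]
    · simp [Alg.pi, Function.update_of_ne hj]
  -- one coordinate
  have hone : ∀ (i : ι) (y : ∀ i, F i), (∀ j, y j ∈ U j) → ∀ x ∈ U i,
      f (Function.update y i x) = f y := by
    intro i
    let T : Set (S × (∀ i, F i)) :=
      {p | (∀ j, p.2 j ∈ U j) ∧ ∃ x ∈ U i, f (Function.update p.2 i x) = p.1}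
    have hT : Sub (𝕊.prod (Alg.pi 𝔽)) T := by
      constructor
      · rintro p ⟨hp, x, hx, hpx⟩ q ⟨hq, y, hy, hqy⟩ r ⟨hr, z, hz, hrz⟩
        refine ⟨hP.1 _ hp _ hq _ hr, (𝔽 i).v x y z, (hU i).1 _ hx _ hy _ hz, ?_⟩
        show f (Function.update ((Alg.pi 𝔽).v p.2 q.2 r.2) i _) = 𝕊.v p.1 q.1 r.1
        rw [← hupv, hf.1 _ (hupm i _ _ hp hx) _ (hupm i _ _ hq hy) _ (hupm i _ _ hr hz),
          hpx, hqy, hrz]
      · rintro p ⟨hp, x, hx, hpx⟩ q ⟨hq, y, hy, hqy⟩ r ⟨hr, z, hz, hrz⟩ u ⟨hu, t, ht, hut⟩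
        refine ⟨hP.2 _ hp _ hq _ hr _ hu, (𝔽 i).w x y z t, (hU i).2 _ hx _ hy _ hz _ ht, ?_⟩
        show f (Function.update ((Alg.pi 𝔽).w p.2 q.2 r.2 u.2) i _) = 𝕊.w p.1 q.1 r.1 u.1
        rw [← hupw, hf.2 _ (hupm i _ _ hp hx) _ (hupm i _ _ hq hy) _ (hupm i _ _ hr hz)
          _ (hupm i _ _ hu ht), hpx, hqy, hrz, hut]
    have hdom : ∀ s, s ∈ dom T := by
      intro s
      obtain ⟨x, hx, hxs⟩ := honto s
      refine ⟨x, hx, x i, hx i, ?_⟩
      show f (Function.update x i (x i)) = s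
      rw [Function.update_eq_self]; exact hxs
    have hcod : cod T = {x | ∀ i, x i ∈ U i} := by
      ext y
      constructor
      · rintro ⟨s, hs⟩
        exact hs.1
      · intro hy
        exact ⟨f y, hy, y i, hy i, by
          show f (Function.update y i (y i)) = f y
          rw [Function.update_eq_self]⟩
    rcases simple_full hS hPi hT hdom hSs hStf (by rw [hcod]; exact hPtf) with h | h
    · intro y hy x hx
      refine h _ _ y ⟨hy, x, hx, rfl⟩ ⟨hy, y i, hy i, ?_⟩
      show f (Function.update y i (y i)) = f y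
      rw [Function.update_eq_self]
    · exfalso
      apply hns
      let Γ : Set (F i × (∀ i, F i) × S) :=
        {p | p.1 ∈ U i ∧ (∀ j, p.2.1 j ∈ U j) ∧ f (Function.update p.2.1 i p.1) = p.2.2}
      have hΓ : Sub ((𝔽 i).prod ((Alg.pi 𝔽).prod 𝕊)) Γ := by
        constructor
        · rintro p ⟨hx, hp, hpx⟩ q ⟨hy, hq, hqy⟩ r ⟨hz, hr, hrz⟩
          refine ⟨(hU i).1 _ hx _ hy _ hz, hP.1 _ hp _ hq _ hr, ?_⟩
          show f (Function.update ((Alg.pi 𝔽).v p.2.1 q.2.1 r.2.1) i ((𝔽 i).v p.1 q.1 r.1)) =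
            𝕊.v p.2.2 q.2.2 r.2.2
          rw [← hupv, hf.1 _ (hupm i _ _ hp hx) _ (hupm i _ _ hq hy) _ (hupm i _ _ hr hz),
            hpx, hqy, hrz]
        · rintro p ⟨hx, hp, hpx⟩ q ⟨hy, hq, hqy⟩ r ⟨hz, hr, hrz⟩ u ⟨ht, hu, hut⟩
          refine ⟨(hU i).2 _ hx _ hy _ hz _ ht, hP.2 _ hp _ hq _ hr _ hu, ?_⟩
          show f (Function.update ((Alg.pi 𝔽).w p.2.1 q.2.1 r.2.1 u.2.1) i
            ((𝔽 i).w p.1 q.1 r.1 u.1)) = 𝕊.w p.2.2 q.2.2 r.2.2 u.2.2
          rw [← hupw, hf.2 _ (hupm i _ _ hp hx) _ (hupm i _ _ hq hy) _ (hupm i _ _ hr hz)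
            _ (hupm i _ _ hu ht), hpx, hqy, hrz, hut]
      refine xy_prod (hF i) hPi hS (UX := U i) (UY := {x | ∀ i, x i ∈ U i}) (hU i) hP
        (hUne i) hΓ ?_ ?_ ?_ ?_ (hUtf i) hStf hSs
      · intro x hx y hy
        exact ⟨f (Function.update y i x), hx, hy, rfl⟩
      · intro x y s s' h1 h2
        have h3 : f (Function.update y i x) = s := h1.2.2
        have h4 : f (Function.update y i x) = s' := h2.2.2
        rw [← h3, ← h4]
      · intro x hx s
        obtain ⟨z, hz, hzi, hzs⟩ := hi i x hx s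
        refine ⟨z, hz, hx, hz, ?_⟩
        show f (Function.update z i x) = s
        rw [← hzi, Function.update_eq_self]; exact hzs
      · intro y hy s
        obtain ⟨-, x, hx, hxs⟩ := h s y (by rw [hcod]; exact hy)
        exact ⟨x, hx, hx, hy, hxs⟩
  -- all coordinates
  have : Fintype ι := Fintype.ofFinite ι
  have hall : ∀ y z : ∀ i, F i, (∀ j, y j ∈ U j) → (∀ j, z j ∈ U j) → ∀ K : Finset ι,
      f (fun j => if j ∈ K then z j else y j) = f y := by
    intro y z hy hz K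
    induction K using Finset.induction_on with
    | empty => simp
    | insert a K ha ih =>
      have e : (fun j => if j ∈ insert a K then z j else y j) =
          Function.update (fun j => if j ∈ K then z j else y j) a (z a) := by
        funext j
        by_cases hj : j = a
        · subst hj; simp
        · simp [hj, Function.update_of_ne hj]
      rw [e, hone a _ _ _ (hz a), ih]
      intro j
      by_cases hj : j ∈ K
      · simp only [hj, if_true]; exact hz j
      · simp only [hj, if_false]; exact hy j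
  apply hns
  refine ⟨fun s s' => ?_⟩
  obtain ⟨x, hx, rfl⟩ := honto s
  obtain ⟨x', hx', rfl⟩ := honto s'
  have := hall x x' hx hx' Finset.univ
  simp only [Finset.mem_univ, if_true] at this
  exact this.symm

/-- One more function.  `G = (g i)` is jointly onto `∏ U i`; `h : R → S` onto with each
`(g i, h)` onto `U i × S`; then `(G, h)` is onto `∏ U i × S`.
Proof: `T = {(h r, fun i => g i r) | r ∈ R} ⊆ S × ∏ F i`.  By `simple_full` it is full (done) or
`h r` is a function of `G r`, which is a homomorphism on `∏ U i`, and `st_const` gives that `S` is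
a subsingleton: done again by joint surjectivity of `G`. -/
theorem st_step {W ι S : Type} [Finite ι] [Finite S] {F : ι → Type} [∀ i, Finite (F i)]
    {𝕎 : Alg W} {𝔽 : ∀ i, Alg (F i)} {𝕊 : Alg S} (hF : ∀ i, IsBW (𝔽 i)) (hS : IsBW 𝕊)
    {R : Set W} (hR : Sub 𝕎 R)
    {U : ∀ i, Set (F i)} (hU : ∀ i, Sub (𝔽 i) (U i)) (hUne : ∀ i, (U i).Nonempty)
    (hUtf : ∀ i, TF (𝔽 i) (U i)) {g : ∀ i, W → F i} (hg : ∀ i, HomOn 𝕎 (𝔽 i) R (g i))
    (hgU : ∀ i, ∀ r ∈ R, g i r ∈ U i) {h : W → S} (hh : HomOn 𝕎 𝕊 R h)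
    (hG : ∀ x : ∀ i, F i, (∀ i, x i ∈ U i) → ∃ r ∈ R, ∀ i, g i r = x i)
    (hh' : ∀ s, ∃ r ∈ R, h r = s)
    (hi : ∀ i, ∀ a ∈ U i, ∀ s, ∃ r ∈ R, g i r = a ∧ h r = s)
    (hStf : TF 𝕊 Set.univ) (hSs : Simple 𝕊) :
    ∀ x : ∀ i, F i, (∀ i, x i ∈ U i) → ∀ s, ∃ r ∈ R, (∀ i, g i r = x i) ∧ h r = s := by
  classical
  intro x hx s
  have hP : Sub (Alg.pi 𝔽) {x | ∀ i, x i ∈ U i} := Sub.setpi hU
  have hPi : IsBW (Alg.pi 𝔽) := IsBW.pi hF
  have hPtf : TF (Alg.pi 𝔽) {x | ∀ i, x i ∈ U i} := TF.setpi hF hU hUtf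
  have hGh : HomOn 𝕎 (Alg.pi 𝔽) R (fun r i => g i r) := HomOn.ofPi 𝔽 hg
  let T : Set (S × (∀ i, F i)) := (fun r => (h r, fun i => g i r)) '' R
  have hT : Sub (𝕊.prod (Alg.pi 𝔽)) T := hR.image (hh.pair hGh)
  have hdom : ∀ s, s ∈ dom T := by
    intro s
    obtain ⟨r, hr, rfl⟩ := hh' s
    exact ⟨_, r, hr, rfl⟩
  have hcod : cod T = {x | ∀ i, x i ∈ U i} := by
    ext y
    constructor
    · rintro ⟨s, r, hr, he⟩
      have : (fun i => g i r) = y := congrArg Prod.snd he
      rw [← this]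
      exact fun i => hgU i r hr
    · intro hy
      obtain ⟨r, hr, hry⟩ := hG y hy
      refine ⟨h r, r, hr, ?_⟩
      show (h r, fun i => g i r) = (h r, y)
      rw [show (fun i => g i r) = y from funext hry]
  rcases simple_full hS hPi hT hdom hSs hStf (by rw [hcod]; exact hPtf) with hc | hc
  · -- `h r` is a function of `G r`
    have hfun : ∀ r ∈ R, ∀ r' ∈ R, (∀ i, g i r = g i r') → h r = h r' := by
      intro r hr r' hr' he
      refine hc _ _ (fun i => g i r) ⟨r, hr, rfl⟩ ⟨r', hr', ?_⟩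
      show (h r', fun i => g i r') = (h r', fun i => g i r)
      rw [show (fun i => g i r') = (fun i => g i r) from funext fun i => (he i).symm]
    let f : (∀ i, F i) → S := fun y =>
      if hy : ∀ i, y i ∈ U i then h (hG y hy).choose else s
    have hfr : ∀ r ∈ R, f (fun i => g i r) = h r := by
      intro r hr
      have hy : ∀ i, g i r ∈ U i := fun i => hgU i r hr
      have e : f (fun i => g i r) = h (hG (fun i => g i r) hy).choose := dif_pos hy
      rw [e]
      have h5 := (hG (fun i => g i r) hy).choose_spec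
      exact hfun _ h5.1 _ hr h5.2
    have hfr' : ∀ y : ∀ i, F i, (∀ i, y i ∈ U i) → ∃ r ∈ R, y = (fun i => g i r) := by
      intro y hy
      obtain ⟨r, hr, hry⟩ := hG y hy
      exact ⟨r, hr, (funext hry).symm⟩
    have hf : HomOn (Alg.pi 𝔽) 𝕊 {x | ∀ i, x i ∈ U i} f := by
      constructor
      · intro y1 hy1 y2 hy2 y3 hy3
        obtain ⟨r1, hr1, rfl⟩ := hfr' y1 hy1
        obtain ⟨r2, hr2, rfl⟩ := hfr' y2 hy2
        obtain ⟨r3, hr3, rfl⟩ := hfr' y3 hy3
        rw [hfr r1 hr1, hfr r2 hr2, hfr r3 hr3, ← hh.1 _ hr1 _ hr2 _ hr3,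
          ← hfr _ (hR.1 _ hr1 _ hr2 _ hr3)]
        exact congrArg f (hGh.1 _ hr1 _ hr2 _ hr3).symm
      · intro y1 hy1 y2 hy2 y3 hy3 y4 hy4
        obtain ⟨r1, hr1, rfl⟩ := hfr' y1 hy1
        obtain ⟨r2, hr2, rfl⟩ := hfr' y2 hy2
        obtain ⟨r3, hr3, rfl⟩ := hfr' y3 hy3
        obtain ⟨r4, hr4, rfl⟩ := hfr' y4 hy4
        rw [hfr r1 hr1, hfr r2 hr2, hfr r3 hr3, hfr r4 hr4, ← hh.2 _ hr1 _ hr2 _ hr3 _ hr4,
          ← hfr _ (hR.2 _ hr1 _ hr2 _ hr3 _ hr4)]
        exact congrArg f (hGh.2 _ hr1 _ hr2 _ hr3 _ hr4).symm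
    have hsub : Subsingleton S := by
      refine st_const hF hS hU hUne hUtf hf ?_ ?_ hStf hSs
      · intro s
        obtain ⟨r, hr, rfl⟩ := hh' s
        exact ⟨fun i => g i r, fun i => hgU i r hr, hfr r hr⟩
      · intro i a ha s
        obtain ⟨r, hr, hra, rfl⟩ := hi i a ha s
        exact ⟨fun i => g i r, fun i => hgU i r hr, hra, hfr r hr⟩
    obtain ⟨r, hr, hrx⟩ := hG x hx
    exact ⟨r, hr, hrx, hsub.elim _ _⟩
  · obtain ⟨r, hr, he⟩ := hc s x (by rw [hcod]; exact hx)
    have e1 : h r = s := congrArg Prod.fst he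
    have e2 : (fun i => g i r) = x := congrArg Prod.snd he
    exact ⟨r, hr, fun i => congrFun e2 i, e1⟩

/-- **Joint surjectivity.**  All `U i` TF, all but `i0` simple and full; pairwise onto implies
jointly onto.  Induction over finite sets of indices containing `i0` with `st_step` for the family
restricted to the subtype of the finite set. -/
theorem st {W ι : Type} [Finite ι] {F : ι → Type} [∀ i, Finite (F i)]
    {𝕎 : Alg W} {𝔽 : ∀ i, Alg (F i)} (hF : ∀ i, IsBW (𝔽 i))
    {R : Set W} (hR : Sub 𝕎 R)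
    {U : ∀ i, Set (F i)} (hU : ∀ i, Sub (𝔽 i) (U i))
    (hUtf : ∀ i, TF (𝔽 i) (U i)) {g : ∀ i, W → F i} (hg : ∀ i, HomOn 𝕎 (𝔽 i) R (g i))
    (hgU : ∀ i, ∀ r ∈ R, g i r ∈ U i) (i0 : ι)
    (hs : ∀ i, i ≠ i0 → Simple (𝔽 i) ∧ U i = Set.univ)
    (h1 : ∀ i, ∀ a ∈ U i, ∃ r ∈ R, g i r = a)
    (h2 : ∀ i j, i ≠ j → ∀ a ∈ U i, ∀ b ∈ U j, ∃ r ∈ R, g i r = a ∧ g j r = b) :
    ∀ x : ∀ i, F i, (∀ i, x i ∈ U i) → ∃ r ∈ R, ∀ i, g i r = x i := by
  classical
  intro x0 hx0
  have : Fintype ι := Fintype.ofFinite ι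
  have hUne : ∀ i, (U i).Nonempty := fun i => ⟨x0 i, hx0 i⟩
  have key : ∀ K : Finset ι, ∀ x : ∀ i, F i, (∀ i, x i ∈ U i) →
      ∃ r ∈ R, ∀ i ∈ insert i0 K, g i r = x i := by
    intro K
    induction K using Finset.induction_on with
    | empty =>
      intro x hx
      obtain ⟨r, hr, he⟩ := h1 i0 (x i0) (hx i0)
      refine ⟨r, hr, ?_⟩
      intro i hi
      have : i = i0 := by simpa using hi
      subst this
      exact he
    | insert a K ha ih =>
      intro x hx
      by_cases hai : a = i0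
      · obtain ⟨r, hr, he⟩ := ih x hx
        refine ⟨r, hr, ?_⟩
        intro i hi
        apply he
        rw [hai] at hi
        simpa using hi
      · obtain ⟨hsa, hUa⟩ := hs a hai
        have hStf : TF (𝔽 a) Set.univ := by rw [← hUa]; exact hUtf a
        have hst := st_step (ι := {i // i ∈ insert i0 K}) (F := fun i => F i.1)
          (𝔽 := fun i => 𝔽 i.1) (𝕊 := 𝔽 a) (fun i => hF i.1) (hF a) hR
          (U := fun i => U i.1) (fun i => hU i.1) (fun i => hUne i.1) (fun i => hUtf i.1)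
          (g := fun i => g i.1) (fun i => hg i.1) (fun i => hgU i.1) (h := g a) (hg a)
          (by
            intro y hy
            obtain ⟨r, hr, he⟩ := ih
              (fun i => if hi : i ∈ insert i0 K then y ⟨i, hi⟩ else x i) (by
                intro i
                by_cases hi : i ∈ insert i0 K
                · simp only [hi, dif_pos]; exact hy ⟨i, hi⟩
                · simp only [hi, dif_neg, not_false_eq_true]; exact hx i)
            refine ⟨r, hr, ?_⟩
            rintro ⟨i, hi⟩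
            have := he i hi
            simp only [hi, dif_pos] at this
            exact this)
          (by
            intro s
            exact h1 a s (by rw [hUa]; trivial))
          (by
            rintro ⟨i, hi⟩ b hb s
            have hia : i ≠ a := by
              rintro rfl
              rcases Finset.mem_insert.mp hi with h | h
              · exact hai h
              · exact ha h
            exact h2 i a hia b hb s (by rw [hUa]; trivial))
          hStf hsa (fun i => x i.1) (fun i => hx i.1) (x a)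
        obtain ⟨r, hr, he, hea⟩ := hst
        refine ⟨r, hr, ?_⟩
        intro i hi
        rcases Finset.mem_insert.mp hi with h | h
        · exact he ⟨i, Finset.mem_insert.mpr (Or.inl h)⟩
        · rcases Finset.mem_insert.mp h with h | h
          · subst h; exact hea
          · exact he ⟨i, Finset.mem_insert.mpr (Or.inr h)⟩
  obtain ⟨r, hr, he⟩ := key Finset.univ x0 hx0
  exact ⟨r, hr, fun i => he i (by simp)⟩

end Pool.Agent.BWC
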