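import Pool.Agent.Lib.MP_d14a7e_al.SymC0
import Pool.Agent.Lib.MP_d14a7e_al.ST

set_option autoImplicit false
set_option linter.all false

/-! Symmetric instances, the absorption free case: lemma G1. -/

namespace Pool.Agent.BWC

open Tpl

/-- carrier of the family over `Option κ` -/
def symC1F (X S κ : Type) : Option κ → Type
  | none => X
  | some _ => S

instance symC1F_finite (X S κ : Type) [Finite X] [Finite S] (o : Option κ) :
    Finite (symC1F X S κ o) := by
  cases o with
  | none => exact (inferInstance : Finite X)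
  | some _ => exact (inferInstance : Finite S)

/-- algebras of the family over `Option κ` -/
def symC1A {X S : Type} (κ : Type) (𝕏 : Alg X) (𝕊 : Alg S) :
    ∀ o : Option κ, Alg (symC1F X S κ o)
  | none => 𝕏
  | some _ => 𝕊

/-- subsets of the family over `Option κ` -/
def symC1U {X : Type} (S κ : Type) (D : Set X) : ∀ o : Option κ, Set (symC1F X S κ o)
  | none => D
  | some _ => (Set.univ : Set S)

/-- maps of the family over `Option κ` -/
def symC1g {W X S κ : Type} (p : W → X) (ψ : κ → W → S) :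
    ∀ o : Option κ, W → symC1F X S κ o
  | none => p
  | some k => ψ k

/-- elements of the product over `Option κ` -/
def symC1x {X S κ : Type} (b : X) (s : κ → S) : ∀ o : Option κ, symC1F X S κ o
  | none => b
  | some k => s k

/-- The joint surjectivity used in `g1`. -/
theorem symC1_joint {W X S κ : Type} [Finite X] [Finite S] [Finite κ] {𝕎 : Alg W} {𝕏 : Alg X}
    {𝕊 : Alg S} (hX : IsBW 𝕏) (hS : IsBW 𝕊) {R : Set W} (hR : Sub 𝕎 R) {D : Set X}
    (hD : Sub 𝕏 D) (hDtf : TF 𝕏 D) (hStf : TF 𝕊 Set.univ) (hSs : Simple 𝕊) {p : W → X}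
    (hp : HomOn 𝕎 𝕏 R p) (hpD : ∀ r ∈ R, p r ∈ D) {ψ : κ → W → S}
    (hψ : ∀ k, HomOn 𝕎 𝕊 R (ψ k)) (h1 : ∀ b ∈ D, ∃ r ∈ R, p r = b)
    (h1' : ∀ k s, ∃ r ∈ R, ψ k r = s)
    (h2 : ∀ k, ∀ b ∈ D, ∀ s, ∃ r ∈ R, p r = b ∧ ψ k r = s)
    (h3 : ∀ k l, k ≠ l → ∀ s s', ∃ r ∈ R, ψ k r = s ∧ ψ l r = s') {N : Set W}
    (hN : Abs3 𝕎 N R) (hne : N.Nonempty) :
    ∀ b ∈ D, ∀ s : κ → S, ∃ r ∈ N, p r = b ∧ ∀ k, ψ k r = s k := by
  have hBW : ∀ o : Option κ, IsBW (symC1A κ 𝕏 𝕊 o) := by
    intro o; cases o with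
    | none => exact hX
    | some _ => exact hS
  have hU : ∀ o : Option κ, Sub (symC1A κ 𝕏 𝕊 o) (symC1U S κ D o) := by
    intro o; cases o with
    | none => exact hD
    | some _ => exact Sub.univ 𝕊
  have hUtf : ∀ o : Option κ, TF (symC1A κ 𝕏 𝕊 o) (symC1U S κ D o) := by
    intro o; cases o with
    | none => exact hDtf
    | some _ => exact hStf
  have hg : ∀ o : Option κ, HomOn 𝕎 (symC1A κ 𝕏 𝕊 o) R (symC1g p ψ o) := by
    intro o; cases o with
    | none => exact hp
    | some k => exact hψ k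
  have hgU : ∀ o : Option κ, ∀ r ∈ R, symC1g p ψ o r ∈ symC1U S κ D o := by
    intro o; cases o with
    | none => exact hpD
    | some k => exact fun r _ => (trivial : (ψ k r) ∈ (Set.univ : Set S))
  have hst := st hBW hR hU hUtf hg hgU none
    (by
      intro o ho
      cases o with
      | none => exact absurd rfl ho
      | some k => exact ⟨hSs, rfl⟩)
    (by
      intro o
      cases o with
      | none => exact h1
      | some k => exact fun a _ => h1' k a)
    (by
      intro o o' hoo'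
      cases o with
      | none =>
        cases o' with
        | none => exact absurd rfl hoo'
        | some l => exact fun a ha b _ => h2 l a ha b
      | some k =>
        cases o' with
        | none =>
          intro a _ b hb
          obtain ⟨r, hr, h, h'⟩ := h2 k b hb a
          exact ⟨r, hr, h', h⟩
        | some l =>
          exact fun a _ b _ => h3 k l (fun h => hoo' (by rw [h])) a b)
  have htf := TF.setpi hBW hU hUtf
  have him : (fun r o => symC1g p ψ o r) '' R = {x | ∀ o, x o ∈ symC1U S κ D o} := by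
    ext x
    constructor
    · rintro ⟨r, hr, rfl⟩
      exact fun o => hgU o r hr
    · intro hx
      obtain ⟨r, hr, h⟩ := hst x hx
      exact ⟨r, hr, funext h⟩
  have habs := Abs3.image hR (HomOn.ofPi (symC1A κ 𝕏 𝕊) hg) hN
  rw [him] at habs
  have hall := htf _ (hne.image _) habs
  intro b hb s
  have hmem : symC1x b s ∈ {x : ∀ o, symC1F X S κ o | ∀ o, x o ∈ symC1U S κ D o} := by
    intro o
    cases o with
    | none => exact hb
    | some k => exact (trivial : s k ∈ (Set.univ : Set S))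
  rw [← hall] at hmem
  obtain ⟨r, hr, hrx⟩ := hmem
  exact ⟨r, hr, congrFun hrx none, fun k => congrFun hrx (some k)⟩

/-- **G1.**  A nonempty 3-absorbing subset `N` of a composite constraint contains, over each
`b ∈ DD`, an element with all coordinates in `DD`.
Proof.  `κ`, `ψ` from `chars`.  Let `κ'` be the subtype of all `k` for which
the first alternative of the dichotomy for `j0` holds.  Apply `st` with index type `Option κ'`,
`F none = X`, `U none = D`, `g none = ρ j0`, `F (some k) = S`, `U (some k) = univ`,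
`g (some k) = ψ k`, `i0 = none`: the map `Rw → D × S^κ'` is onto.
The image of `N` is a nonempty 3-absorbing subuniverse (`Abs3.image`, `HomOn.ofPi`) of
`{x | ∀ i, x i ∈ U i}`, which is TF by `TF.setpi`; so it is everything.  So for `b ∈ DD` there is
`r ∈ N` with `ρ j0 r = b` and `ψ k r = s0` for `k ∈ κ'`; for the other `k` the second alternative
gives `ψ k r = s0`.  Now use the last but one property of `chars`. -/
theorem g1 {T : Tpl} {D : Set T.X} {R : ∀ c, Set (T.Y c)} {S : Type} [Finite S]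
    {𝕊 : Alg S} {φ : T.X → S} (f : Frm T D R 𝕊 φ) (s0 : S) {W J : Type} [Finite W] [Finite J]
    {𝕎 : Alg W} {Rw : Set W} {ρ : J → W → T.X} (hc : Cmp T D R 𝕎 Rw ρ) (j0 : J) {N : Set W}
    (hN : Abs3 𝕎 N Rw) (hne : N.Nonempty) :
    ∀ b ∈ DD T D R φ s0, ∃ r ∈ N, ρ j0 r = b ∧ ∀ j, ρ j r ∈ DD T D R φ s0 := by
  obtain ⟨κ, ψ, hκ, hhom, honto, hpair, hdich, hin, hout⟩ := chars f s0 hc
  haveI := hκ
  haveI := T.finX
  intro b hb
  have hD : ∀ r ∈ Rw, ρ j0 r ∈ D := by
    intro r hr
    rw [← hc.onto j0]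
    exact ⟨r, hr, rfl⟩
  obtain ⟨r, hr, hrb, hrs⟩ := symC1_joint
    (κ := {k : κ // ∀ s, ∀ b ∈ D, ∃ r ∈ Rw, ψ k r = s ∧ ρ j0 r = b})
    T.bwX f.bwS hc.sub f.ok.subD f.tf f.tfS f.simple (hc.hom j0) hD
    (ψ := fun k => ψ k.1) (fun k => hhom k.1)
    (fun b hb => by
      rw [← hc.onto j0] at hb
      exact hb)
    (fun k s => honto k.1 s)
    (fun k b hb s => by
      obtain ⟨r, hr, h, h'⟩ := k.2 s b hb
      exact ⟨r, hr, h', h⟩)
    (fun k l hkl => hpair k.1 l.1 (fun h => hkl (Subtype.ext h))) hN hne b hb.1 (fun _ => s0)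
  refine ⟨r, hr, hrb, hin r (hN.subset hr) ?_⟩
  intro k
  by_cases hk : ∀ s, ∀ b ∈ D, ∃ r ∈ Rw, ψ k r = s ∧ ρ j0 r = b
  · exact hrs ⟨k, hk⟩
  · rcases hdich k j0 with h | h
    · exact absurd h hk
    · exact h r (hN.subset hr) (by rw [hrb]; exact hb)

/-- `DD` is not empty: `chars` for `cmp_word f.ok []` (composite constraint, coordinates `Bool`,
on the diagonal of `D`); if `κ` is empty any element of it will do (last but one property);
otherwise `st` with index type `κ` (all `F k = S`, `U k = univ`, any `i0`) gives `r` with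
`ψ k r = s0` for all `k`. -/
theorem DD_nonempty {T : Tpl} {D : Set T.X} {R : ∀ c, Set (T.Y c)} {S : Type} [Finite S]
    {𝕊 : Alg S} {φ : T.X → S} (f : Frm T D R 𝕊 φ) (s0 : S) : (DD T D R φ s0).Nonempty := by
  haveI := T.finX
  have hc := cmp_word f.ok ([] : List T.Letter)
  obtain ⟨κ, ψ, hκ, hhom, honto, hpair, hdich, hin, hout⟩ := chars f s0 hc
  haveI := hκ
  obtain ⟨a, ha⟩ := f.ok.neD
  by_cases hne : Nonempty κ
  · obtain ⟨k0⟩ := hne
    obtain ⟨r, hr, h⟩ := st (F := fun _ : κ => S) (𝔽 := fun _ => 𝕊) (fun _ => f.bwS) hc.sub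
      (U := fun _ => Set.univ) (fun _ => Sub.univ 𝕊) (fun _ => f.tfS) (g := ψ) hhom
      (fun _ _ _ => trivial) k0 (fun _ _ => ⟨f.simple, rfl⟩) (fun k s _ => honto k s)
      (fun k l hkl s _ s' _ => hpair k l hkl s s') (fun _ => s0) (fun _ => trivial)
    exact ⟨_, hin r hr h true⟩
  · refine ⟨_, hin (a, a) ⟨ha, rfl⟩ (fun k => absurd ⟨k⟩ hne) true⟩

end Pool.Agent.BWC
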