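import Pool.Agent.Lib.MP_d14a7e_al.Basic

set_option autoImplicit false
set_option linter.all false

/-! Simple quotients. -/

namespace Pool.Agent.BWC

/-- the two algebras `𝔸 false`, `𝔸 true` have the same invariant binary relations -/
def SameInv {A : Type} (𝔸 : Bool → Alg A) : Prop :=
  ∀ P : Set (A × A), Sub ((𝔸 false).prod (𝔸 false)) P ↔ Sub ((𝔸 true).prod (𝔸 true)) P

/-- the quotient of a subset by an equivalence relation on it, with the quotient map extended -/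
private theorem quot_aux {A : Type} [Finite A] {U : Set A} (hne : U.Nonempty) {α : Set (A × A)}
    (hrefl : ∀ a ∈ U, (a, a) ∈ α) (hsymm : ∀ a b, (a, b) ∈ α → (b, a) ∈ α)
    (htrans : ∀ a b c, (a, b) ∈ α → (b, c) ∈ α → (a, c) ∈ α) :
    ∃ (S : Type) (φ : A → S), Finite S ∧ (∀ s, ∃ a ∈ U, φ a = s) ∧
      (∀ a ∈ U, ∀ b ∈ U, φ a = φ b ↔ (a, b) ∈ α) := by
  classical
  let r : Setoid U :=
    { r := fun a b => (a.1, b.1) ∈ α
      iseqv := ⟨fun a => hrefl a.1 a.2, fun h => hsymm _ _ h, fun h h' => htrans _ _ _ h h'⟩ }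
  obtain ⟨u0, hu0⟩ := hne
  let φ : A → Quotient r := fun a => if h : a ∈ U then Quotient.mk r ⟨a, h⟩ else Quotient.mk r ⟨u0, hu0⟩
  have hφ : ∀ a (h : a ∈ U), φ a = Quotient.mk r ⟨a, h⟩ := fun a h => dif_pos h
  refine ⟨Quotient r, φ, inferInstance, ?_, ?_⟩
  · intro s
    induction s using Quotient.inductionOn with
    | _ a => exact ⟨a.1, a.2, hφ a.1 a.2⟩
  · intro a ha b hb
    rw [hφ a ha, hφ b hb, Quotient.eq]
    rfl

/-- Simple quotient of a subuniverse `U` by a maximal congruence containing `θ`, simultaneously for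
two algebras with the same invariant binary relations.
Proof: choose `α ⊇ θ` maximal (finite!) among the subuniverses of `A²` contained in `U²`, which are
equivalences on `U`, not all of `U²`.  `S` = quotient of the subtype `U` by `α`, operations
induced, `φ` the quotient map extended arbitrarily outside `U`.
A congruence of `S` pulls back to a congruence on `U` containing `α`, which is a
subuniverse of `A²` for one and hence for both algebras.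
It is also true (and to be proved) that `S` satisfies the bounded width identities. -/
theorem exists_simple_quotient {A : Type} [Finite A] {𝔸 : Bool → Alg A} (hinv : SameInv 𝔸)
    (hA : ∀ k, IsBW (𝔸 k)) {U : Set A} (hU : ∀ k, Sub (𝔸 k) U) {θ : Set (A × A)}
    (hθ : Sub ((𝔸 false).prod (𝔸 false)) θ) (hθU : ∀ a b, (a, b) ∈ θ → a ∈ U ∧ b ∈ U)
    (hrefl : ∀ a ∈ U, (a, a) ∈ θ) (hsymm : ∀ a b, (a, b) ∈ θ → (b, a) ∈ θ)
    (htrans : ∀ a b c, (a, b) ∈ θ → (b, c) ∈ θ → (a, c) ∈ θ)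
    (hne : ∃ a ∈ U, ∃ b ∈ U, (a, b) ∉ θ) :
    ∃ (S : Type) (𝕊 : Bool → Alg S) (φ : A → S), Finite S ∧ Nontrivial S ∧
      (∀ k, IsBW (𝕊 k)) ∧ (∀ k, HomOn (𝔸 k) (𝕊 k) U φ) ∧ (∀ s, ∃ a ∈ U, φ a = s) ∧
      (∀ k, Simple (𝕊 k)) ∧ (∀ a b, (a, b) ∈ θ → φ a = φ b) := by
  classical
  let P : Set (Set (A × A)) := {α | Sub ((𝔸 false).prod (𝔸 false)) α ∧ θ ⊆ α ∧
    (∀ a b, (a, b) ∈ α → a ∈ U ∧ b ∈ U) ∧ (∀ a ∈ U, (a, a) ∈ α) ∧
    (∀ a b, (a, b) ∈ α → (b, a) ∈ α) ∧ (∀ a b c, (a, b) ∈ α → (b, c) ∈ α → (a, c) ∈ α) ∧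
    (∃ a ∈ U, ∃ b ∈ U, (a, b) ∉ α)}
  have hP : P.Nonempty := ⟨θ, hθ, Set.Subset.refl _, hθU, hrefl, hsymm, htrans, hne⟩
  obtain ⟨α, hα⟩ := (Set.toFinite P).exists_maximal hP
  obtain ⟨⟨a1, a2, a3, a4, a5, a6, a7⟩, hmax⟩ := hα
  obtain ⟨x0, hx0, y0, hy0, hxy0⟩ := a7
  obtain ⟨S, φ, hfin, hsurj, hφ⟩ := quot_aux ⟨x0, hx0⟩ a4 a5 a6
  choose rep hrepU hrep using hsurj
  let 𝕊 : Bool → Alg S := fun k =>
    { v := fun s t u => φ ((𝔸 k).v (rep s) (rep t) (rep u))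
      w := fun s t u r => φ ((𝔸 k).w (rep s) (rep t) (rep u) (rep r)) }
  have hαk : ∀ k, Sub ((𝔸 k).prod (𝔸 k)) α := by
    intro k
    cases k
    · exact a1
    · exact (hinv α).1 a1
  have hrα : ∀ x ∈ U, (x, rep (φ x)) ∈ α := fun x hx => (hφ x hx _ (hrepU _)).1 (hrep _).symm
  have hhom : ∀ k, HomOn (𝔸 k) (𝕊 k) U φ := by
    intro k
    refine ⟨?_, ?_⟩
    · intro x hx y hy z hz
      show φ ((𝔸 k).v x y z) = φ ((𝔸 k).v (rep (φ x)) (rep (φ y)) (rep (φ z)))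
      rw [hφ _ ((hU k).1 x hx y hy z hz) _ ((hU k).1 _ (hrepU _) _ (hrepU _) _ (hrepU _))]
      exact (hαk k).1 _ (hrα x hx) _ (hrα y hy) _ (hrα z hz)
    · intro x hx y hy z hz u hu
      show φ ((𝔸 k).w x y z u) = φ ((𝔸 k).w (rep (φ x)) (rep (φ y)) (rep (φ z)) (rep (φ u)))
      rw [hφ _ ((hU k).2 x hx y hy z hz u hu) _
        ((hU k).2 _ (hrepU _) _ (hrepU _) _ (hrepU _) _ (hrepU _))]
      exact (hαk k).2 _ (hrα x hx) _ (hrα y hy) _ (hrα z hz) _ (hrα u hu)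
  refine ⟨S, 𝕊, φ, hfin, ?_, ?_, hhom, fun s => ⟨rep s, hrepU s, hrep s⟩, ?_, ?_⟩
  · exact ⟨⟨φ x0, φ y0, fun h => hxy0 ((hφ x0 hx0 y0 hy0).1 h)⟩⟩
  · intro k
    refine ⟨?_, ?_, ?_, ?_, ?_, ?_, ?_, ?_⟩
    · intro a
      show φ ((𝔸 k).v (rep a) (rep a) (rep a)) = a
      rw [(hA k).vi, hrep]
    · intro a
      show φ ((𝔸 k).w (rep a) (rep a) (rep a) (rep a)) = a
      rw [(hA k).wi, hrep]
    · intro x y
      exact congrArg φ ((hA k).v0 (rep x) (rep y))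
    · intro x y
      exact congrArg φ ((hA k).v1 (rep x) (rep y))
    · intro x y
      exact congrArg φ ((hA k).w0 (rep x) (rep y))
    · intro x y
      exact congrArg φ ((hA k).w1 (rep x) (rep y))
    · intro x y
      exact congrArg φ ((hA k).w2 (rep x) (rep y))
    · intro x y
      exact congrArg φ ((hA k).w3 (rep x) (rep y))
  · intro k Θ hΘ hΘr hΘs hΘt
    let β : Set (A × A) := {p | p.1 ∈ U ∧ p.2 ∈ U ∧ (φ p.1, φ p.2) ∈ Θ}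
    have hβk : Sub ((𝔸 k).prod (𝔸 k)) β := by
      refine ⟨?_, ?_⟩
      · intro x hx y hy z hz
        refine ⟨(hU k).1 _ hx.1 _ hy.1 _ hz.1, (hU k).1 _ hx.2.1 _ hy.2.1 _ hz.2.1, ?_⟩
        show (φ ((𝔸 k).v x.1 y.1 z.1), φ ((𝔸 k).v x.2 y.2 z.2)) ∈ Θ
        rw [(hhom k).1 _ hx.1 _ hy.1 _ hz.1, (hhom k).1 _ hx.2.1 _ hy.2.1 _ hz.2.1]
        exact hΘ.1 _ hx.2.2 _ hy.2.2 _ hz.2.2
      · intro x hx y hy z hz u hu
        refine ⟨(hU k).2 _ hx.1 _ hy.1 _ hz.1 _ hu.1,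
          (hU k).2 _ hx.2.1 _ hy.2.1 _ hz.2.1 _ hu.2.1, ?_⟩
        show (φ ((𝔸 k).w x.1 y.1 z.1 u.1), φ ((𝔸 k).w x.2 y.2 z.2 u.2)) ∈ Θ
        rw [(hhom k).2 _ hx.1 _ hy.1 _ hz.1 _ hu.1, (hhom k).2 _ hx.2.1 _ hy.2.1 _ hz.2.1 _ hu.2.1]
        exact hΘ.2 _ hx.2.2 _ hy.2.2 _ hz.2.2 _ hu.2.2
    have hβ : Sub ((𝔸 false).prod (𝔸 false)) β := by
      cases k
      · exact hβk
      · exact (hinv β).2 hβk
    have hαβ : α ⊆ β := by
      rintro ⟨a, b⟩ hab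
      obtain ⟨ha, hb⟩ := a3 a b hab
      refine ⟨ha, hb, ?_⟩
      have e : φ a = φ b := (hφ a ha b hb).2 hab
      show (φ a, φ b) ∈ Θ
      rw [e]
      exact hΘr _
    by_cases hfull : ∀ a ∈ U, ∀ b ∈ U, (a, b) ∈ β
    · right
      intro s t
      have h := (hfull _ (hrepU s) _ (hrepU t)).2.2
      have h' : (φ (rep s), φ (rep t)) ∈ Θ := h
      rw [hrep, hrep] at h'
      exact h'
    · left
      push Not at hfull
      obtain ⟨a, ha, b, hb, hab⟩ := hfull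
      have hβP : β ∈ P := by
        refine ⟨hβ, Set.Subset.trans a2 hαβ, fun a b h => ⟨h.1, h.2.1⟩, ?_, ?_, ?_,
          ⟨a, ha, b, hb, hab⟩⟩
        · intro a ha
          exact ⟨ha, ha, hΘr _⟩
        · intro a b h
          exact ⟨h.2.1, h.1, hΘs _ _ h.2.2⟩
        · intro a b c h h'
          exact ⟨h.1, h'.2.1, hΘt _ _ _ h.2.2 h'.2.2⟩
      have hβα : β ⊆ α := hmax hβP hαβ
      intro s t hst
      have h1 : (rep s, rep t) ∈ β := by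
        refine ⟨hrepU s, hrepU t, ?_⟩
        show (φ (rep s), φ (rep t)) ∈ Θ
        rw [hrep, hrep]
        exact hst
      have h2 := (hφ _ (hrepU s) _ (hrepU t)).2 (hβα h1)
      rw [hrep, hrep] at h2
      exact h2
  · intro a b hab
    obtain ⟨ha, hb⟩ := hθU a b hab
    exact (hφ a ha b hb).2 (a2 hab)

/-- one algebra, general congruence `θ` -/
theorem exists_simple_quotient_one {A : Type} [Finite A] {𝔸 : Alg A}
    (hA : IsBW 𝔸) {U : Set A} (hU : Sub 𝔸 U) {θ : Set (A × A)}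
    (hθ : Sub (𝔸.prod 𝔸) θ) (hθU : ∀ a b, (a, b) ∈ θ → a ∈ U ∧ b ∈ U)
    (hrefl : ∀ a ∈ U, (a, a) ∈ θ) (hsymm : ∀ a b, (a, b) ∈ θ → (b, a) ∈ θ)
    (htrans : ∀ a b c, (a, b) ∈ θ → (b, c) ∈ θ → (a, c) ∈ θ)
    (hne : ∃ a ∈ U, ∃ b ∈ U, (a, b) ∉ θ) :
    ∃ (S : Type) (𝕊 : Alg S) (φ : A → S), Finite S ∧ Nontrivial S ∧
      IsBW 𝕊 ∧ HomOn 𝔸 𝕊 U φ ∧ (∀ s, ∃ a ∈ U, φ a = s) ∧
      Simple 𝕊 ∧ (∀ a b, (a, b) ∈ θ → φ a = φ b) := by
  obtain ⟨S, 𝕊, φ, h1, h2, h3, h4, h5, h6, h7⟩ :=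
    exists_simple_quotient (𝔸 := fun _ => 𝔸) (fun _ => Iff.rfl) (fun _ => hA) (fun _ => hU)
      hθ hθU hrefl hsymm htrans hne
  exact ⟨S, 𝕊 false, φ, h1, h2, h3 _, h4 _, h5, h6 _, h7⟩

/-- simple quotient of a subuniverse with at least two elements, two algebras -/
theorem exists_simple_quotient' {A : Type} [Finite A] {𝔸 : Bool → Alg A} (hinv : SameInv 𝔸)
    (hA : ∀ k, IsBW (𝔸 k)) {U : Set A} (hU : ∀ k, Sub (𝔸 k) U) (hne : U.Nontrivial) :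
    ∃ (S : Type) (𝕊 : Bool → Alg S) (φ : A → S), Finite S ∧ Nontrivial S ∧
      (∀ k, IsBW (𝕊 k)) ∧ (∀ k, HomOn (𝔸 k) (𝕊 k) U φ) ∧ (∀ s, ∃ a ∈ U, φ a = s) ∧
      (∀ k, Simple (𝕊 k)) := by
  obtain ⟨a, ha, b, hb, hab⟩ := hne
  obtain ⟨S, 𝕊, φ, h1, h2, h3, h4, h5, h6, h7⟩ :=
    exists_simple_quotient hinv hA hU (hU false).diag (θ := {p | p.1 ∈ U ∧ p.1 = p.2})
      (by rintro x y ⟨hx, hxy⟩; obtain rfl : x = y := hxy; exact ⟨hx, hx⟩)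
      (fun x hx => ⟨hx, rfl⟩)
      (by rintro x y ⟨hx, hxy⟩; obtain rfl : x = y := hxy; exact ⟨hx, rfl⟩)
      (by rintro x y z ⟨hx, hxy⟩ ⟨hy, hyz⟩; exact ⟨hx, Eq.trans hxy hyz⟩)
      ⟨a, ha, b, hb, fun h => hab h.2⟩
  exact ⟨S, 𝕊, φ, h1, h2, h3, h4, h5, h6⟩

/-- simple quotient of a subuniverse with at least two elements -/
theorem exists_simple_quotient_one' {A : Type} [Finite A] {𝔸 : Alg A}
    (hA : IsBW 𝔸) {U : Set A} (hU : Sub 𝔸 U) (hne : U.Nontrivial) :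
    ∃ (S : Type) (𝕊 : Alg S) (φ : A → S), Finite S ∧ Nontrivial S ∧
      IsBW 𝕊 ∧ HomOn 𝔸 𝕊 U φ ∧ (∀ s, ∃ a ∈ U, φ a = s) ∧ Simple 𝕊 := by
  obtain ⟨S, 𝕊, φ, h1, h2, h3, h4, h5, h6⟩ :=
    exists_simple_quotient' (𝔸 := fun _ => 𝔸) (fun _ => Iff.rfl) (fun _ => hA) (fun _ => hU) hne
  exact ⟨S, 𝕊 false, φ, h1, h2, h3 _, h4 _, h5, h6 _⟩

end Pool.Agent.BWC
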