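import Pool.Agent.Lib.MP_d14a7e_al.ST
import Pool.Agent.Lib.MP_d14a7e_al.Quot

set_option autoImplicit false
set_option linter.all false

/-! Linkedness of powers of a simple algebra. -/

namespace Pool.Agent.BWC

private theorem symc2_lift {X Y : Type} {r : X → X → Prop} {p : Y → Y → Prop} (f : X → Y)
    (h : ∀ a b, r a b → p (f a) (f b)) {a b : X} (hab : Relation.ReflTransGen r a b) :
    Relation.ReflTransGen p (f a) (f b) := by
  induction hab with
  | refl => exact Relation.ReflTransGen.refl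
  | tail _ hbc ih => exact ih.tail (h _ _ hbc)

/-- the link relation of a subdirect relation is a subuniverse -/
private theorem symc2_sub_link {S B : Type} {𝕊 : Alg S} {𝔹 : Alg B}
    {T : Set (S × B)} (hT : Sub (𝕊.prod 𝔹) T) (hdom : ∀ s, s ∈ dom T) :
    Sub (𝕊.prod 𝕊) {p : S × S |
      Relation.ReflTransGen (fun x y => ∃ c, (x, c) ∈ T ∧ (y, c) ∈ T) p.1 p.2} := by
  have hv : ∀ {x y z : S} {x' y' z' : B}, (x, x') ∈ T → (y, y') ∈ T → (z, z') ∈ T →
      (𝕊.v x y z, 𝔹.v x' y' z') ∈ T := fun hx hy hz => hT.1 _ hx _ hy _ hz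
  have hw : ∀ {x y z u : S} {x' y' z' u' : B}, (x, x') ∈ T → (y, y') ∈ T → (z, z') ∈ T →
      (u, u') ∈ T → (𝕊.w x y z u, 𝔹.w x' y' z' u') ∈ T :=
    fun hx hy hz hu => hT.2 _ hx _ hy _ hz _ hu
  set r : S → S → Prop := fun x y => ∃ c, (x, c) ∈ T ∧ (y, c) ∈ T with hr
  have hlift : ∀ (f : S → S), (∀ x y, r x y → r (f x) (f y)) → ∀ x y,
      Relation.ReflTransGen r x y → Relation.ReflTransGen r (f x) (f y) :=
    fun f hf x y h => symc2_lift f hf h
  constructor
  · rintro ⟨x1, x2⟩ hx ⟨y1, y2⟩ hy ⟨z1, z2⟩ hz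
    show Relation.ReflTransGen r (𝕊.v x1 y1 z1) (𝕊.v x2 y2 z2)
    have hx' : Relation.ReflTransGen r x1 x2 := hx
    have hy' : Relation.ReflTransGen r y1 y2 := hy
    have hz' : Relation.ReflTransGen r z1 z2 := hz
    have e1 := hlift (fun x => 𝕊.v x y1 z1) (by
      rintro x y ⟨c, hxc, hyc⟩
      obtain ⟨d, hd⟩ := hdom y1
      obtain ⟨e, he⟩ := hdom z1
      exact ⟨_, hv hxc hd he, hv hyc hd he⟩) _ _ hx'
    have e2 := hlift (fun y => 𝕊.v x2 y z1) (by
      rintro x y ⟨c, hxc, hyc⟩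
      obtain ⟨d, hd⟩ := hdom x2
      obtain ⟨e, he⟩ := hdom z1
      exact ⟨_, hv hd hxc he, hv hd hyc he⟩) _ _ hy'
    have e3 := hlift (fun z => 𝕊.v x2 y2 z) (by
      rintro x y ⟨c, hxc, hyc⟩
      obtain ⟨d, hd⟩ := hdom x2
      obtain ⟨e, he⟩ := hdom y2
      exact ⟨_, hv hd he hxc, hv hd he hyc⟩) _ _ hz'
    exact (e1.trans e2).trans e3
  · rintro ⟨x1, x2⟩ hx ⟨y1, y2⟩ hy ⟨z1, z2⟩ hz ⟨u1, u2⟩ hu
    show Relation.ReflTransGen r (𝕊.w x1 y1 z1 u1) (𝕊.w x2 y2 z2 u2)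
    have hx' : Relation.ReflTransGen r x1 x2 := hx
    have hy' : Relation.ReflTransGen r y1 y2 := hy
    have hz' : Relation.ReflTransGen r z1 z2 := hz
    have hu' : Relation.ReflTransGen r u1 u2 := hu
    have e1 := hlift (fun x => 𝕊.w x y1 z1 u1) (by
      rintro x y ⟨c, hxc, hyc⟩
      obtain ⟨d, hd⟩ := hdom y1
      obtain ⟨e, he⟩ := hdom z1
      obtain ⟨f, hf⟩ := hdom u1
      exact ⟨_, hw hxc hd he hf, hw hyc hd he hf⟩) _ _ hx'
    have e2 := hlift (fun y => 𝕊.w x2 y z1 u1) (by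
      rintro x y ⟨c, hxc, hyc⟩
      obtain ⟨d, hd⟩ := hdom x2
      obtain ⟨e, he⟩ := hdom z1
      obtain ⟨f, hf⟩ := hdom u1
      exact ⟨_, hw hd hxc he hf, hw hd hyc he hf⟩) _ _ hy'
    have e3 := hlift (fun z => 𝕊.w x2 y2 z u1) (by
      rintro x y ⟨c, hxc, hyc⟩
      obtain ⟨d, hd⟩ := hdom x2
      obtain ⟨e, he⟩ := hdom y2
      obtain ⟨f, hf⟩ := hdom u1
      exact ⟨_, hw hd he hxc hf, hw hd he hyc hf⟩) _ _ hz'
    have e4 := hlift (fun u => 𝕊.w x2 y2 z2 u) (by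
      rintro x y ⟨c, hxc, hyc⟩
      obtain ⟨d, hd⟩ := hdom x2
      obtain ⟨e, he⟩ := hdom y2
      obtain ⟨f, hf⟩ := hdom z2
      exact ⟨_, hw hd he hf hxc, hw hd he hf hyc⟩) _ _ hu'
    exact ((e1.trans e2).trans e3).trans e4

/-- General lemma on simple algebras.  `χ k : R → S` (`k ∈ κ`) jointly onto `S^κ`, `S` simple TF
nontrivial, `g : R → G` a homomorphism such that no single `χ k` is a function of `g`.  Then
`{(χ r, g r)}` is left-linked.
Proof: let `λ` be the link congruence on `S^κ`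
(reflexive transitive closure of having a common `g`-value; a subuniverse, as in `simple_dich`).
If it is not everything, `exists_simple_quotient_one` gives
`f : S^κ → Q` onto, `Q` simple nontrivial, constant on `λ`-classes.  `Q` is TF (`TF.setpi`,
`TF.image`).  For `i ∈ κ` the relation `{(f x, x i)} ⊆ Q × S`: by `simple_full` it is full or `f x`
is a function of `x i`.  If it is full for all `i` then `st_const` says that `Q` is trivial, a
contradiction.  So for some `i`, `f x = f' (x i)`, `f' : S → Q` a homomorphism, whose kernel is a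
congruence of the simple algebra `S`, so `f'` is injective (`Q` nontrivial).  But `f (χ r)` is a
function of `g r` (`f` is constant on `λ`-classes), so `χ i r` is a function of `g r`. -/
theorem linked_pow {W G κ S : Type} [Finite W] [Finite G] [Finite κ] [Finite S] [Nontrivial S]
    {𝕎 : Alg W} {𝔾 : Alg G} {𝕊 : Alg S} (hW : IsBW 𝕎) (hG : IsBW 𝔾) (hS : IsBW 𝕊)
    {Rw : Set W} (hR : Sub 𝕎 Rw) {g : W → G} (hg : HomOn 𝕎 𝔾 Rw g) {χ : κ → W → S}
    (hχ : ∀ k, HomOn 𝕎 𝕊 Rw (χ k)) (honto : ∀ x : κ → S, ∃ r ∈ Rw, ∀ k, χ k r = x k)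
    (hnf : ∀ k, ∃ r ∈ Rw, ∃ r' ∈ Rw, g r = g r' ∧ χ k r ≠ χ k r')
    (hStf : TF 𝕊 Set.univ) (hSs : Simple 𝕊) :
    LLinked {p : (κ → S) × G | ∃ r ∈ Rw, (fun k => χ k r) = p.1 ∧ g r = p.2} := by
  classical
  set T : Set ((κ → S) × G) := {p | ∃ r ∈ Rw, (fun k => χ k r) = p.1 ∧ g r = p.2} with hTdef
  -- `T` is a subuniverse
  have hTim : T = (fun r => ((fun k => χ k r : κ → S), g r)) '' Rw := by
    ext p
    constructor
    · rintro ⟨r, hr, h1, h2⟩
      exact ⟨r, hr, Prod.ext h1 h2⟩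
    · rintro ⟨r, hr, h1⟩
      exact ⟨r, hr, congrArg Prod.fst h1, congrArg Prod.snd h1⟩
  have hTsub : Sub ((Alg.pi fun _ : κ => 𝕊).prod 𝔾) T := by
    rw [hTim]
    exact hR.image (HomOn.pair (HomOn.ofPi (fun _ => 𝕊) hχ) hg)
  have hdomT : ∀ x, x ∈ dom T := by
    intro x
    obtain ⟨r, hr, hrx⟩ := honto x
    exact ⟨g r, r, hr, funext hrx, rfl⟩
  by_contra hL
  -- the link congruence is not full
  have hbad : ∃ a a' : κ → S,
      ¬ Relation.ReflTransGen (fun x y => ∃ c, (x, c) ∈ T ∧ (y, c) ∈ T) a a' := by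
    by_contra hcon
    apply hL
    intro a _ a' _
    by_contra h1
    exact hcon ⟨a, a', h1⟩
  have hsymm : ∀ a b : κ → S, Relation.ReflTransGen (fun x y => ∃ c, (x, c) ∈ T ∧ (y, c) ∈ T) a b →
      Relation.ReflTransGen (fun x y => ∃ c, (x, c) ∈ T ∧ (y, c) ∈ T) b a := by
    intro a b hab
    induction hab with
    | refl => exact Relation.ReflTransGen.refl
    | tail _ hbc ih =>
      obtain ⟨c, h1, h2⟩ := hbc
      exact Relation.ReflTransGen.head ⟨c, h2, h1⟩ ih
  have hpiBW : IsBW (Alg.pi fun _ : κ => 𝕊) := IsBW.pi fun _ => hS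
  obtain ⟨Q, ℚ', f, hfQ, hntQ, hQ, hf, hfonto, hQs, hθ⟩ :=
    exists_simple_quotient_one hpiBW (Sub.univ _)
      (θ := {p | Relation.ReflTransGen (fun x y => ∃ c, (x, c) ∈ T ∧ (y, c) ∈ T) p.1 p.2})
      (symc2_sub_link hTsub hdomT) (fun a b _ => ⟨Set.mem_univ _, Set.mem_univ _⟩)
      (fun a _ => Relation.ReflTransGen.refl) (fun a b hab => hsymm a b hab)
      (fun a b c hab hbc => Relation.ReflTransGen.trans hab hbc)
      (by
        obtain ⟨a, a', h1⟩ := hbad
        exact ⟨a, Set.mem_univ _, a', Set.mem_univ _, h1⟩)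
  have huniv : {x : κ → S | ∀ i, x i ∈ (Set.univ : Set S)} = Set.univ := by
    apply Set.eq_univ_of_forall
    intro x i
    exact Set.mem_univ _
  -- `Q` is TF
  have htfpi : TF (Alg.pi fun _ : κ => 𝕊) Set.univ := by
    have h1 := TF.setpi (𝔽 := fun _ : κ => 𝕊) (fun _ => hS) (U := fun _ => Set.univ)
      (fun _ => Sub.univ 𝕊) (fun _ => hStf)
    rwa [huniv] at h1
  have htfQ : TF ℚ' Set.univ := by
    have h1 := htfpi.image (Sub.univ _) hf
    have h2 : f '' Set.univ = Set.univ := by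
      apply Set.eq_univ_of_forall
      intro q
      obtain ⟨a, ha, hq⟩ := hfonto q
      exact ⟨a, ha, hq⟩
    rwa [h2] at h1
  -- dichotomy for each coordinate
  have hdich : ∀ i : κ, (∀ x y : κ → S, x i = y i → f x = f y) ∨
      (∀ (q : Q) (s : S), ∃ x : κ → S, x i = s ∧ f x = q) := by
    intro i
    let Ti : Set (Q × S) := (fun x : κ → S => (f x, x i)) '' Set.univ
    have hTi : Sub (ℚ'.prod 𝕊) Ti :=
      (Sub.univ _).image (HomOn.pair hf (HomOn.proj (fun _ => 𝕊) i Set.univ))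
    have hdom : ∀ q, q ∈ dom Ti := by
      intro q
      obtain ⟨x, -, hx⟩ := hfonto q
      exact ⟨x i, x, Set.mem_univ _, by rw [← hx]⟩
    have hcod : cod Ti = Set.univ := by
      apply Set.eq_univ_of_forall
      intro s
      exact ⟨f (fun _ => s), fun _ => s, Set.mem_univ _, rfl⟩
    rcases simple_full hQ hS hTi hdom hQs htfQ (by rw [hcod]; exact hStf) with h1 | h1
    · left
      intro x y hxy
      exact h1 (f x) (f y) (x i) ⟨x, Set.mem_univ _, rfl⟩ ⟨y, Set.mem_univ _, by rw [hxy]⟩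
    · right
      intro q s
      obtain ⟨x, -, hx⟩ := h1 q s (by rw [hcod]; exact Set.mem_univ s)
      exact ⟨x, congrArg Prod.snd hx, congrArg Prod.fst hx⟩
  -- some coordinate determines `f`
  have hex : ∃ i : κ, ∀ x y : κ → S, x i = y i → f x = f y := by
    by_contra hcon
    have hfull : ∀ i : κ, ∀ (q : Q) (s : S), ∃ x : κ → S, x i = s ∧ f x = q := by
      intro i
      rcases hdich i with h1 | h1
      · exact absurd ⟨i, h1⟩ hcon
      · exact h1
    have hsub := st_const (𝔽 := fun _ : κ => 𝕊) (𝕊 := ℚ') (fun _ => hS) hQ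
      (U := fun _ => Set.univ) (fun _ => Sub.univ 𝕊)
      (fun _ => ⟨Classical.arbitrary S, Set.mem_univ _⟩) (fun _ => hStf) (f := f)
      (by rw [huniv]; exact hf)
      (by
        intro q
        obtain ⟨x, -, hx⟩ := hfonto q
        exact ⟨x, fun _ => Set.mem_univ _, hx⟩)
      (by
        intro i a _ q
        obtain ⟨x, hx1, hx2⟩ := hfull i q a
        exact ⟨x, fun _ => Set.mem_univ _, hx1, hx2⟩)
      htfQ hQs
    exact not_subsingleton Q hsub
  obtain ⟨i, hi⟩ := hex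
  -- the induced homomorphism
  have hfi : ∀ x : κ → S, f x = f (fun _ => x i) := fun x => hi _ _ rfl
  have hkerv : ∀ a b c : S, f (fun _ => 𝕊.v a b c) =
      ℚ'.v (f fun _ => a) (f fun _ => b) (f fun _ => c) := fun a b c =>
    hf.1 (fun _ => a) (Set.mem_univ _) (fun _ => b) (Set.mem_univ _) (fun _ => c) (Set.mem_univ _)
  have hkerw : ∀ a b c d : S, f (fun _ => 𝕊.w a b c d) =
      ℚ'.w (f fun _ => a) (f fun _ => b) (f fun _ => c) (f fun _ => d) := fun a b c d =>
    hf.2 (fun _ => a) (Set.mem_univ _) (fun _ => b) (Set.mem_univ _) (fun _ => c) (Set.mem_univ _)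
      (fun _ => d) (Set.mem_univ _)
  have hker : Sub (𝕊.prod 𝕊) {p : S × S | f (fun _ => p.1) = f (fun _ => p.2)} := by
    constructor
    · intro x hx y hy z hz
      show f (fun _ => 𝕊.v x.1 y.1 z.1) = f (fun _ => 𝕊.v x.2 y.2 z.2)
      have hx' : f (fun _ => x.1) = f (fun _ => x.2) := hx
      have hy' : f (fun _ => y.1) = f (fun _ => y.2) := hy
      have hz' : f (fun _ => z.1) = f (fun _ => z.2) := hz
      rw [hkerv, hkerv, hx', hy', hz']
    · intro x hx y hy z hz u hu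
      show f (fun _ => 𝕊.w x.1 y.1 z.1 u.1) = f (fun _ => 𝕊.w x.2 y.2 z.2 u.2)
      have hx' : f (fun _ => x.1) = f (fun _ => x.2) := hx
      have hy' : f (fun _ => y.1) = f (fun _ => y.2) := hy
      have hz' : f (fun _ => z.1) = f (fun _ => z.2) := hz
      have hu' : f (fun _ => u.1) = f (fun _ => u.2) := hu
      rw [hkerw, hkerw, hx', hy', hz', hu']
  rcases hSs _ hker (fun a => rfl) (fun a b hab => Eq.symm hab)
    (fun a b c hab hbc => Eq.trans hab hbc) with hinj | hconst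
  · obtain ⟨r, hr, r', hr', hg1, hne⟩ := hnf i
    apply hne
    apply hinj
    show f (fun _ => χ i r) = f (fun _ => χ i r')
    have h1 : f (fun k => χ k r) = f (fun k => χ k r') := by
      apply hθ
      apply Relation.ReflTransGen.single
      exact ⟨g r, ⟨r, hr, rfl, rfl⟩, ⟨r', hr', rfl, hg1.symm⟩⟩
    rw [hfi (fun k => χ k r), hfi (fun k => χ k r')] at h1
    exact h1
  · obtain ⟨q1, q2, hq⟩ := hntQ
    obtain ⟨x1, -, hx1⟩ := hfonto q1
    obtain ⟨x2, -, hx2⟩ := hfonto q2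
    apply hq
    rw [← hx1, ← hx2, hfi x1, hfi x2]
    exact hconst (x1 i) (x2 i)

end Pool.Agent.BWC
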