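import Pool.Agent.Lib.MP_d14a7e_al.XYA

set_option autoImplicit false
set_option linter.all false

/-! No simple TF algebra is a nontrivial function of two variables in both of which it is onto. -/

namespace Pool.Agent.BWC

/-- the binary relation between `UX` and `UY` given by `Γ` -/
def XYBrel {X Y S : Type} (Γ : Set (X × Y × S)) (UX : Set X) (UY : Set Y) : Set (X × Y) :=
  {p | p.1 ∈ UX ∧ p.2 ∈ UY ∧ ∃ s, (p.1, p.2, s) ∈ Γ}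

/-- good pairs -/
structure XYBgood {X Y S : Type} (𝕏 : Alg X) (𝕐 : Alg Y) (Γ : Set (X × Y × S))
    (UX : Set X) (UY : Set Y) : Prop where
  sx : Sub 𝕏 UX
  sy : Sub 𝕐 UY
  ne : UX.Nonempty
  lk : LLinked (XYBrel Γ UX UY)
  a : ∀ x ∈ UX, ∀ s, ∃ y ∈ UY, (x, y, s) ∈ Γ
  b : ∀ y ∈ UY, ∀ s, ∃ x ∈ UX, (x, y, s) ∈ Γ

/-- swapping the first two coordinates -/
def XYBswap {X Y S : Type} (Γ : Set (X × Y × S)) : Set (Y × X × S) :=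
  {p | (p.2.1, p.1, p.2.2) ∈ Γ}

theorem XYBswap_sub {X Y S : Type} {𝕏 : Alg X} {𝕐 : Alg Y} {𝕊 : Alg S} {Γ : Set (X × Y × S)}
    (hΓ : Sub (𝕏.prod (𝕐.prod 𝕊)) Γ) : Sub (𝕐.prod (𝕏.prod 𝕊)) (XYBswap Γ) :=
  ⟨fun x hx y hy z hz => hΓ.1 _ hx _ hy _ hz,
   fun x hx y hy z hz u hu => hΓ.2 _ hx _ hy _ hz _ hu⟩

/-- projection of `Γ` to the first two coordinates -/
theorem XYBproj_sub {X Y S : Type} {𝕏 : Alg X} {𝕐 : Alg Y} {𝕊 : Alg S} {Γ : Set (X × Y × S)}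
    (hΓ : Sub (𝕏.prod (𝕐.prod 𝕊)) Γ) : Sub (𝕏.prod 𝕐) {p : X × Y | ∃ s, (p.1, p.2, s) ∈ Γ} := by
  constructor
  · rintro ⟨x1, y1⟩ ⟨s1, h1⟩ ⟨x2, y2⟩ ⟨s2, h2⟩ ⟨x3, y3⟩ ⟨s3, h3⟩
    exact ⟨_, hΓ.1 _ h1 _ h2 _ h3⟩
  · rintro ⟨x1, y1⟩ ⟨s1, h1⟩ ⟨x2, y2⟩ ⟨s2, h2⟩ ⟨x3, y3⟩ ⟨s3, h3⟩ ⟨x4, y4⟩ ⟨s4, h4⟩
    exact ⟨_, hΓ.2 _ h1 _ h2 _ h3 _ h4⟩

theorem XYBrel_sub {X Y S : Type} {𝕏 : Alg X} {𝕐 : Alg Y} {𝕊 : Alg S} {Γ : Set (X × Y × S)}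
    (hΓ : Sub (𝕏.prod (𝕐.prod 𝕊)) Γ) {UX : Set X} {UY : Set Y} (hX : Sub 𝕏 UX) (hY : Sub 𝕐 UY) :
    Sub (𝕏.prod 𝕐) (XYBrel Γ UX UY) := by
  have h := (hX.setprod hY).inter (XYBproj_sub hΓ)
  have e : XYBrel Γ UX UY = (UX ×ˢ UY) ∩ {p : X × Y | ∃ s, (p.1, p.2, s) ∈ Γ} := by
    ext ⟨x, y⟩
    simp [XYBrel, and_assoc]
  rw [e]; exact h

theorem XYBdom {X Y S : Type} [Nonempty S] {𝕏 : Alg X} {𝕐 : Alg Y} {Γ : Set (X × Y × S)}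
    {UX : Set X} {UY : Set Y} (h : XYBgood 𝕏 𝕐 Γ UX UY) : dom (XYBrel Γ UX UY) = UX := by
  ext x
  constructor
  · rintro ⟨y, hx, _⟩; exact hx
  · intro hx
    obtain ⟨y, hy, hs⟩ := h.a x hx (Classical.arbitrary S)
    exact ⟨y, hx, hy, _, hs⟩

theorem XYBcod {X Y S : Type} [Nonempty S] {𝕏 : Alg X} {𝕐 : Alg Y} {Γ : Set (X × Y × S)}
    {UX : Set X} {UY : Set Y} (h : XYBgood 𝕏 𝕐 Γ UX UY) : cod (XYBrel Γ UX UY) = UY := by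
  ext y
  constructor
  · rintro ⟨x, _, hy, _⟩; exact hy
  · intro hy
    obtain ⟨x, hx, hs⟩ := h.b y hy (Classical.arbitrary S)
    exact ⟨x, hx, hy, _, hs⟩

theorem XYBswapg {X Y S : Type} [Nonempty S] {𝕏 : Alg X} {𝕐 : Alg Y} {Γ : Set (X × Y × S)}
    {UX : Set X} {UY : Set Y} (h : XYBgood 𝕏 𝕐 Γ UX UY) :
    XYBgood 𝕐 𝕏 (XYBswap Γ) UY UX where
  sx := h.sy
  sy := h.sx
  ne := by
    obtain ⟨x, hx⟩ := h.ne
    obtain ⟨y, hy, _⟩ := h.a x hx (Classical.arbitrary S)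
    exact ⟨y, hy⟩
  lk := by
    have e : XYBrel (XYBswap Γ) UY UX = inv (XYBrel Γ UX UY) := by
      ext ⟨y, x⟩
      simp only [XYBrel, XYBswap, inv, Set.mem_setOf_eq]
      tauto
    rw [e]; exact h.lk.inv
  a := h.b
  b := h.a

/-- shrinking a good pair along a 3-absorbing set -/
theorem XYBshrink {X Y S : Type} [Nonempty S] {𝕏 : Alg X} {𝕐 : Alg Y} {𝕊 : Alg S}
    (hX : IsBW 𝕏) (hY : IsBW 𝕐) {Γ : Set (X × Y × S)}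
    (hΓ : Sub (𝕏.prod (𝕐.prod 𝕊)) Γ) (hStf : TF 𝕊 Set.univ)
    {UX : Set X} {UY : Set Y} (h : XYBgood 𝕏 𝕐 Γ UX UY) {N : Set X} (hN : N.Nonempty)
    (hab : Abs3 𝕏 N UX) : XYBgood 𝕏 𝕐 Γ N (img (XYBrel Γ UX UY) N) := by
  have hP := XYBrel_sub hΓ h.sx h.sy
  have hNs : N ⊆ UX := hab.subset
  have hrel : XYBrel Γ N (img (XYBrel Γ UX UY) N) = {p | p ∈ XYBrel Γ UX UY ∧ p.1 ∈ N} := by
    ext ⟨x, y⟩
    constructor
    · rintro ⟨hx, ⟨x', hx', _, hy, _⟩, hs⟩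
      exact ⟨⟨hNs hx, hy, hs⟩, hx⟩
    · rintro ⟨⟨hx, hy, hs⟩, hxN⟩
      exact ⟨hxN, ⟨x, hxN, hx, hy, hs⟩, hs⟩
  refine ⟨hab.sub, hP.img hab.sub, hN, ?_, ?_, ?_⟩
  · rw [hrel]
    have hc : cod (inv (XYBrel Γ UX UY)) = UX := by rw [cod_inv]; exact XYBdom h
    have h1 := llinked_absorb hY hX hP.inv h.lk.inv (N := N) (by rw [hc]; exact hab)
    exact h1.inv
  · intro x hx s
    obtain ⟨y, hy, hs⟩ := h.a x (hNs hx) s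
    exact ⟨y, ⟨x, hx, hNs hx, hy, s, hs⟩, hs⟩
  · rintro y ⟨x, hx, _, hy, s0, hs0⟩ s
    -- the relation between x and s for fixed y
    let R : Set (X × S) := {p | (p.1, y, p.2) ∈ Γ}
    have hR : Sub (𝕏.prod 𝕊) R := by
      constructor
      · intro p hp q hq r hr
        have := hΓ.1 _ hp _ hq _ hr
        show (𝕏.v p.1 q.1 r.1, y, 𝕊.v p.2 q.2 r.2) ∈ Γ
        have e : 𝕐.v y y y = y := hY.vi y
        simpa [Alg.prod, e] using this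
      · intro p hp q hq r hr u hu
        have := hΓ.2 _ hp _ hq _ hr _ hu
        show (𝕏.w p.1 q.1 r.1 u.1, y, 𝕊.w p.2 q.2 r.2 u.2) ∈ Γ
        have e : 𝕐.w y y y y = y := hY.wi y
        simpa [Alg.prod, e] using this
    have h1 := hab.img hR
    have h2 : img R UX = Set.univ := by
      apply Set.eq_univ_of_forall
      intro s
      obtain ⟨x', hx', hs'⟩ := h.b y hy s
      exact ⟨x', hx', hs'⟩
    rw [h2] at h1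
    have h3 : img R N = Set.univ := hStf _ ⟨s0, x, hx, hs0⟩ h1
    have : s ∈ img R N := by rw [h3]; trivial
    obtain ⟨x', hx', hs'⟩ := this
    exact ⟨x', hx', hs'⟩

theorem XYBshrink_card {X Y S : Type} [Finite Y] (Γ : Set (X × Y × S))
    (UX : Set X) (UY : Set Y) (N : Set X) : (img (XYBrel Γ UX UY) N).ncard ≤ UY.ncard := by
  apply Set.ncard_le_ncard _ (Set.toFinite _)
  rintro y ⟨x, _, _, hy, _⟩
  exact hy

theorem XYBlift {A B : Type} {r : A → A → Prop} {p : B → B → Prop} (f : A → B)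
    (h : ∀ a b, r a b → p (f a) (f b)) {a b : A} (hab : Relation.ReflTransGen r a b) :
    Relation.ReflTransGen p (f a) (f b) := by
  induction hab with
  | refl => exact Relation.ReflTransGen.refl
  | tail _ hbc ih => exact ih.tail (h _ _ hbc)

/-- one step of a link in a subuniverse relation -/
theorem XYBlink_v {A B : Type} {𝔸 : Alg A} {𝔹 : Alg B} {T : Set (A × B)}
    (hT : Sub (𝔸.prod 𝔹) T) {a a' b b' c c' : A}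
    (ha : Relation.ReflTransGen (fun x y => ∃ c, (x, c) ∈ T ∧ (y, c) ∈ T) a a')
    (hb : Relation.ReflTransGen (fun x y => ∃ c, (x, c) ∈ T ∧ (y, c) ∈ T) b b')
    (hc : Relation.ReflTransGen (fun x y => ∃ c, (x, c) ∈ T ∧ (y, c) ∈ T) c c')
    (da : a ∈ dom T) (db : b ∈ dom T) (dc : c ∈ dom T) (da' : a' ∈ dom T) (db' : b' ∈ dom T)
    (dc' : c' ∈ dom T) :
    Relation.ReflTransGen (fun x y => ∃ c, (x, c) ∈ T ∧ (y, c) ∈ T) (𝔸.v a b c)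
      (𝔸.v a' b' c') := by
  obtain ⟨eb, heb⟩ := db
  obtain ⟨ec, hec⟩ := dc
  obtain ⟨ea', hea'⟩ := da'
  obtain ⟨eb', heb'⟩ := db'
  have h1 : Relation.ReflTransGen (fun x y => ∃ c, (x, c) ∈ T ∧ (y, c) ∈ T) (𝔸.v a b c)
      (𝔸.v a' b c) := by
    refine XYBlift (fun x => 𝔸.v x b c) ?_ ha
    rintro x y ⟨d, hx, hy⟩
    exact ⟨𝔹.v d eb ec, hT.1 _ hx _ heb _ hec, hT.1 _ hy _ heb _ hec⟩
  have h2 : Relation.ReflTransGen (fun x y => ∃ c, (x, c) ∈ T ∧ (y, c) ∈ T) (𝔸.v a' b c)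
      (𝔸.v a' b' c) := by
    refine XYBlift (fun x => 𝔸.v a' x c) ?_ hb
    rintro x y ⟨d, hx, hy⟩
    exact ⟨𝔹.v ea' d ec, hT.1 _ hea' _ hx _ hec, hT.1 _ hea' _ hy _ hec⟩
  have h3 : Relation.ReflTransGen (fun x y => ∃ c, (x, c) ∈ T ∧ (y, c) ∈ T) (𝔸.v a' b' c)
      (𝔸.v a' b' c') := by
    refine XYBlift (fun x => 𝔸.v a' b' x) ?_ hc
    rintro x y ⟨d, hx, hy⟩
    exact ⟨𝔹.v ea' eb' d, hT.1 _ hea' _ heb' _ hx, hT.1 _ hea' _ heb' _ hy⟩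
  exact (h1.trans h2).trans h3

theorem XYBlink_w {A B : Type} {𝔸 : Alg A} {𝔹 : Alg B} {T : Set (A × B)}
    (hT : Sub (𝔸.prod 𝔹) T) {a a' b b' c c' d d' : A}
    (ha : Relation.ReflTransGen (fun x y => ∃ c, (x, c) ∈ T ∧ (y, c) ∈ T) a a')
    (hb : Relation.ReflTransGen (fun x y => ∃ c, (x, c) ∈ T ∧ (y, c) ∈ T) b b')
    (hc : Relation.ReflTransGen (fun x y => ∃ c, (x, c) ∈ T ∧ (y, c) ∈ T) c c')
    (hd : Relation.ReflTransGen (fun x y => ∃ c, (x, c) ∈ T ∧ (y, c) ∈ T) d d')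
    (da : a ∈ dom T) (db : b ∈ dom T) (dc : c ∈ dom T) (dd : d ∈ dom T) (da' : a' ∈ dom T)
    (db' : b' ∈ dom T) (dc' : c' ∈ dom T) :
    Relation.ReflTransGen (fun x y => ∃ c, (x, c) ∈ T ∧ (y, c) ∈ T) (𝔸.w a b c d)
      (𝔸.w a' b' c' d') := by
  obtain ⟨eb, heb⟩ := db
  obtain ⟨ec, hec⟩ := dc
  obtain ⟨ed, hed⟩ := dd
  obtain ⟨ea', hea'⟩ := da'
  obtain ⟨eb', heb'⟩ := db'
  obtain ⟨ec', hec'⟩ := dc'
  have h1 : Relation.ReflTransGen (fun x y => ∃ c, (x, c) ∈ T ∧ (y, c) ∈ T) (𝔸.w a b c d)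
      (𝔸.w a' b c d) := by
    refine XYBlift (fun x => 𝔸.w x b c d) ?_ ha
    rintro x y ⟨e, hx, hy⟩
    exact ⟨𝔹.w e eb ec ed, hT.2 _ hx _ heb _ hec _ hed, hT.2 _ hy _ heb _ hec _ hed⟩
  have h2 : Relation.ReflTransGen (fun x y => ∃ c, (x, c) ∈ T ∧ (y, c) ∈ T) (𝔸.w a' b c d)
      (𝔸.w a' b' c d) := by
    refine XYBlift (fun x => 𝔸.w a' x c d) ?_ hb
    rintro x y ⟨e, hx, hy⟩
    exact ⟨𝔹.w ea' e ec ed, hT.2 _ hea' _ hx _ hec _ hed, hT.2 _ hea' _ hy _ hec _ hed⟩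
  have h3 : Relation.ReflTransGen (fun x y => ∃ c, (x, c) ∈ T ∧ (y, c) ∈ T) (𝔸.w a' b' c d)
      (𝔸.w a' b' c' d) := by
    refine XYBlift (fun x => 𝔸.w a' b' x d) ?_ hc
    rintro x y ⟨e, hx, hy⟩
    exact ⟨𝔹.w ea' eb' e ed, hT.2 _ hea' _ heb' _ hx _ hed, hT.2 _ hea' _ heb' _ hy _ hed⟩
  have h4 : Relation.ReflTransGen (fun x y => ∃ c, (x, c) ∈ T ∧ (y, c) ∈ T) (𝔸.w a' b' c' d)
      (𝔸.w a' b' c' d') := by
    refine XYBlift (fun x => 𝔸.w a' b' c' x) ?_ hd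
    rintro x y ⟨e, hx, hy⟩
    exact ⟨𝔹.w ea' eb' ec' e, hT.2 _ hea' _ heb' _ hec' _ hx, hT.2 _ hea' _ heb' _ hec' _ hy⟩
  exact ((h1.trans h2).trans h3).trans h4

/-- a link class in the domain is a subuniverse -/
theorem XYBclass_sub {A B : Type} {𝔸 : Alg A} {𝔹 : Alg B} (hA : IsBW 𝔸) {T : Set (A × B)}
    (hT : Sub (𝔸.prod 𝔹) T) {a : A} (ha : a ∈ dom T) :
    Sub 𝔸 {x | x ∈ dom T ∧
      Relation.ReflTransGen (fun x y => ∃ c, (x, c) ∈ T ∧ (y, c) ∈ T) a x} := by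
  constructor
  · rintro x ⟨dx, hx⟩ y ⟨dy, hy⟩ z ⟨dz, hz⟩
    refine ⟨hT.dom.1 x dx y dy z dz, ?_⟩
    have := XYBlink_v hT hx hy hz ha ha ha dx dy dz
    rwa [hA.vi] at this
  · rintro x ⟨dx, hx⟩ y ⟨dy, hy⟩ z ⟨dz, hz⟩ u ⟨du, hu⟩
    refine ⟨hT.dom.2 x dx y dy z dz u du, ?_⟩
    have := XYBlink_w hT hx hy hz hu ha ha ha ha dx dy dz
    rwa [hA.wi] at this

/-- existence of a good pair -/
theorem XYBexists {X Y S : Type} [Nonempty S] {𝕏 : Alg X} {𝕐 : Alg Y} {𝕊 : Alg S}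
    (hX : IsBW 𝕏) (hY : IsBW 𝕐) {Γ : Set (X × Y × S)}
    (hΓ : Sub (𝕏.prod (𝕐.prod 𝕊)) Γ) (hne : Γ.Nonempty)
    (h1 : ∀ x y s, (x, y, s) ∈ Γ → ∀ s', ∃ y', (x, y', s') ∈ Γ)
    (h2 : ∀ x y s, (x, y, s) ∈ Γ → ∀ s', ∃ x', (x', y, s') ∈ Γ) :
    ∃ UX UY, XYBgood 𝕏 𝕐 Γ UX UY := by
  obtain ⟨⟨x0, y0, s0⟩, h0⟩ := hne
  set P : Set (X × Y) := {p : X × Y | ∃ s, (p.1, p.2, s) ∈ Γ} with hP
  have hPs : Sub (𝕏.prod 𝕐) P := XYBproj_sub hΓ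
  have d0 : x0 ∈ dom P := ⟨y0, s0, h0⟩
  set UX : Set X := {x | x ∈ dom P ∧
      Relation.ReflTransGen (fun x y => ∃ c, (x, c) ∈ P ∧ (y, c) ∈ P) x0 x} with hUX
  have sUX : Sub 𝕏 UX := XYBclass_sub hX hPs d0
  have mem_of : ∀ x x' y, x ∈ UX → (x, y) ∈ P → (x', y) ∈ P → x' ∈ UX := by
    rintro x x' y ⟨dx, hx⟩ h h'
    exact ⟨⟨y, h'⟩, hx.tail ⟨y, h, h'⟩⟩
  refine ⟨UX, img P UX, sUX, hPs.img sUX, ⟨x0, d0, Relation.ReflTransGen.refl⟩, ?_, ?_, ?_⟩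
  · -- linkedness
    have key : ∀ a b, a ∈ UX →
        Relation.ReflTransGen (fun x y => ∃ c, (x, c) ∈ P ∧ (y, c) ∈ P) a b →
        b ∈ UX ∧ Relation.ReflTransGen
          (fun x y => ∃ c, (x, c) ∈ XYBrel Γ UX (img P UX) ∧ (y, c) ∈ XYBrel Γ UX (img P UX))
          a b := by
      intro a b ha hab
      induction hab with
      | refl => exact ⟨ha, Relation.ReflTransGen.refl⟩
      | tail _ hbc ih =>
        obtain ⟨y, hby, hcy⟩ := hbc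
        have hb := ih.1
        have hc := mem_of _ _ _ hb hby hcy
        exact ⟨hc, ih.2.tail ⟨y, ⟨hb, ⟨_, hb, hby⟩, hby⟩, ⟨hc, ⟨_, hc, hcy⟩, hcy⟩⟩⟩
    rintro a ⟨_, ha, _⟩ b ⟨_, hb, _⟩
    have hsymm : ∀ u v : X, Relation.ReflTransGen (fun x y => ∃ c, (x, c) ∈ P ∧ (y, c) ∈ P) u v →
        Relation.ReflTransGen (fun x y => ∃ c, (x, c) ∈ P ∧ (y, c) ∈ P) v u := by
      intro u v h
      induction h with
      | refl => exact Relation.ReflTransGen.refl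
      | tail _ hbc ih =>
        obtain ⟨y, h1, h2⟩ := hbc
        exact Relation.ReflTransGen.head ⟨y, h2, h1⟩ ih
    exact (key a b ha ((hsymm _ _ ha.2).trans hb.2)).2
  · rintro x ⟨⟨y, s, hs⟩, hx⟩ s'
    obtain ⟨y', hy'⟩ := h1 x y s hs s'
    exact ⟨y', ⟨x, ⟨⟨y, s, hs⟩, hx⟩, s', hy'⟩, hy'⟩
  · rintro y ⟨x, hx, s, hs⟩ s'
    obtain ⟨x', hx'⟩ := h2 x y s hs s'
    exact ⟨x', mem_of x x' y hx ⟨s, hs⟩ ⟨s', hx'⟩, hx'⟩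

/-- General case.  Proof: consider pairs `(UX, UY)` of subuniverses of `X`, `Y` with `UX` nonempty,
`P = {(x,y) | x ∈ UX ∧ y ∈ UY ∧ ∃ s, (x,y,s) ∈ Γ}` left-linked, and
(a) `∀ x ∈ UX, ∀ s, ∃ y ∈ UY, (x,y,s) ∈ Γ`, (b) `∀ y ∈ UY, ∀ s, ∃ x ∈ UX, (x,y,s) ∈ Γ`.
(If `S` is empty we are done, so `S` is nonempty.)
There is such a pair: `UX` = a link class of `{(x,y) | ∃ s, (x,y,s) ∈ Γ}`
(a subuniverse as linkedness is a congruence, cf. `simple_dich`), `UY` = its neighbours.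
Take one with `|UX| + |UY|` least.  `UX` is TF: let `N` be nonempty, 3-absorbing `UX` by `t`,
`N'` = neighbours of `N` in `UY`.  Then `(N, N')` is such a pair: (a) is clear;
(b): for `y ∈ N'`, `{s | ∃ x ∈ N, (x,y,s) ∈ Γ}` is a nonempty 3-absorbing subuniverse of `S`, so
it is `S`; linkedness: `llinked_absorb` for `inv P` and `LLinked.inv`.  So `N = UX`.
Symmetrically `UY` is TF.  By `rt_tf` `P = UX × UY`, and `xy_prod` applies. -/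
theorem xyP {X Y S : Type} [Finite X] [Finite Y] [Finite S] {𝕏 : Alg X} {𝕐 : Alg Y}
    {𝕊 : Alg S} (hX : IsBW 𝕏) (hY : IsBW 𝕐) (hS : IsBW 𝕊) {Γ : Set (X × Y × S)}
    (hΓ : Sub (𝕏.prod (𝕐.prod 𝕊)) Γ) (hne : Γ.Nonempty)
    (huniq : ∀ x y s s', (x, y, s) ∈ Γ → (x, y, s') ∈ Γ → s = s')
    (h1 : ∀ x y s, (x, y, s) ∈ Γ → ∀ s', ∃ y', (x, y', s') ∈ Γ)
    (h2 : ∀ x y s, (x, y, s) ∈ Γ → ∀ s', ∃ x', (x', y, s') ∈ Γ)
    (hStf : TF 𝕊 Set.univ) (hSs : Simple 𝕊) : Subsingleton S := by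
  classical
  rcases isEmpty_or_nonempty S with hSe | hSn
  · infer_instance
  have hex : ∃ n : ℕ, ∃ UX UY, XYBgood 𝕏 𝕐 Γ UX UY ∧ UX.ncard + UY.ncard = n := by
    obtain ⟨UX, UY, h⟩ := XYBexists hX hY hΓ hne h1 h2
    exact ⟨_, UX, UY, h, rfl⟩
  obtain ⟨UX, UY, hg, hcard⟩ := Nat.find_spec hex
  have hmin : ∀ VX VY, XYBgood 𝕏 𝕐 Γ VX VY → UX.ncard + UY.ncard ≤ VX.ncard + VY.ncard := by
    intro VX VY hV
    rw [hcard]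
    exact Nat.find_min' hex ⟨VX, VY, hV, rfl⟩
  have hXtf : TF 𝕏 UX := by
    intro N hN hab
    have hs := XYBshrink hX hY hΓ hStf hg hN hab
    have hc := hmin _ _ hs
    have hc2 := XYBshrink_card Γ UX UY N
    have hc3 : N.ncard ≤ UX.ncard := Set.ncard_le_ncard hab.subset (Set.toFinite _)
    exact Set.eq_of_subset_of_ncard_le hab.subset (by omega) (Set.toFinite _)
  have hYtf : TF 𝕐 UY := by
    intro N hN hab
    have hs := XYBshrink hY hX (XYBswap_sub hΓ) hStf (XYBswapg hg) hN hab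
    have hs' := XYBswapg hs
    have hc := hmin _ _ hs'
    have hc2 := XYBshrink_card (XYBswap Γ) UY UX N
    have hc3 : N.ncard ≤ UY.ncard := Set.ncard_le_ncard hab.subset (Set.toFinite _)
    exact Set.eq_of_subset_of_ncard_le hab.subset (by omega) (Set.toFinite _)
  have hfull := rt_tf hX hY (XYBrel_sub hΓ hg.sx hg.sy) hg.lk (by rw [XYBdom hg]; exact hXtf)
    (by rw [XYBcod hg]; exact hYtf)
  rw [XYBdom hg, XYBcod hg] at hfull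
  exact xy_prod hX hY hS hg.sx hg.sy hg.ne hΓ (fun x hx y hy => (hfull x hx y hy).2.2) huniq
    hg.a hg.b hXtf hStf hSs

end Pool.Agent.BWC
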