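import Pool.Agent.Lib.MP_d14a7e_al.SymC0
import Pool.Agent.Lib.MP_d14a7e_al.SymC2
import Pool.Agent.Lib.MP_d14a7e_al.XYB

set_option autoImplicit false
set_option linter.all false

/-! Symmetric instances, the absorption free case: lemma G2. -/

namespace Pool.Agent.BWC

open Tpl

/-- **G2.**  Proof.  If `S` is a subsingleton: `DD = D`, take `Z` = everything (`AbsT.refl`).
Let `S` be nontrivial; `κ`, `ψ` from `chars`; `κ'` = the subtype of all `k` for which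
the first alternative holds for both `j0` and `j1`.  For the other `k`, `ρ j0 r, ρ j1 r ∈ DD`
implies `ψ k r = s0`.
If `κ'` is empty take `Z` = everything.  Otherwise by `st` (index `κ'`, all simple, any `i0`)
`Rw → S^κ'` is onto.
No `ψ k`, `k ∈ κ'`, is a function of `g = (ρ j0, ρ j1)` on `Rw`: else `xyP` for
`Γ = {(ρ j0 r, ρ j1 r, ψ k r) | r ∈ Rw}` would make `S` a subsingleton
(its `h1`, `h2` are the first alternatives for `j0` and `j1`).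
By `linked_pow` and `cn` (with `S^κ'` on the left, TF by `TF.setpi`) the set
`Z = Cen (inv ..)` of pairs `g r` which are related to all of `S^κ'` is nonempty and 3-absorbing.
For `(a,b) ∈ Z`, `a, b ∈ DD`, there is `r ∈ Rw` with `g r = (a,b)`, `ψ k r = s0` for all
`k ∈ κ'`, hence for all `k`, so all `ρ j r ∈ DD` by `chars`. -/
theorem g2 {T : Tpl} {D : Set T.X} {R : ∀ c, Set (T.Y c)} {S : Type} [Finite S]
    {𝕊 : Alg S} {φ : T.X → S} (f : Frm T D R 𝕊 φ) (s0 : S) {W J : Type} [Finite W] [Finite J]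
    {𝕎 : Alg W} {Rw : Set W} {ρ : J → W → T.X} (hc : Cmp T D R 𝕎 Rw ρ) (j0 j1 : J) :
    ∃ Z : Set (T.X × T.X), Z.Nonempty ∧
      Abs3 (T.𝕏.prod T.𝕏) Z {p | ∃ r ∈ Rw, ρ j0 r = p.1 ∧ ρ j1 r = p.2} ∧
      ∀ a b, (a, b) ∈ Z → a ∈ DD T D R φ s0 → b ∈ DD T D R φ s0 →
        ∃ r ∈ Rw, ρ j0 r = a ∧ ρ j1 r = b ∧ ∀ j, ρ j r ∈ DD T D R φ s0 := by
  classical
  have hfX : Finite T.X := T.finX
  -- the image relation
  let g : W → T.X × T.X := fun r => (ρ j0 r, ρ j1 r)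
  have hg : HomOn 𝕎 (T.𝕏.prod T.𝕏) Rw g := (hc.hom j0).pair (hc.hom j1)
  have hGeq : {p : T.X × T.X | ∃ r ∈ Rw, ρ j0 r = p.1 ∧ ρ j1 r = p.2} = g '' Rw := by
    ext ⟨a, b⟩
    simp [g, Prod.ext_iff]
  have hGsub : Sub (T.𝕏.prod T.𝕏) {p : T.X × T.X | ∃ r ∈ Rw, ρ j0 r = p.1 ∧ ρ j1 r = p.2} := by
    rw [hGeq]; exact hc.sub.image hg
  have hmemD : ∀ j, ∀ r ∈ Rw, ρ j r ∈ D := fun j r hr => by
    rw [← hc.onto j]; exact ⟨r, hr, rfl⟩
  obtain ⟨r0, hr0⟩ : ∃ r0, r0 ∈ Rw := by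
    obtain ⟨d, hd⟩ := f.ok.neD
    rw [← hc.onto j0] at hd
    obtain ⟨r, hr, _⟩ := hd
    exact ⟨r, hr⟩
  have hGne : {p : T.X × T.X | ∃ r ∈ Rw, ρ j0 r = p.1 ∧ ρ j1 r = p.2}.Nonempty :=
    ⟨g r0, r0, hr0, rfl, rfl⟩
  rcases subsingleton_or_nontrivial S with hS | hS
  · refine ⟨_, hGne, ⟨Tm.var 0, AbsT.refl hGsub⟩, ?_⟩
    rintro a b ⟨r, hr, h0, h1⟩ _ _
    exact ⟨r, hr, h0, h1, fun j => ⟨hmemD j r hr, fun _ _ _ _ => Subsingleton.elim _ _⟩⟩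
  obtain ⟨κ, ψ, hκ, hψ, hψonto, hψ2, hdich, hall, _⟩ := chars f s0 hc
  let P : κ → Prop := fun k => (∀ s, ∀ b ∈ D, ∃ r ∈ Rw, ψ k r = s ∧ ρ j0 r = b) ∧
    (∀ s, ∀ b ∈ D, ∃ r ∈ Rw, ψ k r = s ∧ ρ j1 r = b)
  have hnP : ∀ k, ¬ P k → ∀ r ∈ Rw, ρ j0 r ∈ DD T D R φ s0 → ρ j1 r ∈ DD T D R φ s0 →
      ψ k r = s0 := by
    intro k hk r hr ha hb
    rcases hdich k j0 with h0 | h0
    · rcases hdich k j1 with h1 | h1
      · exact absurd ⟨h0, h1⟩ hk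
      · exact h1 r hr hb
    · exact h0 r hr ha
  rcases isEmpty_or_nonempty {k : κ // P k} with hE | ⟨⟨i0⟩⟩
  · refine ⟨_, hGne, ⟨Tm.var 0, AbsT.refl hGsub⟩, ?_⟩
    rintro a b ⟨r, hr, h0, h1⟩ ha hb
    refine ⟨r, hr, h0, h1, hall r hr fun k => ?_⟩
    exact hnP k (fun hk => hE.false ⟨k, hk⟩) r hr (h0 ▸ ha) (h1 ▸ hb)
  have honto : ∀ x : {k : κ // P k} → S, ∃ r ∈ Rw, ∀ k, ψ k.1 r = x k := by
    intro x
    exact st (ι := {k : κ // P k}) (F := fun _ => S) (𝔽 := fun _ => 𝕊) (fun _ => f.bwS) hc.sub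
      (U := fun _ => Set.univ) (fun _ => Sub.univ 𝕊) (fun _ => f.tfS)
      (g := fun k => ψ k.1) (fun k => hψ k.1) (fun _ _ _ => trivial) i0
      (fun _ _ => ⟨f.simple, rfl⟩) (fun k a _ => hψonto k.1 a)
      (fun k l hkl a _ b _ => hψ2 k.1 l.1 (fun h => hkl (Subtype.ext h)) a b) x
      (fun _ => trivial)
  have hnf : ∀ k : {k : κ // P k}, ∃ r ∈ Rw, ∃ r' ∈ Rw, g r = g r' ∧ ψ k.1 r ≠ ψ k.1 r' := by
    intro k
    by_contra hcon
    push Not at hcon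
    have hΓ : Sub (T.𝕏.prod (T.𝕏.prod 𝕊))
        {p : T.X × T.X × S | ∃ r ∈ Rw, ρ j0 r = p.1 ∧ ρ j1 r = p.2.1 ∧ ψ k.1 r = p.2.2} := by
      have h1 := hc.sub.image ((hc.hom j0).pair ((hc.hom j1).pair (hψ k.1)))
      have h2 : {p : T.X × T.X × S | ∃ r ∈ Rw, ρ j0 r = p.1 ∧ ρ j1 r = p.2.1 ∧ ψ k.1 r = p.2.2}
          = (fun x => (ρ j0 x, ρ j1 x, ψ k.1 x)) '' Rw := by
        ext ⟨a, b, c⟩
        simp [Prod.ext_iff]
      rw [h2]; exact h1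
    have hsub := xyP (X := T.X) (Y := T.X) (S := S) T.bwX T.bwX f.bwS hΓ
      ⟨(ρ j0 r0, ρ j1 r0, ψ k.1 r0), r0, hr0, rfl, rfl, rfl⟩
      (by
        rintro x y s s' ⟨r, hr, h0, h1, h2⟩ ⟨r', hr', h0', h1', h2'⟩
        have := hcon r hr r' hr' (Prod.ext (h0.trans h0'.symm) (h1.trans h1'.symm))
        exact h2.symm.trans (this.trans h2'))
      (by
        rintro x y s ⟨r, hr, h0, h1, h2⟩ s'
        have h0' : ρ j0 r = x := h0
        obtain ⟨r', hr', h3, h4⟩ := k.2.1 s' x (by rw [← h0']; exact hmemD j0 r hr)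
        exact ⟨_, r', hr', h4, rfl, h3⟩)
      (by
        rintro x y s ⟨r, hr, h0, h1, h2⟩ s'
        have h1' : ρ j1 r = y := h1
        obtain ⟨r', hr', h3, h4⟩ := k.2.2 s' y (by rw [← h1']; exact hmemD j1 r hr)
        exact ⟨_, r', hr', rfl, h4, h3⟩)
      f.tfS f.simple
    exact not_subsingleton S hsub
  have hL := linked_pow (κ := {k : κ // P k}) hc.bw (T.bwX.prod T.bwX) f.bwS hc.sub hg
    (χ := fun k => ψ k.1) (fun k => hψ k.1) honto hnf f.tfS f.simple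
  set Θ : Set (({k : κ // P k} → S) × (T.X × T.X)) :=
    {p | ∃ r ∈ Rw, (fun k : {k : κ // P k} => ψ k.1 r) = p.1 ∧ g r = p.2} with hΘ
  have hΘsub : Sub ((Alg.pi fun _ : {k : κ // P k} => 𝕊).prod (T.𝕏.prod T.𝕏)) Θ := by
    have h1 := hc.sub.image ((HomOn.ofPi (fun _ : {k : κ // P k} => 𝕊)
      (f := fun k => ψ k.1) (fun k => hψ k.1)).pair hg)
    have h2 : Θ = (fun x => ((fun k : {k : κ // P k} => ψ k.1 x), g x)) '' Rw := by
      ext ⟨a, b⟩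
      simp only [hΘ, Set.mem_setOf_eq, Set.mem_image, Prod.mk.injEq]
    rw [h2]; exact h1
  have hdom : dom Θ = Set.univ := by
    refine Set.eq_univ_of_forall fun x => ?_
    obtain ⟨r, hr, h⟩ := honto x
    exact ⟨g r, r, hr, funext h, rfl⟩
  have hcod : cod Θ = {p : T.X × T.X | ∃ r ∈ Rw, ρ j0 r = p.1 ∧ ρ j1 r = p.2} := by
    ext p
    constructor
    · rintro ⟨x, r, hr, _, h⟩
      change g r = p at h
      subst h
      exact ⟨r, hr, rfl, rfl⟩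
    · rintro ⟨r, hr, h0, h1⟩
      exact ⟨_, r, hr, rfl, Prod.ext h0 h1⟩
  have htf : TF (Alg.pi fun _ : {k : κ // P k} => 𝕊) (dom Θ) := by
    have h1 := TF.setpi (ι := {k : κ // P k}) (F := fun _ => S) (𝔽 := fun _ => 𝕊)
      (fun _ => f.bwS) (U := fun _ => Set.univ) (fun _ => Sub.univ 𝕊) (fun _ => f.tfS)
    have h2 : {x : {k : κ // P k} → S | ∀ i, x i ∈ (Set.univ : Set S)} = Set.univ :=
      Set.eq_univ_of_forall fun x i => trivial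
    rw [hdom, ← h2]; exact h1
  obtain ⟨hZne, hZ⟩ := cn (IsBW.pi fun _ => f.bwS) (T.bwX.prod T.bwX) hΘsub hL
    ⟨(_, g r0), r0, hr0, rfl, rfl⟩ htf
  refine ⟨Cen (inv Θ), hZne, hcod ▸ hZ, ?_⟩
  intro a b hab ha hb
  have h1 := hab.2 (fun _ => s0) (by rw [cod_inv, hdom]; trivial)
  obtain ⟨r, hr, hψr, hgr⟩ := h1
  have h0 : ρ j0 r = a := congrArg Prod.fst hgr
  have h2 : ρ j1 r = b := congrArg Prod.snd hgr
  refine ⟨r, hr, h0, h2, hall r hr fun k => ?_⟩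
  by_cases hk : P k
  · exact congrFun hψr ⟨k, hk⟩
  · exact hnP k hk r hr (h0 ▸ ha) (h2 ▸ hb)

end Pool.Agent.BWC
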