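import Pool.Agent.Lib.MP_d14a7e_al.SymA3
import Pool.Agent.Lib.MP_d14a7e_al.SymC1
import Pool.Agent.Lib.MP_d14a7e_al.SymC3

set_option autoImplicit false
set_option linter.all false

/-! The symmetric consistency theorem. -/

namespace Pool.Agent.BWC

open Tpl

/-- the reduced domain is a subuniverse -/
theorem sym_DD_sub {T : Tpl} {D : Set T.X} {R : ∀ c, Set (T.Y c)} {S : Type}
    {𝕊 : Alg S} {φ : T.X → S} (f : Frm T D R 𝕊 φ) (s0 : S) : Sub T.𝕏 (DD T D R φ s0) := by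
  constructor
  · intro x hx y hy z hz
    refine ⟨f.ok.subD.1 _ hx.1 _ hy.1 _ hz.1, fun p hp a ha => ?_⟩
    obtain ⟨ax, hax⟩ := E_left f.ok p hx.1
    obtain ⟨ay, hay⟩ := E_left f.ok p hy.1
    obtain ⟨az, haz⟩ := E_left f.ok p hz.1
    have h1 : (T.𝕏.v ax ay az, T.𝕏.v x y z) ∈ T.E D R p := (E_sub f.ok p).1 _ hax _ hay _ haz
    rw [hp _ _ _ ha h1, f.hom.1 _ (E_mem f.ok hax).1 _ (E_mem f.ok hay).1 _ (E_mem f.ok haz).1,
      hx.2 p hp _ hax, hy.2 p hp _ hay, hz.2 p hp _ haz, f.bwS.vi]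
  · intro x hx y hy z hz u hu
    refine ⟨f.ok.subD.2 _ hx.1 _ hy.1 _ hz.1 _ hu.1, fun p hp a ha => ?_⟩
    obtain ⟨ax, hax⟩ := E_left f.ok p hx.1
    obtain ⟨ay, hay⟩ := E_left f.ok p hy.1
    obtain ⟨az, haz⟩ := E_left f.ok p hz.1
    obtain ⟨au, hau⟩ := E_left f.ok p hu.1
    have h1 : (T.𝕏.w ax ay az au, T.𝕏.w x y z u) ∈ T.E D R p :=
      (E_sub f.ok p).2 _ hax _ hay _ haz _ hau
    rw [hp _ _ _ ha h1, f.hom.2 _ (E_mem f.ok hax).1 _ (E_mem f.ok hay).1 _ (E_mem f.ok haz).1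
      _ (E_mem f.ok hau).1,
      hx.2 p hp _ hax, hy.2 p hp _ hay, hz.2 p hp _ haz, hu.2 p hp _ hau, f.bwS.wi]

/-- the reduced instance is arc-consistent -/
theorem sym_ok {T : Tpl} {D : Set T.X} {R : ∀ c, Set (T.Y c)} {S : Type} [Finite S]
    {𝕊 : Alg S} {φ : T.X → S} (f : Frm T D R 𝕊 φ) (s0 : S) :
    T.Ok (DD T D R φ s0) (restr T R (DD T D R φ s0)) := by
  have hsub := sym_DD_sub f s0
  refine ⟨hsub, DD_nonempty f s0, ?_, ?_⟩
  · intro c
    constructor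
    · intro x hx y hy z hz
      refine ⟨(f.ok.subR c).1 _ hx.1 _ hy.1 _ hz.1, fun i => ?_⟩
      rw [(T.hom c i).1 _ trivial _ trivial _ trivial]
      exact hsub.1 _ (hx.2 i) _ (hy.2 i) _ (hz.2 i)
    · intro x hx y hy z hz u hu
      refine ⟨(f.ok.subR c).2 _ hx.1 _ hy.1 _ hz.1 _ hu.1, fun i => ?_⟩
      rw [(T.hom c i).2 _ trivial _ trivial _ trivial _ trivial]
      exact hsub.2 _ (hx.2 i) _ (hy.2 i) _ (hz.2 i) _ (hu.2 i)
  · intro c i
    haveI := T.finY c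
    haveI := T.finJ c
    ext b
    constructor
    · rintro ⟨r, hr, rfl⟩
      exact hr.2 i
    · intro hb
      have hne : (R c).Nonempty := by
        obtain ⟨d, hd⟩ := f.ok.neD
        rw [← f.ok.ac c i] at hd
        obtain ⟨r, hr, _⟩ := hd
        exact ⟨r, hr⟩
      obtain ⟨r, hr, hrb, hj⟩ := g1 f s0 (cmp_constraint f.ok c) i
        (N := R c) ⟨Tm.var 0, AbsT.refl (f.ok.subR c)⟩ hne b hb
      exact ⟨r, ⟨hr, hj⟩, hrb⟩

/-- The absorption free case.  `φ : D → S` from `exists_simple_quotient_one'`, `s0 : S`,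
`D' = DD`, `R' = restr T R D'`.
Ok: `D'` is a subuniverse (`{s0}` is, and `χ_p` is a homomorphism: directly from the definition,
using `E_sub`), nonempty (`DD_nonempty`), `R'` subuniverses, `π c i '' R' c = D'`
by `g1` for `cmp_constraint`, `N = R c` (3-absorbing in itself, `AbsT.refl`).
`D' ⊂ D`: the empty word is functional, so `φ = s0` on `D'`, and `S` is nontrivial.
PR: let `p q` be words, `m` from PR, `u = pw m (p++q)`, `F = E u`.  `exists_walk` for `u` and `g2`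
give `Z`, nonempty, 3-absorbing `F` by a term `t`, with `Z ∩ D'² ⊆ E' u`.
By `g1` for `cmp_word h u` and `N = Z` (coordinates `false`, `true`): each `a ∈ D'` has
`a' ∈ D'` with `(a,a') ∈ Z` and each `b ∈ D'` has `b' ∈ D'` with `(b',b) ∈ Z`.
For `(a,b) ∈ F ∩ D'²`: `a1, a2, a1', b1, b2, b1'` as in the proof of `pr_of_abs`, with `Z` in the
place of `E' u`; merging the three sequences by `t` gives `x, y ∈ D'` with
`(a,x), (x,y), (y,b) ∈ Z`.  So `(a,b) ∈ E' (u++u++u)`.  So `E' (pw (3m) (p++q)) = F ∩ D'²`. -/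
theorem m4 {T : Tpl} {D : Set T.X} {R : ∀ c, Set (T.Y c)} (h : T.Ok D R) (hpr : T.PR D R)
    (htf : TF T.𝕏 D) (hnt : D.Nontrivial) :
    ∃ (D' : Set T.X) (R' : ∀ c, Set (T.Y c)), T.Ok D' R' ∧ T.PR D' R' ∧ D' ⊂ D ∧
      ∀ c, R' c ⊆ R c := by
  classical
  haveI := T.finX
  obtain ⟨S, 𝕊, φ, hfS, hntS, hbwS, hφ, honto, hsimple⟩ :=
    exists_simple_quotient_one' T.bwX h.subD hnt
  haveI := hfS
  haveI := hntS
  have f : Frm T D R 𝕊 φ := ⟨h, hpr, htf, hbwS, hφ, honto, hsimple⟩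
  obtain ⟨s0, s1, hs01⟩ := exists_pair_ne S
  -- the reduced instance
  have hD'D : DD T D R φ s0 ⊆ D := fun b hb => hb.1
  have hsubD' : Sub T.𝕏 (DD T D R φ s0) := sym_DD_sub f s0
  have hok : T.Ok (DD T D R φ s0) (restr T R (DD T D R φ s0)) := sym_ok f s0
  have hR'R : ∀ c, restr T R (DD T D R φ s0) c ⊆ R c := fun c r hr => hr.1
  refine ⟨DD T D R φ s0, restr T R (DD T D R φ s0), hok, ?_, ?_, hR'R⟩
  · -- PR
    intro p q
    obtain ⟨m, hm, heqv, hsub⟩ := hpr p q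
    obtain ⟨W, J, 𝕎, Rw, ρ, j0, j1, hfW, hfJ, hc, hE, hE'⟩ :=
      exists_walk h (pw m (p ++ q))
    haveI := hfW
    haveI := hfJ
    obtain ⟨Z, hZne, hZabs, hZ⟩ := g2 f s0 hc j0 j1
    have hFeq : {p | ∃ r ∈ Rw, ρ j0 r = p.1 ∧ ρ j1 r = p.2} = T.E D R (pw m (p ++ q)) := by
      ext ⟨a, b⟩
      exact (hE a b).symm
    rw [hFeq] at hZabs
    have hZE : ∀ a b, (a, b) ∈ Z → a ∈ DD T D R φ s0 → b ∈ DD T D R φ s0 →
        (a, b) ∈ T.E (DD T D R φ s0) (restr T R (DD T D R φ s0)) (pw m (p ++ q)) := by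
      intro a b hab ha hb
      obtain ⟨r, hr, hra, hrb, hj⟩ := hZ a b hab ha hb
      have := hE' (DD T D R φ s0) hD'D r hr hj
      rwa [hra, hrb] at this
    have hright : ∀ a ∈ DD T D R φ s0, ∃ a' ∈ DD T D R φ s0, (a, a') ∈ Z := by
      intro a ha
      obtain ⟨⟨x, y⟩, hr, hra, hj⟩ := g1 f s0 (cmp_word h (pw m (p ++ q))) false hZabs hZne a ha
      have h1 : x = a := hra
      subst h1
      exact ⟨y, hj true, hr⟩
    have hleft : ∀ b ∈ DD T D R φ s0, ∃ b' ∈ DD T D R φ s0, (b', b) ∈ Z := by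
      intro b hb
      obtain ⟨⟨x, y⟩, hr, hra, hj⟩ := g1 f s0 (cmp_word h (pw m (p ++ q))) true hZabs hZne b hb
      have h1 : y = b := hra
      subst h1
      exact ⟨x, hj false, hr⟩
    obtain ⟨t, ht⟩ := hZabs
    have hZF : Z ⊆ T.E D R (pw m (p ++ q)) := ht.subset
    have hpow : pw (3 * m) (p ++ q) = pw m (p ++ q) ++ (pw m (p ++ q) ++ pw m (p ++ q)) := by
      rw [show 3 * m = m + (m + m) by ring, pw_add, pw_add]
    have hback : ∀ a b, (a, b) ∈ T.E D R (pw m (p ++ q)) → a ∈ DD T D R φ s0 →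
        b ∈ DD T D R φ s0 →
        (a, b) ∈ T.E (DD T D R φ s0) (restr T R (DD T D R φ s0)) (pw (3 * m) (p ++ q)) := by
      intro a b hab ha hb
      obtain ⟨a1, ha1, haa1⟩ := hright a ha
      obtain ⟨a2, ha2, ha12⟩ := hright a1 ha1
      obtain ⟨b1, hb1, hbb1⟩ := hleft b hb
      obtain ⟨b2, hb2, hb12⟩ := hleft b1 hb1
      have e1 : (a2, b) ∈ T.E D R (pw m (p ++ q)) :=
        heqv.trans _ _ _ (heqv.symm _ _ (heqv.trans _ _ _ (hZF haa1) (hZF ha12))) hab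
      have e2 : (a, b2) ∈ T.E D R (pw m (p ++ q)) :=
        heqv.trans _ _ _ hab (heqv.symm _ _ (heqv.trans _ _ _ (hZF hb12) (hZF hbb1)))
      have e3 : (a1, b1) ∈ T.E D R (pw m (p ++ q)) :=
        heqv.trans _ _ _ (heqv.symm _ _ (hZF haa1))
          (heqv.trans _ _ _ hab (heqv.symm _ _ (hZF hbb1)))
      have s1' := ht.2.2.2.2 _ haa1 _ haa1 _ e2
      have s2' := ht.2.2.2.1 _ ha12 _ e3 _ hb12
      have s3' := ht.2.2.1 _ e1 _ hbb1 _ hbb1
      rw [t3_prod] at s1' s2' s3'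
      simp only [t3_idem T.bwX] at s1' s2' s3'
      have hx : t3 T.𝕏 t a1 a1 b2 ∈ DD T D R φ s0 := hsubD'.t3 t ha1 ha1 hb2
      have hy : t3 T.𝕏 t a2 b1 b1 ∈ DD T D R φ s0 := hsubD'.t3 t ha2 hb1 hb1
      rw [hpow, E_append hok, E_append hok]
      exact ⟨_, hZE _ _ s1' ha hx, _, hZE _ _ s2' hx hy, hZE _ _ s3' hy hb⟩
    have hforth : ∀ a b,
        (a, b) ∈ T.E (DD T D R φ s0) (restr T R (DD T D R φ s0)) (pw (3 * m) (p ++ q)) →
        (a, b) ∈ T.E D R (pw m (p ++ q)) := by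
      intro a b hab
      have hab' := E_mono hD'D hR'R _ hab
      rw [hpow, E_append h, E_append h] at hab'
      obtain ⟨x, hx, y, hy, hyb⟩ := hab'
      exact heqv.trans _ _ _ hx (heqv.trans _ _ _ hy hyb)
    refine ⟨3 * m, by omega, ⟨?_, ?_, ?_, ?_⟩, ?_⟩
    · intro a b hab
      exact E_mem hok hab
    · intro a ha
      exact hback a a (heqv.refl a (hD'D ha)) ha ha
    · intro a b hab
      obtain ⟨ha, hb⟩ := E_mem hok hab
      exact hback b a (heqv.symm _ _ (hforth a b hab)) hb ha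
    · intro a b c hab hbc
      obtain ⟨ha, hb⟩ := E_mem hok hab
      obtain ⟨_, hc'⟩ := E_mem hok hbc
      exact hback a c (heqv.trans _ _ _ (hforth a b hab) (hforth b c hbc)) ha hc'
    · rintro ⟨a, b⟩ hab
      obtain ⟨ha, hb⟩ := E_mem hok hab
      exact hback a b (hsub (E_mono hD'D hR'R _ hab)) ha hb
  · -- proper
    refine ⟨hD'D, fun hle => ?_⟩
    obtain ⟨b, hb, hφb⟩ := honto s1
    have h1 := (hle hb).2 [] (by
      rintro a a' c ⟨_, h1⟩ ⟨_, h2⟩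
      have h1' : a = c := h1
      have h2' : a' = c := h2
      rw [h1', h2']) b ⟨hb, rfl⟩
    exact hs01 (h1.symm.trans hφb)

/-- **Symmetric consistency theorem.** -/
theorem sym {T : Tpl} (c₀ : T.ι) (hc₀ : ∀ i j : T.J c₀, i = j) {D : Set T.X}
    {R : ∀ c, Set (T.Y c)} (h : T.Ok D R) (hpr : T.PR D R) :
    ∃ d ∈ D, ∀ c, ∃ r ∈ R c, ∀ i, T.π c i r = d := by
  classical
  haveI := T.finX
  suffices H : ∀ n : ℕ, ∀ (D : Set T.X) (R : ∀ c, Set (T.Y c)), D.ncard = n → T.Ok D R →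
      T.PR D R → ∃ d ∈ D, ∀ c, ∃ r ∈ R c, ∀ i, T.π c i r = d from H _ D R rfl h hpr
  intro n
  induction n using Nat.strong_induction_on with
  | _ n ih =>
    intro D R hn h hpr
    -- smaller instance suffices
    have small : (∃ (D' : Set T.X) (R' : ∀ c, Set (T.Y c)), T.Ok D' R' ∧ T.PR D' R' ∧ D' ⊂ D ∧
        ∀ c, R' c ⊆ R c) → ∃ d ∈ D, ∀ c, ∃ r ∈ R c, ∀ i, T.π c i r = d := by
      rintro ⟨D', R', h1, h2, h3, h4⟩
      obtain ⟨d, hd, hd'⟩ := ih _ (hn ▸ Set.ncard_lt_ncard h3 (Set.toFinite _)) D' R' rfl h1 h2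
      exact ⟨d, h3.1 hd, fun c => (hd' c).imp fun r hr => ⟨h4 c hr.1, hr.2⟩⟩
    by_cases hnt : D.Nontrivial
    · by_cases htf : TF T.𝕏 D
      · exact small (m4 h hpr htf hnt)
      · unfold TF at htf
        push Not at htf
        obtain ⟨N, hne, hN, hND⟩ := htf
        exact small (m3 h hpr c₀ hc₀ hN hne hND)
    · have hsub : D.Subsingleton := Set.not_nontrivial_iff.1 hnt
      obtain ⟨d, hd⟩ := h.neD
      refine ⟨d, hd, fun c => ?_⟩
      obtain ⟨i⟩ := T.neJ c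
      have : d ∈ T.π c i '' R c := by rw [h.ac]; exact hd
      obtain ⟨r, hr, hr'⟩ := this
      refine ⟨r, hr, fun j => hsub ?_ hd⟩
      rw [← h.ac c j]
      exact ⟨r, hr, rfl⟩

end Pool.Agent.BWC
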