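import Pool.Agent.Lib.MP_d14a7e_al.T3A
import Pool.Agent.Lib.MP_d14a7e_al.Sym
import Pool.Agent.Lib.MP_d14a7e_al.Rho

set_option autoImplicit false
set_option linter.all false

/-! 3-absorption is a binary invariant. -/

namespace Pool.Agent.BWC

open Tpl

variable {A B : Type}

/-- large subsets of `Fin 3` and `Fin 4` (pairwise intersecting, at least two elements; of two
complementary sets one is large) -/
def Large3 (S : Set (Fin 3)) : Prop := ∃ i j, i ≠ j ∧ i ∈ S ∧ j ∈ S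
def Large4 (S : Set (Fin 4)) : Prop := (0 ∈ S ∧ ∃ j, j ≠ 0 ∧ j ∈ S) ∨ (1 ∈ S ∧ 2 ∈ S ∧ 3 ∈ S)

theorem t3_large3_inter {S S' : Set (Fin 3)} (h : Large3 S) (h' : Large3 S') :
    ∃ k, k ∈ S ∧ k ∈ S' := by
  obtain ⟨i, j, hij, hi, hj⟩ := h
  obtain ⟨i', j', hij', hi', hj'⟩ := h'
  have : i = i' ∨ i = j' ∨ j = i' ∨ j = j' := by
    revert hij hij'; clear hi hj hi' hj'
    revert i j i' j'; decide
  rcases this with rfl | rfl | rfl | rfl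
  · exact ⟨_, hi, hi'⟩
  · exact ⟨_, hi, hj'⟩
  · exact ⟨_, hj, hi'⟩
  · exact ⟨_, hj, hj'⟩

theorem t3_large3_ne {S : Set (Fin 3)} (h : Large3 S) (i : Fin 3) : ∃ k, k ∈ S ∧ k ≠ i := by
  obtain ⟨a, b, hab, ha, hb⟩ := h
  by_cases h1 : a = i
  · exact ⟨b, hb, fun h2 => hab (h1.trans h2.symm)⟩
  · exact ⟨a, ha, h1⟩

theorem t3_large3_compl {S S' : Set (Fin 3)} (h : ∀ i, i ∈ S ∨ i ∈ S') :
    Large3 S ∨ Large3 S' := by
  classical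
  by_cases h0 : (0 : Fin 3) ∈ S
  · by_cases h1 : (1 : Fin 3) ∈ S
    · exact Or.inl ⟨0, 1, by decide, h0, h1⟩
    · by_cases h2 : (2 : Fin 3) ∈ S
      · exact Or.inl ⟨0, 2, by decide, h0, h2⟩
      · exact Or.inr ⟨1, 2, by decide, (h 1).resolve_left h1, (h 2).resolve_left h2⟩
  · by_cases h1 : (1 : Fin 3) ∈ S
    · by_cases h2 : (2 : Fin 3) ∈ S
      · exact Or.inl ⟨1, 2, by decide, h1, h2⟩
      · exact Or.inr ⟨0, 2, by decide, (h 0).resolve_left h0, (h 2).resolve_left h2⟩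
    · exact Or.inr ⟨0, 1, by decide, (h 0).resolve_left h0, (h 1).resolve_left h1⟩

theorem t3_large4_inter {S S' : Set (Fin 4)} (h : Large4 S) (h' : Large4 S') :
    ∃ k, k ∈ S ∧ k ∈ S' := by
  have key : ∀ {T T' : Set (Fin 4)}, (∃ j, j ≠ 0 ∧ j ∈ T) → (1 ∈ T' ∧ 2 ∈ T' ∧ 3 ∈ T') →
      ∃ k, k ∈ T ∧ k ∈ T' := by
    rintro T T' ⟨j, hj, hjT⟩ ⟨h1, h2, h3⟩
    have : j = 1 ∨ j = 2 ∨ j = 3 := by
      revert hj; clear hjT; revert j; decide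
    rcases this with rfl | rfl | rfl
    exacts [⟨_, hjT, h1⟩, ⟨_, hjT, h2⟩, ⟨_, hjT, h3⟩]
  rcases h with ⟨h0, hj⟩ | h
  · rcases h' with ⟨h0', _⟩ | h'
    · exact ⟨0, h0, h0'⟩
    · exact key hj h'
  · rcases h' with ⟨_, hj'⟩ | h'
    · obtain ⟨k, hk, hk'⟩ := key hj' h
      exact ⟨k, hk', hk⟩
    · exact ⟨1, h.1, h'.1⟩

theorem t3_large4_ne {S : Set (Fin 4)} (h : Large4 S) (i : Fin 4) : ∃ k, k ∈ S ∧ k ≠ i := by
  rcases h with ⟨h0, j, hj, hjS⟩ | ⟨h1, h2, h3⟩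
  · by_cases hi : (0 : Fin 4) = i
    · exact ⟨j, hjS, fun e => hj (e.trans hi.symm)⟩
    · exact ⟨0, h0, hi⟩
  · by_cases hi : (1 : Fin 4) = i
    · exact ⟨2, h2, fun e => absurd (hi.trans e.symm) (by decide)⟩
    · exact ⟨1, h1, hi⟩

theorem t3_large4_compl {S S' : Set (Fin 4)} (h : ∀ i, i ∈ S ∨ i ∈ S') :
    Large4 S ∨ Large4 S' := by
  classical
  have key : ∀ {T T' : Set (Fin 4)}, (∀ i, i ∈ T ∨ i ∈ T') → (0 : Fin 4) ∈ T →
      Large4 T ∨ Large4 T' := by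
    intro T T' h h0
    by_cases hex : ∃ j : Fin 4, j ≠ 0 ∧ j ∈ T
    · exact Or.inl (Or.inl ⟨h0, hex⟩)
    · push Not at hex
      exact Or.inr (Or.inr ⟨(h 1).resolve_left (hex 1 (by decide)),
        (h 2).resolve_left (hex 2 (by decide)), (h 3).resolve_left (hex 3 (by decide))⟩)
  rcases h 0 with h0 | h0
  · exact key h h0
  · exact (key (fun i => (h i).symm) h0).symm

/-- large sets of coordinates -/
def t3Lg : ∀ c : Option Bool, Set (Fin (ary c)) → Prop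
  | none => fun _ => False
  | some false => Large3
  | some true => Large4

theorem t3Lg_inter {c : Option Bool} {S S' : Set (Fin (ary c))} (h : t3Lg c S)
    (h' : t3Lg c S') : ∃ k, k ∈ S ∧ k ∈ S' := by
  rcases c with _ | _ | _
  · exact h.elim
  · exact t3_large3_inter h h'
  · exact t3_large4_inter h h'

theorem t3Lg_ne {c : Option Bool} {S : Set (Fin (ary c))} (h : t3Lg c S)
    (i : Fin (ary c)) : ∃ k, k ∈ S ∧ k ≠ i := by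
  rcases c with _ | _ | _
  · exact h.elim
  · exact t3_large3_ne h i
  · exact t3_large4_ne h i

/-- term operations preserving `N` when the coordinates in `S` are in `N` -/
def t3NS (𝔸 : Alg A) (𝔹 : Alg B) (U N : Set B) (n : ℕ) (S : Set (Fin n)) :
    Set ((Fin n → A × B) → A × B) :=
  {h | h ∈ FT (𝔸.prod 𝔹) n ∧ ∀ z : Fin n → A × B, (∀ i, (z i).2 ∈ U) →
    (∀ i ∈ S, (z i).2 ∈ N) → (h z).2 ∈ N}

theorem t3_FT_mem {𝔸 : Alg A} {𝔹 : Alg B} {U : Set B} (hU : Sub 𝔹 U) {n : ℕ}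
    {h : (Fin n → A × B) → A × B} (hh : h ∈ FT (𝔸.prod 𝔹) n) (z : Fin n → A × B)
    (hz : ∀ i, (z i).2 ∈ U) : (h z).2 ∈ U := by
  obtain ⟨s, rfl⟩ := hh
  show (s.eval (𝔸.prod 𝔹) z).2 ∈ U
  rw [eval_prod]
  exact hU.eval s hz

theorem t3_FT_t3 (𝔸 : Alg A) (𝔹 : Alg B) (t : Tm 3) {n : ℕ}
    (x y z : (Fin n → A × B) → A × B) (u : Fin n → A × B) :
    ((t3 (Alg.pi fun _ : (Fin n → A × B) => 𝔸.prod 𝔹) t x y z) u).2 =
      t3 𝔹 t (x u).2 (y u).2 (z u).2 := by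
  rw [t3_pi, t3_prod]

theorem t3NS_abs {𝔸 : Alg A} {𝔹 : Alg B} {t : Tm 3} {U N : Set B} (hU : Sub 𝔹 U)
    (hN : AbsT 𝔹 t N U) (n : ℕ) (S : Set (Fin n)) :
    AbsT (Alg.pi fun _ : (Fin n → A × B) => 𝔸.prod 𝔹) t (t3NS 𝔸 𝔹 U N n S)
      (FT (𝔸.prod 𝔹) n) := by
  have hF := FT_sub (𝔸.prod 𝔹) n
  refine ⟨⟨?_, ?_⟩, fun h hh => hh.1, ?_, ?_, ?_⟩
  · intro x hx y hy z hz
    refine ⟨hF.1 _ hx.1 _ hy.1 _ hz.1, fun u hu hS => ?_⟩
    exact hN.1.1 _ (hx.2 u hu hS) _ (hy.2 u hu hS) _ (hz.2 u hu hS)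
  · intro x hx y hy z hz r hr
    refine ⟨hF.2 _ hx.1 _ hy.1 _ hz.1 _ hr.1, fun u hu hS => ?_⟩
    exact hN.1.2 _ (hx.2 u hu hS) _ (hy.2 u hu hS) _ (hz.2 u hu hS) _ (hr.2 u hu hS)
  · intro x hx y hy z hz
    refine ⟨hF.t3 t hx hy.1 hz.1, fun u hu hS => ?_⟩
    rw [t3_FT_t3]
    exact hN.2.2.1 _ (t3_FT_mem hU hx u hu) _ (hy.2 u hu hS) _ (hz.2 u hu hS)
  · intro x hx y hy z hz
    refine ⟨hF.t3 t hx.1 hy hz.1, fun u hu hS => ?_⟩
    rw [t3_FT_t3]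
    exact hN.2.2.2.1 _ (hx.2 u hu hS) _ (t3_FT_mem hU hy u hu) _ (hz.2 u hu hS)
  · intro x hx y hy z hz
    refine ⟨hF.t3 t hx.1 hy.1 hz, fun u hu hS => ?_⟩
    rw [t3_FT_t3]
    exact hN.2.2.2.2 _ (hx.2 u hu hS) _ (hy.2 u hu hS) _ (t3_FT_mem hU hz u hu)

theorem t3NS_var (𝔸 : Alg A) (𝔹 : Alg B) (U N : Set B) (n : ℕ) (S : Set (Fin n)) {k : Fin n}
    (hk : k ∈ S) : (fun z : Fin n → A × B => z k) ∈ t3NS 𝔸 𝔹 U N n S :=
  ⟨⟨Tm.var k, rfl⟩, fun z _ hS => hS k hk⟩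

/-- the family of absorbing sets -/
def t3b (𝔸 : Alg A) (𝔹 : Alg B) (U N : Set B) (c : Option Bool) :
    Set ((Fin (ary c) → A × B) → A × B) :=
  {h | h ∈ FT (𝔸.prod 𝔹) (ary c) ∧ ∀ S, t3Lg c S → h ∈ t3NS 𝔸 𝔹 U N (ary c) S}

theorem t3b_abs {𝔸 : Alg A} {𝔹 : Alg B} {t : Tm 3} {U N : Set B} (hU : Sub 𝔹 U)
    (hN : AbsT 𝔹 t N U) (c : Option Bool) :
    AbsT (Alg.pi fun _ : (Fin (ary c) → A × B) => 𝔸.prod 𝔹) t (t3b 𝔸 𝔹 U N c)
      (FT (𝔸.prod 𝔹) (ary c)) := by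
  have hF := FT_sub (𝔸.prod 𝔹) (ary c)
  have hS := fun S => t3NS_abs (𝔸 := 𝔸) hU hN (ary c) S
  refine ⟨⟨?_, ?_⟩, fun h hh => hh.1, ?_, ?_, ?_⟩
  · intro x hx y hy z hz
    exact ⟨hF.1 _ hx.1 _ hy.1 _ hz.1,
      fun S hl => (hS S).1.1 _ (hx.2 S hl) _ (hy.2 S hl) _ (hz.2 S hl)⟩
  · intro x hx y hy z hz r hr
    exact ⟨hF.2 _ hx.1 _ hy.1 _ hz.1 _ hr.1,
      fun S hl => (hS S).1.2 _ (hx.2 S hl) _ (hy.2 S hl) _ (hz.2 S hl) _ (hr.2 S hl)⟩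
  · intro x hx y hy z hz
    exact ⟨hF.t3 t hx hy.1 hz.1,
      fun S hl => (hS S).2.2.1 _ hx _ (hy.2 S hl) _ (hz.2 S hl)⟩
  · intro x hx y hy z hz
    exact ⟨hF.t3 t hx.1 hy hz.1,
      fun S hl => (hS S).2.2.2.1 _ (hx.2 S hl) _ hy _ (hz.2 S hl)⟩
  · intro x hx y hy z hz
    exact ⟨hF.t3 t hx.1 hy.1 hz,
      fun S hl => (hS S).2.2.2.2 _ (hx.2 S hl) _ (hy.2 S hl) _ hz⟩

theorem t3_compat [Finite A] [Finite B] {𝔸 : Alg A} {𝔹 : Alg B} (hA : IsBW 𝔸) (hB : IsBW 𝔹)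
    {t : Tm 3} {U N : Set B} (hU : Sub 𝔹 U) (hN : AbsT 𝔹 t N U) :
    (tplM (𝔸.prod 𝔹) (hA.prod hB)).Compat (FT (𝔸.prod 𝔹) 2)
      (fun c => FT (𝔸.prod 𝔹) (ary c)) (fun c => t3b 𝔸 𝔹 U N c) := by
  classical
  let T : Tpl := tplM (𝔸.prod 𝔹) (hA.prod hB)
  show T.Compat (FT (𝔸.prod 𝔹) 2)
      (fun c => FT (𝔸.prod 𝔹) (ary c)) (fun c => t3b 𝔸 𝔹 U N c)
  intro p c i c' i'
  have hok : T.Ok (FT (𝔸.prod 𝔹) 2) (fun c => FT (𝔸.prod 𝔹) (ary c)) :=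
    tplM_ok (𝔸.prod 𝔹) (hA.prod hB)
  have hE := E_sub hok p
  -- the ambient subuniverse
  let R : ∀ c : T.ι, Set (T.Y c) := fun c => FT (𝔸.prod 𝔹) (ary c)
  let P : Set (T.Y c × T.Y c') :=
    {x ∈ R c ×ˢ R c' | (T.π c i x.1, T.π c' i' x.2) ∈ T.E (FT (𝔸.prod 𝔹) 2) R p}
  have hRR : Sub ((T.𝕐 c).prod (T.𝕐 c')) (R c ×ˢ R c') := (hok.subR c).setprod (hok.subR c')
  have hP : Sub ((T.𝕐 c).prod (T.𝕐 c')) P := by
    refine hRR.preim (HomOn.pair ?_ ?_) hE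
    · exact (HomOn.fst (T.𝕐 c) (T.𝕐 c') (R c ×ˢ R c')).comp (T.hom c i) (fun _ _ => trivial)
    · exact (HomOn.snd (T.𝕐 c) (T.𝕐 c') (R c ×ˢ R c')).comp (T.hom c' i') (fun _ _ => trivial)
  -- extensions
  have extR : ∀ r ∈ R c, ∃ r' ∈ R c', (r, r') ∈ P := by
    intro r hr
    have h1 : T.π c i r ∈ FT (𝔸.prod 𝔹) 2 := by
      have := hok.ac c i
      exact this ▸ Set.mem_image_of_mem _ hr
    obtain ⟨d, hd⟩ := E_right hok p h1
    have h2 : d ∈ T.π c' i' '' R c' := by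
      rw [show T.π c' i' '' R c' = FT (𝔸.prod 𝔹) 2 from hok.ac c' i']
      exact (E_mem hok hd).2
    obtain ⟨r', hr', rfl⟩ := h2
    exact ⟨r', hr', ⟨hr, hr'⟩, hd⟩
  have extL : ∀ r' ∈ R c', ∃ r ∈ R c, (r, r') ∈ P := by
    intro r' hr'
    have h1 : T.π c' i' r' ∈ FT (𝔸.prod 𝔹) 2 := by
      have := hok.ac c' i'
      exact this ▸ Set.mem_image_of_mem _ hr'
    obtain ⟨d, hd⟩ := E_left hok p h1
    have h2 : d ∈ T.π c i '' R c := by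
      rw [show T.π c i '' R c = FT (𝔸.prod 𝔹) 2 from hok.ac c i]
      exact (E_mem hok hd).1
    obtain ⟨r, hr, rfl⟩ := h2
    exact ⟨r, hr, ⟨hr, hr'⟩, hd⟩
  -- variables
  have hvar : ∀ (c : T.ι) (k : Fin (ary c)), (fun z : Fin (ary c) → A × B => z k) ∈ R c :=
    fun c k => ⟨Tm.var k, rfl⟩
  have hpi : ∀ (c : T.ι) (i : T.J c) (k : Fin (ary c)), k ≠ i.1 →
      T.π c i (fun z : Fin (ary c) → A × B => z k) = (fun x : Fin 2 → A × B => x 0) := by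
    intro c i k hk
    funext x
    show (if k = i.1 then x 1 else x 0) = x 0
    rw [if_neg hk]
  -- the family of sets
  let NN : (Set (Fin (ary c)) ⊕ Set (Fin (ary c'))) → Set (T.Y c × T.Y c') :=
    Sum.elim (fun S => {x ∈ P | x.1 ∈ t3NS 𝔸 𝔹 U N (ary c) S})
      (fun S => {x ∈ P | x.2 ∈ t3NS 𝔸 𝔹 U N (ary c') S})
  let LL : (Set (Fin (ary c)) ⊕ Set (Fin (ary c'))) → Prop :=
    Sum.elim (fun S => t3Lg c S) (fun S => t3Lg c' S)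
  haveI : Finite (Set (Fin (ary c)) ⊕ Set (Fin (ary c'))) := inferInstance
  let K : Finset (Set (Fin (ary c)) ⊕ Set (Fin (ary c'))) := (Set.toFinite {s | LL s}).toFinset
  have hKmem : ∀ s, s ∈ K ↔ LL s := fun s => by simp [K]
  have hPne : P.Nonempty := by
    obtain ⟨r0, hr0⟩ : (R c).Nonempty := by
      have := hok.neD
      rw [← hok.ac c i] at this
      obtain ⟨_, r, hr, _⟩ := this
      exact ⟨r, hr⟩
    obtain ⟨r', _, h⟩ := extR r0 hr0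
    exact ⟨_, h⟩
  have habs : ∀ s ∈ K, AbsT ((T.𝕐 c).prod (T.𝕐 c')) t (NN s) P := by
    intro s _
    rcases s with S | S
    · exact (t3NS_abs (𝔸 := 𝔸) hU hN (ary c) S).preim hP (HomOn.fst _ _ _) (fun x hx => hx.1.1)
    · exact (t3NS_abs (𝔸 := 𝔸) hU hN (ary c') S).preim hP (HomOn.snd _ _ _) (fun x hx => hx.1.2)
  have hlr : ∀ S S', t3Lg c S → t3Lg c' S' → ∃ x ∈ P, x.1 ∈ t3NS 𝔸 𝔹 U N (ary c) S ∧
      x.2 ∈ t3NS 𝔸 𝔹 U N (ary c') S' := by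
    intro S S' h h'
    obtain ⟨k, hk, hki⟩ := t3Lg_ne h i.1
    obtain ⟨k', hk', hki'⟩ := t3Lg_ne h' i'.1
    refine ⟨(fun z => z k, fun z => z k'), ⟨⟨hvar c k, hvar c' k'⟩, ?_⟩,
      t3NS_var 𝔸 𝔹 U N _ S hk, t3NS_var 𝔸 𝔹 U N _ S' hk'⟩
    show (T.π c i (fun z => z k), T.π c' i' (fun z => z k')) ∈ _
    rw [hpi c i k hki, hpi c' i' k' hki']
    exact tplM_x0 (𝔸.prod 𝔹) (hA.prod hB) p
  have hpair : ∀ s ∈ K, ∀ s' ∈ K, (NN s ∩ NN s').Nonempty := by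
    intro s hs s' hs'
    rw [hKmem] at hs hs'
    rcases s with S | S <;> rcases s' with S' | S'
    · obtain ⟨k, hk, hk'⟩ := t3Lg_inter (show t3Lg c S from hs) (show t3Lg c S' from hs')
      obtain ⟨r', _, hP'⟩ := extR (fun z => z k) (hvar c k)
      exact ⟨_, ⟨hP', t3NS_var 𝔸 𝔹 U N _ S hk⟩, ⟨hP', t3NS_var 𝔸 𝔹 U N _ S' hk'⟩⟩
    · obtain ⟨x, hx, h1, h2⟩ := hlr S S' hs hs'
      exact ⟨x, ⟨hx, h1⟩, ⟨hx, h2⟩⟩
    · obtain ⟨x, hx, h1, h2⟩ := hlr S' S hs' hs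
      exact ⟨x, ⟨hx, h2⟩, ⟨hx, h1⟩⟩
    · obtain ⟨k, hk, hk'⟩ := t3Lg_inter (show t3Lg c' S from hs) (show t3Lg c' S' from hs')
      obtain ⟨r, _, hP'⟩ := extL (fun z => z k) (hvar c' k)
      exact ⟨_, ⟨hP', t3NS_var 𝔸 𝔹 U N _ S hk⟩, ⟨hP', t3NS_var 𝔸 𝔹 U N _ S' hk'⟩⟩
  obtain ⟨x, hxP, hx⟩ := AbsT.helly K hP hPne habs hpair
  refine ⟨x.1, ⟨hxP.1.1, fun S hS => ?_⟩, x.2, ⟨hxP.1.2, fun S hS => ?_⟩, hxP.2⟩
  · exact (hx (Sum.inl S) ((hKmem _).2 hS)).2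
  · exact (hx (Sum.inr S) ((hKmem _).2 hS)).2

/-- **Key existence.**  There are terms `p`, `q` giving a bounded width pair on `𝔸`, such that
`p(z) ∈ N` whenever `z ∈ U^3` has a large set of entries in `N`, same for `q`.
Proof: `𝕄 = 𝔸.prod 𝔹`, template `tplM 𝕄`, `D = FT 𝕄 2`, `R c = FT 𝕄 (ary c)`, `Ok`, `PR` by
`tplM_ok`, `tplM_pr`.  Let `t` be the term with `AbsT 𝔹 t N U`.  For `c = some _` and a large
`S ⊆ Fin n` put `N_S = {h ∈ R c | ∀ z : Fin n → M, (∀ i, (z i).2 ∈ U) → (∀ i ∈ S, (z i).2 ∈ N) →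
(h z).2 ∈ N}`, `b c = ⋂ N_S`, `b none = D`.  Each `N_S` is `t`-absorbing in `R c`
(`(h z).2 ∈ U` as `U` is a subuniverse), and contains the variables `z_i`, `i ∈ S`.
Compat for a word `w` and `(c,i)`, `(c',i')`: apply `AbsT.helly` in
`P = {(r,r') | r ∈ R c, r' ∈ R c', (π c i r, π c' i' r') ∈ E w}` to the sets `{r ∈ N_S}`,
`{r' ∈ N_S'}` (finite families).  Two conditions on `r`: take for `r` a variable in `S ∩ S₂` and
any `r'` (arc-consistency); one condition on each side: take variables `z_k`, `k ∈ S`, `k ≠ i`,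
and `z_k'`, `k' ∈ S'`, `k' ≠ i'`: their images under `π` are `x0`, use `tplM_x0`.
By `m3core` and `sym` (`c₀ = none`, whose coordinate set has one element) there are `d` and
`p`, `q` with all minors equal to `d`. -/
theorem exists_pair [Finite A] [Finite B] [Nonempty A] [Nonempty B] {𝔸 : Alg A} {𝔹 : Alg B}
    (hA : IsBW 𝔸) (hB : IsBW 𝔹) {U N : Set B} (hU : Sub 𝔹 U) (hN : Abs3 𝔹 N U) :
    ∃ (p : Tm 3) (q : Tm 4), IsBW (𝔸.der p q) ∧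
      (∀ z : Fin 3 → B, (∀ i, z i ∈ U) → Large3 {i | z i ∈ N} → p.eval 𝔹 z ∈ N) ∧
      (∀ z : Fin 4 → B, (∀ i, z i ∈ U) → Large4 {i | z i ∈ N} → q.eval 𝔹 z ∈ N) := by
  classical
  obtain ⟨t, ht⟩ := hN
  have hM := hA.prod hB
  have hok := tplM_ok (𝔸.prod 𝔹) hM
  have hpr := tplM_pr (𝔸.prod 𝔹) hM
  obtain ⟨D', R', hok', hpr', hsub⟩ := m3core hok hpr (t := t)
    (b := fun c => t3b 𝔸 𝔹 U N c) (fun c => t3b_abs hU ht c) (t3_compat hA hB hU ht)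
  obtain ⟨d, hd, hd'⟩ := sym (T := tplM (𝔸.prod 𝔹) hM) (none : Option Bool) (by
    intro i j
    obtain ⟨i, hi⟩ := i
    obtain ⟨j, hj⟩ := j
    apply Subtype.ext
    apply Fin.ext
    rw [show (i : ℕ) = 1 from hi rfl, show (j : ℕ) = 1 from hj rfl]) hok' hpr'
  obtain ⟨d3, hd3⟩ : ∃ d' : (Fin 2 → A × B) → A × B, d' = d := ⟨d, rfl⟩
  obtain ⟨h3, hb3, hm3⟩ : ∃ h3 : (Fin 3 → A × B) → A × B, h3 ∈ t3b 𝔸 𝔹 U N (some false) ∧
      ∀ (i : Fin 3) (x : Fin 2 → A × B), h3 (fun j => if j = i then x 1 else x 0) = d3 x := by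
    obtain ⟨h3, hh3, hm3⟩ := hd' (some false)
    refine ⟨h3, hsub _ hh3, fun i x => ?_⟩
    have h1 := hm3 ⟨i, fun h => by simp at h⟩
    rw [hd3, ← h1]
    rfl
  obtain ⟨h4, hb4, hm4⟩ : ∃ h4 : (Fin 4 → A × B) → A × B, h4 ∈ t3b 𝔸 𝔹 U N (some true) ∧
      ∀ (i : Fin 4) (x : Fin 2 → A × B), h4 (fun j => if j = i then x 1 else x 0) = d3 x := by
    obtain ⟨h4, hh4, hm4⟩ := hd' (some true)
    refine ⟨h4, hsub _ hh4, fun i x => ?_⟩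
    have h1 := hm4 ⟨i, fun h => by simp at h⟩
    rw [hd3, ← h1]
    rfl
  obtain ⟨p, hp⟩ : ∃ p : Tm 3, (fun x : Fin 3 → A × B => p.eval (𝔸.prod 𝔹) x) = h3 := hb3.1
  obtain ⟨q, hq⟩ : ∃ q : Tm 4, (fun x : Fin 4 → A × B => q.eval (𝔸.prod 𝔹) x) = h4 := hb4.1
  obtain ⟨b0⟩ := ‹Nonempty B›
  obtain ⟨a0⟩ := ‹Nonempty A›
  -- minors
  have m3 : ∀ (i : Fin 3) (x y : A), p.eval 𝔸 (fun j => if j = i then y else x) =
      (d3 ![(x, b0), (y, b0)]).1 := by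
    intro i x y
    have h2 : h3 (fun j => if j = i then (y, b0) else (x, b0)) = d3 ![(x, b0), (y, b0)] :=
      hm3 i ![(x, b0), (y, b0)]
    rw [← h2, ← hp]
    show _ = (p.eval (𝔸.prod 𝔹) _).1
    rw [eval_prod]
    show _ = p.eval 𝔸 _
    congr 1
    funext j
    split_ifs <;> rfl
  have m4 : ∀ (i : Fin 4) (x y : A), q.eval 𝔸 (fun j => if j = i then y else x) =
      (d3 ![(x, b0), (y, b0)]).1 := by
    intro i x y
    have h2 : h4 (fun j => if j = i then (y, b0) else (x, b0)) = d3 ![(x, b0), (y, b0)] :=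
      hm4 i ![(x, b0), (y, b0)]
    rw [← h2, ← hq]
    show _ = (q.eval (𝔸.prod 𝔹) _).1
    rw [eval_prod]
    show _ = q.eval 𝔸 _
    congr 1
    funext j
    split_ifs <;> rfl
  have e30 : ∀ x y : A, t3 𝔸 p y x x = (d3 ![(x, b0), (y, b0)]).1 := by
    intro x y
    rw [← m3 0, eval_fin3]; rfl
  have e31 : ∀ x y : A, t3 𝔸 p x y x = (d3 ![(x, b0), (y, b0)]).1 := by
    intro x y
    rw [← m3 1, eval_fin3]; rfl
  have e32 : ∀ x y : A, t3 𝔸 p x x y = (d3 ![(x, b0), (y, b0)]).1 := by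
    intro x y
    rw [← m3 2, eval_fin3]; rfl
  have e40 : ∀ x y : A, t4 𝔸 q y x x x = (d3 ![(x, b0), (y, b0)]).1 := by
    intro x y
    rw [← m4 0, eval_fin4]; rfl
  have e41 : ∀ x y : A, t4 𝔸 q x y x x = (d3 ![(x, b0), (y, b0)]).1 := by
    intro x y
    rw [← m4 1, eval_fin4]; rfl
  have e42 : ∀ x y : A, t4 𝔸 q x x y x = (d3 ![(x, b0), (y, b0)]).1 := by
    intro x y
    rw [← m4 2, eval_fin4]; rfl
  have e43 : ∀ x y : A, t4 𝔸 q x x x y = (d3 ![(x, b0), (y, b0)]).1 := by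
    intro x y
    rw [← m4 3, eval_fin4]; rfl
  refine ⟨p, q, ?_, ?_, ?_⟩
  · exact {
      vi := fun a => t3_idem hA p a
      wi := fun a => t4_idem hA q a
      v0 := fun x y => by
        show t3 𝔸 p y x x = t3 𝔸 p x x y
        rw [e30, e32]
      v1 := fun x y => by
        show t3 𝔸 p x y x = t3 𝔸 p x x y
        rw [e31, e32]
      w0 := fun x y => by
        show t4 𝔸 q y x x x = t3 𝔸 p x x y
        rw [e40, e32]
      w1 := fun x y => by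
        show t4 𝔸 q x y x x = t3 𝔸 p x x y
        rw [e41, e32]
      w2 := fun x y => by
        show t4 𝔸 q x x y x = t3 𝔸 p x x y
        rw [e42, e32]
      w3 := fun x y => by
        show t4 𝔸 q x x x y = t3 𝔸 p x x y
        rw [e43, e32] }
  · intro z hz hL
    have h1 := (hb3.2 {i | z i ∈ N} hL).2 (fun i => (a0, z i)) hz (fun i hi => hi)
    rw [← hp] at h1
    have h2 : (p.eval (𝔸.prod 𝔹) (fun i => (a0, z i))).2 ∈ N := h1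
    rw [eval_prod] at h2
    exact h2
  · intro z hz hL
    have h1 := (hb4.2 {i | z i ∈ N} hL).2 (fun i => (a0, z i)) hz (fun i hi => hi)
    rw [← hq] at h1
    have h2 : (q.eval (𝔸.prod 𝔹) (fun i => (a0, z i))).2 ∈ N := h1
    rw [eval_prod] at h2
    exact h2

/-- **T3.**  If `N` 3-absorbs `U` then `rho U N` is a subuniverse.  From `exists_pair`: `p` and `q`
preserve `rho U N` (of the two sets of positions, first coordinates in `N`, second coordinates in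
`N`, whose union is everything, one is large), then `sub_of_der` for `𝔹.prod 𝔹`. -/
theorem t3_inv [Finite A] [Finite B] [Nonempty A] {𝔸 : Alg A} {𝔹 : Alg B}
    (h : MinBW 𝔸) (hs : Sat 𝔸 𝔹) {U N : Set B} (hU : Sub 𝔹 U) (hN : Abs3 𝔹 N U) :
    Sub (𝔹.prod 𝔹) (rho U N) := by
  classical
  rcases isEmpty_or_nonempty B with hE | hne
  · exact ⟨fun x => (hE.false x.1).elim, fun x => (hE.false x.1).elim⟩
  have hA := h.1
  have hB := hs.isBW hA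
  obtain ⟨p, q, hbw, hp, hq⟩ := exists_pair (𝔸 := 𝔸) hA hB hU hN
  have key3 : ∀ x ∈ rho U N, ∀ y ∈ rho U N, ∀ z ∈ rho U N,
      t3 (𝔹.prod 𝔹) p x y z ∈ rho U N := by
    intro x hx y hy z hz
    rw [t3_prod]
    refine ⟨hU.t3 p hx.1 hy.1 hz.1, hU.t3 p hx.2.1 hy.2.1 hz.2.1, ?_⟩
    have hl := t3_large3_compl (S := {i | (![x, y, z] i).1 ∈ N})
      (S' := {i | (![x, y, z] i).2 ∈ N}) (by
        intro i; fin_cases i
        exacts [hx.2.2, hy.2.2, hz.2.2])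
    rcases hl with hl | hl
    · left
      have h1 := hp (fun i => (![x, y, z] i).1) (by
        intro i; fin_cases i
        exacts [hx.1, hy.1, hz.1]) hl
      rw [eval_fin3] at h1
      exact h1
    · right
      have h1 := hp (fun i => (![x, y, z] i).2) (by
        intro i; fin_cases i
        exacts [hx.2.1, hy.2.1, hz.2.1]) hl
      rw [eval_fin3] at h1
      exact h1
  have key4 : ∀ x ∈ rho U N, ∀ y ∈ rho U N, ∀ z ∈ rho U N, ∀ u ∈ rho U N,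
      t4 (𝔹.prod 𝔹) q x y z u ∈ rho U N := by
    intro x hx y hy z hz u hu
    rw [t4_prod]
    refine ⟨hU.t4 q hx.1 hy.1 hz.1 hu.1, hU.t4 q hx.2.1 hy.2.1 hz.2.1 hu.2.1, ?_⟩
    have hl := t3_large4_compl (S := {i | (![x, y, z, u] i).1 ∈ N})
      (S' := {i | (![x, y, z, u] i).2 ∈ N}) (by
        intro i; fin_cases i
        exacts [hx.2.2, hy.2.2, hz.2.2, hu.2.2])
    rcases hl with hl | hl
    · left
      have h1 := hq (fun i => (![x, y, z, u] i).1) (by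
        intro i; fin_cases i
        exacts [hx.1, hy.1, hz.1, hu.1]) hl
      rw [eval_fin4] at h1
      exact h1
    · right
      have h1 := hq (fun i => (![x, y, z, u] i).2) (by
        intro i; fin_cases i
        exacts [hx.2.1, hy.2.1, hz.2.1, hu.2.1]) hl
      rw [eval_fin4] at h1
      exact h1
  exact sub_of_der h (hs.prod hs) hbw ⟨key3, key4⟩

theorem abs3_iff [Finite A] [Finite B] [Nonempty A] {𝔸 : Alg A} {𝔹 : Alg B}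
    (h : MinBW 𝔸) (hs : Sat 𝔸 𝔹) {U N : Set B} (hU : Sub 𝔹 U) (hNU : N ⊆ U) :
    Abs3 𝔹 N U ↔ Sub (𝔹.prod 𝔹) (rho U N) :=
  ⟨fun hN => t3_inv h hs hU hN, fun hN => rho_abs3 (hs.isBW h.1) hU hNU hN⟩

theorem abs_v [Finite A] [Finite B] [Nonempty A] {𝔸 : Alg A} {𝔹 : Alg B}
    (h : MinBW 𝔸) (hs : Sat 𝔸 𝔹) {U N : Set B} (hU : Sub 𝔹 U) (hN : Abs3 𝔹 N U) :
    AbsT 𝔹 vT N U ∨ Abs2 𝔹 N U :=
  rho_abs (hs.isBW h.1) hU hN.subset (t3_inv h hs hU hN)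

end Pool.Agent.BWC
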