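import Pool.Agent.Lib.MP_d14a7e_al.PHA
import Pool.Agent.Lib.MP_d14a7e_al.IT
import Pool.Agent.Lib.MP_d14a7e_al.T3

set_option autoImplicit false
set_option linter.all false

/-! The PH lemma and upward directedness of absorbing relations. -/

namespace Pool.Agent.BWC

variable {A : Type}

theorem reachIn_mono {B : Type} {𝔹 : Alg B} {U V : Set B} (hUV : U ⊆ V) {a b : B}
    (h : ReachIn 𝔹 U a b) : ReachIn 𝔹 V a b := by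
  induction h with
  | refl => exact Relation.ReflTransGen.refl
  | tail _ h2 ih => exact ih.tail ⟨h2.1, hUV h2.2.1, hUV h2.2.2⟩

/-- moving the first coordinate -/
theorem reach_left [Finite A] {𝔸 : Alg A} (h : MinBW 𝔸) {P : Set (A × A)} {G : Set A}
    {a b c : A} (hab : ReachIn 𝔸 G a b) (hP : ∀ z, ReachIn 𝔸 G a z → (z, c) ∈ P) :
    ReachIn (𝔸.prod 𝔸) P (a, c) (b, c) := by
  induction hab with
  | refl => exact Relation.ReflTransGen.refl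
  | tail h1 h2 ih =>
    refine ih.tail ⟨?_, hP _ h1, hP _ (h1.tail h2)⟩
    exact (edge_prod h (Sat.refl 𝔸) (Sat.refl 𝔸)).2 ⟨h2.1, edge_refl h.1 _⟩

theorem reach_right [Finite A] {𝔸 : Alg A} (h : MinBW 𝔸) {P : Set (A × A)} {G : Set A}
    {a b c : A} (hab : ReachIn 𝔸 G a b) (hP : ∀ z, ReachIn 𝔸 G a z → (c, z) ∈ P) :
    ReachIn (𝔸.prod 𝔸) P (c, a) (c, b) := by
  induction hab with
  | refl => exact Relation.ReflTransGen.refl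
  | tail h1 h2 ih =>
    refine ih.tail ⟨?_, hP _ h1, hP _ (h1.tail h2)⟩
    exact (edge_prod h (Sat.refl 𝔸) (Sat.refl 𝔸)).2 ⟨edge_refl h.1 _, h2.1⟩

theorem ph_core [Finite A] [Nonempty A] {𝔸 : Alg A} (h : MinBW 𝔸) {P Q : Set (A × A)}
    (hP : Sub (𝔸.prod 𝔸) P) (hQ : AbsT (𝔸.prod 𝔸) vT Q P) {x y α β : A}
    (hxy : (x, y) ∈ P) (hβ : (x, β) ∈ Q) (hα : (α, y) ∈ Q)
    (hno : ∀ q ∈ Q, ¬ ReachIn (𝔸.prod 𝔸) P (x, y) q)
    (hmin : ∀ x' y' α' β', ReachIn (𝔸.prod 𝔸) P (x, y) (x', y') → (x', β') ∈ Q →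
      (α', y') ∈ Q → (Sg 𝔸 {x, α}).ncard + (Sg 𝔸 {y, β}).ncard ≤
        (Sg 𝔸 {x', α'}).ncard + (Sg 𝔸 {y', β'}).ncard) : False := by
  have hS : Sat 𝔸 𝔸 := Sat.refl 𝔸
  have hS2 : Sat 𝔸 (𝔸.prod 𝔸) := hS.prod hS
  have hbw := h.1
  set 𝔹 := 𝔸.prod 𝔸 with h𝔹
  set G1 := Sg 𝔸 {x, α} with hG1
  set G2 := Sg 𝔸 {y, β} with hG2
  have hsG1 : Sub 𝔸 G1 := Sg_sub _ _
  have hsG2 : Sub 𝔸 G2 := Sg_sub _ _
  set P0 := Sg 𝔹 {(x, y), (x, β), (α, y)} with hP0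
  have hsP0 : Sub 𝔹 P0 := Sg_sub _ _
  have hxy0 : (x, y) ∈ P0 := subset_Sg _ _ (by simp)
  have hxβ0 : (x, β) ∈ P0 := subset_Sg _ _ (by simp)
  have hαy0 : (α, y) ∈ P0 := subset_Sg _ _ (by simp)
  have hP0P : P0 ⊆ P := by
    refine Sg_min hP ?_
    rintro p (rfl | rfl | rfl)
    · exact hxy
    · exact hQ.subset hβ
    · exact hQ.subset hα
  have hP0G : P0 ⊆ G1 ×ˢ G2 := by
    refine Sg_min (hsG1.setprod hsG2) ?_
    have e1 : x ∈ G1 := subset_Sg _ _ (by simp)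
    have e2 : α ∈ G1 := subset_Sg _ _ (by simp)
    have e3 : y ∈ G2 := subset_Sg _ _ (by simp)
    have e4 : β ∈ G2 := subset_Sg _ _ (by simp)
    rintro p (rfl | rfl | rfl)
    · exact ⟨e1, e3⟩
    · exact ⟨e1, e4⟩
    · exact ⟨e2, e3⟩
  have hdom : Prod.fst '' P0 = G1 := by
    apply Set.Subset.antisymm
    · rintro _ ⟨p, hp, rfl⟩; exact (hP0G hp).1
    · refine Sg_min (hsP0.image (HomOn.fst _ _ _)) ?_
      rintro a (rfl | rfl)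
      · exact ⟨_, hxy0, rfl⟩
      · exact ⟨_, hαy0, rfl⟩
  have hcod : Prod.snd '' P0 = G2 := by
    apply Set.Subset.antisymm
    · rintro _ ⟨p, hp, rfl⟩; exact (hP0G hp).2
    · refine Sg_min (hsP0.image (HomOn.snd _ _ _)) ?_
      rintro a (rfl | rfl)
      · exact ⟨_, hxy0, rfl⟩
      · exact ⟨_, hxβ0, rfl⟩
  set Q0 := Q ∩ P0 with hQ0
  have hQ0' : AbsT 𝔹 vT Q0 P0 := hQ.restrict hsP0 hP0P
  have hup0 : UpIn 𝔹 Q0 P0 := fun a ha b hb he => hQ0'.up h hS2 ha hb he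
  -- lifting
  have L1 : ∀ z w, ReachIn 𝔹 P0 (x, y) (z, w) → ∃ α' β', (z, β') ∈ Q0 ∧ (α', w) ∈ Q0 ∧
      Sg 𝔸 {z, α'} = G1 ∧ Sg 𝔸 {w, β'} = G2 := by
    intro z w hzw
    have hzw0 : (z, w) ∈ P0 := hzw.mem hxy0
    have r1 : ReachIn 𝔸 (Prod.fst '' P0) x z := by
      have := ReachIn.image hsP0 (HomOn.fst 𝔸 𝔸 P0) hzw
      exact this
    have r2 : ReachIn 𝔸 (Prod.snd '' P0) y w := by
      have := ReachIn.image hsP0 (HomOn.snd 𝔸 𝔸 P0) hzw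
      exact this
    obtain ⟨⟨z', β'⟩, h1, h2, h3⟩ :=
      ReachIn.lift h hS2 hS hsP0 (HomOn.fst 𝔸 𝔸 P0) (r := (x, β)) hxβ0 r1
    obtain rfl : z' = z := h3
    obtain ⟨⟨α', w'⟩, h4, h5, h6⟩ :=
      ReachIn.lift h hS2 hS hsP0 (HomOn.snd 𝔸 𝔸 P0) (r := (α, y)) hαy0 r2
    obtain rfl : w' = w := h6
    have h7 : (z', β') ∈ Q0 := hup0.reach h2 ⟨hβ, hxβ0⟩
    have h8 : (α', w') ∈ Q0 := hup0.reach h5 ⟨hα, hαy0⟩
    have s1 : Sg 𝔸 {z', α'} ⊆ G1 := by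
      refine Sg_min hsG1 ?_
      rintro a (rfl | rfl)
      · exact (hP0G hzw0).1
      · exact (hP0G h4).1
    have s2 : Sg 𝔸 {w', β'} ⊆ G2 := by
      refine Sg_min hsG2 ?_
      rintro a (rfl | rfl)
      · exact (hP0G hzw0).2
      · exact (hP0G h1).2
    have m := hmin z' w' α' β' (reachIn_mono hP0P hzw) h7.1 h8.1
    have c1 := Set.ncard_le_ncard s1 (Set.toFinite _)
    have c2 := Set.ncard_le_ncard s2 (Set.toFinite _)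
    refine ⟨α', β', h7, h8, ?_, ?_⟩
    · exact Set.eq_of_subset_of_ncard_le s1 (by omega) (Set.toFinite _)
    · exact Set.eq_of_subset_of_ncard_le s2 (by omega) (Set.toFinite _)
  have L2 : ∀ z w, ReachIn 𝔹 P0 (x, y) (z, w) → ∀ g ∈ G2, (z, g) ∈ P0 := by
    intro z w hzw g hg
    obtain ⟨α', β', h1, h2, h3, h4⟩ := L1 z w hzw
    have hzw0 : (z, w) ∈ P0 := hzw.mem hxy0
    rw [← h4] at hg
    have hsub : Sub 𝔸 (img P0 {z}) := hsP0.img (Sub.singleton hbw z)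
    have := Sg_min (S := {w, β'}) hsub (by
      rintro a (rfl | rfl)
      · exact ⟨z, rfl, hzw0⟩
      · exact ⟨z, rfl, h1.2⟩) hg
    obtain ⟨z', hz', hz''⟩ := this
    obtain rfl : z' = z := hz'
    exact hz''
  have L2' : ∀ z w, ReachIn 𝔹 P0 (x, y) (z, w) → ∀ g ∈ G1, (g, w) ∈ P0 := by
    intro z w hzw g hg
    obtain ⟨α', β', h1, h2, h3, h4⟩ := L1 z w hzw
    have hzw0 : (z, w) ∈ P0 := hzw.mem hxy0
    rw [← h3] at hg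
    have hsub : Sub 𝔸 (img (inv P0) {w}) := hsP0.inv.img (Sub.singleton hbw w)
    have := Sg_min (S := {z, α'}) hsub (by
      rintro a (rfl | rfl)
      · exact ⟨w, rfl, hzw0⟩
      · exact ⟨w, rfl, h2.2⟩) hg
    obtain ⟨z', hz', hz''⟩ := this
    obtain rfl : z' = w := hz'
    exact hz''
  obtain ⟨⟨x', y'⟩, hrec, hr0⟩ := exists_rec (𝔹 := 𝔹) hxy0
  have hx'r : x' ∈ Rec 𝔸 G1 := by
    have := Rec.image h hS2 hS hsP0 (HomOn.fst 𝔸 𝔸 P0) hrec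
    rwa [hdom] at this
  have hy'r : y' ∈ Rec 𝔸 G2 := by
    have := Rec.image h hS2 hS hsP0 (HomOn.snd 𝔸 𝔸 P0) hrec
    rwa [hcod] at this
  have L3 : ∀ z, ReachIn 𝔸 G1 x' z → ∀ g ∈ G2, (z, g) ∈ P0 := by
    intro z hz
    rw [← hdom] at hz
    obtain ⟨⟨z', w⟩, h1, h2, h3⟩ :=
      ReachIn.lift h hS2 hS hsP0 (HomOn.fst 𝔸 𝔸 P0) (r := (x', y')) hrec.1 hz
    obtain rfl : z' = z := h3
    exact L2 _ _ (hr0.trans h2)
  have L3' : ∀ w, ReachIn 𝔸 G2 y' w → ∀ g ∈ G1, (g, w) ∈ P0 := by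
    intro w hw
    rw [← hcod] at hw
    obtain ⟨⟨z, w'⟩, h1, h2, h3⟩ :=
      ReachIn.lift h hS2 hS hsP0 (HomOn.snd 𝔸 𝔸 P0) (r := (x', y')) hrec.1 hw
    obtain rfl : w' = w := h3
    exact L2' _ _ (hr0.trans h2)
  -- reachability of κ₁ × κ₂
  have L4 : ∀ z w, ReachIn 𝔸 G1 x' z → ReachIn 𝔸 G2 y' w → ReachIn 𝔹 P0 (x', y') (z, w) := by
    intro z w hz hw
    have r1 : ReachIn 𝔹 P0 (x', y') (z, y') :=
      reach_left h hz (fun u hu => L3 u hu y' hy'r.1)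
    have r2 : ReachIn 𝔹 P0 (z, y') (z, w) :=
      reach_right h hw (fun u hu => L3 z hz u (hu.mem hy'r.1))
    exact r1.trans r2
  -- constancy
  have C1 : ∀ g ∈ G1, ∀ w, ReachIn 𝔸 G2 y' w → (g, y') ∈ Q0 → (g, w) ∈ Q0 := by
    intro g hg w hw hgy
    exact hup0.reach (reach_right h hw (fun u hu => L3' u hu g hg)) hgy
  have C2 : ∀ g ∈ G2, ∀ z, ReachIn 𝔸 G1 x' z → (x', g) ∈ Q0 → (z, g) ∈ Q0 := by
    intro g hg w hw hgy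
    exact hup0.reach (reach_left h hw (fun u hu => L3 u hu g hg)) hgy
  have C2' : ∀ g ∈ G2, ∀ z, ReachIn 𝔸 G1 x' z → (z, g) ∈ Q0 → (x', g) ∈ Q0 := by
    intro g hg z hz hgy
    have hback : ReachIn 𝔸 G1 z x' := hx'r.2 z hz
    exact hup0.reach (reach_left h hback (fun u hu => L3 u (hz.trans hu) g hg)) hgy
  obtain ⟨α', β', hβ', hα', hg1, hg2⟩ := L1 x' y' hr0
  have hβ'G : β' ∈ G2 := (hP0G hβ'.2).2
  have hα'G : α' ∈ G1 := (hP0G hα'.2).1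
  -- N₂
  let N2 : Set A := {g | g ∈ G2 ∧ (x', g) ∈ Q0}
  have hN2 : AbsT 𝔸 vT N2 G2 := by
    refine AbsT.preim (f := fun g => (x', g)) hsG2 ?_ (fun g hg => L3 x' Relation.ReflTransGen.refl g hg) hQ0'
    exact ⟨fun a ha b hb c hc => Prod.ext (hbw.vi x').symm rfl,
      fun a ha b hb c hc d hd => Prod.ext (hbw.wi x').symm rfl⟩
  have hβN2 : β' ∈ N2 := ⟨hβ'G, hβ'⟩
  have hdis : ∀ g, ReachIn 𝔸 G2 y' g → g ∉ N2 := by
    intro g hg hgN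
    exact hno _ hgN.2.1 (reachIn_mono hP0P (hr0.trans (L4 x' g Relation.ReflTransGen.refl hg)))
  have hgen : ∀ g, ReachIn 𝔸 G2 y' g → ∀ n ∈ N2, Sg 𝔸 {g, n} = G2 := by
    intro g hg n hn
    have m := hmin x' g α' n
      (reachIn_mono hP0P (hr0.trans (L4 x' g Relation.ReflTransGen.refl hg))) hn.2.1
      (C1 α' hα'G g hg hα').1
    have s1 : Sg 𝔸 {x', α'} ⊆ G1 := hg1.subset
    have s2 : Sg 𝔸 {g, n} ⊆ G2 := by
      refine Sg_min hsG2 ?_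
      rintro a (rfl | rfl)
      · exact hg.mem hy'r.1
      · exact hn.1
    have c1 := Set.ncard_le_ncard s1 (Set.toFinite _)
    have c2 := Set.ncard_le_ncard s2 (Set.toFinite _)
    exact Set.eq_of_subset_of_ncard_le s2 (by omega) (Set.toFinite _)
  obtain ⟨N', hN', hκN', hN'ne⟩ := ph_claim h hsG2 hy'r ⟨vT, hN2⟩ ⟨β', hβN2⟩ hdis hgen
  have hyN' : y' ∈ N' := hκN' y' Relation.ReflTransGen.refl
  have hdisj : ∀ m ∈ N2, m ∉ N' := by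
    intro m hm hm'
    apply hN'ne
    apply Set.Subset.antisymm hN'.subset
    rw [← hgen y' Relation.ReflTransGen.refl m hm]
    refine Sg_min hN'.sub ?_
    rintro a (rfl | rfl)
    · exact hyN'
    · exact hm'
  have hvN' : AbsT 𝔸 vT N' G2 := by
    rcases abs_v h hS hsG2 hN' with h1 | h1
    · exact h1
    · exfalso
      obtain ⟨b, hb, he⟩ := abs2_edge h hS hsG2 h1 ⟨y', hyN'⟩ hβ'G
      exact hdisj b (hN2.up h hS hβN2 (hN'.subset hb) he) hb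
  let G : Set (A × A) := {X | X ∈ Q0 ∧ X.2 ∈ N'}
  obtain ⟨X, hX, hedge⟩ := it_lemma h hS2 hS hsP0 (HomOn.fst 𝔸 𝔸 P0) (P := (x', y'))
    (Q := (x', β')) hrec.1 hβ'.2 rfl (G := G) (fun X hX => hX.1.2) ⟨(α', y'), hα', hyN'⟩
    (by
      rintro X ⟨hX1, hX2⟩
      refine ⟨?_, ?_⟩
      · have := hQ0'.2.2.1 (x', y') hrec.1 (x', β') hβ' X hX1
        rwa [t3_vT] at this
      · have := hvN'.2.2.2.1 y' hyN' β' hβ'G X.2 hX2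
        rw [t3_vT] at this
        exact this)
    (by
      rintro X ⟨hX1, hX2⟩ Y ⟨hY1, hY2⟩
      exact ⟨hQ0'.sub.1 _ hX1 _ hX1 _ hY1, hN'.sub.1 _ hX2 _ hX2 _ hY2⟩)
    (by
      rintro X ⟨hX1, hX2⟩
      refine ⟨?_, hN'.sub.1 _ hX2 _ hX2 _ hyN'⟩
      have := hQ0'.2.2.2.2 X hX1 X hX1 (x', y') hrec.1
      rwa [t3_vT] at this)
  have hX1 : X.1 ∈ G1 := (hP0G hX.1.2).1
  have hX2 : X.2 ∈ G2 := (hP0G hX.1.2).2
  have hreach : ReachIn 𝔸 G1 x' X.1 :=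
    Relation.ReflTransGen.single ⟨hedge, hx'r.1, hX1⟩
  exact hdisj X.2 ⟨hX2, C2' X.2 hX2 X.1 hreach hX.1⟩ hX.2

/-- **PH lemma.**  `Q` 3-absorbs `P ≤ A²`, `(x,y)` recurrent in `P`, `(x,β), (α,y) ∈ Q`.
Then an element of `Q` is reachable from `(x,y)` in `P`.
Proof.  Let `κ` be the sink class of `(x,y)` in `P`; suppose `Q ∩ κ = ∅`.
If `Q` 2-absorbs `P` then `(x,y)` has an edge into `Q` (`abs2_edge`), contradiction; so by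
`abs_v` `v` absorbs `Q` in `P`.
Choose `(x,y) ∈ κ`, `α`, `β` with `(x,β), (α,y) ∈ Q` and `|Sg{x,α}| + |Sg{y,β}|` minimal; call
the minimum `μ`.  `G₁ = Sg{x,α}`, `G₂ = Sg{y,β}`, `P₀ = Sg{(x,y),(x,β),(α,y)} ⊆ P`,
`Q₀ = Q ∩ P₀`, 3-absorbing `P₀`, `dom P₀ = G₁`, `cod P₀ = G₂`.
Let `(x',y')` be recurrent in `P₀`, reachable from `(x,y)` in `P₀`; it is in `κ`.
For every `(z,w) ∈ P₀` reachable from `(x,y)` in `P₀`: lifting the path `x ⇝ z` to `P₀` starting at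
`(x,β)` gives `(z,β') ∈ Q₀` (`Q₀` is up-closed), lifting `y ⇝ w` starting at `(α,y)` gives
`(α',w) ∈ Q₀`; by minimality `Sg{z,α'} = G₁`, `Sg{w,β'} = G₂` (as subsets of `G₁`, `G₂`).
So `{z} × G₂ ⊆ P₀` (it contains `(z,w), (z,β')`) and `G₁ × {w} ⊆ P₀`.
Let `κ₁`, `κ₂` be the sink classes of `x'` in `G₁`, of `y'` in `G₂` (`Rec.image`).
Each `z ∈ κ₁` is the first coordinate of some `(z,w)` reachable from `(x',y')` in `P₀`
(`ReachIn.lift`), so `κ₁ × G₂ ⊆ P₀`, similarly `G₁ × κ₂ ⊆ P₀`; and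
`κ₁ × κ₂` is contained in the class of `(x',y')` in `P₀`, hence in `κ`.
`N₁ = {g ∈ G₁ | (g,w) ∈ Q₀}` does not depend on `w ∈ κ₂`: `(g,w) → (g,w')` is an edge of `P₀` for an
edge `w → w'`, and `Q₀` is up-closed.  `N₁` 3-absorbs `G₁`, `α' ∈ N₁`,
`N₁ ∩ κ₁ = ∅`.  Similarly `N₂ = {g ∈ G₂ | (z,g) ∈ Q₀}`, `z ∈ κ₁`.
Minimality: for `g ∈ κ₁`, `n ∈ N₁`, `w ∈ κ₂`, `m ∈ N₂`: `(g,w) ∈ κ`, `(g,m), (n,w) ∈ Q`, so
`Sg{g,n} = G₁`, `Sg{w,m} = G₂`.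
By `ph_claim` there are proper 3-absorbing `N₁' ⊇ κ₁` of `G₁` and `N₂' ⊇ κ₂` of `G₂`.
`N₂' ∩ N₂ = ∅` (else `N₂'` contains `w ∈ κ₂` and `m ∈ N₂`, so it is `G₂`).
`v` absorbs `N₂'` in `G₂`: otherwise `N₂'` 2-absorbs `G₂` (`abs_v`), then `m ∈ N₂` has an edge into
`N₂'`, but `N₂` is up-closed.
`it_lemma` with `R = P₀`, `g = Prod.fst`, `P = (x',y')`, `Q = (x',β')` (`(x',β') ∈ Q₀`),
`G = {X ∈ Q₀ | X.2 ∈ N₂'}`, nonempty as `(α',y') ∈ G`:  `v P Q X`: in `Q₀` as `Q, X ∈ Q₀`;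
second coordinate in `N₂'` as `y', X.2 ∈ N₂'`;  `v X X P`: fine.
So there is `X ∈ G` with an edge `x' → X.1`; then `X.1 ∈ κ₁`, `X.2 ∈ N₂ ∩ N₂'`, contradiction. -/
theorem ph_lemma [Finite A] [Nonempty A] {𝔸 : Alg A} (h : MinBW 𝔸) {P Q : Set (A × A)}
    (hP : Sub (𝔸.prod 𝔸) P) (hQ : Abs3 (𝔸.prod 𝔸) Q P) {x y α β : A}
    (hxy : (x, y) ∈ Rec (𝔸.prod 𝔸) P) (hβ : (x, β) ∈ Q) (hα : (α, y) ∈ Q) :
    ∃ q ∈ Q, ReachIn (𝔸.prod 𝔸) P (x, y) q := by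
  have hS : Sat 𝔸 𝔸 := Sat.refl 𝔸
  have hS2 : Sat 𝔸 (𝔸.prod 𝔸) := hS.prod hS
  by_contra hcon
  push Not at hcon
  have hno : ∀ q ∈ Q, ¬ ReachIn (𝔸.prod 𝔸) P (x, y) q := hcon
  have hv : AbsT (𝔸.prod 𝔸) vT Q P := by
    rcases abs_v h hS2 hP hQ with h1 | h1
    · exact h1
    · exfalso
      obtain ⟨b, hb, he⟩ := abs2_edge h hS2 hP h1 ⟨_, hβ⟩ hxy.1
      exact hno b hb (Relation.ReflTransGen.single ⟨he, hxy.1, hQ.subset hb⟩)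
  -- minimal choice
  let μ : (A × A) × (A × A) → ℕ := fun t =>
    (Sg 𝔸 {t.1.1, t.2.1}).ncard + (Sg 𝔸 {t.1.2, t.2.2}).ncard
  let S : Set ((A × A) × (A × A)) := {t | ReachIn (𝔸.prod 𝔸) P (x, y) t.1 ∧
    (t.1.1, t.2.2) ∈ Q ∧ (t.2.1, t.1.2) ∈ Q}
  have hSne : S.Nonempty := ⟨((x, y), (α, β)), Relation.ReflTransGen.refl, hβ, hα⟩
  obtain ⟨t, ht, htmin⟩ := Set.exists_min_image S μ (Set.toFinite _) hSne
  obtain ⟨⟨x1, y1⟩, ⟨α1, β1⟩⟩ := t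
  obtain ⟨h1, h2, h3⟩ := ht
  have h1' : ReachIn (𝔸.prod 𝔸) P (x, y) (x1, y1) := h1
  exact ph_core h hP hv (h1'.mem hxy.1) h2 h3 (fun q hq hr => hno q hq (h1'.trans hr))
    (fun x' y' α' β' hr hb ha =>
      htmin ((x', y'), (α', β')) ⟨h1'.trans hr, hb, ha⟩)


/-- 3-absorbing with full projections implies up-closed and containing all recurrent pairs, so
it contains `MM P` -/
theorem ud [Finite A] [Nonempty A] {𝔸 : Alg A} (h : MinBW 𝔸) {P Q : Set (A × A)}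
    (hP : Sub (𝔸.prod 𝔸) P) (hQ : Abs3 (𝔸.prod 𝔸) Q P) (h1 : dom Q = dom P)
    (h2 : cod Q = cod P) : MM (𝔸.prod 𝔸) P ⊆ Q := by
  have hS : Sat 𝔸 𝔸 := Sat.refl 𝔸
  have hS2 : Sat 𝔸 (𝔸.prod 𝔸) := hS.prod hS
  have hup : UpIn (𝔸.prod 𝔸) Q P := fun a ha b hb he => hQ.up h hS2 ha hb he
  refine MM_min hQ.sub hQ.subset hup ?_
  rintro ⟨x, y⟩ hxy
  have hx : x ∈ dom Q := by rw [h1]; exact ⟨y, hxy.1⟩
  have hy : y ∈ cod Q := by rw [h2]; exact ⟨x, hxy.1⟩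
  obtain ⟨β, hβ⟩ := hx
  obtain ⟨α, hα⟩ := hy
  obtain ⟨q, hq, hr⟩ := ph_lemma h hP hQ hxy hβ hα
  exact hup.reach (hxy.2 q hr) hq


end Pool.Agent.BWC
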