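import Pool.Agent.Lib.MP_d14a7e_al.Reach
import Pool.Agent.Lib.MP_d14a7e_al.Quot

set_option autoImplicit false
set_option linter.all false

/-! A subuniverse generated by a recurrent element and an element of a disjoint absorbing set. -/

namespace Pool.Agent.BWC

variable {A : Type}

/-- a 3-absorbing subuniverse meeting the sink class of `x` contains it -/
private theorem pha_sink [Finite A] {B : Type} {𝔸 : Alg A} (h : MinBW 𝔸) {𝔹 : Alg B}
    (hB : Sat 𝔸 𝔹) {U : Set B} {x : B} (hx : x ∈ Rec 𝔹 U) {L N : Set B}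
    (hκ : {b | ReachIn 𝔹 U x b} ⊆ L) (hN : Abs3 𝔹 N L)
    (hne : (N ∩ {b | ReachIn 𝔹 U x b}).Nonempty) : {b | ReachIn 𝔹 U x b} ⊆ N := by
  obtain ⟨y, hyN, hy⟩ := hne
  intro z hz
  have hyx : ReachIn 𝔹 U y x := hx.2 y hy
  have hyz : ReachIn 𝔹 U y z := Relation.ReflTransGen.trans hyx hz
  clear hz
  have key : z ∈ N ∧ ReachIn 𝔹 U x z := by
    induction hyz with
    | refl => exact ⟨hyN, hy⟩
    | tail _ hbc ih =>
      have hc : ReachIn 𝔹 U x _ := Relation.ReflTransGen.tail ih.2 hbc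
      exact ⟨hN.up h hB ih.1 (hκ hc) hbc.1, hc⟩
  exact key.1

/-- descending chain of 3-absorbing subuniverses down to a tight one.
`L` is obtained from `U` by successively passing to proper 3-absorbing subuniverses meeting (hence
containing, `Abs3.up`) the sink class `κ` of `x`.  Stated as an induction principle:
a property of subuniverses containing `κ` which holds for `U` and passes to 3-absorbing
subuniverses containing `κ` holds for some tight one. -/
theorem tight_core [Finite A] {B : Type} [Finite B] {𝔸 : Alg A} (h : MinBW 𝔸) {𝔹 : Alg B}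
    (hB : Sat 𝔸 𝔹) {U : Set B} (hU : Sub 𝔹 U) {x : B} (hx : x ∈ Rec 𝔹 U)
    (Pr : Set B → Prop) (h0 : Pr U)
    (hstep : ∀ L N : Set B, Sub 𝔹 L → L ⊆ U → {b | ReachIn 𝔹 U x b} ⊆ L → Pr L → Abs3 𝔹 N L →
      {b | ReachIn 𝔹 U x b} ⊆ N → Pr N) :
    ∃ L : Set B, Sub 𝔹 L ∧ L ⊆ U ∧ {b | ReachIn 𝔹 U x b} ⊆ L ∧ Pr L ∧
      Tight 𝔹 {b | ReachIn 𝔹 U x b} L := by
  classical
  have hfin : ({L : Set B | Sub 𝔹 L ∧ L ⊆ U ∧ {b | ReachIn 𝔹 U x b} ⊆ L ∧ Pr L}).Finite :=
    Set.toFinite _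
  have hne : ({L : Set B | Sub 𝔹 L ∧ L ⊆ U ∧ {b | ReachIn 𝔹 U x b} ⊆ L ∧ Pr L}).Nonempty :=
    ⟨U, hU, subset_rfl, fun b hb => ReachIn.mem hb hx.1, h0⟩
  obtain ⟨L, hL⟩ := hfin.exists_minimal hne
  obtain ⟨hL1, hL2, hL3, hL4⟩ := hL.1
  refine ⟨L, hL1, hL2, hL3, hL4, ?_⟩
  intro N hN hab
  have hκN : {b | ReachIn 𝔹 U x b} ⊆ N := pha_sink h hB hx hL3 hab hN
  have hPr : Pr N := hstep L N hL1 hL2 hL3 hL4 hab hκN
  exact Set.Subset.antisymm hab.subset
    (hL.2 ⟨hab.sub, hab.subset.trans hL2, hκN, hPr⟩ hab.subset)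

/-- **Claim in the PH lemma.**  `κ` = sink class of `x` in the subuniverse `G`, `N` nonempty
3-absorbing disjoint from `κ`, each `g ∈ κ`, `n ∈ N` generate `G`.  Then `G` has a proper
3-absorbing subuniverse containing `κ`.
Proof.  Otherwise `(G, κ)` is tight (a 3-absorbing subuniverse meeting `κ` contains it, `Abs3.up`).
`G` is nontrivial; `φ : G → S` simple quotient (`exists_simple_quotient_one'`);
`S` satisfies the identities (`Sat.image`); `κ' = φ '' κ` is the sink class of `φ x` in `S`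
(`Rec.image`, `ReachIn.image`, `ReachIn.lift`), `(S, κ')` is tight (`Abs3.preim`).
`N' = φ '' N` 3-absorbs `S`, and is disjoint from `κ'`: if `φ g = φ n` then `φ` is constant on
`G = Sg {g,n}` (fibres are subuniverses by idempotence).
`N'` is up-closed (`Abs3.up`), so it contains a recurrent element `α` of `S` (`exists_rec`) and its
sink class `K'`; `α = φ n` with `n ∈ N`.  Let `a = φ x`, `R = Sg {(a,α),(α,a)} ⊆ S²`;
`dom R = cod R = S` as `S = Sg {a, α}`.
By `simple_dich` for `R`: either the left coordinate is a function of the right one; then `R`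
is the graph of an automorphism `σ` of `S` with `σ α = a` (finiteness, symmetry of `R`), `σ '' N'`
(= `img R N'`, `Abs3.img`) is a proper 3-absorbing subuniverse of `S` containing `a ∈ κ'`,
contradicting tightness.
Or `R` is left-linked.  Then use `tight_core` for `U = S`, `x = α`, property
`Pr L = ({p ∈ R | p.2 ∈ L} is left-linked and has domain S)`: if `N₁` 3-absorbs `L` and contains
`K'` then `{p ∈ R | p.2 ∈ N₁}` is left-linked by `llinked_absorb`, its domain 3-absorbs `S`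
(`Abs3.img` for the inverse relation) and contains `a` since `(a,α) ∈ R`, `α ∈ K' ⊆ N₁`, so it is
`S` by tightness of `(S, κ')`.
For the resulting tight `L`: `rt` for `{p ∈ R | p.2 ∈ L}`, marks `κ'` and `K'`
(`mark_class`, `Mark.mono`) gives `S × L ⊆ R`, so `(α,α) ∈ R`, so there is an edge `a → α`
(`edge_iff`), so `α ∈ κ'` although `α ∈ N'`: contradiction. -/
theorem ph_claim [Finite A] {𝔸 : Alg A} (h : MinBW 𝔸) {G : Set A} (hG : Sub 𝔸 G) {x : A}
    (hx : x ∈ Rec 𝔸 G) {N : Set A} (hN : Abs3 𝔸 N G) (hne : N.Nonempty)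
    (hd : ∀ g, ReachIn 𝔸 G x g → g ∉ N)
    (hgen : ∀ g, ReachIn 𝔸 G x g → ∀ n ∈ N, Sg 𝔸 {g, n} = G) :
    ∃ N' : Set A, Abs3 𝔸 N' G ∧ (∀ g, ReachIn 𝔸 G x g → g ∈ N') ∧ N' ≠ G := by
  classical
  by_contra hcon
  -- tightness of `(G, κ)`
  have hκG : {b | ReachIn 𝔸 G x b} ⊆ G := fun b hb => ReachIn.mem hb hx.1
  have htG : Tight 𝔸 {b | ReachIn 𝔸 G x b} G := by
    intro M hM hab
    by_contra hMG
    exact hcon ⟨M, hab, fun g hg => pha_sink h (Sat.refl 𝔸) hx hκG hab hM hg, hMG⟩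
  obtain ⟨n₀, hn₀⟩ := hne
  have hxG : x ∈ G := hx.1
  have hxx : ReachIn 𝔸 G x x := Relation.ReflTransGen.refl
  have hnt : G.Nontrivial :=
    ⟨x, hxG, n₀, hN.subset hn₀, fun e => hd x hxx (e ▸ hn₀)⟩
  obtain ⟨S, 𝕊, φ, hfS, hntS, hS, hφ, hsurj, hsimple⟩ := exists_simple_quotient_one' h.1 hG hnt
  have hSat : Sat 𝔸 𝕊 := (Sat.refl 𝔸).image hG hφ hsurj
  have himg : φ '' G = Set.univ := by
    apply Set.eq_univ_of_forall
    intro s
    obtain ⟨a, ha, rfl⟩ := hsurj s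
    exact ⟨a, ha, rfl⟩
  have haRec : φ x ∈ Rec 𝕊 Set.univ := by
    have := Rec.image h (Sat.refl 𝔸) hSat hG hφ hx
    rwa [himg] at this
  -- lifting of the sink class
  have hlift : ∀ s, ReachIn 𝕊 Set.univ (φ x) s → ∃ r ∈ G, ReachIn 𝔸 G x r ∧ φ r = s := by
    intro s hs
    apply ReachIn.lift h (Sat.refl 𝔸) hSat hG hφ hxG
    rw [himg]
    exact hs
  have htS : Tight 𝕊 {s | ReachIn 𝕊 Set.univ (φ x) s} Set.univ := by
    intro M hM hab
    obtain ⟨s, hsM, hs⟩ := hM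
    obtain ⟨r, hrG, hr, hrs⟩ := hlift s hs
    have h1 := hab.preim hG hφ (fun y _ => Set.mem_univ (φ y))
    have h2 := htG {y ∈ G | φ y ∈ M} ⟨r, ⟨hrG, by rw [hrs]; exact hsM⟩, hr⟩ h1
    apply Set.eq_univ_of_forall
    intro s'
    obtain ⟨y, hy, rfl⟩ := hsurj s'
    rw [← h2] at hy
    exact hy.2
  -- the image of `N`
  have hN' : Abs3 𝕊 (φ '' N) Set.univ := by
    have := hN.image hG hφ
    rwa [himg] at this
  have hdisj : ∀ s, ReachIn 𝕊 Set.univ (φ x) s → s ∉ φ '' N := by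
    intro s hs hsN
    obtain ⟨g, hgG, hg, hgs⟩ := hlift s hs
    obtain ⟨n, hn, hns⟩ := hsN
    have h1 : Sub 𝔸 {y ∈ G | φ y ∈ ({φ g} : Set S)} := hG.preim hφ (Sub.singleton hS (φ g))
    have h2 : Sg 𝔸 {g, n} ⊆ {y ∈ G | φ y ∈ ({φ g} : Set S)} := by
      apply Sg_min h1
      intro y hy
      rcases hy with hy | hy
      · subst hy
        exact ⟨hgG, rfl⟩
      · have hy' : y = n := hy
        subst hy'
        exact ⟨hN.subset hn, by rw [hns, hgs]; rfl⟩
    rw [hgen g hg n hn] at h2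
    obtain ⟨s1, s2, hs12⟩ := hntS
    obtain ⟨y1, hy1, hys1⟩ := hsurj s1
    obtain ⟨y2, hy2, hys2⟩ := hsurj s2
    apply hs12
    have e1 : φ y1 = φ g := (h2 hy1).2
    have e2 : φ y2 = φ g := (h2 hy2).2
    rw [← hys1, ← hys2, e1, e2]
  -- a recurrent element in the image of `N`
  obtain ⟨α, hαRec, hα0⟩ := exists_rec (𝔹 := 𝕊) (U := Set.univ) (Set.mem_univ (φ n₀))
  have hup : UpIn 𝕊 (φ '' N) Set.univ := fun a ha b hb he => hN'.up h hSat ha hb he
  have hαN : α ∈ φ '' N := hup.reach hα0 ⟨n₀, hn₀, rfl⟩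
  obtain ⟨n, hnN, hnα⟩ := hαN
  have hαN : α ∈ φ '' N := ⟨n, hnN, hnα⟩
  have haa : ReachIn 𝕊 Set.univ (φ x) (φ x) := Relation.ReflTransGen.refl
  have hαα : ReachIn 𝕊 Set.univ α α := Relation.ReflTransGen.refl
  -- `S` is generated by `a` and `α`
  have hgenS : Sg 𝕊 {φ x, α} = Set.univ := by
    apply Set.eq_univ_of_forall
    intro s
    obtain ⟨y, hy, rfl⟩ := hsurj s
    have h1 : Sub 𝔸 {y ∈ G | φ y ∈ Sg 𝕊 {φ x, α}} := hG.preim hφ (Sg_sub 𝕊 _)
    have h2 : Sg 𝔸 {x, n} ⊆ {y ∈ G | φ y ∈ Sg 𝕊 {φ x, α}} := by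
      apply Sg_min h1
      intro z hz
      rcases hz with hz | hz
      · subst hz
        exact ⟨hxG, subset_Sg _ _ (Or.inl rfl)⟩
      · have hz' : z = n := hz
        subst hz'
        exact ⟨hN.subset hnN, subset_Sg _ _ (Or.inr hnα)⟩
    rw [hgen x hxx n hnN] at h2
    exact (h2 hy).2
  set R : Set (S × S) := Sg (𝕊.prod 𝕊) {(φ x, α), (α, φ x)} with hRdef
  have hR : Sub (𝕊.prod 𝕊) R := Sg_sub _ _
  have hR1 : (φ x, α) ∈ R := subset_Sg _ _ (Or.inl rfl)
  have hR2 : (α, φ x) ∈ R := subset_Sg _ _ (Or.inr rfl)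
  have hRsymm : ∀ s s', (s, s') ∈ R → (s', s) ∈ R := by
    have h1 : R ⊆ inv R := by
      apply Sg_min hR.inv
      intro p hp
      rcases hp with hp | hp
      · subst hp
        exact hR2
      · have hp' : p = (α, φ x) := hp
        subst hp'
        exact hR1
    intro s s' hs
    exact h1 hs
  have hdomR : ∀ s, s ∈ dom R := by
    have h1 : Sg 𝕊 {φ x, α} ⊆ dom R := by
      apply Sg_min hR.dom
      intro z hz
      rcases hz with hz | hz
      · subst hz
        exact ⟨α, hR1⟩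
      · have hz' : z = α := hz
        subst hz'
        exact ⟨φ x, hR2⟩
    rw [hgenS] at h1
    exact fun s => h1 (Set.mem_univ s)
  have hcodR : ∀ s, ∃ s', (s', s) ∈ R := by
    intro s
    obtain ⟨s', hs'⟩ := hdomR s
    exact ⟨s', hRsymm _ _ hs'⟩
  rcases simple_dich hS hS hR hdomR hsimple with hfun | hlink
  · -- graph of an automorphism
    have h1 := hN'.img hR
    have h2 : img R Set.univ = Set.univ := by
      apply Set.eq_univ_of_forall
      intro s
      obtain ⟨s', hs'⟩ := hcodR s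
      exact ⟨s', Set.mem_univ _, hs'⟩
    rw [h2] at h1
    have h3 := htS (img R (φ '' N)) ⟨φ x, ⟨α, hαN, hR2⟩, haa⟩ h1
    obtain ⟨b, hb⟩ := hdomR (φ x)
    have hb2 : b ∈ img R (φ '' N) := by rw [h3]; exact Set.mem_univ b
    obtain ⟨s, hsN, hsb⟩ := hb2
    have := hfun s (φ x) b hsb hb
    exact hdisj _ haa (this ▸ hsN)
  · -- linked case
    have hcodT : ∀ L : Set S, cod {p | p ∈ R ∧ p.2 ∈ L} = L := by
      intro L
      ext s
      constructor
      · rintro ⟨s', hs'⟩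
        exact hs'.2
      · intro hs
        obtain ⟨s', hs'⟩ := hcodR s
        exact ⟨s', hs', hs⟩
    have hsubT : ∀ L : Set S, Sub 𝕊 L → Sub (𝕊.prod 𝕊) {p | p ∈ R ∧ p.2 ∈ L} := fun L hL =>
      hR.preim (HomOn.snd 𝕊 𝕊 R) hL
    obtain ⟨L, hL1, -, hL3, hL4, hL5⟩ := tight_core h hSat (Sub.univ 𝕊) hαRec
      (fun L => LLinked {p | p ∈ R ∧ p.2 ∈ L} ∧ dom {p | p ∈ R ∧ p.2 ∈ L} = Set.univ)
      (by
        have hRu : {p | p ∈ R ∧ p.2 ∈ (Set.univ : Set S)} = R := by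
          ext p
          exact ⟨fun hp => hp.1, fun hp => ⟨hp, Set.mem_univ _⟩⟩
        rw [hRu]
        exact ⟨hlink, Set.eq_univ_of_forall hdomR⟩)
      (by
        rintro L M hL - hκL ⟨hP1, hP2⟩ hab hκM
        have hsub : M ⊆ L := hab.subset
        constructor
        · have h1 := llinked_absorb hS hS (hsubT L hL) hP1 (N := M) (by rw [hcodT L]; exact hab)
          have h2 : {p | p ∈ {p : S × S | p ∈ R ∧ p.2 ∈ L} ∧ p.2 ∈ M} = {p | p ∈ R ∧ p.2 ∈ M} := by
            ext p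
            exact ⟨fun hp => ⟨hp.1.1, hp.2⟩, fun hp => ⟨⟨hp.1, hsub hp.2⟩, hp.2⟩⟩
          rwa [h2] at h1
        · have h1 := hab.img hR.inv
          have h2 : ∀ M' : Set S, img (inv R) M' = dom {p | p ∈ R ∧ p.2 ∈ M'} := by
            intro M'
            ext s
            constructor
            · rintro ⟨b, hb, hsb⟩
              exact ⟨b, hsb, hb⟩
            · rintro ⟨b, hsb, hb⟩
              exact ⟨b, hb, hsb⟩
          rw [h2 M, h2 L, hP2] at h1
          exact htS _ ⟨φ x, ⟨α, hR1, hκM hαα⟩, haa⟩ h1)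
    have hfull := rt hS hS (hsubT L hL1) hL4.1
      (K := {s | ReachIn 𝕊 Set.univ (φ x) s}) (K' := {s | ReachIn 𝕊 Set.univ α s})
      (by rw [hL4.2]; exact mark_class h hSat haRec)
      ((mark_class h hSat hαRec).mono (Set.subset_univ _))
      ⟨φ x, haa, α, hαα, hR1, hL3 hαα⟩
      (by rw [hL4.2]; exact htS)
      (by rw [hcodT L]; exact hL5)
    have hααR : (α, α) ∈ R :=
      (hfull α (by rw [hL4.2]; exact Set.mem_univ _) α (by rw [hcodT L]; exact hL3 hαα)).1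
    have hedge : Edge 𝕊 (φ x) α := edge_iff.2 hααR
    have hreach : ReachIn 𝕊 Set.univ (φ x) α :=
      Relation.ReflTransGen.single ⟨hedge, Set.mem_univ _, Set.mem_univ _⟩
    exact hdisj α hreach hαN

end Pool.Agent.BWC
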