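import Pool.Agent.Lib.MP_d14a7e_al.Basic

set_option autoImplicit false
set_option linter.all false

/-! Products of TF sets. -/

namespace Pool.Agent.BWC

variable {A B C : Type}

private theorem tfprod_hom {𝔸 : Alg A} {𝔹 : Alg B} (hA : IsBW 𝔸) (a : A) (V : Set B) :
    HomOn 𝔹 (𝔸.prod 𝔹) V (fun y => (a, y)) := by
  constructor
  · intro x _ y _ z _
    change (a, 𝔹.v x y z) = (𝔸.v a a a, 𝔹.v x y z)
    rw [hA.vi]
  · intro x _ y _ z _ u _
    change (a, 𝔹.w x y z u) = (𝔸.w a a a a, 𝔹.w x y z u)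
    rw [hA.wi]

private theorem tfprod_fst {U : Set A} {V : Set B} (hV : V.Nonempty) :
    Prod.fst '' (U ×ˢ V) = U := by
  ext a
  constructor
  · rintro ⟨p, hp, rfl⟩
    exact hp.1
  · intro ha
    obtain ⟨b, hb⟩ := hV
    exact ⟨(a, b), ⟨ha, hb⟩, rfl⟩

/-- product of two TF sets: for a nonempty 3-absorbing `N ⊆ U ×ˢ V`, its projection to `A` is `U`,
and for `a ∈ U` the fibre `{y | (a,y) ∈ N}` is a nonempty 3-absorbing subuniverse of `V`. -/
theorem TF.setprod {𝔸 : Alg A} {𝔹 : Alg B} (hA : IsBW 𝔸) (hB : IsBW 𝔹) {U : Set A} {V : Set B}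
    (hU : Sub 𝔸 U) (hV : Sub 𝔹 V) (h : TF 𝔸 U) (h' : TF 𝔹 V) : TF (𝔸.prod 𝔹) (U ×ˢ V) := by
  intro N hN hab
  have hVne : V.Nonempty := by
    obtain ⟨p, hp⟩ := hN
    exact ⟨p.2, (hab.subset hp).2⟩
  have h1 := hab.image (hU.setprod hV) (HomOn.fst 𝔸 𝔹 _)
  rw [tfprod_fst hVne] at h1
  have h2 := h _ (hN.image _) h1
  refine Set.Subset.antisymm hab.subset ?_
  rintro ⟨a, b⟩ ⟨ha, hb⟩
  have h3 := hab.preim hV (tfprod_hom hA a V)
    (fun y hy => (⟨ha, hy⟩ : (a, y) ∈ U ×ˢ V))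
  have h4 := h' _ (by
    change a ∈ U at ha
    rw [← h2] at ha
    obtain ⟨p, hp, hpa⟩ := ha
    refine ⟨p.2, (hab.subset hp).2, ?_⟩
    change (a, p.2) ∈ N
    rw [← hpa]
    exact hp) h3
  change b ∈ V at hb
  rw [← h4] at hb
  exact hb.2

/-- same for 2-absorption -/
theorem BF.setprod {𝔸 : Alg A} {𝔹 : Alg B} (hA : IsBW 𝔸) (hB : IsBW 𝔹) {U : Set A} {V : Set B}
    (hU : Sub 𝔸 U) (hV : Sub 𝔹 V) (h : BF 𝔸 U) (h' : BF 𝔹 V) : BF (𝔸.prod 𝔹) (U ×ˢ V) := by
  rintro N hN ⟨t, hNs, hNU, ht1, ht2⟩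
  obtain ⟨p0, hp0⟩ := hN
  have hb0 : p0.2 ∈ V := (hNU hp0).2
  have h1 : Abs2 𝔸 (Prod.fst '' N) U := by
    refine ⟨t, hNs.image (HomOn.fst 𝔸 𝔹 _), ?_, ?_, ?_⟩
    · rintro _ ⟨p, hp, rfl⟩
      exact (hNU hp).1
    · rintro x hx _ ⟨p, hp, rfl⟩
      have := ht1 (x, p0.2) ⟨hx, hb0⟩ p hp
      rw [t2_prod] at this
      exact ⟨_, this, rfl⟩
    · rintro _ ⟨p, hp, rfl⟩ x hx
      have := ht2 p hp (x, p0.2) ⟨hx, hb0⟩
      rw [t2_prod] at this
      exact ⟨_, this, rfl⟩
  have h2 := h _ (⟨p0.1, p0, hp0, rfl⟩ : (Prod.fst '' N).Nonempty) h1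
  refine Set.Subset.antisymm hNU ?_
  rintro ⟨a, b⟩ ⟨ha, hb⟩
  have h3 : Abs2 𝔹 {y | y ∈ V ∧ (a, y) ∈ N} V := by
    refine ⟨t, hV.preim (tfprod_hom hA a V) hNs, fun y hy => hy.1, ?_, ?_⟩
    · rintro x hx y ⟨hy, hyN⟩
      refine ⟨hV.t2 t hx hy, ?_⟩
      have := ht1 (a, x) ⟨ha, hx⟩ (a, y) hyN
      rw [t2_prod] at this
      change (t2 𝔸 t a a, t2 𝔹 t x y) ∈ N at this
      rwa [t2_idem hA] at this
    · rintro x ⟨hx, hxN⟩ y hy
      refine ⟨hV.t2 t hx hy, ?_⟩
      have := ht2 (a, x) hxN (a, y) ⟨ha, hy⟩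
      rw [t2_prod] at this
      change (t2 𝔸 t a a, t2 𝔹 t x y) ∈ N at this
      rwa [t2_idem hA] at this
  have h4 := h' _ (by
    change a ∈ U at ha
    rw [← h2] at ha
    obtain ⟨p, hp, hpa⟩ := ha
    refine ⟨p.2, (hNU hp).2, ?_⟩
    change (a, p.2) ∈ N
    rw [← hpa]
    exact hp) h3
  change b ∈ V at hb
  rw [← h4] at hb
  exact hb.2

/-- finite powers: if `x ∈ N` then `{s | Function.update x i s ∈ N}` is a nonempty 3-absorbing
subuniverse of `U i`, so `N` is closed under changing one coordinate. -/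
theorem TF.setpi {ι : Type} [Finite ι] {F : ι → Type} {𝔽 : ∀ i, Alg (F i)}
    (hF : ∀ i, IsBW (𝔽 i)) {U : ∀ i, Set (F i)} (hU : ∀ i, Sub (𝔽 i) (U i))
    (h : ∀ i, TF (𝔽 i) (U i)) : TF (Alg.pi 𝔽) {x | ∀ i, x i ∈ U i} := by
  classical
  cases nonempty_fintype ι
  intro N hN hab
  have hup : ∀ x ∈ N, ∀ i, ∀ s ∈ U i, Function.update x i s ∈ N := by
    intro x hx i s hs
    have hxU := hab.subset hx
    have hhom : HomOn (𝔽 i) (Alg.pi 𝔽) (U i) (fun s => Function.update x i s) := by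
      constructor
      · intro a _ b _ c _
        funext j
        change Function.update x i ((𝔽 i).v a b c) j = (𝔽 j).v (Function.update x i a j)
          (Function.update x i b j) (Function.update x i c j)
        by_cases hj : j = i
        · subst hj
          simp
        · simp only [Function.update_of_ne hj]
          exact ((hF j).vi _).symm
      · intro a _ b _ c _ d _
        funext j
        change Function.update x i ((𝔽 i).w a b c d) j = (𝔽 j).w (Function.update x i a j)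
          (Function.update x i b j) (Function.update x i c j) (Function.update x i d j)
        by_cases hj : j = i
        · subst hj
          simp
        · simp only [Function.update_of_ne hj]
          exact ((hF j).wi _).symm
    have h1 := hab.preim (hU i) hhom (fun s hs => by
      intro j
      by_cases hj : j = i
      · subst hj
        simpa using hs
      · simp only [Function.update_of_ne hj]
        exact hxU j)
    have h2 := h i _ (by
      refine ⟨x i, hxU i, ?_⟩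
      change Function.update x i (x i) ∈ N
      rw [Function.update_eq_self]
      exact hx) h1
    rw [← h2] at hs
    exact hs.2
  refine Set.Subset.antisymm hab.subset ?_
  intro y hy
  obtain ⟨x, hx⟩ := hN
  have key : ∀ S : Finset ι, S.piecewise y x ∈ N := by
    intro S
    induction S using Finset.induction_on with
    | empty => simpa using hx
    | insert j S _ ih =>
      rw [Finset.piecewise_insert]
      exact hup _ ih j _ (hy j)
  have := key Finset.univ
  rwa [Finset.piecewise_univ] at this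

end Pool.Agent.BWC
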