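import Pool.Agent.Lib.MP_d14a7e_al.Center
import Pool.Agent.Lib.MP_d14a7e_al.Link
import Pool.Agent.Lib.MP_d14a7e_al.TFProd

set_option autoImplicit false
set_option linter.all false

/-! The rectangularity theorem for tight relations. -/

namespace Pool.Agent.BWC

variable {A B C : Type}

/-- `K` is a mark in `U`: each nonempty 2-absorbing subuniverse of a subuniverse of `U` which
meets `K` also meets `K` -/
def Mark (𝔸 : Alg A) (K U : Set A) : Prop :=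
  ∀ V : Set A, Sub 𝔸 V → V ⊆ U → (V ∩ K).Nonempty →
    ∀ N : Set A, N.Nonempty → Abs2 𝔸 N V → (N ∩ K).Nonempty

/-- every 3-absorbing subuniverse of `U` meeting `K` is `U` -/
def Tight (𝔸 : Alg A) (K U : Set A) : Prop :=
  ∀ N : Set A, (N ∩ K).Nonempty → Abs3 𝔸 N U → N = U

theorem Mark.univ {𝔸 : Alg A} {U : Set A} : Mark 𝔸 Set.univ U :=
  fun _ _ _ _ _ hN _ => by simpa using hN

theorem tight_univ {𝔸 : Alg A} {U : Set A} : Tight 𝔸 Set.univ U ↔ TF 𝔸 U := by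
  simp [Tight, TF]

/-- Core lemma.  Proof: pick `a ∈ K, a' ∈ K'` with `(a,a') ∈ T`.  Among the subuniverses
`M ⊆ {y | (a,y) ∈ T}` with `M ∩ K'` nonempty and `∀ x ∈ dom T, ∃ y ∈ M, (x,y) ∈ T` take one of
least cardinality (`{y | (a,y) ∈ T}` itself is one, by `hfull`).
`M` is `BF`: if `L` is nonempty and 2-absorbs `M`, then `L` meets `K'` (Mark), and
`{x | ∃ y ∈ L, (x,y) ∈ T}` 2-absorbs, hence 3-absorbs `dom T` and contains `a`, so it is `dom T` by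
tightness and `L` is in the family, so `L = M`.
Let `Θ = {p ∈ T | p.2 ∈ M}`, `dom Θ = dom T`, `cod Θ = M`.  By `center`, `Cen Θ` 3-absorbs `dom T`,
and it contains `a`; so `Cen Θ = dom T`.  So every element of `M` is in `Cen (inv T)`, and `M`
meets `K'`.
`dom T` is `BF`: a nonempty 2-absorbing `N` meets `K` (Mark with `V = dom T`) and is 3-absorbing
(`Abs2.abs3`), so it is everything by tightness.  So `center` applies to `inv T`. -/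
theorem rt_core [Finite A] [Finite B] {𝔸 : Alg A} {𝔹 : Alg B} (hA : IsBW 𝔸) (hB : IsBW 𝔹)
    {T : Set (A × B)} (hT : Sub (𝔸.prod 𝔹) T)
    (hfull : ∀ a ∈ dom T, ∀ a' ∈ dom T, ∃ c, (a, c) ∈ T ∧ (a', c) ∈ T)
    {K : Set A} {K' : Set B} (hK : Mark 𝔸 K (dom T)) (hK' : Mark 𝔹 K' (cod T))
    (hp : ∃ a ∈ K, ∃ b ∈ K', (a, b) ∈ T) (ht : Tight 𝔸 K (dom T)) :
    (Cen (inv T) ∩ K').Nonempty ∧ Abs3 𝔹 (Cen (inv T)) (cod T) := by
  classical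
  obtain ⟨a, haK, b, hbK, hab⟩ := hp
  have hadom : a ∈ dom T := ⟨b, hab⟩
  -- the family of candidates
  let F : Set (Set B) := {M | Sub 𝔹 M ∧ (∀ y ∈ M, (a, y) ∈ T) ∧ (M ∩ K').Nonempty ∧
    ∀ x ∈ dom T, ∃ y ∈ M, (x, y) ∈ T}
  have hM0 : {y | (a, y) ∈ T} ∈ F := by
    refine ⟨⟨?_, ?_⟩, fun y hy => hy, ⟨b, hab, hbK⟩, ?_⟩
    · intro x hx y hy z hz
      have h := hT.1 _ hx _ hy _ hz
      change (𝔸.v a a a, 𝔹.v x y z) ∈ T at h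
      rw [hA.vi] at h
      exact h
    · intro x hx y hy z hz u hu
      have h := hT.2 _ hx _ hy _ hz _ hu
      change (𝔸.w a a a a, 𝔹.w x y z u) ∈ T at h
      rw [hA.wi] at h
      exact h
    · intro x hx
      obtain ⟨c, hc, hc'⟩ := hfull a hadom x hx
      exact ⟨c, hc, hc'⟩
  obtain ⟨M, hMmin⟩ := (Set.toFinite F).exists_minimal ⟨_, hM0⟩
  obtain ⟨hMsub, hMa, hMK, hMx⟩ := hMmin.prop
  let Θ : Set (A × B) := {p | p ∈ T ∧ p.2 ∈ M}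
  have hΘ : Sub (𝔸.prod 𝔹) Θ :=
    ⟨fun x hx y hy z hz => ⟨hT.1 _ hx.1 _ hy.1 _ hz.1, hMsub.1 _ hx.2 _ hy.2 _ hz.2⟩,
     fun x hx y hy z hz u hu =>
      ⟨hT.2 _ hx.1 _ hy.1 _ hz.1 _ hu.1, hMsub.2 _ hx.2 _ hy.2 _ hz.2 _ hu.2⟩⟩
  have hdomΘ : dom Θ = dom T := by
    ext x
    constructor
    · rintro ⟨y, hy⟩
      exact ⟨y, hy.1⟩
    · intro hx
      obtain ⟨y, hy, hxy⟩ := hMx x hx
      exact ⟨y, hxy, hy⟩
  have hcodΘ : cod Θ = M := by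
    ext y
    constructor
    · rintro ⟨x, hx⟩
      exact hx.2
    · intro hy
      exact ⟨a, hMa y hy, hy⟩
  have hMcod : M ⊆ cod T := fun y hy => ⟨a, hMa y hy⟩
  have hBF : BF 𝔹 (cod Θ) := by
    rw [hcodΘ]
    intro L hL hLM
    have hLK := hK' M hMsub hMcod hMK L hL hLM
    have hL3 : Abs3 𝔹 L M := hLM.abs3 hMsub
    have h1 := hL3.img hΘ.inv
    have h2 : img (inv Θ) M = dom T := by
      ext x
      constructor
      · rintro ⟨y, hy, hxy⟩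
        exact ⟨y, hxy.1⟩
      · intro hx
        obtain ⟨y, hy, hxy⟩ := hMx x hx
        exact ⟨y, hy, hxy, hy⟩
    rw [h2] at h1
    have h3 : img (inv Θ) L = dom T := by
      apply ht _ _ h1
      obtain ⟨l, hl⟩ := hL
      exact ⟨a, ⟨l, hl, hMa l (hL3.subset hl), hL3.subset hl⟩, haK⟩
    have hLF : L ∈ F := by
      refine ⟨hL3.sub, fun y hy => hMa y (hL3.subset hy), hLK, ?_⟩
      intro x hx
      rw [← h3] at hx
      obtain ⟨y, hy, hxy⟩ := hx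
      exact ⟨y, hy, hxy.1⟩
    exact Set.Subset.antisymm hL3.subset (hMmin.le_of_le hLF hL3.subset)
  have hcen := center hA hB hΘ hBF
  rw [hdomΘ] at hcen
  have haC : a ∈ Cen Θ := by
    refine ⟨?_, ?_⟩
    · rw [hdomΘ]
      exact hadom
    · intro m hm
      rw [hcodΘ] at hm
      exact ⟨hMa m hm, hm⟩
  have hC : Cen Θ = dom T := ht _ ⟨a, haC, haK⟩ hcen
  constructor
  · obtain ⟨m, hm, hmK⟩ := hMK
    refine ⟨m, ⟨hMcod hm, ?_⟩, hmK⟩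
    intro x hx
    change x ∈ dom T at hx
    rw [← hC] at hx
    exact (hx.2 m (by rw [hcodΘ]; exact hm)).1
  · have hBF' : BF 𝔸 (cod (inv T)) := by
      intro N hN hNab
      have hNK := hK (dom T) hT.dom (fun _ h => h) ⟨a, hadom, haK⟩ N hN hNab
      exact ht N hNK (hNab.abs3 hT.dom)
    exact center hB hA hT.inv hBF'

/-- one step of the downward induction -/
private theorem rt_step [Finite A] {𝔸 : Alg A} (hA : IsBW 𝔸) {U K : Set A} {Γ : Set (A × A)}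
    (hΓ : Sub (𝔸.prod 𝔸) Γ) (hU : ∀ p ∈ Γ, p.1 ∈ U ∧ p.2 ∈ U) (hr : ∀ a ∈ U, (a, a) ∈ Γ)
    (hs : ∀ a b, (a, b) ∈ Γ → (b, a) ∈ Γ) (hK : Mark 𝔸 K U) (ht : Tight 𝔸 K U)
    (hne : (U ∩ K).Nonempty) (hfull : ∀ a ∈ U, ∀ b ∈ U, (a, b) ∈ rcomp Γ Γ) :
    ∀ a ∈ U, ∀ b ∈ U, (a, b) ∈ Γ := by
  have hd : dom Γ = U := by
    ext x
    exact ⟨fun ⟨y, hy⟩ => (hU _ hy).1, fun hx => ⟨x, hr x hx⟩⟩
  have hc : cod Γ = U := by
    ext x
    exact ⟨fun ⟨y, hy⟩ => (hU _ hy).2, fun hx => ⟨x, hr x hx⟩⟩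
  obtain ⟨a0, ha0, ha0K⟩ := hne
  have key := rt_core hA hA hΓ (K := K) (K' := K)
    (by
      intro a ha a' ha'
      rw [hd] at ha ha'
      obtain ⟨c, h1, h2⟩ := hfull a ha a' ha'
      exact ⟨c, h1, hs _ _ h2⟩)
    (by rw [hd]; exact hK) (by rw [hc]; exact hK) ⟨a0, ha0K, a0, ha0K, hr a0 ha0⟩
    (by rw [hd]; exact ht)
  rw [hc] at key
  have h := ht _ key.1 key.2
  intro a ha b hb
  rw [← h] at hb
  exact hb.2 a (by change a ∈ dom Γ; rw [hd]; exact ha)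

/-- left-linkedness gives common neighbours -/
private theorem rt_full [Finite A] [Finite B] {𝔸 : Alg A} {𝔹 : Alg B} (hA : IsBW 𝔸) (hB : IsBW 𝔹)
    {T : Set (A × B)} (hT : Sub (𝔸.prod 𝔹) T) (hL : LLinked T)
    {K : Set A} (hK : Mark 𝔸 K (dom T)) (ht : Tight 𝔸 K (dom T)) (hne : (dom T ∩ K).Nonempty) :
    ∀ a ∈ dom T, ∀ a' ∈ dom T, ∃ c, (a, c) ∈ T ∧ (a', c) ∈ T := by
  let Γ0 : Set (A × A) := rcomp T (inv T)
  let F : Set (Set (A × A)) := {Γ | Sub (𝔸.prod 𝔸) Γ ∧ (∀ p ∈ Γ, p.1 ∈ dom T ∧ p.2 ∈ dom T) ∧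
    (∀ a b, (a, b) ∈ Γ → (b, a) ∈ Γ) ∧ Γ0 ⊆ Γ ∧
    ((∀ a ∈ dom T, ∀ b ∈ dom T, (a, b) ∈ Γ) → ∀ a ∈ dom T, ∀ b ∈ dom T, (a, b) ∈ Γ0)}
  have hr0 : ∀ a ∈ dom T, (a, a) ∈ Γ0 := by
    rintro a ⟨c, hc⟩
    exact ⟨c, hc, hc⟩
  have hΓ0 : Γ0 ∈ F := by
    refine ⟨hT.rcomp hT.inv, ?_, ?_, fun _ h => h, fun h => h⟩
    · rintro p ⟨c, h1, h2⟩
      exact ⟨⟨c, h1⟩, ⟨c, h2⟩⟩
    · rintro a b ⟨c, h1, h2⟩
      exact ⟨c, h2, h1⟩
  obtain ⟨Γ, hmax⟩ := (Set.toFinite F).exists_maximal ⟨_, hΓ0⟩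
  obtain ⟨h1, h2, h3, h4, h5⟩ := hmax.prop
  have hr : ∀ a ∈ dom T, (a, a) ∈ Γ := fun a ha => h4 (hr0 a ha)
  have hle : Γ ⊆ rcomp Γ Γ := by
    intro p hp
    exact ⟨p.1, hr _ (h2 p hp).1, hp⟩
  have hmem : rcomp Γ Γ ∈ F := by
    refine ⟨h1.rcomp h1, ?_, ?_, h4.trans hle, ?_⟩
    · rintro p ⟨c, hc1, hc2⟩
      exact ⟨(h2 _ hc1).1, (h2 _ hc2).2⟩
    · rintro a b ⟨c, hc1, hc2⟩
      exact ⟨c, h3 _ _ hc2, h3 _ _ hc1⟩
    · intro hf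
      exact h5 (rt_step hA h1 h2 hr h3 hK ht hne hf)
  have htr : rcomp Γ Γ ⊆ Γ := hmax.le_of_ge hmem hle
  have hfull : ∀ a ∈ dom T, ∀ b ∈ dom T, (a, b) ∈ Γ := by
    intro a ha b hb
    have h := hL a ha b hb
    induction h with
    | refl => exact hr a ha
    | tail _ hbc ih =>
      obtain ⟨d, hd1, hd2⟩ := hbc
      exact htr ⟨_, ih ⟨d, hd1⟩, h4 ⟨d, hd1, hd2⟩⟩
  intro a ha a' ha'
  obtain ⟨c, hc1, hc2⟩ := h5 hfull a ha a' ha'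
  exact ⟨c, hc1, hc2⟩

/-- **Rectangularity.**  `Γ₀ = {(x,y) | ∃ c, (x,c) ∈ T ∧ (y,c) ∈ T}` is a reflexive symmetric
subuniverse relation on `dom T`, let `Γ (k+1) = Γ k ∘ Γ k`.  Left-linkedness and finiteness give
`k` with `Γ k = dom T × dom T`.  Downward induction: if `Γ (k+1)` is full then so is `Γ k`:
apply `rt_core` to `Γ k ⊆ A × A` (symmetric, so `hfull` holds as `Γ k ∘ Γ k` is full; pointed as it
is reflexive; tight with `K` on both sides): `Cen (inv (Γ k))` meets `K` and 3-absorbs, so it is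
everything and `Γ k` is full.  So `Γ₀` is full, and `rt_core` for `T`: `Cen (inv T)` meets
`K'` and 3-absorbs `cod T`, so it is `cod T`. -/
theorem rt [Finite A] [Finite B] {𝔸 : Alg A} {𝔹 : Alg B} (hA : IsBW 𝔸) (hB : IsBW 𝔹)
    {T : Set (A × B)} (hT : Sub (𝔸.prod 𝔹) T) (hL : LLinked T)
    {K : Set A} {K' : Set B} (hK : Mark 𝔸 K (dom T)) (hK' : Mark 𝔹 K' (cod T))
    (hp : ∃ a ∈ K, ∃ b ∈ K', (a, b) ∈ T) (ht : Tight 𝔸 K (dom T)) (ht' : Tight 𝔹 K' (cod T)) :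
    ∀ a ∈ dom T, ∀ b ∈ cod T, (a, b) ∈ T := by
  have hne : (dom T ∩ K).Nonempty := by
    obtain ⟨a, ha, b, _, hab⟩ := hp
    exact ⟨a, ⟨b, hab⟩, ha⟩
  obtain ⟨h1, h2⟩ := rt_core hA hB hT (rt_full hA hB hT hL hK ht hne) hK hK' hp ht
  have h := ht' _ h1 h2
  intro a ha b hb
  rw [← h] at hb
  exact hb.2 a ha

/-- If only the left side is `TF`: the center of `inv T` is nonempty and 3-absorbing.
(As in `rt` with `K = univ`: `Γ₀` is full, then `rt_core` with `K = K' = univ`.) -/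
theorem cn [Finite A] [Finite B] {𝔸 : Alg A} {𝔹 : Alg B} (hA : IsBW 𝔸) (hB : IsBW 𝔹)
    {T : Set (A × B)} (hT : Sub (𝔸.prod 𝔹) T) (hL : LLinked T) (hne : T.Nonempty)
    (htf : TF 𝔸 (dom T)) :
    (Cen (inv T)).Nonempty ∧ Abs3 𝔹 (Cen (inv T)) (cod T) := by
  obtain ⟨⟨a, b⟩, hab⟩ := hne
  have ht : Tight 𝔸 Set.univ (dom T) := tight_univ.2 htf
  obtain ⟨h1, h2⟩ := rt_core hA hB hT (rt_full hA hB hT hL Mark.univ ht ⟨a, ⟨b, hab⟩, trivial⟩)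
    (K := Set.univ) (K' := Set.univ) Mark.univ Mark.univ ⟨a, trivial, b, trivial, hab⟩ ht
  exact ⟨h1.mono Set.inter_subset_left, h2⟩

/-- `rt` with `K = univ`, `K' = univ` -/
theorem rt_tf [Finite A] [Finite B] {𝔸 : Alg A} {𝔹 : Alg B} (hA : IsBW 𝔸) (hB : IsBW 𝔹)
    {T : Set (A × B)} (hT : Sub (𝔸.prod 𝔹) T) (hL : LLinked T)
    (htf : TF 𝔸 (dom T)) (htf' : TF 𝔹 (cod T)) :
    ∀ a ∈ dom T, ∀ b ∈ cod T, (a, b) ∈ T := by
  intro a ha b hb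
  obtain ⟨c, hc⟩ := ha
  exact rt hA hB hT hL Mark.univ Mark.univ ⟨a, trivial, c, trivial, hc⟩ (tight_univ.2 htf)
    (tight_univ.2 htf') a ⟨c, hc⟩ b hb

/-- consequence of `simple_dich` and `rt_tf` -/
theorem simple_full {S : Type} [Finite S] [Finite B] {𝕊 : Alg S} {𝔹 : Alg B} (hS : IsBW 𝕊)
    (hB : IsBW 𝔹) {T : Set (S × B)} (hT : Sub (𝕊.prod 𝔹) T) (hdom : ∀ s, s ∈ dom T)
    (hs : Simple 𝕊) (htf : TF 𝕊 Set.univ) (htf' : TF 𝔹 (cod T)) :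
    (∀ s s' b, (s, b) ∈ T → (s', b) ∈ T → s = s') ∨ (∀ s, ∀ b ∈ cod T, (s, b) ∈ T) := by
  rcases simple_dich hS hB hT hdom hs with h | h
  · exact Or.inl h
  · right
    intro s b hb
    have : dom T = Set.univ := Set.eq_univ_of_forall hdom
    exact rt_tf hS hB hT h (by rw [this]; exact htf) htf' s (hdom s) b hb

end Pool.Agent.BWC
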