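import Pool.Agent.Lib.MP_d14a7e_al.Edge
import Pool.Agent.Lib.MP_d14a7e_al.RT

set_option autoImplicit false
set_option linter.all false

/-! Reachability by edges, recurrent elements, the least dominating up-closed subuniverse. -/

namespace Pool.Agent.BWC

variable {A B C D : Type}

/-- reachability by edges inside `U` -/
def ReachIn (𝔹 : Alg B) (U : Set B) (a b : B) : Prop :=
  Relation.ReflTransGen (fun x y => Edge 𝔹 x y ∧ x ∈ U ∧ y ∈ U) a b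

/-- recurrent elements of `U` -/
def Rec (𝔹 : Alg B) (U : Set B) : Set B :=
  {a | a ∈ U ∧ ∀ b, ReachIn 𝔹 U a b → ReachIn 𝔹 U b a}

/-- `T` is closed under edges inside `U` -/
def UpIn (𝔹 : Alg B) (T U : Set B) : Prop := ∀ a ∈ T, ∀ b ∈ U, Edge 𝔹 a b → b ∈ T

/-- least dominating up-closed subuniverse of `R` -/
def MM (𝔹 : Alg B) (R : Set B) : Set B :=
  ⋂₀ {T | Sub 𝔹 T ∧ T ⊆ R ∧ UpIn 𝔹 T R ∧ Rec 𝔹 R ⊆ T}

theorem ReachIn.mem {𝔹 : Alg B} {U : Set B} {a b : B} (h : ReachIn 𝔹 U a b) (ha : a ∈ U) :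
    b ∈ U := by
  induction h with
  | refl => exact ha
  | tail _ h2 _ => exact h2.2.2

theorem UpIn.reach {𝔹 : Alg B} {T U : Set B} (hT : UpIn 𝔹 T U) {a b : B}
    (h : ReachIn 𝔹 U a b) (ha : a ∈ T) : b ∈ T := by
  induction h with
  | refl => exact ha
  | tail _ h2 ih => exact hT _ ih _ h2.2.2 h2.1

/-- `U` finite -/
theorem exists_rec [Finite B] {𝔹 : Alg B} {U : Set B} {a : B} (ha : a ∈ U) :
    ∃ b ∈ Rec 𝔹 U, ReachIn 𝔹 U a b := by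
  obtain ⟨b, hb, hmin⟩ := Set.exists_min_image {b | ReachIn 𝔹 U a b}
    (fun b => Set.ncard {c | ReachIn 𝔹 U b c}) (Set.toFinite _)
    ⟨a, Relation.ReflTransGen.refl⟩
  refine ⟨b, ⟨ReachIn.mem hb ha, ?_⟩, hb⟩
  intro c hc
  have h1 : {d | ReachIn 𝔹 U c d} ⊆ {d | ReachIn 𝔹 U b d} :=
    fun d hd => Relation.ReflTransGen.trans hc hd
  have h2 := hmin c (Relation.ReflTransGen.trans hb hc)
  have h3 := Set.eq_of_subset_of_ncard_le h1 h2 (Set.toFinite _)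
  have h4 : b ∈ {d | ReachIn 𝔹 U b d} := Relation.ReflTransGen.refl
  rw [← h3] at h4
  exact h4

theorem Rec.reach {𝔹 : Alg B} {U : Set B} {a b : B} (ha : a ∈ Rec 𝔹 U)
    (h : ReachIn 𝔹 U a b) : b ∈ Rec 𝔹 U := by
  refine ⟨ReachIn.mem h ha.1, ?_⟩
  intro c hc
  exact Relation.ReflTransGen.trans (ha.2 c (Relation.ReflTransGen.trans h hc)) h

theorem ReachIn.image {𝔹 : Alg B} {𝔻 : Alg D} {R : Set B} (hR : Sub 𝔹 R) {g : B → D}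
    (hg : HomOn 𝔹 𝔻 R g) {a b : B} (h : ReachIn 𝔹 R a b) : ReachIn 𝔻 (g '' R) (g a) (g b) := by
  refine Relation.ReflTransGen.lift g ?_ _ _ h
  rintro x y ⟨h1, h2, h3⟩
  exact ⟨Edge.hom hR hg h2 h3 h1, ⟨x, h2, rfl⟩, ⟨y, h3, rfl⟩⟩

/-- paths lift (`Edge.lift`) -/
theorem ReachIn.lift [Finite A] {𝔸 : Alg A} (h : MinBW 𝔸) {𝔹 : Alg B} {𝔻 : Alg D}
    (hB : Sat 𝔸 𝔹) (hD : Sat 𝔸 𝔻) {R : Set B} (hR : Sub 𝔹 R) {g : B → D}
    (hg : HomOn 𝔹 𝔻 R g) {r : B} (hr : r ∈ R) {y : D} (hy : ReachIn 𝔻 (g '' R) (g r) y) :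
    ∃ r' ∈ R, ReachIn 𝔹 R r r' ∧ g r' = y := by
  induction hy with
  | refl => exact ⟨r, hr, Relation.ReflTransGen.refl, rfl⟩
  | tail _ h2 ih =>
    obtain ⟨r', hr', h3, h4⟩ := ih
    obtain ⟨h5, _, ⟨r'', hr'', h7⟩⟩ := h2
    subst h7
    rw [← h4] at h5
    obtain ⟨r3, hr3, h8, h9⟩ := Edge.lift h hB hD hR hg hr' hr'' h5
    exact ⟨r3, hr3, Relation.ReflTransGen.tail h3 ⟨h8, hr', hr3⟩, h9⟩

theorem Rec.image [Finite A] {𝔸 : Alg A} (h : MinBW 𝔸) {𝔹 : Alg B} {𝔻 : Alg D}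
    (hB : Sat 𝔸 𝔹) (hD : Sat 𝔸 𝔻) {R : Set B} (hR : Sub 𝔹 R) {g : B → D}
    (hg : HomOn 𝔹 𝔻 R g) {r : B} (hr : r ∈ Rec 𝔹 R) : g r ∈ Rec 𝔻 (g '' R) := by
  refine ⟨⟨r, hr.1, rfl⟩, ?_⟩
  intro y hy
  obtain ⟨r', hr', h1, h2⟩ := ReachIn.lift h hB hD hR hg hr.1 hy
  rw [← h2]
  exact ReachIn.image hR hg (hr.2 r' h1)

/-- take `r₀` over `y`, go to a recurrent `r₁`, lift a path back from `g r₁` to `y` -/
theorem Rec.lift [Finite A] [Finite B] {𝔸 : Alg A} (h : MinBW 𝔸) {𝔹 : Alg B} {𝔻 : Alg D}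
    (hB : Sat 𝔸 𝔹) (hD : Sat 𝔸 𝔻) {R : Set B} (hR : Sub 𝔹 R) {g : B → D}
    (hg : HomOn 𝔹 𝔻 R g) {y : D} (hy : y ∈ Rec 𝔻 (g '' R)) :
    ∃ r ∈ Rec 𝔹 R, g r = y := by
  obtain ⟨⟨r₀, hr₀, h0⟩, hy2⟩ := hy
  obtain ⟨r₁, hr₁, h1⟩ := exists_rec (𝔹 := 𝔹) hr₀
  have h2 := ReachIn.image hR hg h1
  rw [h0] at h2
  have h3 := hy2 _ h2
  obtain ⟨r', _, h4, h5⟩ := ReachIn.lift h hB hD hR hg hr₁.1 h3
  exact ⟨r', Rec.reach hr₁ h4, h5⟩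

/-- sink classes are marks (`abs2_edge`) -/
theorem mark_class [Finite A] {𝔸 : Alg A} (h : MinBW 𝔸) {𝔹 : Alg B} (hB : Sat 𝔸 𝔹)
    {U : Set B} {x : B} (hx : x ∈ Rec 𝔹 U) : Mark 𝔹 {b | ReachIn 𝔹 U x b} U := by
  intro V hV hVU hne N hN hab
  obtain ⟨b, hbV, hb⟩ := hne
  obtain ⟨c, hc, he⟩ := abs2_edge h hB hV hab hN hbV
  have hcV : c ∈ V := hab.choose_spec.2.1 hc
  exact ⟨c, hc, Relation.ReflTransGen.tail hb ⟨he, hVU hbV, hVU hcV⟩⟩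

theorem Mark.mono {𝔹 : Alg B} {K U V : Set B} (h : Mark 𝔹 K U) (hV : V ⊆ U) : Mark 𝔹 K V :=
  fun W hW hWV => h W hW (hWV.trans hV)

/-! ### the operator `MM` -/

theorem MM_sub {𝔹 : Alg B} {R : Set B} (hR : Sub 𝔹 R) : Sub 𝔹 (MM 𝔹 R) :=
  Sub.sInter fun _ h => h.1

theorem MM_subset {𝔹 : Alg B} {R : Set B} (hR : Sub 𝔹 R) : MM 𝔹 R ⊆ R := by
  intro x hx
  exact hx R ⟨hR, subset_rfl, fun _ _ b hb _ => hb, fun _ ha => ha.1⟩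

theorem MM_up {𝔹 : Alg B} {R : Set B} (hR : Sub 𝔹 R) : UpIn 𝔹 (MM 𝔹 R) R := by
  intro a ha b hb he T hT
  exact hT.2.2.1 a (ha T hT) b hb he

theorem rec_subset_MM {𝔹 : Alg B} {R : Set B} : Rec 𝔹 R ⊆ MM 𝔹 R := by
  intro a ha T hT
  exact hT.2.2.2 ha

theorem MM_min {𝔹 : Alg B} {R T : Set B} (hT : Sub 𝔹 T) (hTR : T ⊆ R) (hup : UpIn 𝔹 T R)
    (hrec : Rec 𝔹 R ⊆ T) : MM 𝔹 R ⊆ T := by
  intro a ha
  exact ha T ⟨hT, hTR, hup, hrec⟩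

theorem MM_nonempty [Finite B] {𝔹 : Alg B} {R : Set B} (hne : R.Nonempty) :
    (MM 𝔹 R).Nonempty := by
  obtain ⟨a, ha⟩ := hne
  obtain ⟨b, hb, _⟩ := exists_rec (𝔹 := 𝔹) ha
  exact ⟨b, rec_subset_MM hb⟩

/-- for `T` as in `MM_min`: `Rec T = Rec R` (paths starting in `T` stay in `T`), and then both
inclusions by `MM_min` -/
theorem MM_of_between {𝔹 : Alg B} {R T : Set B} (hR : Sub 𝔹 R) (hT : Sub 𝔹 T) (hTR : T ⊆ R)
    (hup : UpIn 𝔹 T R) (hrec : Rec 𝔹 R ⊆ T) : MM 𝔹 T = MM 𝔹 R := by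
  have hmono : ∀ a b, ReachIn 𝔹 T a b → ReachIn 𝔹 R a b := by
    intro a b hab
    refine Relation.ReflTransGen.mono ?_ _ _ hab
    rintro x y ⟨h1, h2, h3⟩
    exact ⟨h1, hTR h2, hTR h3⟩
  have hback : ∀ a b, a ∈ T → ReachIn 𝔹 R a b → ReachIn 𝔹 T a b := by
    intro a b ha hab
    induction hab with
    | refl => exact Relation.ReflTransGen.refl
    | tail h1 h2 ih =>
      have h3 := ReachIn.mem ih ha
      exact Relation.ReflTransGen.tail ih ⟨h2.1, h3, hup _ h3 _ h2.2.2 h2.1⟩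
  have hrecTR : Rec 𝔹 T = Rec 𝔹 R := by
    apply Set.Subset.antisymm
    · rintro a ⟨ha, ha2⟩
      refine ⟨hTR ha, ?_⟩
      intro b hb
      exact hmono _ _ (ha2 b (hback a b ha hb))
    · intro a haR
      have haT := hrec haR
      refine ⟨haT, ?_⟩
      intro b hb
      exact hback b a (ReachIn.mem hb haT) (haR.2 b (hmono _ _ hb))
  apply Set.Subset.antisymm
  · have h1 : MM 𝔹 R ⊆ T := MM_min hT hTR hup hrec
    refine MM_min (MM_sub hR) h1 ?_ ?_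
    · intro a ha b hb he
      exact MM_up hR a ha b (hTR hb) he
    · rw [hrecTR]
      exact rec_subset_MM
  · refine MM_min (MM_sub hT) ((MM_subset hT).trans hTR) ?_ ?_
    · intro a ha b hb he
      exact MM_up hT a ha b (hup a (MM_subset hT ha) b hb he) he
    · rw [← hrecTR]
      exact rec_subset_MM

theorem MM_idem {𝔹 : Alg B} {R : Set B} (hR : Sub 𝔹 R) : MM 𝔹 (MM 𝔹 R) = MM 𝔹 R :=
  MM_of_between hR (MM_sub hR) (MM_subset hR) (MM_up hR) rec_subset_MM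

/-- `MM` commutes with images.  `⊆` (of the image in `MM (g '' R)`): the preimage of
`MM (g '' R)` is a subuniverse of `R`, up-closed (`Edge.hom`), and contains `Rec R`
(`Rec.image`).  `⊇`: `g '' MM R` is a subuniverse of `g '' R`, up-closed (`Edge.lift`), contains
`Rec (g '' R)` (`Rec.lift`). -/
theorem MM_image [Finite A] [Finite B] {𝔸 : Alg A} (h : MinBW 𝔸) {𝔹 : Alg B} {𝔻 : Alg D}
    (hB : Sat 𝔸 𝔹) (hD : Sat 𝔸 𝔻) {R : Set B} (hR : Sub 𝔹 R) {g : B → D}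
    (hg : HomOn 𝔹 𝔻 R g) : g '' (MM 𝔹 R) = MM 𝔻 (g '' R) := by
  apply Set.Subset.antisymm
  · have h1 : MM 𝔹 R ⊆ {x ∈ R | g x ∈ MM 𝔻 (g '' R)} := by
      refine MM_min (hR.preim hg (MM_sub (hR.image hg))) (fun x hx => hx.1) ?_ ?_
      · rintro a ⟨ha, ha2⟩ b hb he
        exact ⟨hb, MM_up (hR.image hg) _ ha2 _ ⟨b, hb, rfl⟩ (Edge.hom hR hg ha hb he)⟩
      · intro a ha
        exact ⟨ha.1, rec_subset_MM (Rec.image h hB hD hR hg ha)⟩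
    rintro _ ⟨x, hx, rfl⟩
    exact (h1 hx).2
  · refine MM_min ((MM_sub hR).image (hg.mono (MM_subset hR)))
      (Set.image_mono (MM_subset hR)) ?_ ?_
    · rintro _ ⟨m, hm, rfl⟩ _ ⟨r'', hr'', rfl⟩ he
      obtain ⟨r', hr', h1, h2⟩ := Edge.lift h hB hD hR hg (MM_subset hR hm) hr'' he
      exact ⟨r', MM_up hR m hm r' hr' h1, h2⟩
    · intro y hy
      obtain ⟨r, hr, h1⟩ := Rec.lift h hB hD hR hg hy
      exact ⟨r, rec_subset_MM hr, h1⟩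

end Pool.Agent.BWC
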