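import Pool.Agent.Lib.MP_d14a7e_al.SymDefs

set_option autoImplicit false
set_option linter.all false

/-! Reductions of symmetric instances by absorption. -/

namespace Pool.Agent.BWC

open Tpl

/-- the smaller domain is absorbing -/
theorem syma1_abs_D {T : Tpl} {D D' : Set T.X} {R R' : ∀ c, Set (T.Y c)} (h : T.Ok D R)
    (h' : T.Ok D' R') {t : Tm 3} (habs : ∀ c, AbsT (T.𝕐 c) t (R' c) (R c)) :
    AbsT T.𝕏 t D' D := by
  obtain ⟨c⟩ := T.neι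
  obtain ⟨i⟩ := T.neJ c
  have h1 := (habs c).image (h.subR c) ((T.hom c i).mono (Set.subset_univ (R c)))
  rwa [h.ac, h'.ac] at h1

/-- the relations of letters are absorbing -/
theorem syma1_abs_L {T : Tpl} {D : Set T.X} {R R' : ∀ c, Set (T.Y c)} (h : T.Ok D R)
    {t : Tm 3} (habs : ∀ c, AbsT (T.𝕐 c) t (R' c) (R c)) (l : T.Letter) :
    AbsT (T.𝕏.prod T.𝕏) t (T.L R' l) (T.L R l) := by
  have h1 := (habs l.1).image (h.subR l.1) (((T.hom l.1 l.2.1).mono (Set.subset_univ (R l.1))).pair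
    ((T.hom l.1 l.2.2).mono (Set.subset_univ _)))
  have h2 : ∀ R : ∀ c, Set (T.Y c),
      T.L R l = (fun x => (T.π l.1 l.2.1 x, T.π l.1 l.2.2 x)) '' R l.1 := by
    intro R
    ext ⟨a, b⟩
    simp [L, Prod.ext_iff]
  rw [h2, h2]; exact h1

/-- absorption and composition of relations -/
theorem syma1_rcomp {A B C : Type} {𝔸 : Alg A} {𝔹 : Alg B} {𝔻 : Alg C} {t : Tm 3}
    {S S' : Set (A × B)} {V V' : Set (B × C)} (hS : AbsT (𝔸.prod 𝔹) t S' S)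
    (hV : AbsT (𝔹.prod 𝔻) t V' V) : AbsT (𝔸.prod 𝔻) t (rcomp S' V') (rcomp S V) := by
  refine ⟨hS.1.rcomp hV.1, fun x ⟨b, hb, hb'⟩ => ⟨b, hS.2.1 hb, hV.2.1 hb'⟩, ?_, ?_, ?_⟩
  · rintro x ⟨x', hx, hx'⟩ y ⟨y', hy, hy'⟩ z ⟨z', hz, hz'⟩
    refine ⟨t3 𝔹 t x' y' z', ?_, ?_⟩
    · have := hS.2.2.1 _ hx _ hy _ hz
      rw [t3_prod] at this ⊢
      exact this
    · have := hV.2.2.1 _ hx' _ hy' _ hz'
      rw [t3_prod] at this ⊢
      exact this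
  · rintro x ⟨x', hx, hx'⟩ y ⟨y', hy, hy'⟩ z ⟨z', hz, hz'⟩
    refine ⟨t3 𝔹 t x' y' z', ?_, ?_⟩
    · have := hS.2.2.2.1 _ hx _ hy _ hz
      rw [t3_prod] at this ⊢
      exact this
    · have := hV.2.2.2.1 _ hx' _ hy' _ hz'
      rw [t3_prod] at this ⊢
      exact this
  · rintro x ⟨x', hx, hx'⟩ y ⟨y', hy, hy'⟩ z ⟨z', hz, hz'⟩
    refine ⟨t3 𝔹 t x' y' z', ?_, ?_⟩
    · have := hS.2.2.2.2 _ hx _ hy _ hz
      rw [t3_prod] at this ⊢
      exact this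
    · have := hV.2.2.2.2 _ hx' _ hy' _ hz'
      rw [t3_prod] at this ⊢
      exact this

/-- the relations of words are absorbing (merging lemma) -/
theorem syma1_abs_E {T : Tpl} {D D' : Set T.X} {R R' : ∀ c, Set (T.Y c)} (h : T.Ok D R)
    (h' : T.Ok D' R') {t : Tm 3} (habs : ∀ c, AbsT (T.𝕐 c) t (R' c) (R c))
    (w : List T.Letter) : AbsT (T.𝕏.prod T.𝕏) t (T.E D' R' w) (T.E D R w) := by
  induction w with
  | nil =>
    have hD := syma1_abs_D h h' habs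
    refine ⟨h'.subD.diag, fun x hx => ⟨hD.2.1 hx.1, hx.2⟩, ?_, ?_, ?_⟩
    · rintro ⟨x, x'⟩ ⟨hx, hxx⟩ ⟨y, y'⟩ ⟨hy, hyy⟩ ⟨z, z'⟩ ⟨hz, hzz⟩
      obtain rfl : x = x' := hxx
      obtain rfl : y = y' := hyy
      obtain rfl : z = z' := hzz
      rw [t3_prod]
      exact ⟨hD.2.2.1 _ hx _ hy _ hz, rfl⟩
    · rintro ⟨x, x'⟩ ⟨hx, hxx⟩ ⟨y, y'⟩ ⟨hy, hyy⟩ ⟨z, z'⟩ ⟨hz, hzz⟩
      obtain rfl : x = x' := hxx
      obtain rfl : y = y' := hyy
      obtain rfl : z = z' := hzz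
      rw [t3_prod]
      exact ⟨hD.2.2.2.1 _ hx _ hy _ hz, rfl⟩
    · rintro ⟨x, x'⟩ ⟨hx, hxx⟩ ⟨y, y'⟩ ⟨hy, hyy⟩ ⟨z, z'⟩ ⟨hz, hzz⟩
      obtain rfl : x = x' := hxx
      obtain rfl : y = y' := hyy
      obtain rfl : z = z' := hzz
      rw [t3_prod]
      exact ⟨hD.2.2.2.2 _ hx _ hy _ hz, rfl⟩
  | cons l w ih => exact syma1_rcomp (syma1_abs_L h habs l) ih

/-- Sub-instances absorbing by a common term satisfy PR.
Proof.  Let `p, q` be words, `m` from PR, `u = pw m (p++q)`, `F = E u` an equivalence on `D`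
containing `E p`.  Claim: `E' (u ++ u ++ u) = F ∩ D'²` (`E'` = relations of `(D',R')`);
note `u ++ u ++ u = pw (3m) (p++q)`.
`⊆` by `E_mono` and transitivity.  `⊇`: let `(a,b) ∈ F`, `a, b ∈ D'`.  There are `a1, a2 ∈ D'` with
`(a,a1), (a1,a2) ∈ E' u`; `(a2,b) ∈ F`;   `b1, b2 ∈ D'` with `(b1,b), (b2,b1) ∈ E' u`;
`(a,b2) ∈ F`; and `a1' ∈ D'` with `(a,a1') ∈ E' u`, `b1' ∈ D'` with `(b1',b) ∈ E' u`,
`(a1',b1') ∈ F`.  Merge by `t` the three walks  `a,a1,a2,b`  /  `a,a1',b1',b`  /  `a,b2,b1,b`: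
on each of the three `u`-blocks two of the walks run inside `R'`, and
merging lemma (induction on the word): if `(a₁,b₁), (a₂,b₂) ∈ E' w`, `(a₃,b₃) ∈ E w` then
`(t a₁ a₂ a₃, t b₁ b₂ b₃) ∈ E' w`, and the same for the other two positions.
Finally `t(a,a,a) = a`, `t(b,b,b) = b`. -/
theorem pr_of_abs {T : Tpl} {D D' : Set T.X} {R R' : ∀ c, Set (T.Y c)} (h : T.Ok D R)
    (h' : T.Ok D' R') {t : Tm 3} (habs : ∀ c, AbsT (T.𝕐 c) t (R' c) (R c)) (hpr : T.PR D R) :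
    T.PR D' R' := by
  have habsD := syma1_abs_D h h' habs
  have hD'D : D' ⊆ D := habsD.subset
  have hR'R : ∀ c, R' c ⊆ R c := fun c => (habs c).subset
  intro p q
  obtain ⟨m, hm, heqv, hsub⟩ := hpr p q
  have ht := syma1_abs_E h h' habs (pw m (p ++ q))
  have hZF : T.E D' R' (pw m (p ++ q)) ⊆ T.E D R (pw m (p ++ q)) := ht.subset
  have hpow : pw (3 * m) (p ++ q) = pw m (p ++ q) ++ (pw m (p ++ q) ++ pw m (p ++ q)) := by
    rw [show 3 * m = m + (m + m) by ring, pw_add, pw_add]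
  have hback : ∀ a b, (a, b) ∈ T.E D R (pw m (p ++ q)) → a ∈ D' → b ∈ D' →
      (a, b) ∈ T.E D' R' (pw (3 * m) (p ++ q)) := by
    intro a b hab ha hb
    obtain ⟨a1, haa1⟩ := E_right h' (pw m (p ++ q)) ha
    obtain ⟨a2, ha12⟩ := E_right h' (pw m (p ++ q)) (E_mem h' haa1).2
    obtain ⟨b1, hbb1⟩ := E_left h' (pw m (p ++ q)) hb
    obtain ⟨b2, hb12⟩ := E_left h' (pw m (p ++ q)) (E_mem h' hbb1).1
    have e1 : (a2, b) ∈ T.E D R (pw m (p ++ q)) :=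
      heqv.trans _ _ _ (heqv.symm _ _ (heqv.trans _ _ _ (hZF haa1) (hZF ha12))) hab
    have e2 : (a, b2) ∈ T.E D R (pw m (p ++ q)) :=
      heqv.trans _ _ _ hab (heqv.symm _ _ (heqv.trans _ _ _ (hZF hb12) (hZF hbb1)))
    have e3 : (a1, b1) ∈ T.E D R (pw m (p ++ q)) :=
      heqv.trans _ _ _ (heqv.symm _ _ (hZF haa1))
        (heqv.trans _ _ _ hab (heqv.symm _ _ (hZF hbb1)))
    have s1' := ht.2.2.2.2 _ haa1 _ haa1 _ e2
    have s2' := ht.2.2.2.1 _ ha12 _ e3 _ hb12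
    have s3' := ht.2.2.1 _ e1 _ hbb1 _ hbb1
    rw [t3_prod] at s1' s2' s3'
    simp only [t3_idem T.bwX] at s1' s2' s3'
    rw [hpow, E_append h', E_append h']
    exact ⟨_, s1', _, s2', s3'⟩
  have hforth : ∀ a b, (a, b) ∈ T.E D' R' (pw (3 * m) (p ++ q)) →
      (a, b) ∈ T.E D R (pw m (p ++ q)) := by
    intro a b hab
    have hab' := E_mono hD'D hR'R _ hab
    rw [hpow, E_append h, E_append h] at hab'
    obtain ⟨x, hx, y, hy, hyb⟩ := hab'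
    exact heqv.trans _ _ _ hx (heqv.trans _ _ _ hy hyb)
  refine ⟨3 * m, by omega, ⟨?_, ?_, ?_, ?_⟩, ?_⟩
  · intro a b hab
    exact E_mem h' hab
  · intro a ha
    exact hback a a (heqv.refl a (hD'D ha)) ha ha
  · intro a b hab
    obtain ⟨ha, hb⟩ := E_mem h' hab
    exact hback b a (heqv.symm _ _ (hforth a b hab)) hb ha
  · intro a b c hab hbc
    obtain ⟨ha, hb⟩ := E_mem h' hab
    obtain ⟨_, hc'⟩ := E_mem h' hbc
    exact hback a c (heqv.trans _ _ _ (hforth a b hab) (hforth b c hbc)) ha hc'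
  · rintro ⟨a, b⟩ hab
    obtain ⟨ha, hb⟩ := E_mem h' hab
    exact hback a b (hsub (E_mono hD'D hR'R _ hab)) ha hb

end Pool.Agent.BWC
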