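import Pool.Agent.Lib.MP_d14a7e_al.SymA1

set_option autoImplicit false
set_option linter.all false

/-! Reductions of symmetric instances by absorption. -/

namespace Pool.Agent.BWC

open Tpl

/-- compatibility of two subsets sitting at two constraints -/
private def m3coreCC (T : Tpl) (D : Set T.X) (R : ∀ c, Set (T.Y c)) (c₁ c₂ : T.ι)
    (B₁ : Set (T.Y c₁)) (B₂ : Set (T.Y c₂)) : Prop :=
  ∀ (p : List T.Letter) (i₁ : T.J c₁) (i₂ : T.J c₂),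
    ∃ r ∈ B₁, ∃ r' ∈ B₂, (T.π c₁ i₁ r, T.π c₂ i₂ r') ∈ T.E D R p

private theorem m3core_symm {T : Tpl} {D : Set T.X} {R : ∀ c, Set (T.Y c)} (h : T.Ok D R)
    {c₁ c₂ : T.ι} {B₁ : Set (T.Y c₁)} {B₂ : Set (T.Y c₂)} (hC : m3coreCC T D R c₁ c₂ B₁ B₂) :
    m3coreCC T D R c₂ c₁ B₂ B₁ := by
  intro p i₂ i₁
  obtain ⟨r, hr, r', hr', hE⟩ := hC (rev p) i₁ i₂
  exact ⟨r', hr', r, hr, (E_rev h p _ _).1 hE⟩

private theorem m3core_step {T : Tpl} {D : Set T.X} {R : ∀ c, Set (T.Y c)} (h : T.Ok D R)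
    {t : Tm 3} {c c' c₂ : T.ι} {B : Set (T.Y c)} {B₀ : Set (T.Y c')} {B₂ : Set (T.Y c₂)}
    (hB : AbsT (T.𝕐 c) t B (R c)) (hB₀ : AbsT (T.𝕐 c') t B₀ (R c'))
    (hB₂ : AbsT (T.𝕐 c₂) t B₂ (R c₂)) (h1 : m3coreCC T D R c c₂ B B₂)
    (h2 : m3coreCC T D R c c' B B₀) (h3 : m3coreCC T D R c' c₂ B₀ B₂) (i : T.J c)
    (i' : T.J c') :
    m3coreCC T D R c c₂ {r ∈ B | T.π c i r ∈ T.π c' i' '' B₀} B₂ := by
  intro p k k₂
  -- the subuniverse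
  let P : Set (T.Y c' × (T.Y c × T.Y c₂)) :=
    {x | x.1 ∈ R c' ∧ x.2.1 ∈ R c ∧ x.2.2 ∈ R c₂ ∧ T.π c' i' x.1 = T.π c i x.2.1 ∧
      (T.π c k x.2.1, T.π c₂ k₂ x.2.2) ∈ T.E D R p}
  have hE := E_sub h p
  have hP : Sub ((T.𝕐 c').prod ((T.𝕐 c).prod (T.𝕐 c₂))) P := by
    constructor
    · rintro ⟨x1, x2, x3⟩ ⟨a1, a2, a3, a4, a5⟩ ⟨y1, y2, y3⟩ ⟨b1, b2, b3, b4, b5⟩
        ⟨z1, z2, z3⟩ ⟨d1, d2, d3, d4, d5⟩
      refine ⟨(h.subR c').1 _ a1 _ b1 _ d1, (h.subR c).1 _ a2 _ b2 _ d2,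
        (h.subR c₂).1 _ a3 _ b3 _ d3, ?_, ?_⟩
      · show T.π c' i' ((T.𝕐 c').v x1 y1 z1) = T.π c i ((T.𝕐 c).v x2 y2 z2)
        rw [(T.hom c' i').1 _ trivial _ trivial _ trivial,
          (T.hom c i).1 _ trivial _ trivial _ trivial]
        simp only at a4 b4 d4
        rw [a4, b4, d4]
      · show (T.π c k ((T.𝕐 c).v x2 y2 z2), T.π c₂ k₂ ((T.𝕐 c₂).v x3 y3 z3)) ∈ T.E D R p
        rw [(T.hom c k).1 _ trivial _ trivial _ trivial,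
          (T.hom c₂ k₂).1 _ trivial _ trivial _ trivial]
        exact hE.1 _ a5 _ b5 _ d5
    · rintro ⟨x1, x2, x3⟩ ⟨a1, a2, a3, a4, a5⟩ ⟨y1, y2, y3⟩ ⟨b1, b2, b3, b4, b5⟩
        ⟨z1, z2, z3⟩ ⟨d1, d2, d3, d4, d5⟩ ⟨u1, u2, u3⟩ ⟨e1, e2, e3, e4, e5⟩
      refine ⟨(h.subR c').2 _ a1 _ b1 _ d1 _ e1, (h.subR c).2 _ a2 _ b2 _ d2 _ e2,
        (h.subR c₂).2 _ a3 _ b3 _ d3 _ e3, ?_, ?_⟩
      · show T.π c' i' ((T.𝕐 c').w x1 y1 z1 u1) = T.π c i ((T.𝕐 c).w x2 y2 z2 u2)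
        rw [(T.hom c' i').2 _ trivial _ trivial _ trivial _ trivial,
          (T.hom c i).2 _ trivial _ trivial _ trivial _ trivial]
        simp only at a4 b4 d4 e4
        rw [a4, b4, d4, e4]
      · show (T.π c k ((T.𝕐 c).w x2 y2 z2 u2), T.π c₂ k₂ ((T.𝕐 c₂).w x3 y3 z3 u3)) ∈
          T.E D R p
        rw [(T.hom c k).2 _ trivial _ trivial _ trivial _ trivial,
          (T.hom c₂ k₂).2 _ trivial _ trivial _ trivial _ trivial]
        exact hE.2 _ a5 _ b5 _ d5 _ e5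
  -- the three absorbing sets
  have hN1 : AbsT ((T.𝕐 c').prod ((T.𝕐 c).prod (T.𝕐 c₂))) t {x ∈ P | x.1 ∈ B₀} P :=
    AbsT.preim hP (HomOn.fst _ _ _) (fun x hx => hx.1) hB₀
  have hN2 : AbsT ((T.𝕐 c').prod ((T.𝕐 c).prod (T.𝕐 c₂))) t {x ∈ P | x.2.1 ∈ B} P :=
    AbsT.preim (f := fun x => x.2.1) hP
      ((HomOn.snd _ _ P).comp (HomOn.fst _ _ Set.univ) (fun _ _ => trivial))
      (fun x hx => hx.2.1) hB
  have hN3 : AbsT ((T.𝕐 c').prod ((T.𝕐 c).prod (T.𝕐 c₂))) t {x ∈ P | x.2.2 ∈ B₂} P :=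
    AbsT.preim (f := fun x => x.2.2) hP
      ((HomOn.snd _ _ P).comp (HomOn.snd _ _ Set.univ) (fun _ _ => trivial))
      (fun x hx => hx.2.2.1) hB₂
  have e12 : ({x ∈ P | x.1 ∈ B₀} ∩ {x ∈ P | x.2.1 ∈ B}).Nonempty := by
    obtain ⟨r, hr, s, hs, hrs⟩ := h2 [] i i'
    have hrs' : T.π c i r = T.π c' i' s := hrs.2
    have hkD : T.π c k r ∈ D := by
      rw [← h.ac c k]; exact ⟨r, hB.subset hr, rfl⟩
    obtain ⟨y, hy⟩ := E_right h p hkD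
    have hyD : y ∈ T.π c₂ k₂ '' R c₂ := by rw [h.ac]; exact (E_mem h hy).2
    obtain ⟨r', hr', rfl⟩ := hyD
    have hmem : (s, (r, r')) ∈ P := ⟨hB₀.subset hs, hB.subset hr, hr', hrs'.symm, hy⟩
    exact ⟨(s, (r, r')), ⟨hmem, hs⟩, ⟨hmem, hr⟩⟩
  have e23 : ({x ∈ P | x.2.1 ∈ B} ∩ {x ∈ P | x.2.2 ∈ B₂}).Nonempty := by
    obtain ⟨r, hr, r', hr', hrr⟩ := h1 p k k₂
    have hiD : T.π c i r ∈ T.π c' i' '' R c' := by
      rw [h.ac, ← h.ac c i]; exact ⟨r, hB.subset hr, rfl⟩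
    obtain ⟨s, hs, hsr⟩ := hiD
    have hmem : (s, (r, r')) ∈ P := ⟨hs, hB.subset hr, hB₂.subset hr', hsr, hrr⟩
    exact ⟨(s, (r, r')), ⟨hmem, hr⟩, ⟨hmem, hr'⟩⟩
  have e13 : ({x ∈ P | x.1 ∈ B₀} ∩ {x ∈ P | x.2.2 ∈ B₂}).Nonempty := by
    obtain ⟨s, hs, r', hr', x, ⟨r, hr, hx1, hx2⟩, hx3⟩ :=
      h3 ((⟨c, (i, k)⟩ : T.Letter) :: p) i' k₂
    change r ∈ R c at hr
    change T.π c i r = T.π c' i' s at hx1
    change T.π c k r = x at hx2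
    change (x, T.π c₂ k₂ r') ∈ T.E D R p at hx3
    subst hx2
    have hmem : (s, (r, r')) ∈ P := ⟨hB₀.subset hs, hr, hB₂.subset hr', hx1.symm, hx3⟩
    exact ⟨(s, (r, r')), ⟨hmem, hs⟩, ⟨hmem, hr'⟩⟩
  obtain ⟨⟨s, r, r'⟩, ⟨⟨hP', hs⟩, ⟨_, hr⟩⟩, ⟨_, hr'⟩⟩ := AbsT.helly3 hN1 hN2 hN3 e12 e13 e23
  exact ⟨r, ⟨hr, ⟨s, hs, hP'.2.2.2.1⟩⟩, r', hr', hP'.2.2.2.2⟩

/-- A compatible family of `t`-absorbing subsets contains an arc-consistent one.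
Proof.  Take such a family `b' ≤ b` (each `b' c` `t`-absorbing, `Compat`) with
`∑ c, (b' c).ncard` least.  Claim: `π c i '' b' c ⊆ π c' i' '' b' c'` for all
`(c,i), (c',i')`.  Put `b'' c = {r ∈ b' c | π c i r ∈ π c' i' '' b' c'}`, `b'' = b'` otherwise:
again `t`-absorbing (`AbsT.image`, `AbsT.preim`, `AbsT.inter`); to show it is compatible.
General lemma: for `t`-absorbing `B₁ ⊆ R c₁`, `B₂ ⊆ R c₂` write `C(B₁@c₁, B₂@c₂)` for
`∀ p i₁ i₂, ∃ r ∈ B₁, ∃ r' ∈ B₂, (π c₁ i₁ r, π c₂ i₂ r') ∈ E p`; it is symmetric (`rev`).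
If `C(B@c, B₂@c₂)`, `C(B@c, B₀@c')`, `C(B₀@c', B₂@c₂)` then
`C({r ∈ B | π c i r ∈ π c' i' '' B₀}@c, B₂@c₂)`:  for a word `p` and coordinates `k` (of `c`),
`k₂` (of `c₂`) apply `AbsT.helly3` in the subuniverse
`P = {(s, r, r') | s ∈ R c', r ∈ R c, r' ∈ R c₂, π c' i' s = π c i r, (π c k r, π c₂ k₂ r') ∈ E p}`
of `Y c' × (Y c × Y c₂)` to the three sets given by `s ∈ B₀`, `r ∈ B`, `r' ∈ B₂`
(`AbsT.preim`, relative to `P`); the pairwise intersections are nonempty by the hypotheses, used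
with the empty word, the word `p`, and the word `(c,(i,k)) :: p`; the missing component exists by
arc-consistency (`h.ac`).
So `C(b'' c, b' c₂)` for all `c₂` (three times the compatibility of `b'`), and then also
`C(b'' c, b'' c)` by applying the lemma with `B₂ = b'' c` and symmetry.
By minimality `b'' = b'`, which is the claim.  So all `π c i '' b' c` are equal, to `D'` say, and
`(D', b')` is Ok; PR by `pr_of_abs`. -/
theorem m3core {T : Tpl} {D : Set T.X} {R : ∀ c, Set (T.Y c)} (h : T.Ok D R) (hpr : T.PR D R)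
    {t : Tm 3} {b : ∀ c, Set (T.Y c)} (hb : ∀ c, AbsT (T.𝕐 c) t (b c) (R c))
    (hc : T.Compat D R b) :
    ∃ (D' : Set T.X) (R' : ∀ c, Set (T.Y c)), T.Ok D' R' ∧ T.PR D' R' ∧ ∀ c, R' c ⊆ b c := by
  classical
  haveI := T.finι
  haveI := T.finY
  haveI : Finite (∀ c, Set (T.Y c)) := Pi.finite
  let 𝒮 : Set (∀ c, Set (T.Y c)) :=
    {b' | (∀ c, AbsT (T.𝕐 c) t (b' c) (R c)) ∧ T.Compat D R b' ∧ ∀ c, b' c ⊆ b c}
  have h𝒮ne : 𝒮.Nonempty := ⟨b, hb, hc, fun c => subset_rfl⟩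
  obtain ⟨b', hb'⟩ := (Set.toFinite 𝒮).exists_minimal h𝒮ne
  obtain ⟨⟨hab, hco, hbb⟩, hmin⟩ := hb'
  have hCC : ∀ c₁ c₂, m3coreCC T D R c₁ c₂ (b' c₁) (b' c₂) :=
    fun c₁ c₂ p i₁ i₂ => hco p c₁ i₁ c₂ i₂
  -- main claim
  have claim : ∀ (c : T.ι) (i : T.J c) (c' : T.ι) (i' : T.J c'),
      T.π c i '' b' c ⊆ T.π c' i' '' b' c' := by
    intro c i c' i'
    let N : Set (T.Y c) := {r ∈ b' c | T.π c i r ∈ T.π c' i' '' b' c'}
    have hN : AbsT (T.𝕐 c) t N (R c) := by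
      have h1 : AbsT T.𝕏 t (T.π c' i' '' b' c') (T.π c' i' '' R c') :=
        (hab c').image (h.subR c') ((T.hom c' i').mono (Set.subset_univ _))
      have h2 : AbsT (T.𝕐 c) t {x ∈ R c | T.π c i x ∈ T.π c' i' '' b' c'} (R c) := by
        refine AbsT.preim (h.subR c) ((T.hom c i).mono (Set.subset_univ _)) ?_ h1
        intro x hx
        rw [h.ac, ← h.ac c i]
        exact ⟨x, hx, rfl⟩
      have h3 := (hab c).inter h2
      have h4 : b' c ∩ {x ∈ R c | T.π c i x ∈ T.π c' i' '' b' c'} = N := by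
        ext x
        constructor
        · rintro ⟨h1, h2, h3⟩; exact ⟨h1, h3⟩
        · rintro ⟨h1, h2⟩; exact ⟨h1, (hab c).subset h1, h2⟩
      rwa [h4] at h3
    have hA : ∀ c₂, m3coreCC T D R c c₂ N (b' c₂) := fun c₂ =>
      m3core_step h (hab c) (hab c') (hab c₂) (hCC c c₂) (hCC c c') (hCC c' c₂) i i'
    have hBB : m3coreCC T D R c c N N :=
      m3core_step h (hab c) (hab c') hN (m3core_symm h (hA c)) (hCC c c')
        (m3core_symm h (hA c')) i i'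
    let b'' : ∀ c, Set (T.Y c) := Function.update b' c N
    have hself : b'' c = N := by simp [b'']
    have hother : ∀ c₁, c₁ ≠ c → b'' c₁ = b' c₁ := fun c₁ hne => by
      simp [b'', Function.update_of_ne hne]
    have hb''le : ∀ c₁, b'' c₁ ⊆ b' c₁ := by
      intro c₁
      by_cases hc₁ : c₁ = c
      · subst hc₁; rw [hself]; exact fun x hx => hx.1
      · rw [hother _ hc₁]
    have hb''mem : b'' ∈ 𝒮 := by
      refine ⟨?_, ?_, fun c₁ => (hb''le c₁).trans (hbb c₁)⟩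
      · intro c₁
        by_cases hc₁ : c₁ = c
        · subst hc₁; rw [hself]; exact hN
        · rw [hother _ hc₁]; exact hab c₁
      · intro p c₁ i₁ c₂ i₂
        by_cases hc₁ : c₁ = c
        · subst hc₁
          rw [hself]
          by_cases hc₂ : c₂ = c₁
          · subst hc₂
            rw [hself]
            exact hBB p i₁ i₂
          · rw [hother _ hc₂]
            exact hA c₂ p i₁ i₂
        · rw [hother _ hc₁]
          by_cases hc₂ : c₂ = c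
          · subst hc₂
            rw [hself]
            exact m3core_symm h (hA c₁) p i₁ i₂
          · rw [hother _ hc₂]
            exact hCC c₁ c₂ p i₁ i₂
    have hle := hmin hb''mem hb''le
    have hcN : b' c ⊆ N := by
      have := hle c
      rwa [hself] at this
    rintro _ ⟨r, hr, rfl⟩
    exact (hcN hr).2
  -- conclusion
  obtain ⟨c₀⟩ := T.neι
  obtain ⟨i₀⟩ := T.neJ c₀
  have hok : T.Ok (T.π c₀ i₀ '' b' c₀) b' := by
    refine ⟨?_, ?_, fun c => (hab c).sub, ?_⟩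
    · exact (hab c₀).sub.image ((T.hom c₀ i₀).mono (Set.subset_univ _))
    · obtain ⟨r, hr, _⟩ := hco [] c₀ i₀ c₀ i₀
      exact ⟨_, r, hr, rfl⟩
    · intro c i
      exact Set.Subset.antisymm (claim c i c₀ i₀) (claim c₀ i₀ c i)
  exact ⟨_, b', hok, pr_of_abs h hok hab hpr, hbb⟩

end Pool.Agent.BWC
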