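import Pool.Agent.Lib.MP_d14a7e_al.SymA2

set_option autoImplicit false
set_option linter.all false

/-! Reductions of symmetric instances by absorption. -/

namespace Pool.Agent.BWC

open Tpl

theorem syma3_plus_append {T : Tpl} {D : Set T.X} {R : ∀ c, Set (T.Y c)} (h : T.Ok D R)
    (B : Set T.X) (p q : List T.Letter) :
    plus T D R B (p ++ q) = plus T D R (plus T D R B p) q := by
  unfold plus
  rw [E_append h]
  ext b
  constructor
  · rintro ⟨a, ha, c, hac, hcb⟩
    exact ⟨c, ⟨a, ha, hac⟩, hcb⟩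
  · rintro ⟨c, ⟨a, ha, hac⟩, hcb⟩
    exact ⟨a, ha, c, hac, hcb⟩

theorem syma3_plus_nil {T : Tpl} {D : Set T.X} {R : ∀ c, Set (T.Y c)}
    {B : Set T.X} (hB : B ⊆ D) : plus T D R B [] = B := by
  ext b
  constructor
  · rintro ⟨a, ha, hab⟩
    have h1 : a = b := hab.2
    rw [← h1]; exact ha
  · intro hb
    exact ⟨b, hb, hB hb, rfl⟩

theorem syma3_plus_pw {T : Tpl} {D : Set T.X} {R : ∀ c, Set (T.Y c)} (h : T.Ok D R)
    {B : Set T.X} (hB : B ⊆ D) {w : List T.Letter} (hw : plus T D R B w = B) (m : ℕ) :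
    plus T D R B (pw m w) = B := by
  induction m with
  | zero => exact syma3_plus_nil hB
  | succ m ih => rw [pw_succ, syma3_plus_append h, hw, ih]

theorem syma3_plus_abs {T : Tpl} {D : Set T.X} {R : ∀ c, Set (T.Y c)} (h : T.Ok D R)
    {t : Tm 3} {B : Set T.X} (hB : AbsT T.𝕏 t B D) (p : List T.Letter) :
    AbsT T.𝕏 t (plus T D R B p) D := by
  have h1 := hB.img (E_sub h p)
  have h2 : img (T.E D R p) D = D := by
    ext b
    constructor
    · rintro ⟨a, ha, hab⟩; exact (E_mem h hab).2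
    · intro hb
      obtain ⟨a, hab⟩ := E_left h p hb
      exact ⟨a, (E_mem h hab).1, hab⟩
  rw [h2] at h1
  exact h1

/-- a maximal class of absorbing sets -/
theorem syma3_exists_B {T : Tpl} {D : Set T.X} {R : ∀ c, Set (T.Y c)} (h : T.Ok D R)
    {t : Tm 3} {N : Set T.X} (hN : AbsT T.𝕏 t N D) (hne : N.Nonempty) (hND : N ≠ D) :
    ∃ B : Set T.X, B.Nonempty ∧ B ≠ D ∧ AbsT T.𝕏 t B D ∧
      ∀ p, plus T D R B p ≠ D → ∃ q, plus T D R (plus T D R B p) q = B := by
  classical
  haveI := T.finX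
  let P : Set (Set T.X) := {B | B.Nonempty ∧ B ≠ D ∧ AbsT T.𝕏 t B D}
  let reach : Set T.X → Set (Set T.X) := fun B => {B' | B' ∈ P ∧ ∃ p, plus T D R B p = B'}
  have hPfin : P.Finite := Set.toFinite _
  obtain ⟨B, hBP, hmin⟩ := Set.exists_min_image P (fun B => (reach B).ncard) hPfin
    ⟨N, hne, hND, hN⟩
  refine ⟨B, hBP.1, hBP.2.1, hBP.2.2, fun p hp => ?_⟩
  have hB'P : plus T D R B p ∈ P := by
    refine ⟨?_, hp, syma3_plus_abs h hBP.2.2 p⟩
    obtain ⟨a, ha⟩ := hBP.1
    obtain ⟨b, hab⟩ := E_right h p (hBP.2.2.subset ha)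
    exact ⟨b, a, ha, hab⟩
  have hsub : reach (plus T D R B p) ⊆ reach B := by
    rintro B'' ⟨h1, q, hq⟩
    exact ⟨h1, p ++ q, by rw [syma3_plus_append h, hq]⟩
  have heq : reach (plus T D R B p) = reach B :=
    Set.eq_of_subset_of_ncard_le hsub (hmin _ hB'P) (Set.toFinite _)
  have hself : B ∈ reach B := ⟨hBP, [], syma3_plus_nil hBP.2.2.subset⟩
  rw [← heq] at hself
  exact hself.2

/-- If `D` has a proper nonempty 3-absorbing subuniverse there is a smaller instance.
Proof.  Let `t` be the term.  For `B ⊆ D` `t`-absorbing, nonempty, and a word `p`, `plus B p` is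
`t`-absorbing in `D` (`AbsT.img`, `img (E p) D = D`), nonempty.
Choose `B` nonempty, proper, `t`-absorbing such that for each word `p` with `plus B p ≠ D` there is
`q` with `plus (plus B p) q = B`
(finite preorder `B ≤ plus B p` on proper `t`-absorbing sets: take a maximal class).
Then `plus B p ∈ {B, D}` for all `p`: if `B' = plus B p ≠ D`, take `q`; `plus B (p++q) = B`, so
`plus B (pw m (p++q)) = B`; PR for `(p,q)` gives `B' ⊆ plus B (E (pw m (p++q))) = B`;
symmetrically (`plus B' (q++p) = B'`, PR for `(q,p)`) `B = plus B' q ⊆ B'`.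
Now apply `m3core` to `b c₀ = {r ∈ R c₀ | π c₀ i r ∈ B}` (one coordinate `i` only) and
`b c = R c` for `c ≠ c₀`.  Compat: for `c = c' = c₀` and `p`: `plus B p ⊇ B`; the other cases are
trivial (arc-consistency).  `D' = π c₀ i '' R' c₀ ⊆ B`, proper. -/
theorem m3 {T : Tpl} {D : Set T.X} {R : ∀ c, Set (T.Y c)} (h : T.Ok D R) (hpr : T.PR D R)
    (c₀ : T.ι) (hc₀ : ∀ i j : T.J c₀, i = j) {N : Set T.X} (hN : Abs3 T.𝕏 N D)
    (hne : N.Nonempty) (hND : N ≠ D) :
    ∃ (D' : Set T.X) (R' : ∀ c, Set (T.Y c)), T.Ok D' R' ∧ T.PR D' R' ∧ D' ⊂ D ∧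
      ∀ c, R' c ⊆ R c := by
  classical
  haveI := T.finX
  obtain ⟨t, hNt⟩ := hN
  obtain ⟨B, hBne, hBD, hB, hret⟩ := syma3_exists_B h hNt hne hND
  have hBsub : B ⊆ D := hB.subset
  -- each `plus B p` is `B` or `D`
  have hdich : ∀ p, plus T D R B p = B ∨ plus T D R B p = D := by
    intro p
    by_cases hp : plus T D R B p = D
    · exact Or.inr hp
    · left
      obtain ⟨q, hq⟩ := hret p hp
      apply Set.Subset.antisymm
      · obtain ⟨m, hm, -, hsub⟩ := hpr p q
        have h1 : plus T D R B (p ++ q) = B := by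
          rw [syma3_plus_append h]; exact hq
        have h2 := syma3_plus_pw h hBsub h1 m
        calc plus T D R B p ⊆ plus T D R B (pw m (p ++ q)) := by
              rintro b ⟨a, ha, hab⟩; exact ⟨a, ha, hsub hab⟩
          _ = B := h2
      · obtain ⟨m, hm, -, hsub⟩ := hpr q p
        have hB'sub : plus T D R B p ⊆ D := by
          rintro b ⟨a, ha, hab⟩; exact (E_mem h hab).2
        have h1 : plus T D R (plus T D R B p) (q ++ p) = plus T D R B p := by
          rw [syma3_plus_append h, hq]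
        have h2 := syma3_plus_pw h hB'sub h1 m
        calc B = plus T D R (plus T D R B p) q := hq.symm
          _ ⊆ plus T D R (plus T D R B p) (pw m (q ++ p)) := by
              rintro b ⟨a, ha, hab⟩; exact ⟨a, ha, hsub hab⟩
          _ = plus T D R B p := h2
  have hsupB : ∀ p, B ⊆ plus T D R B p := by
    intro p
    rcases hdich p with hp | hp
    · rw [hp]
    · rw [hp]; exact hBsub
  -- the family
  let b : ∀ c, Set (T.Y c) := fun c => {r | r ∈ R c ∧ (c = c₀ → ∀ i, T.π c i r ∈ B)}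
  have hbabs : ∀ c, AbsT (T.𝕐 c) t (b c) (R c) := by
    intro c
    by_cases hcc : c = c₀
    · subst hcc
      obtain ⟨i⟩ := T.neJ c
      have h1 := AbsT.preim (h.subR c) ((T.hom c i).mono (Set.subset_univ (R c)))
        (fun x hx => by rw [← h.ac c i]; exact ⟨x, hx, rfl⟩) hB
      have h2 : b c = {x | x ∈ R c ∧ T.π c i x ∈ B} := by
        ext r
        constructor
        · rintro ⟨hr, hr'⟩; exact ⟨hr, hr' rfl i⟩
        · rintro ⟨hr, hr'⟩
          refine ⟨hr, fun _ j => ?_⟩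
          rw [hc₀ j i]; exact hr'
      rw [h2]; exact h1
    · have h2 : b c = R c := by
        ext r
        constructor
        · rintro ⟨hr, hr'⟩; exact hr
        · intro hr; exact ⟨hr, fun hc => absurd hc hcc⟩
      rw [h2]; exact AbsT.refl (h.subR c)
  have hlift : ∀ c (i : T.J c) x, x ∈ D → (c = c₀ → x ∈ B) → ∃ r ∈ b c, T.π c i r = x := by
    intro c i x hxD hx
    have : x ∈ T.π c i '' R c := by rw [h.ac]; exact hxD
    obtain ⟨r, hr, rfl⟩ := this
    refine ⟨r, ⟨hr, fun hc j => ?_⟩, rfl⟩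
    subst hc
    rw [hc₀ j i]; exact hx rfl
  have hcompat : T.Compat D R b := by
    intro p c i c' i'
    have key : ∃ x ∈ D, ∃ y ∈ D, (x, y) ∈ T.E D R p ∧ (c = c₀ → x ∈ B) ∧ (c' = c₀ → y ∈ B) := by
      by_cases h2 : c' = c₀
      · obtain ⟨y, hy⟩ := hBne
        obtain ⟨x, hx, hxy⟩ := hsupB p hy
        exact ⟨x, hBsub hx, y, hBsub hy, hxy, fun _ => hx, fun _ => hy⟩
      · by_cases h1 : c = c₀
        · obtain ⟨x, hx⟩ := hBne
          obtain ⟨y, hxy⟩ := E_right h p (hBsub hx)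
          exact ⟨x, hBsub hx, y, (E_mem h hxy).2, hxy, fun _ => hx, fun e => absurd e h2⟩
        · obtain ⟨x, hx⟩ := h.neD
          obtain ⟨y, hxy⟩ := E_right h p hx
          exact ⟨x, hx, y, (E_mem h hxy).2, hxy, fun e => absurd e h1, fun e => absurd e h2⟩
    obtain ⟨x, hx, y, hy, hxy, hx', hy'⟩ := key
    obtain ⟨r, hr, hrx⟩ := hlift c i x hx hx'
    obtain ⟨r', hr', hry⟩ := hlift c' i' y hy hy'
    exact ⟨r, hr, r', hr', by rw [hrx, hry]; exact hxy⟩
  obtain ⟨D', R', h1, h2, h3⟩ := m3core h hpr hbabs hcompat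
  have hD'B : D' ⊆ B := by
    obtain ⟨i⟩ := T.neJ c₀
    intro x hx
    rw [← h1.ac c₀ i] at hx
    obtain ⟨r, hr, rfl⟩ := hx
    exact (h3 c₀ hr).2 rfl i
  exact ⟨D', R', h1, h2, lt_of_le_of_lt hD'B (lt_of_le_of_ne hBsub hBD),
    fun c r hr => (h3 c hr).1⟩

end Pool.Agent.BWC
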