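import Pool.Agent.Lib.MP_d14a7e_al.SymDefs

set_option autoImplicit false
set_option linter.all false

/-! Composite constraints and the walk algebra. -/

namespace Pool.Agent.BWC

open Tpl

/-- composite constraint: an algebra with coordinate maps to `X`; any two coordinates are related
by a word -/
structure Cmp (T : Tpl) (D : Set T.X) (R : ∀ c, Set (T.Y c)) {W J : Type} (𝕎 : Alg W)
    (Rw : Set W) (ρ : J → W → T.X) : Prop where
  bw : IsBW 𝕎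
  sub : Sub 𝕎 Rw
  hom : ∀ j, HomOn 𝕎 T.𝕏 Rw (ρ j)
  onto : ∀ j, ρ j '' Rw = D
  word : ∀ j j', ∃ z, ∀ a b, (a, b) ∈ T.E D R z ↔ ∃ r ∈ Rw, ρ j r = a ∧ ρ j' r = b

/-- restriction of the constraints to a subset `D'` -/
def restr (T : Tpl) (R : ∀ c, Set (T.Y c)) (D' : Set T.X) : ∀ c, Set (T.Y c) :=
  fun c => {r | r ∈ R c ∧ ∀ i, T.π c i r ∈ D'}

private theorem symb_single {T : Tpl} {D : Set T.X} {R : ∀ c, Set (T.Y c)} (h : T.Ok D R)
    (c : T.ι) (j j' : T.J c) (a b : T.X) :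
    (a, b) ∈ T.E D R [(⟨c, (j, j')⟩ : T.Letter)] ↔
      ∃ r ∈ R c, T.π c j r = a ∧ T.π c j' r = b := by
  constructor
  · rintro ⟨d, ⟨r, hr, h1, h2⟩, h3, h4⟩
    exact ⟨r, hr, h1, h2.trans h4⟩
  · rintro ⟨r, hr, h1, h2⟩
    have hb : b ∈ D := by rw [← h.ac c j']; exact ⟨r, hr, h2⟩
    exact ⟨b, ⟨r, hr, h1, h2⟩, hb, rfl⟩

/-- the constraints themselves are composite -/
theorem cmp_constraint {T : Tpl} {D : Set T.X} {R : ∀ c, Set (T.Y c)} (h : T.Ok D R) (c : T.ι) :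
    Cmp T D R (T.𝕐 c) (R c) (T.π c) := by
  refine ⟨T.bwY c, h.subR c, fun j => (T.hom c j).mono (Set.subset_univ _), h.ac c, ?_⟩
  intro j j'
  exact ⟨[(⟨c, (j, j')⟩ : T.Letter)], fun a b => symb_single h c j j' a b⟩

/-- the relation of a word, with its two coordinates -/
theorem cmp_word {T : Tpl} {D : Set T.X} {R : ∀ c, Set (T.Y c)} (h : T.Ok D R)
    (u : List T.Letter) :
    Cmp T D R (T.𝕏.prod T.𝕏) (T.E D R u) (fun (j : Bool) p => cond j p.2 p.1) := by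
  refine ⟨T.bwX.prod T.bwX, E_sub h u, ?_, ?_, ?_⟩
  · intro j
    cases j
    · exact HomOn.fst _ _ _
    · exact HomOn.snd _ _ _
  · intro j
    cases j
    · ext a
      constructor
      · rintro ⟨p, hp, rfl⟩
        exact (E_mem h (a := p.1) (b := p.2) hp).1
      · intro ha
        obtain ⟨b, hb⟩ := E_right h u ha
        exact ⟨(a, b), hb, rfl⟩
    · ext a
      constructor
      · rintro ⟨p, hp, rfl⟩
        exact (E_mem h (a := p.1) (b := p.2) hp).2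
      · intro ha
        obtain ⟨b, hb⟩ := E_left h u ha
        exact ⟨(b, a), hb, rfl⟩
  · intro j j'
    cases j <;> cases j'
    · refine ⟨[], fun a b => ⟨?_, ?_⟩⟩
      · rintro ⟨h1, h2⟩
        obtain rfl : a = b := h2
        obtain ⟨b, hb⟩ := E_right h u h1
        exact ⟨(a, b), hb, rfl, rfl⟩
      · rintro ⟨p, hp, h1, h2⟩
        have h1' : p.1 = a := h1
        have h2' : p.1 = b := h2
        subst h1' h2'
        exact ⟨(E_mem h (a := p.1) (b := p.2) hp).1, rfl⟩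
    · refine ⟨u, fun a b => ⟨fun hab => ⟨(a, b), hab, rfl, rfl⟩, ?_⟩⟩
      rintro ⟨p, hp, h1, h2⟩
      have h1' : p.1 = a := h1
      have h2' : p.2 = b := h2
      subst h1' h2'
      exact hp
    · refine ⟨rev u, fun a b => ?_⟩
      rw [E_rev h]
      refine ⟨fun hab => ⟨(b, a), hab, rfl, rfl⟩, ?_⟩
      rintro ⟨p, hp, h1, h2⟩
      have h1' : p.2 = a := h1
      have h2' : p.1 = b := h2
      subst h1' h2'
      exact hp
    · refine ⟨[], fun a b => ⟨?_, ?_⟩⟩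
      · rintro ⟨h1, h2⟩
        obtain rfl : a = b := h2
        obtain ⟨b, hb⟩ := E_left h u h1
        exact ⟨(b, a), hb, rfl, rfl⟩
      · rintro ⟨p, hp, h1, h2⟩
        have h1' : p.2 = a := h1
        have h2' : p.2 = b := h2
        subst h1' h2'
        exact ⟨(E_mem h (a := p.1) (b := p.2) hp).2, rfl⟩

/-- The algebra of all walks with pattern `u`.  Induction on `u`.
`u = []`: `W = X`, `Rw = D`, `J = Unit`, `ρ = id`.
`u = l :: u'`: `W = Y c × W'`, `Rw = {(r,ω) | r ∈ R c, ω ∈ Rw', π c l.2.2 r = ρ' j0' ω}`,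
`J = J c ⊕ J'`, `j0 = inl l.2.1`, `j1 = inr j1'`. -/
theorem exists_walk {T : Tpl} {D : Set T.X} {R : ∀ c, Set (T.Y c)} (h : T.Ok D R)
    (u : List T.Letter) :
    ∃ (W J : Type) (𝕎 : Alg W) (Rw : Set W) (ρ : J → W → T.X) (j0 j1 : J),
      Finite W ∧ Finite J ∧ Cmp T D R 𝕎 Rw ρ ∧
      (∀ a b, (a, b) ∈ T.E D R u ↔ ∃ r ∈ Rw, ρ j0 r = a ∧ ρ j1 r = b) ∧
      (∀ D' ⊆ D, ∀ r ∈ Rw, (∀ j, ρ j r ∈ D') → (ρ j0 r, ρ j1 r) ∈ T.E D' (restr T R D') u) := by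
  induction u with
  | nil =>
    refine ⟨T.X, Unit, T.𝕏, D, fun _ x => x, (), (), T.finX, inferInstance, ?_, ?_, ?_⟩
    · refine ⟨T.bwX, h.subD, fun j => ⟨fun _ _ _ _ _ _ => rfl, fun _ _ _ _ _ _ _ _ => rfl⟩,
        fun j => Set.image_id' D, fun j j' => ⟨[], fun a b => ⟨?_, ?_⟩⟩⟩
      · rintro ⟨h1, h2⟩
        exact ⟨a, h1, rfl, h2⟩
      · rintro ⟨r, hr, h1, h2⟩
        have h1' : r = a := h1
        have h2' : r = b := h2
        subst h1' h2'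
        exact ⟨hr, rfl⟩
    · intro a b
      constructor
      · rintro ⟨h1, h2⟩
        exact ⟨a, h1, rfl, h2⟩
      · rintro ⟨r, hr, h1, h2⟩
        have h1' : r = a := h1
        have h2' : r = b := h2
        subst h1' h2'
        exact ⟨hr, rfl⟩
    · intro D' hD' r hr hj
      exact ⟨hj (), rfl⟩
  | cons l u' ih =>
    obtain ⟨W', J', 𝕎', Rw', ρ', j0', j1', hfW, hfJ, hC, hiff, hres⟩ := ih
    haveI := T.finY l.1
    haveI := T.finJ l.1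
    let Rw : Set (T.Y l.1 × W') :=
      {p | p.1 ∈ R l.1 ∧ p.2 ∈ Rw' ∧ T.π l.1 l.2.2 p.1 = ρ' j0' p.2}
    let ρ : T.J l.1 ⊕ J' → T.Y l.1 × W' → T.X :=
      fun j p => Sum.elim (fun i => T.π l.1 i p.1) (fun j => ρ' j p.2) j
    -- extension properties
    have hext1 : ∀ r ∈ R l.1, ∃ ω, (r, ω) ∈ Rw := by
      intro r hr
      have h1 : T.π l.1 l.2.2 r ∈ D := by rw [← h.ac l.1 l.2.2]; exact ⟨r, hr, rfl⟩
      rw [← hC.onto j0'] at h1
      obtain ⟨ω, hω, hω'⟩ := h1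
      exact ⟨ω, hr, hω, hω'.symm⟩
    have hext2 : ∀ ω ∈ Rw', ∃ r, (r, ω) ∈ Rw := by
      intro ω hω
      have h1 : ρ' j0' ω ∈ D := by rw [← hC.onto j0']; exact ⟨ω, hω, rfl⟩
      rw [← h.ac l.1 l.2.2] at h1
      obtain ⟨r, hr, hr'⟩ := h1
      exact ⟨r, hr, hω, hr'⟩
    have hhom1 : ∀ (i : T.J l.1) (U : Set (T.Y l.1 × W')),
        HomOn ((T.𝕐 l.1).prod 𝕎') T.𝕏 U (fun p => T.π l.1 i p.1) := fun i U =>
      (HomOn.fst (T.𝕐 l.1) 𝕎' U).comp (T.hom l.1 i) (fun _ _ => trivial)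
    have hhom2 : ∀ (j : J') (U : Set (T.Y l.1 × W')), (∀ p ∈ U, p.2 ∈ Rw') →
        HomOn ((T.𝕐 l.1).prod 𝕎') T.𝕏 U (fun p => ρ' j p.2) := fun j U hU =>
      (HomOn.snd (T.𝕐 l.1) 𝕎' U).comp (hC.hom j) hU
    have hsub : Sub ((T.𝕐 l.1).prod 𝕎') Rw := by
      have h1 : Sub ((T.𝕐 l.1).prod 𝕎') (R l.1 ×ˢ Rw') := (h.subR l.1).setprod hC.sub
      have h2 := h1.preim ((hhom1 l.2.2 (R l.1 ×ˢ Rw')).pair
        (hhom2 j0' (R l.1 ×ˢ Rw') (fun p hp => hp.2))) (Sub.univ T.𝕏).diag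
      convert h2 using 1
      ext p
      constructor
      · rintro ⟨h3, h4, h5⟩
        exact ⟨⟨h3, h4⟩, trivial, h5⟩
      · rintro ⟨⟨h3, h4⟩, _, h5⟩
        exact ⟨h3, h4, h5⟩
    have hword : ∀ (i : T.J l.1) (j : J'), ∃ z, ∀ a b, (a, b) ∈ T.E D R z ↔
        ∃ r ∈ Rw, ρ (Sum.inl i) r = a ∧ ρ (Sum.inr j) r = b := by
      intro i j
      obtain ⟨z', hz'⟩ := hC.word j0' j
      refine ⟨(⟨l.1, (i, l.2.2)⟩ : T.Letter) :: z', fun a b => ⟨?_, ?_⟩⟩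
      · rintro ⟨d, ⟨r, hr, h1, h2⟩, h3⟩
        obtain ⟨ω, hω, h4, h5⟩ := (hz' _ _).1 h3
        exact ⟨(r, ω), ⟨hr, hω, h2.trans h4.symm⟩, h1, h5⟩
      · rintro ⟨⟨r, ω⟩, ⟨hr, hω, h1⟩, h2, h3⟩
        exact ⟨T.π l.1 l.2.2 r, ⟨r, hr, h2, rfl⟩, (hz' _ _).2 ⟨ω, hω, h1.symm, h3⟩⟩
    refine ⟨T.Y l.1 × W', T.J l.1 ⊕ J', (T.𝕐 l.1).prod 𝕎', Rw, ρ, Sum.inl l.2.1, Sum.inr j1',
      inferInstance, inferInstance, ⟨(T.bwY l.1).prod hC.bw, hsub, ?_, ?_, ?_⟩, ?_, ?_⟩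
    · rintro (i | j)
      · exact hhom1 i Rw
      · exact hhom2 j Rw (fun p hp => hp.2.1)
    · rintro (i | j)
      · ext a
        constructor
        · rintro ⟨⟨r, ω⟩, ⟨hr, hω, h1⟩, rfl⟩
          show T.π l.1 i r ∈ D
          rw [← h.ac l.1 i]; exact ⟨r, hr, rfl⟩
        · intro ha
          rw [← h.ac l.1 i] at ha
          obtain ⟨r, hr, rfl⟩ := ha
          obtain ⟨ω, hω⟩ := hext1 r hr
          exact ⟨(r, ω), hω, rfl⟩
      · ext a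
        constructor
        · rintro ⟨⟨r, ω⟩, ⟨hr, hω, h1⟩, rfl⟩
          show ρ' j ω ∈ D
          rw [← hC.onto j]; exact ⟨ω, hω, rfl⟩
        · intro ha
          rw [← hC.onto j] at ha
          obtain ⟨ω, hω, rfl⟩ := ha
          obtain ⟨r, hr⟩ := hext2 ω hω
          exact ⟨(r, ω), hr, rfl⟩
    · rintro (i | j) (i' | j')
      · refine ⟨[(⟨l.1, (i, i')⟩ : T.Letter)], fun a b => ?_⟩
        rw [symb_single h]
        constructor
        · rintro ⟨r, hr, h1, h2⟩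
          obtain ⟨ω, hω⟩ := hext1 r hr
          exact ⟨(r, ω), hω, h1, h2⟩
        · rintro ⟨⟨r, ω⟩, hω, h1, h2⟩
          exact ⟨r, hω.1, h1, h2⟩
      · exact hword i j'
      · obtain ⟨z, hz⟩ := hword i' j
        refine ⟨rev z, fun a b => ?_⟩
        rw [E_rev h, hz]
        constructor
        · rintro ⟨r, hr, h1, h2⟩; exact ⟨r, hr, h2, h1⟩
        · rintro ⟨r, hr, h1, h2⟩; exact ⟨r, hr, h2, h1⟩
      · obtain ⟨z, hz⟩ := hC.word j j'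
        refine ⟨z, fun a b => ?_⟩
        rw [hz]
        constructor
        · rintro ⟨ω, hω, h1, h2⟩
          obtain ⟨r, hr⟩ := hext2 ω hω
          exact ⟨(r, ω), hr, h1, h2⟩
        · rintro ⟨⟨r, ω⟩, hω, h1, h2⟩
          exact ⟨ω, hω.2.1, h1, h2⟩
    · intro a b
      constructor
      · rintro ⟨d, ⟨r, hr, h1, h2⟩, h3⟩
        obtain ⟨ω, hω, h4, h5⟩ := (hiff _ _).1 h3
        exact ⟨(r, ω), ⟨hr, hω, h2.trans h4.symm⟩, h1, h5⟩
      · rintro ⟨⟨r, ω⟩, ⟨hr, hω, h1⟩, h2, h3⟩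
        exact ⟨T.π l.1 l.2.2 r, ⟨r, hr, h2, rfl⟩, (hiff _ _).2 ⟨ω, hω, h1.symm, h3⟩⟩
    · rintro D' hD' ⟨r, ω⟩ ⟨hr, hω, h1⟩ hj
      have h2 := hres D' hD' ω hω (fun j => hj (Sum.inr j))
      refine ⟨T.π l.1 l.2.2 r, ⟨r, ⟨hr, fun i => hj (Sum.inl i)⟩, rfl, rfl⟩, ?_⟩
      have h3 : T.π l.1 l.2.2 r = ρ' j0' ω := h1
      rw [h3]
      exact h2

end Pool.Agent.BWC
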