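import Pool.Agent.Lib.MP_d14a7e_al.SymB
import Pool.Agent.Lib.MP_d14a7e_al.RT

set_option autoImplicit false
set_option linter.all false

/-! Symmetric instances, the absorption free case: functional words. -/

namespace Pool.Agent.BWC

open Tpl

/-- data of the absorption free case: a simple quotient `φ : D → S` -/
structure Frm (T : Tpl) (D : Set T.X) (R : ∀ c, Set (T.Y c)) {S : Type} (𝕊 : Alg S)
    (φ : T.X → S) : Prop where
  ok : T.Ok D R
  pr : T.PR D R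
  tf : TF T.𝕏 D
  bwS : IsBW 𝕊
  hom : HomOn T.𝕏 𝕊 D φ
  onto : ∀ s, ∃ a ∈ D, φ a = s
  simple : Simple 𝕊

/-- functional word -/
def Fn (T : Tpl) (D : Set T.X) (R : ∀ c, Set (T.Y c)) {S : Type} (φ : T.X → S)
    (p : List T.Letter) : Prop :=
  ∀ a a' b, (a, b) ∈ T.E D R p → (a', b) ∈ T.E D R p → φ a = φ a'

/-- the reduced domain -/
def DD (T : Tpl) (D : Set T.X) (R : ∀ c, Set (T.Y c)) {S : Type} (φ : T.X → S) (s0 : S) :
    Set T.X :=
  {b | b ∈ D ∧ ∀ p, Fn T D R φ p → ∀ a, (a, b) ∈ T.E D R p → φ a = s0}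

/-- `S` is TF (`TF.image`) -/
theorem Frm.tfS {T : Tpl} {D : Set T.X} {R : ∀ c, Set (T.Y c)} {S : Type} {𝕊 : Alg S}
    {φ : T.X → S} (f : Frm T D R 𝕊 φ) : TF 𝕊 Set.univ := by
  have h := f.tf.image f.ok.subD f.hom
  have : φ '' D = Set.univ := by
    ext s; simpa using f.onto s
  rwa [this] at h

/-- A word relation modulo `φ` is the identity or everything.
`Q = {(φ a, φ b) | (a,b) ∈ E z}` is a subuniverse of `S²`, `dom = cod = univ`; by `simple_full` it is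
everything or `φ a` is determined by `φ b`; being onto and `S` finite it is the graph of a
permutation `σ`, `φ b = σ (φ a)`.  PR for `(z, [])`: `m > 0`, `E (pw m z)` is an equivalence
containing `E z`.  `(a,b) ∈ E (pw m z)` implies `φ b = σ^m (φ a)`; by reflexivity `σ^m = 1`; and as
`E z ⊆ E (pw m z)` we get `σ = σ^m = 1`. -/
theorem word_dich {T : Tpl} {D : Set T.X} {R : ∀ c, Set (T.Y c)} {S : Type} [Finite S]
    {𝕊 : Alg S} {φ : T.X → S} (f : Frm T D R 𝕊 φ) (z : List T.Letter) :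
    (∀ a b, (a, b) ∈ T.E D R z → φ a = φ b) ∨
      (∀ s s', ∃ a b, (a, b) ∈ T.E D R z ∧ φ a = s ∧ φ b = s') := by
  have hE := E_sub f.ok z
  have h1 : HomOn (T.𝕏.prod T.𝕏) 𝕊 (T.E D R z) (fun x => φ x.1) :=
    (HomOn.fst T.𝕏 T.𝕏 _).comp f.hom (fun x hx => (E_mem f.ok hx).1)
  have h2 : HomOn (T.𝕏.prod T.𝕏) 𝕊 (T.E D R z) (fun x => φ x.2) :=
    (HomOn.snd T.𝕏 T.𝕏 _).comp f.hom (fun x hx => (E_mem f.ok hx).2)
  have hQ := hE.image (h1.pair h2)
  set Q : Set (S × S) := (fun x : T.X × T.X => (φ x.1, φ x.2)) '' T.E D R z with hQdef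
  have hmem : ∀ s s', (s, s') ∈ Q ↔ ∃ a b, (a, b) ∈ T.E D R z ∧ φ a = s ∧ φ b = s' := by
    intro s s'
    constructor
    · rintro ⟨⟨a, b⟩, hab, he⟩
      simp only [Prod.mk.injEq] at he
      exact ⟨a, b, hab, he.1, he.2⟩
    · rintro ⟨a, b, hab, rfl, rfl⟩
      exact ⟨(a, b), hab, rfl⟩
  have hdom : ∀ s, s ∈ dom Q := by
    intro s
    obtain ⟨a, ha, rfl⟩ := f.onto s
    obtain ⟨b, hb⟩ := E_right f.ok z ha
    exact ⟨φ b, (hmem _ _).2 ⟨a, b, hb, rfl, rfl⟩⟩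
  have hcod : cod Q = Set.univ := by
    refine Set.eq_univ_of_forall fun s => ?_
    obtain ⟨b, hb, rfl⟩ := f.onto s
    obtain ⟨a, ha⟩ := E_left f.ok z hb
    exact ⟨φ a, (hmem _ _).2 ⟨a, b, ha, rfl, rfl⟩⟩
  rcases simple_full f.bwS f.bwS hQ hdom f.simple f.tfS (by rw [hcod]; exact f.tfS) with h | h
  · left
    have hex : ∀ s' : S, ∃ s, (s, s') ∈ Q := fun s' => by
      have : s' ∈ cod Q := by rw [hcod]; trivial
      exact this
    choose τ hτ using hex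
    have hst : ∀ a b, (a, b) ∈ T.E D R z → φ a = τ (φ b) := fun a b hab =>
      h _ _ _ ((hmem _ _).2 ⟨a, b, hab, rfl, rfl⟩) (hτ _)
    have hpw : ∀ n : ℕ, ∀ a b, (a, b) ∈ T.E D R (pw n z) → φ a = τ^[n] (φ b) := by
      intro n
      induction n with
      | zero =>
        intro a b hab
        obtain ⟨_, h2⟩ : a ∈ D ∧ a = b := hab
        rw [h2]; rfl
      | succ n ih =>
        intro a b hab
        rw [pw_succ, E_append f.ok] at hab
        obtain ⟨c, hc, hcb⟩ := hab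
        rw [hst a c hc, ih c b hcb, Function.iterate_succ_apply']
    obtain ⟨m, hm, he, hsub⟩ := f.pr z []
    rw [List.append_nil] at he hsub
    intro a b hab
    have hb : b ∈ D := (E_mem f.ok hab).2
    rw [hpw m a b (hsub hab), ← hpw m b b (he.refl b hb)]
  · right
    intro s s'
    exact (hmem _ _).1 (h s s' (by rw [hcod]; trivial))

/-- **Characters of a composite constraint.**
Proof.  `κ` = the set of all functions `ψ : ↥Rw → S` such that there are a functional word `p` and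
`j : J` with `ψ r = φ a` for all `r` and all `a` with `(a, ρ j r) ∈ E p` (a subtype of the finite
type `↥Rw → S`); extend `ψ` to `W` by `s0` outside `Rw`.
(1) homomorphisms: `E_sub`, `f.hom`, `hc.hom`; onto: `E` of a word has `dom = D` (`E_left`,
`E_right`), `hc.onto`, `f.onto`.
(2) two distinct members, given by `(p,j)`, `(q,j')`, are jointly onto `S²`: with the word `z` for
`(j,j')` (`hc.word`), the relation of `p ++ z ++ rev q` consists of the pairs `(a,a')` such that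
there is `r ∈ Rw` with `(a, ρ j r) ∈ E p`, `(a', ρ j' r) ∈ E q`; by `word_dich` it is full
modulo `φ`, or the two functions are equal.
(3) for `ψ` given by `(p,j)` and `j0`: the relation `{(ψ r, ρ j0 r) | r ∈ Rw} ⊆ S × D` is by
`simple_full` (`D`, `S` TF) everything, or functional (`ψ r` is determined by `ρ j0 r`); in the
second case the word `p ++ z`, `z` the word for `(j,j0)`, is functional, hence
`ρ j0 r ∈ DD` implies `ψ r = s0`.
(4), (5): definition of `DD`. -/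
theorem chars {T : Tpl} {D : Set T.X} {R : ∀ c, Set (T.Y c)} {S : Type} [Finite S]
    {𝕊 : Alg S} {φ : T.X → S} (f : Frm T D R 𝕊 φ) (s0 : S) {W J : Type} [Finite W] [Finite J]
    {𝕎 : Alg W} {Rw : Set W} {ρ : J → W → T.X} (hc : Cmp T D R 𝕎 Rw ρ) :
    ∃ (κ : Type) (ψ : κ → W → S), Finite κ ∧
      (∀ k, HomOn 𝕎 𝕊 Rw (ψ k)) ∧ (∀ k s, ∃ r ∈ Rw, ψ k r = s) ∧
      (∀ k l, k ≠ l → ∀ s s', ∃ r ∈ Rw, ψ k r = s ∧ ψ l r = s') ∧
      (∀ k j0, (∀ s, ∀ b ∈ D, ∃ r ∈ Rw, ψ k r = s ∧ ρ j0 r = b) ∨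
        (∀ r ∈ Rw, ρ j0 r ∈ DD T D R φ s0 → ψ k r = s0)) ∧
      (∀ r ∈ Rw, (∀ k, ψ k r = s0) → ∀ j, ρ j r ∈ DD T D R φ s0) ∧
      (∀ r ∈ Rw, (∀ j, ρ j r ∈ DD T D R φ s0) → ∀ k, ψ k r = s0) := by
  classical
  haveI := T.finX
  have hρD : ∀ j, ∀ r ∈ Rw, ρ j r ∈ D := fun j r hr => by
    rw [← hc.onto j]; exact ⟨r, hr, rfl⟩
  let κ : Type := {ψ : ↥Rw → S // ∃ (p : List T.Letter) (j : J), Fn T D R φ p ∧
    ∀ (r : ↥Rw) a, (a, ρ j r.1) ∈ T.E D R p → φ a = ψ r}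
  have hfin : Finite κ := inferInstanceAs (Finite {ψ : ↥Rw → S // _})
  let ψ : κ → W → S := fun k r => if h : r ∈ Rw then k.1 ⟨r, h⟩ else s0
  have hψ : ∀ k : κ, ∀ r (h : r ∈ Rw), ψ k r = k.1 ⟨r, h⟩ := fun k r h => dif_pos h
  have key : ∀ k : κ, ∃ (p : List T.Letter) (j : J), Fn T D R φ p ∧
      ∀ r ∈ Rw, ∀ a, (a, ρ j r) ∈ T.E D R p → φ a = ψ k r := by
    intro k
    obtain ⟨p, j, hp, h⟩ := k.2
    exact ⟨p, j, hp, fun r hr a ha => by rw [hψ k r hr]; exact h ⟨r, hr⟩ a ha⟩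
  have hhom : ∀ k, HomOn 𝕎 𝕊 Rw (ψ k) := by
    intro k
    obtain ⟨p, j, hp, h⟩ := key k
    have hex : ∀ r ∈ Rw, ∃ a, (a, ρ j r) ∈ T.E D R p ∧ a ∈ D := fun r hr => by
      obtain ⟨a, ha⟩ := E_left f.ok p (hρD j r hr)
      exact ⟨a, ha, (E_mem f.ok ha).1⟩
    constructor
    · intro x hx y hy z hz
      obtain ⟨a, ha, haD⟩ := hex x hx
      obtain ⟨b, hb, hbD⟩ := hex y hy
      obtain ⟨c, hc', hcD⟩ := hex z hz
      have h1 := (E_sub f.ok p).1 _ ha _ hb _ hc'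
      have h2 : (T.𝕏.v a b c, ρ j (𝕎.v x y z)) ∈ T.E D R p := by
        rw [(hc.hom j).1 x hx y hy z hz]; exact h1
      rw [← h _ (hc.sub.1 x hx y hy z hz) _ h2, f.hom.1 a haD b hbD c hcD, h x hx a ha,
        h y hy b hb, h z hz c hc']
    · intro x hx y hy z hz u hu
      obtain ⟨a, ha, haD⟩ := hex x hx
      obtain ⟨b, hb, hbD⟩ := hex y hy
      obtain ⟨c, hc', hcD⟩ := hex z hz
      obtain ⟨d, hd, hdD⟩ := hex u hu
      have h1 := (E_sub f.ok p).2 _ ha _ hb _ hc' _ hd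
      have h2 : (T.𝕏.w a b c d, ρ j (𝕎.w x y z u)) ∈ T.E D R p := by
        rw [(hc.hom j).2 x hx y hy z hz u hu]; exact h1
      rw [← h _ (hc.sub.2 x hx y hy z hz u hu) _ h2, f.hom.2 a haD b hbD c hcD d hdD, h x hx a ha,
        h y hy b hb, h z hz c hc', h u hu d hd]
  have honto : ∀ k s, ∃ r ∈ Rw, ψ k r = s := by
    intro k s
    obtain ⟨p, j, hp, h⟩ := key k
    obtain ⟨a, ha, rfl⟩ := f.onto s
    obtain ⟨b, hb⟩ := E_right f.ok p ha
    have hbD := (E_mem f.ok hb).2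
    rw [← hc.onto j] at hbD
    obtain ⟨r, hr, rfl⟩ := hbD
    exact ⟨r, hr, (h r hr a hb).symm⟩
  refine ⟨κ, ψ, hfin, hhom, honto, ?_, ?_, ?_, ?_⟩
  · intro k l hkl
    obtain ⟨p, j, hp, h⟩ := key k
    obtain ⟨q, j', hq, h'⟩ := key l
    obtain ⟨z, hz⟩ := hc.word j j'
    have hu : ∀ a a', (a, a') ∈ T.E D R (p ++ (z ++ rev q)) ↔
        ∃ r ∈ Rw, (a, ρ j r) ∈ T.E D R p ∧ (a', ρ j' r) ∈ T.E D R q := by
      intro a a'
      rw [E_append f.ok, E_append f.ok]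
      constructor
      · rintro ⟨b, hb, c, hc1, hc2⟩
        obtain ⟨r, hr, h1, h2⟩ := (hz _ _).1 hc1
        refine ⟨r, hr, ?_, ?_⟩
        · rw [h1]; exact hb
        · rw [h2]; exact (E_rev f.ok q _ _).1 hc2
      · rintro ⟨r, hr, h1, h2⟩
        exact ⟨_, h1, _, (hz _ _).2 ⟨r, hr, rfl, rfl⟩, (E_rev f.ok q _ _).2 h2⟩
    rcases word_dich f (p ++ (z ++ rev q)) with hd | hd
    · exfalso
      apply hkl
      apply Subtype.ext
      funext r
      obtain ⟨a, ha⟩ := E_left f.ok p (hρD j r.1 r.2)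
      obtain ⟨a', ha'⟩ := E_left f.ok q (hρD j' r.1 r.2)
      have h1 := h r.1 r.2 a ha
      have h2 := h' r.1 r.2 a' ha'
      rw [hψ k r.1 r.2] at h1
      rw [hψ l r.1 r.2] at h2
      rw [← h1, ← h2]
      exact hd a a' ((hu a a').2 ⟨r.1, r.2, ha, ha'⟩)
    · intro s s'
      obtain ⟨a, a', haa, rfl, rfl⟩ := hd s s'
      obtain ⟨r, hr, h1, h2⟩ := (hu a a').1 haa
      exact ⟨r, hr, (h r hr a h1).symm, (h' r hr a' h2).symm⟩
  · intro k j0
    obtain ⟨p, j, hp, h⟩ := key k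
    have hQ := hc.sub.image ((hhom k).pair (hc.hom j0))
    set Q : Set (S × T.X) := (fun r => (ψ k r, ρ j0 r)) '' Rw with hQdef
    have hmem : ∀ s b, (s, b) ∈ Q ↔ ∃ r ∈ Rw, ψ k r = s ∧ ρ j0 r = b := by
      intro s b
      constructor
      · rintro ⟨r, hr, he⟩
        simp only [Prod.mk.injEq] at he
        exact ⟨r, hr, he.1, he.2⟩
      · rintro ⟨r, hr, rfl, rfl⟩
        exact ⟨r, hr, rfl⟩
    have hdom : ∀ s, s ∈ dom Q := by
      intro s
      obtain ⟨r, hr, rfl⟩ := honto k s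
      exact ⟨ρ j0 r, (hmem _ _).2 ⟨r, hr, rfl, rfl⟩⟩
    have hcod : cod Q = D := by
      ext b
      constructor
      · rintro ⟨s, hs⟩
        obtain ⟨r, hr, _, rfl⟩ := (hmem _ _).1 hs
        exact hρD j0 r hr
      · intro hb
        rw [← hc.onto j0] at hb
        obtain ⟨r, hr, rfl⟩ := hb
        exact ⟨ψ k r, (hmem _ _).2 ⟨r, hr, rfl, rfl⟩⟩
    rcases simple_full f.bwS T.bwX hQ hdom f.simple f.tfS (by rw [hcod]; exact f.tf) with hd | hd
    · right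
      intro r hr hrD
      obtain ⟨z, hz⟩ := hc.word j j0
      have hz' : ∀ a b, (a, b) ∈ T.E D R (p ++ z) ↔
          ∃ r ∈ Rw, (a, ρ j r) ∈ T.E D R p ∧ ρ j0 r = b := by
        intro a b
        rw [E_append f.ok]
        constructor
        · rintro ⟨c, hc1, hc2⟩
          obtain ⟨r, hr, h1, h2⟩ := (hz _ _).1 hc2
          refine ⟨r, hr, ?_, h2⟩
          rw [h1]; exact hc1
        · rintro ⟨r, hr, h1, h2⟩
          exact ⟨_, h1, (hz _ _).2 ⟨r, hr, rfl, h2⟩⟩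
      have hfn : Fn T D R φ (p ++ z) := by
        intro a a' b hab hab'
        obtain ⟨r, hr, h1, h2⟩ := (hz' _ _).1 hab
        obtain ⟨r', hr', h1', h2'⟩ := (hz' _ _).1 hab'
        exact hd _ _ b ((hmem _ _).2 ⟨r, hr, (h r hr a h1).symm, h2⟩)
          ((hmem _ _).2 ⟨r', hr', (h r' hr' a' h1').symm, h2'⟩)
      obtain ⟨a, ha⟩ := E_left f.ok p (hρD j r hr)
      rw [← h r hr a ha]
      exact hrD.2 _ hfn a ((hz' _ _).2 ⟨r, hr, ha, rfl⟩)
    · left
      intro s b hb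
      exact (hmem _ _).1 (hd s b (by rw [hcod]; exact hb))
  · intro r hr hall j
    refine ⟨hρD j r hr, fun p hp a ha => ?_⟩
    have hex : ∀ r' : ↥Rw, ∃ a, (a, ρ j r'.1) ∈ T.E D R p := fun r' =>
      E_left f.ok p (hρD j r'.1 r'.2)
    choose g hg using hex
    let k : κ := ⟨fun r' => φ (g r'), p, j, hp, fun r' a' ha' => hp _ _ _ ha' (hg r')⟩
    have h1 := hall k
    rw [hψ k r hr] at h1
    rw [← h1]
    exact hp _ _ _ ha (hg ⟨r, hr⟩)
  · intro r hr hall k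
    obtain ⟨p, j, hp, h⟩ := key k
    obtain ⟨a, ha⟩ := E_left f.ok p (hρD j r hr)
    rw [← h r hr a ha]
    exact (hall j).2 p hp a ha

end Pool.Agent.BWC
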