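import Pool.Agent.Lib.MP_d14a7e_al.Basic

set_option autoImplicit false
set_option linter.all false

/-! Symmetric instances: one variable, constraints with several coordinates on it. -/

namespace Pool.Agent.BWC

/-- template: an algebra `X`, constraint algebras `Y c` with coordinate homomorphisms
`π c i : Y c → X` -/
structure Tpl where
  X : Type
  𝕏 : Alg X
  ι : Type
  Y : ι → Type
  𝕐 : ∀ c, Alg (Y c)
  J : ι → Type
  π : ∀ c, J c → Y c → X
  finX : Finite X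
  finι : Finite ι
  finY : ∀ c, Finite (Y c)
  finJ : ∀ c, Finite (J c)
  neι : Nonempty ι
  neJ : ∀ c, Nonempty (J c)
  bwX : IsBW 𝕏
  bwY : ∀ c, IsBW (𝕐 c)
  hom : ∀ c i, HomOn (𝕐 c) 𝕏 Set.univ (π c i)

namespace Tpl

variable (T : Tpl)

/-- arc-consistent instance -/
structure Ok (D : Set T.X) (R : ∀ c, Set (T.Y c)) : Prop where
  subD : Sub T.𝕏 D
  neD : D.Nonempty
  subR : ∀ c, Sub (T.𝕐 c) (R c)
  ac : ∀ c i, T.π c i '' R c = D

/-- letters -/
abbrev Letter := Σ c : T.ι, T.J c × T.J c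

/-- relation of a letter -/
def L (R : ∀ c, Set (T.Y c)) (l : T.Letter) : Set (T.X × T.X) :=
  {p | ∃ r ∈ R l.1, T.π l.1 l.2.1 r = p.1 ∧ T.π l.1 l.2.2 r = p.2}

/-- relation of a word -/
def E (D : Set T.X) (R : ∀ c, Set (T.Y c)) : List T.Letter → Set (T.X × T.X)
  | [] => {p | p.1 ∈ D ∧ p.1 = p.2}
  | l :: w => rcomp (T.L R l) (E D R w)

/-- `m`-th power of a word -/
def pw {T : Tpl} (m : ℕ) (w : List T.Letter) : List T.Letter := (List.replicate m w).flatten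

/-- reversed word -/
def rev {T : Tpl} (w : List T.Letter) : List T.Letter :=
  (w.map fun l => (⟨l.1, (l.2.2, l.2.1)⟩ : T.Letter)).reverse

/-- `F` is an equivalence relation on `D` -/
structure EqvOn {X : Type} (D : Set X) (F : Set (X × X)) : Prop where
  mem : ∀ a b, (a, b) ∈ F → a ∈ D ∧ b ∈ D
  refl : ∀ a ∈ D, (a, a) ∈ F
  symm : ∀ a b, (a, b) ∈ F → (b, a) ∈ F
  trans : ∀ a b c, (a, b) ∈ F → (b, c) ∈ F → (a, c) ∈ F

/-- Prague-like condition -/
def PR (D : Set T.X) (R : ∀ c, Set (T.Y c)) : Prop :=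
  ∀ p q : List T.Letter, ∃ m : ℕ, 0 < m ∧ EqvOn D (T.E D R (pw m (p ++ q))) ∧
    T.E D R p ⊆ T.E D R (pw m (p ++ q))

/-- compatibility of a family of subsets -/
def Compat (D : Set T.X) (R b : ∀ c, Set (T.Y c)) : Prop :=
  ∀ (p : List T.Letter) (c : T.ι) (i : T.J c) (c' : T.ι) (i' : T.J c'),
    ∃ r ∈ b c, ∃ r' ∈ b c', (T.π c i r, T.π c' i' r') ∈ T.E D R p

variable {T} {D : Set T.X} {R : ∀ c, Set (T.Y c)}

/-! ### basic facts -/

theorem L_sub (h : T.Ok D R) (l : T.Letter) : Sub (T.𝕏.prod T.𝕏) (T.L R l) := by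
  have h1 := (h.subR l.1).image (((T.hom l.1 l.2.1).mono (Set.subset_univ (R l.1))).pair
    ((T.hom l.1 l.2.2).mono (Set.subset_univ _)))
  have h2 : T.L R l = (fun x => (T.π l.1 l.2.1 x, T.π l.1 l.2.2 x)) '' R l.1 := by
    ext ⟨a, b⟩
    simp [L, Prod.ext_iff]
  rw [h2]; exact h1

theorem E_sub (h : T.Ok D R) (w : List T.Letter) : Sub (T.𝕏.prod T.𝕏) (T.E D R w) := by
  induction w with
  | nil => exact h.subD.diag
  | cons l w ih => exact (L_sub h l).rcomp ih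

theorem L_mem (h : T.Ok D R) {l : T.Letter} {a b : T.X} (hab : (a, b) ∈ T.L R l) :
    a ∈ D ∧ b ∈ D := by
  obtain ⟨r, hr, h1, h2⟩ := hab
  refine ⟨?_, ?_⟩
  · rw [← h.ac l.1 l.2.1]; exact ⟨r, hr, h1⟩
  · rw [← h.ac l.1 l.2.2]; exact ⟨r, hr, h2⟩

theorem E_mem (h : T.Ok D R) {w : List T.Letter} {a b : T.X} (hab : (a, b) ∈ T.E D R w) :
    a ∈ D ∧ b ∈ D := by
  induction w generalizing a with
  | nil => exact ⟨hab.1, by obtain ⟨h1, h2⟩ := hab; exact (show a = b from h2) ▸ h1⟩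
  | cons l w ih =>
    obtain ⟨c, hc, hc'⟩ := hab
    exact ⟨(L_mem h hc).1, (ih hc').2⟩

theorem E_right (h : T.Ok D R) (w : List T.Letter) {a : T.X} (ha : a ∈ D) :
    ∃ b, (a, b) ∈ T.E D R w := by
  induction w generalizing a with
  | nil => exact ⟨a, ha, rfl⟩
  | cons l w ih =>
    have : a ∈ T.π l.1 l.2.1 '' R l.1 := by rw [h.ac]; exact ha
    obtain ⟨r, hr, h1⟩ := this
    have h2 : (a, T.π l.1 l.2.2 r) ∈ T.L R l := ⟨r, hr, h1, rfl⟩
    obtain ⟨b, hb⟩ := ih (L_mem h h2).2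
    exact ⟨b, _, h2, hb⟩

theorem E_append (h : T.Ok D R) (w w' : List T.Letter) :
    T.E D R (w ++ w') = rcomp (T.E D R w) (T.E D R w') := by
  induction w with
  | nil =>
    ext ⟨a, b⟩
    constructor
    · intro hab
      exact ⟨a, ⟨(E_mem h hab).1, rfl⟩, hab⟩
    · rintro ⟨c, ⟨_, hc⟩, hab⟩
      obtain rfl : a = c := hc
      exact hab
  | cons l w ih =>
    ext ⟨a, b⟩
    constructor
    · rintro ⟨c, hc, hcb⟩
      change (c, b) ∈ T.E D R (w ++ w') at hcb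
      rw [ih] at hcb
      obtain ⟨d, hd, hdb⟩ := hcb
      exact ⟨d, ⟨c, hc, hd⟩, hdb⟩
    · rintro ⟨d, ⟨c, hc, hd⟩, hdb⟩
      refine ⟨c, hc, ?_⟩
      change (c, b) ∈ T.E D R (w ++ w')
      rw [ih]
      exact ⟨d, hd, hdb⟩

theorem L_rev (l : T.Letter) (a b : T.X) :
    (a, b) ∈ T.L R (⟨l.1, (l.2.2, l.2.1)⟩ : T.Letter) ↔ (b, a) ∈ T.L R l := by
  constructor
  · rintro ⟨r, hr, h1, h2⟩; exact ⟨r, hr, h2, h1⟩
  · rintro ⟨r, hr, h1, h2⟩; exact ⟨r, hr, h2, h1⟩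

theorem E_rev (h : T.Ok D R) (w : List T.Letter) (a b : T.X) :
    (a, b) ∈ T.E D R (rev w) ↔ (b, a) ∈ T.E D R w := by
  induction w generalizing a b with
  | nil =>
    constructor
    · rintro ⟨h1, h2⟩; obtain rfl : a = b := h2; exact ⟨h1, rfl⟩
    · rintro ⟨h1, h2⟩; obtain rfl : b = a := h2; exact ⟨h1, rfl⟩
  | cons l w ih =>
    have : rev (l :: w) = rev w ++ [(⟨l.1, (l.2.2, l.2.1)⟩ : T.Letter)] := by
      simp [rev]
    rw [this, E_append h]
    constructor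
    · rintro ⟨c, hc, d, hd, hdb⟩
      have hdb' : d = b := hdb.2
      subst hdb'
      exact ⟨c, (L_rev l _ _).1 hd, (ih _ _).1 hc⟩
    · rintro ⟨c, hc, hca⟩
      refine ⟨c, (ih _ _).2 hca, b, (L_rev l _ _).2 hc, (L_mem h hc).1, rfl⟩

theorem E_left (h : T.Ok D R) (w : List T.Letter) {b : T.X} (hb : b ∈ D) :
    ∃ a, (a, b) ∈ T.E D R w := by
  obtain ⟨a, ha⟩ := E_right h (rev w) hb
  exact ⟨a, (E_rev h w b a).1 ha⟩

theorem pw_succ (m : ℕ) (w : List T.Letter) : pw (m + 1) w = w ++ pw m w := by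
  simp [pw, List.replicate_succ]

theorem pw_add (m n : ℕ) (w : List T.Letter) : pw (m + n) w = pw m w ++ pw n w := by
  rw [pw, pw, pw, List.replicate_add, List.flatten_append]

theorem pw_mul (m n : ℕ) (w : List T.Letter) : pw (m * n) w = pw n (pw m w) := by
  induction n with
  | zero => simp [pw]
  | succ n ih => rw [pw_succ, Nat.mul_succ, Nat.add_comm, pw_add, ih]

/-- monotone in the instance -/
theorem E_mono {D' : Set T.X} {R' : ∀ c, Set (T.Y c)} (hD : D' ⊆ D) (hR : ∀ c, R' c ⊆ R c)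
    (w : List T.Letter) : T.E D' R' w ⊆ T.E D R w := by
  induction w with
  | nil => rintro ⟨a, b⟩ ⟨h1, h2⟩; exact ⟨hD h1, h2⟩
  | cons l w ih =>
    rintro ⟨a, b⟩ ⟨c, ⟨r, hr, h1, h2⟩, hcb⟩
    exact ⟨c, ⟨r, hR _ hr, h1, h2⟩, ih hcb⟩

/-- forward image of a set along a word -/
def plus (T : Tpl) (D : Set T.X) (R : ∀ c, Set (T.Y c)) (B : Set T.X) (w : List T.Letter) :
    Set T.X := img (T.E D R w) B

end Tpl

end Pool.Agent.BWC
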