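import Pool.Agent.Lib.MP_d14a7e_al.T3Defs

set_option autoImplicit false
set_option linter.all false

/-! The template of term operations satisfies Ok and PR. -/

namespace Pool.Agent.BWC

open Tpl

variable {M : Type}

theorem FT_sub (𝕄 : Alg M) (n : ℕ) :
    Sub (Alg.pi fun _ : (Fin n → M) => 𝕄) (FT 𝕄 n) := by
  constructor
  · rintro _ ⟨s, rfl⟩ _ ⟨t, rfl⟩ _ ⟨u, rfl⟩
    exact ⟨Tm.v s t u, rfl⟩
  · rintro _ ⟨s, rfl⟩ _ ⟨t, rfl⟩ _ ⟨u, rfl⟩ _ ⟨r, rfl⟩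
    exact ⟨Tm.w s t u r, rfl⟩

private theorem T3A_exists_ne (c : Option Bool) (i j : {i : Fin (ary c) // c = none → i.val = 1}) :
    ∃ k : Fin (ary c), k ≠ i.1 ∧ k ≠ j.1 := by
  rcases c with _ | _ | _
  · refine ⟨(0 : Fin 2), ?_, ?_⟩
    · intro h
      have h1 := i.2 rfl
      rw [← h] at h1
      exact absurd h1 (by decide)
    · intro h
      have h1 := j.2 rfl
      rw [← h] at h1
      exact absurd h1 (by decide)
  · obtain ⟨i, hi⟩ := i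
    obtain ⟨j, hj⟩ := j
    change Fin 3 at i j
    have : ∀ i j : Fin 3, ∃ k : Fin 3, k ≠ i ∧ k ≠ j := by decide
    exact this i j
  · obtain ⟨i, hi⟩ := i
    obtain ⟨j, hj⟩ := j
    change Fin 4 at i j
    have : ∀ i j : Fin 4, ∃ k : Fin 4, k ≠ i ∧ k ≠ j := by decide
    exact this i j

/-- value of a coordinate map on `z ↦ s(z_k, z_l)` -/
private theorem T3A_pi_subst {n : ℕ} (𝕄 : Alg M) (s : Tm 2) (k l i : Fin n) (x : Fin 2 → M) :
    (s.subst ![Tm.var k, Tm.var l]).eval 𝕄 (fun j => if j = i then x 1 else x 0) =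
      s.eval 𝕄 ![if k = i then x 1 else x 0, if l = i then x 1 else x 0] := by
  rw [eval_subst]
  congr 1
  ext m
  fin_cases m <;> rfl

private theorem T3A_eta (x : Fin 2 → M) : (![x 0, x 1] : Fin 2 → M) = x := by
  ext i; fin_cases i <;> rfl

/-- `π c i '' R c = D`: `⊆` by substitution; `⊇`: for `s : Tm 2` and `i` choose `k ≠ i` and take
`s.subst ![var k, var i]`. -/
theorem tplM_ok [Finite M] (𝕄 : Alg M) (hM : IsBW 𝕄) :
    (tplM 𝕄 hM).Ok (FT 𝕄 2) (fun c => FT 𝕄 (ary c)) where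
  subD := FT_sub 𝕄 2
  neD := ⟨_, ⟨Tm.var 0, rfl⟩⟩
  subR c := FT_sub 𝕄 (ary c)
  ac c i := by
    change {i : Fin (ary c) // c = none → i.val = 1} at i
    obtain ⟨k, hk, -⟩ := T3A_exists_ne c i i
    apply Set.Subset.antisymm
    · rintro _ ⟨_, ⟨t, rfl⟩, rfl⟩
      refine ⟨t.subst (fun j => if j = i.1 then Tm.var 1 else Tm.var 0), ?_⟩
      funext x
      show Tm.eval 𝕄 (t.subst _) x = t.eval 𝕄 (fun j => if j = i.1 then x 1 else x 0)
      rw [eval_subst]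
      congr 1
      funext j
      split_ifs <;> rfl
    · rintro _ ⟨s, rfl⟩
      refine ⟨_, ⟨s.subst ![Tm.var k, Tm.var i.1], rfl⟩, ?_⟩
      funext x
      show (s.subst ![Tm.var k, Tm.var i.1]).eval 𝕄 (fun j => if j = i.1 then x 1 else x 0) = _
      rw [T3A_pi_subst, if_neg hk, if_pos rfl, T3A_eta]

/-- all letters: `(x0, x0)` -/
private theorem T3A_L_x0 [Finite M] (𝕄 : Alg M) (hM : IsBW 𝕄) (l : (tplM 𝕄 hM).Letter) :
    ((fun x : Fin 2 → M => x 0), (fun x : Fin 2 → M => x 0)) ∈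
      (tplM 𝕄 hM).L (fun c => FT 𝕄 (ary c)) l := by
  obtain ⟨c, i, j⟩ := l
  change {i : Fin (ary c) // c = none → i.val = 1} at i j
  obtain ⟨k, hki, hkj⟩ := T3A_exists_ne c i j
  refine ⟨_, ⟨Tm.var k, rfl⟩, ?_, ?_⟩
  · funext x
    show (if k = i.1 then x 1 else x 0) = x 0
    rw [if_neg hki]
  · funext x
    show (if k = j.1 then x 1 else x 0) = x 0
    rw [if_neg hkj]

private theorem T3A_x0_mem (𝕄 : Alg M) : (fun x : Fin 2 → M => x 0) ∈ FT 𝕄 2 :=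
  ⟨Tm.var 0, rfl⟩

/-- for every word `(x0,x0)` is in its relation -/
theorem tplM_x0 [Finite M] (𝕄 : Alg M) (hM : IsBW 𝕄) (w : List (tplM 𝕄 hM).Letter) :
    ((fun x : Fin 2 → M => x 0), (fun x : Fin 2 → M => x 0)) ∈
      (tplM 𝕄 hM).E (FT 𝕄 2) (fun c => FT 𝕄 (ary c)) w := by
  induction w with
  | nil => exact ⟨T3A_x0_mem 𝕄, rfl⟩
  | cons l w ih => exact ⟨_, T3A_L_x0 𝕄 hM l, ih⟩

/-- nontrivial letters -/
private theorem T3A_L_nontriv [Finite M] (𝕄 : Alg M) (hM : IsBW 𝕄) (l : (tplM 𝕄 hM).Letter)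
    (hl : l.2.1 ≠ l.2.2) (r : (Fin 2 → M) → M) (hr : r ∈ FT 𝕄 2) :
    (r, (fun x : Fin 2 → M => x 0)) ∈ (tplM 𝕄 hM).L (fun c => FT 𝕄 (ary c)) l ∧
    ((fun x : Fin 2 → M => x 0), r) ∈ (tplM 𝕄 hM).L (fun c => FT 𝕄 (ary c)) l := by
  obtain ⟨c, i, j⟩ := l
  change i ≠ j at hl
  change {i : Fin (ary c) // c = none → i.val = 1} at i j
  have hij : i.1 ≠ j.1 := fun h => hl (Subtype.ext h)
  obtain ⟨k, hki, hkj⟩ := T3A_exists_ne c i j
  obtain ⟨s, rfl⟩ := hr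
  constructor
  · refine ⟨_, ⟨s.subst ![Tm.var k, Tm.var i.1], rfl⟩, ?_, ?_⟩
    · funext x
      show (s.subst ![Tm.var k, Tm.var i.1]).eval 𝕄 (fun j => if j = i.1 then x 1 else x 0) = _
      rw [T3A_pi_subst, if_neg hki, if_pos rfl, T3A_eta]
    · funext x
      show (s.subst ![Tm.var k, Tm.var i.1]).eval 𝕄 (fun m => if m = j.1 then x 1 else x 0) = x 0
      rw [T3A_pi_subst, if_neg hkj, if_neg hij]
      exact t2_idem hM s (x 0)
  · refine ⟨_, ⟨s.subst ![Tm.var k, Tm.var j.1], rfl⟩, ?_, ?_⟩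
    · funext x
      show (s.subst ![Tm.var k, Tm.var j.1]).eval 𝕄 (fun m => if m = i.1 then x 1 else x 0) = x 0
      rw [T3A_pi_subst, if_neg hki, if_neg hij.symm]
      exact t2_idem hM s (x 0)
    · funext x
      show (s.subst ![Tm.var k, Tm.var j.1]).eval 𝕄 (fun m => if m = j.1 then x 1 else x 0) = _
      rw [T3A_pi_subst, if_neg hkj, if_pos rfl, T3A_eta]

/-- trivial letters -/
private theorem T3A_L_triv [Finite M] (𝕄 : Alg M) (hM : IsBW 𝕄) (l : (tplM 𝕄 hM).Letter)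
    (hl : l.2.1 = l.2.2) (p : ((Fin 2 → M) → M) × ((Fin 2 → M) → M)) :
    p ∈ (tplM 𝕄 hM).L (fun c => FT 𝕄 (ary c)) l ↔ p.1 ∈ FT 𝕄 2 ∧ p.1 = p.2 := by
  constructor
  · rintro ⟨r, hr, h1, h2⟩
    have h3 : (tplM 𝕄 hM).π l.1 l.2.1 r ∈ FT 𝕄 2 := by
      rw [← (tplM_ok 𝕄 hM).ac l.1 l.2.1]
      exact ⟨r, hr, rfl⟩
    refine ⟨?_, ?_⟩
    · rw [← h1]; exact h3
    · rw [← h1, ← h2, hl]
  · rintro ⟨h1, h2⟩
    rw [← (tplM_ok 𝕄 hM).ac l.1 l.2.1] at h1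
    obtain ⟨r, hr, h3⟩ := h1
    exact ⟨r, hr, h3, by rw [← hl, h3, h2]⟩

private theorem T3A_E_triv [Finite M] (𝕄 : Alg M) (hM : IsBW 𝕄) (w : List (tplM 𝕄 hM).Letter)
    (hw : ∀ l ∈ w, l.2.1 = l.2.2) (p : ((Fin 2 → M) → M) × ((Fin 2 → M) → M)) :
    p ∈ (tplM 𝕄 hM).E (FT 𝕄 2) (fun c => FT 𝕄 (ary c)) w ↔ p.1 ∈ FT 𝕄 2 ∧ p.1 = p.2 := by
  induction w generalizing p with
  | nil => exact Iff.rfl
  | cons l w ih =>
    have ih' := ih (fun l' hl' => hw l' (List.mem_cons_of_mem _ hl'))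
    have hL := T3A_L_triv 𝕄 hM l (hw l List.mem_cons_self)
    constructor
    · rintro ⟨b, hb1, hb2⟩
      have h1 := (hL _).1 hb1
      have h2 := (ih' _).1 hb2
      exact ⟨h1.1, h1.2.trans h2.2⟩
    · rintro ⟨h1, h2⟩
      exact ⟨p.1, (hL _).2 ⟨h1, rfl⟩, (ih' _).2 ⟨h1, h2⟩⟩

private theorem T3A_E_nontriv [Finite M] (𝕄 : Alg M) (hM : IsBW 𝕄)
    (w : List (tplM 𝕄 hM).Letter) (hw : ¬ ∀ l ∈ w, l.2.1 = l.2.2)
    (r : (Fin 2 → M) → M) (hr : r ∈ FT 𝕄 2) :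
    (r, (fun x : Fin 2 → M => x 0)) ∈
      (tplM 𝕄 hM).E (FT 𝕄 2) (fun c => FT 𝕄 (ary c)) w ∧
    ((fun x : Fin 2 → M => x 0), r) ∈
      (tplM 𝕄 hM).E (FT 𝕄 2) (fun c => FT 𝕄 (ary c)) w := by
  induction w with
  | nil => exact absurd (fun l hl => by simp at hl) hw
  | cons l w ih =>
    by_cases hl : l.2.1 = l.2.2
    · have hw' : ¬ ∀ l ∈ w, l.2.1 = l.2.2 := by
        intro h
        apply hw
        intro l' hl'
        rcases List.mem_cons.1 hl' with rfl | h'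
        · exact hl
        · exact h l' h'
      have h1 := ih hw'
      have hL := T3A_L_triv 𝕄 hM l hl
      exact ⟨⟨r, (hL _).2 ⟨hr, rfl⟩, h1.1⟩,
        ⟨(fun x : Fin 2 → M => x 0), (hL _).2 ⟨T3A_x0_mem 𝕄, rfl⟩, h1.2⟩⟩
    · have h1 := T3A_L_nontriv 𝕄 hM l hl r hr
      refine ⟨⟨_, h1.1, tplM_x0 𝕄 hM w⟩, ?_⟩
      by_cases hw' : ∀ l ∈ w, l.2.1 = l.2.2
      · exact ⟨r, h1.2, (T3A_E_triv 𝕄 hM w hw' _).2 ⟨hr, rfl⟩⟩
      · exact ⟨_, T3A_L_x0 𝕄 hM l, (ih hw').2⟩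

/-- Let `x0 = (fun x => x 0)`.  Call a letter `(c,(i,j))` trivial if `i = j`; its relation is then
the diagonal of `D`.  For a nontrivial letter (`c ≠ none`, arity `≥ 3`) and `r ∈ D` both `(r,x0)`
and `(x0,r)` are in its relation: for `r` given by `s : Tm 2` take `h(z) = s(z_k, z_i)` with
`k ≠ i, j`, and idempotence.
So for a word `w`: if all its letters are trivial, `E w` is the diagonal of `D`; otherwise
`(r,x0), (x0,r) ∈ E w` for all `r ∈ D`, so `E (w ++ w) = D × D`.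
PR: for `p ++ q` trivial `m = 1`, else `m = 2`. -/
theorem tplM_pr [Finite M] (𝕄 : Alg M) (hM : IsBW 𝕄) :
    (tplM 𝕄 hM).PR (FT 𝕄 2) (fun c => FT 𝕄 (ary c)) := by
  intro p q
  have hok := tplM_ok 𝕄 hM
  by_cases hw : ∀ l ∈ p ++ q, l.2.1 = l.2.2
  · have hpw : pw 1 (p ++ q) = p ++ q := by simp [pw]
    have hE := T3A_E_triv 𝕄 hM (p ++ q) hw
    refine ⟨1, one_pos, ?_, ?_⟩
    · rw [hpw]
      exact {
        mem := fun a b h => E_mem hok h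
        refl := fun a ha => (hE _).2 ⟨ha, rfl⟩
        symm := fun a b h => by
          have h1 := (hE _).1 h
          exact (hE _).2 ⟨(E_mem hok h).2, h1.2.symm⟩
        trans := fun a b c h h' => by
          have h1 := (hE _).1 h
          have h2 := (hE _).1 h'
          exact (hE _).2 ⟨h1.1, h1.2.trans h2.2⟩ }
    · rw [hpw]
      intro r hr
      exact (hE _).2 ((T3A_E_triv 𝕄 hM p
        (fun l hl => hw l (List.mem_append_left _ hl)) _).1 hr)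
  · have hpw : pw 2 (p ++ q) = (p ++ q) ++ (p ++ q) := by
      simp [pw, List.replicate_succ]
    have hE : ∀ a b, a ∈ FT 𝕄 2 → b ∈ FT 𝕄 2 → (a, b) ∈
        (tplM 𝕄 hM).E (FT 𝕄 2) (fun c => FT 𝕄 (ary c)) (pw 2 (p ++ q)) := by
      intro a b ha hb
      rw [hpw, E_append hok]
      exact ⟨_, (T3A_E_nontriv 𝕄 hM _ hw a ha).1, (T3A_E_nontriv 𝕄 hM _ hw b hb).2⟩
    refine ⟨2, two_pos, ?_, ?_⟩
    · exact {
        mem := fun a b h => E_mem hok h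
        refl := fun a ha => hE _ _ ha ha
        symm := fun a b h => hE _ _ (E_mem hok h).2 (E_mem hok h).1
        trans := fun a b c h h' => hE _ _ (E_mem hok h).1 (E_mem hok h').2 }
    · rintro ⟨a, b⟩ hr
      exact hE _ _ (E_mem hok hr).1 (E_mem hok hr).2

end Pool.Agent.BWC
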