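import Pool.Agent.Lib.MP_d14a7e_al.SymDefs

set_option autoImplicit false
set_option linter.all false

/-! The template of term operations of arities 2, 3, 4. -/

namespace Pool.Agent.BWC

open Tpl

/-- arities -/
def ary : Option Bool → ℕ
  | none => 2
  | some false => 3
  | some true => 4

/-- Variable: binary term operations of `𝕄`.  Constraints: binary (only one coordinate), ternary,
quaternary term operations `h`, with coordinates `i ↦ h(x,…,x,y,x,…,x)` (`y` at place `i`). -/
def tplM {M : Type} [Finite M] (𝕄 : Alg M) (hM : IsBW 𝕄) : Tpl where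
  X := (Fin 2 → M) → M
  𝕏 := Alg.pi fun _ => 𝕄
  ι := Option Bool
  Y c := (Fin (ary c) → M) → M
  𝕐 c := Alg.pi fun _ => 𝕄
  J c := {i : Fin (ary c) // c = none → i.val = 1}
  π c i h := fun x => h (fun j => if j = i.1 then x 1 else x 0)
  finX := inferInstance
  finι := inferInstance
  finY c := inferInstance
  finJ c := inferInstance
  neι := inferInstance
  neJ c := by
    rcases c with _ | _ | _
    · exact ⟨⟨(1 : Fin 2), fun _ => rfl⟩⟩
    · exact ⟨⟨(0 : Fin 3), fun h => by simp at h⟩⟩
    · exact ⟨⟨(0 : Fin 4), fun h => by simp at h⟩⟩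
  bwX := IsBW.pi fun _ => hM
  bwY c := IsBW.pi fun _ => hM
  hom c i := ⟨fun _ _ _ _ _ _ => rfl, fun _ _ _ _ _ _ _ _ => rfl⟩

/-- `n`-ary term operations -/
def FT {M : Type} (𝕄 : Alg M) (n : ℕ) : Set ((Fin n → M) → M) :=
  Set.range fun (t : Tm n) (x : Fin n → M) => t.eval 𝕄 x

end Pool.Agent.BWC
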