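import Pool.Agent.Lib.MP_d14a7e_al.RT

set_option autoImplicit false
set_option linter.all false

/-! No simple TF algebra is a nontrivial function of two variables in both of which it is onto. -/

namespace Pool.Agent.BWC

/-- Product case.  `Γ` is (the graph of) a homomorphism `γ : UX × UY → S`.
Proof.  If `S` is empty or `UX` is empty nothing to do (`UY` is nonempty by `h1`).
For `(x,x') ∈ UX²` let `T(x,x') = {(s,s') | ∃ y ∈ UY, (x,y,s) ∈ Γ ∧ (x',y,s') ∈ Γ}`, a subuniverse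
of `S²` with `dom = cod = univ` (`h1`); by `simple_full` it is all of `S²` or
`s` is determined by `s'` (so by finiteness it is the graph of a bijection).
`Θ = {((x,x'),(s,s')) | (s,s') ∈ T(x,x')}` is a subuniverse of `X² × S²` with `dom = UX²`,
`cod = S²`, which is BF (`TF.setprod`, `TF.bf`).  So its center `Z = {(x,x') | T(x,x') = S²}`
3-absorbs `UX²`, which is TF (`TF.setprod`).
If `Z` is nonempty, `Z = UX²`, so for `x ∈ UX`, `T(x,x)` (the diagonal, by `huniq`) is `S²`: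
`S` is a subsingleton.
If `Z` is empty: fix `x₀ ∈ UX`.  For each `x ∈ UX` there is a bijection `σ x : S → S` with
`γ(x,y) = σ x (γ(x₀,y))` for all `y ∈ UY`.  Let `ξ = v(x,x₀,x₀) = v(x₀,x,x₀) = v(x₀,x₀,x)
= w(x,x₀,x₀,x₀) = …`.  With `sᵢ = γ(x₀,yᵢ)` arbitrary:
`v(σ x s₁, s₂, s₃) = σ ξ (v(s₁,s₂,s₃))`, and the same for the other positions; hence
`σ x s = v(σ x s, σ x s, σ x s) = (σ ξ)³ s`, and with `w`, `σ x s = (σ ξ)⁴ s`.  So `σ ξ = id`,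
`σ x = id` for all `x ∈ UX`.  So `γ(x,y) = γ(x₀,y)` and by `h2` `S` has one element. -/
theorem xy_prod {X Y S : Type} [Finite X] [Finite Y] [Finite S] {𝕏 : Alg X} {𝕐 : Alg Y}
    {𝕊 : Alg S} (hX : IsBW 𝕏) (hY : IsBW 𝕐) (hS : IsBW 𝕊) {UX : Set X} {UY : Set Y}
    (hUX : Sub 𝕏 UX) (hUY : Sub 𝕐 UY) (hne : UX.Nonempty) {Γ : Set (X × Y × S)}
    (hΓ : Sub (𝕏.prod (𝕐.prod 𝕊)) Γ)
    (htot : ∀ x ∈ UX, ∀ y ∈ UY, ∃ s, (x, y, s) ∈ Γ)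
    (huniq : ∀ x y s s', (x, y, s) ∈ Γ → (x, y, s') ∈ Γ → s = s')
    (h1 : ∀ x ∈ UX, ∀ s, ∃ y ∈ UY, (x, y, s) ∈ Γ)
    (h2 : ∀ y ∈ UY, ∀ s, ∃ x ∈ UX, (x, y, s) ∈ Γ)
    (hXtf : TF 𝕏 UX) (hStf : TF 𝕊 Set.univ) (hSs : Simple 𝕊) : Subsingleton S := by
  rcases isEmpty_or_nonempty S with hSe | hSne
  · infer_instance
  obtain ⟨x₀, hx₀⟩ := hne
  obtain ⟨y₀, hy₀, -⟩ := h1 x₀ hx₀ hSne.some
  have huniv : Sub 𝕊 (Set.univ : Set S) := ⟨fun _ _ _ _ _ _ => trivial, fun _ _ _ _ _ _ _ _ => trivial⟩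
  -- the big relation
  let Θ : Set ((X × X) × (S × S)) :=
    {p | p.1.1 ∈ UX ∧ p.1.2 ∈ UX ∧ ∃ y ∈ UY, (p.1.1, y, p.2.1) ∈ Γ ∧ (p.1.2, y, p.2.2) ∈ Γ}
  have hΘ : Sub ((𝕏.prod 𝕏).prod (𝕊.prod 𝕊)) Θ := by
    constructor
    · rintro a ⟨ha1, ha2, ya, hya, ga1, ga2⟩ b ⟨hb1, hb2, yb, hyb, gb1, gb2⟩ c ⟨hc1, hc2, yc, hyc, gc1, gc2⟩
      exact ⟨hUX.1 _ ha1 _ hb1 _ hc1, hUX.1 _ ha2 _ hb2 _ hc2, _, hUY.1 _ hya _ hyb _ hyc,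
        hΓ.1 _ ga1 _ gb1 _ gc1, hΓ.1 _ ga2 _ gb2 _ gc2⟩
    · rintro a ⟨ha1, ha2, ya, hya, ga1, ga2⟩ b ⟨hb1, hb2, yb, hyb, gb1, gb2⟩ c ⟨hc1, hc2, yc, hyc, gc1, gc2⟩
        d ⟨hd1, hd2, yd, hyd, gd1, gd2⟩
      exact ⟨hUX.2 _ ha1 _ hb1 _ hc1 _ hd1, hUX.2 _ ha2 _ hb2 _ hc2 _ hd2, _,
        hUY.2 _ hya _ hyb _ hyc _ hyd, hΓ.2 _ ga1 _ gb1 _ gc1 _ gd1, hΓ.2 _ ga2 _ gb2 _ gc2 _ gd2⟩
  have hdom : dom Θ = UX ×ˢ UX := by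
    ext ⟨x, x'⟩
    constructor
    · rintro ⟨p, hp1, hp2, -⟩
      exact ⟨hp1, hp2⟩
    · rintro ⟨hx, hx'⟩
      obtain ⟨s, hs⟩ := htot x hx y₀ hy₀
      obtain ⟨s', hs'⟩ := htot x' hx' y₀ hy₀
      exact ⟨(s, s'), hx, hx', y₀, hy₀, hs, hs'⟩
  have hcod : cod Θ = (Set.univ : Set S) ×ˢ (Set.univ : Set S) := by
    ext ⟨s, s'⟩
    constructor
    · intro _
      exact ⟨trivial, trivial⟩
    · intro _
      obtain ⟨x, hx, hs⟩ := h2 y₀ hy₀ s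
      obtain ⟨x', hx', hs'⟩ := h2 y₀ hy₀ s'
      exact ⟨(x, x'), hx, hx', y₀, hy₀, hs, hs'⟩
  have hSS : TF (𝕊.prod 𝕊) ((Set.univ : Set S) ×ˢ (Set.univ : Set S)) :=
    TF.setprod hS hS huniv huniv hStf hStf
  have hBF : BF (𝕊.prod 𝕊) (cod Θ) := by
    rw [hcod]
    exact hSS.bf (huniv.setprod huniv)
  have hcen := center (hX.prod hX) (hS.prod hS) hΘ hBF
  have hXX : TF (𝕏.prod 𝕏) (UX ×ˢ UX) := TF.setprod hX hX hUX hUX hXtf hXtf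
  have hmemcod : ∀ m : S × S, m ∈ cod Θ := by
    intro m
    rw [hcod]
    exact ⟨trivial, trivial⟩
  by_cases hZ : (Cen Θ).Nonempty
  · have hZe : Cen Θ = UX ×ˢ UX := hXX _ hZ (by rw [← hdom]; exact hcen)
    have hx00 : ((x₀, x₀) : X × X) ∈ Cen Θ := by
      rw [hZe]
      exact ⟨hx₀, hx₀⟩
    refine ⟨fun s s' => ?_⟩
    obtain ⟨-, -, y, hy, g1, g2⟩ := hx00.2 (s, s') (hmemcod _)
    exact huniq _ _ _ _ g1 g2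
  -- now the center is empty
  have hfun : ∀ x ∈ UX, ∀ x' ∈ UX, ∀ y ∈ UY, ∀ y' ∈ UY, ∀ s s' b, (x, y, s) ∈ Γ → (x', y, b) ∈ Γ →
      (x, y', s') ∈ Γ → (x', y', b) ∈ Γ → s = s' := by
    intro x hx x' hx' y hy y' hy' s s' b e1 e2 e3 e4
    let T : Set (S × S) := {p | ∃ y ∈ UY, (x, y, p.1) ∈ Γ ∧ (x', y, p.2) ∈ Γ}
    have hT : Sub (𝕊.prod 𝕊) T := by
      constructor
      · rintro a ⟨ya, hya, ga1, ga2⟩ b ⟨yb, hyb, gb1, gb2⟩ c ⟨yc, hyc, gc1, gc2⟩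
        refine ⟨_, hUY.1 _ hya _ hyb _ hyc, ?_, ?_⟩
        · have := hΓ.1 _ ga1 _ gb1 _ gc1
          have e : 𝕏.v x x x = x := hX.vi x
          simp only [Alg.prod, e] at this
          exact this
        · have := hΓ.1 _ ga2 _ gb2 _ gc2
          have e : 𝕏.v x' x' x' = x' := hX.vi x'
          simp only [Alg.prod, e] at this
          exact this
      · rintro a ⟨ya, hya, ga1, ga2⟩ b ⟨yb, hyb, gb1, gb2⟩ c ⟨yc, hyc, gc1, gc2⟩ d ⟨yd, hyd, gd1, gd2⟩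
        refine ⟨_, hUY.2 _ hya _ hyb _ hyc _ hyd, ?_, ?_⟩
        · have := hΓ.2 _ ga1 _ gb1 _ gc1 _ gd1
          have e : 𝕏.w x x x x = x := hX.wi x
          simp only [Alg.prod, e] at this
          exact this
        · have := hΓ.2 _ ga2 _ gb2 _ gc2 _ gd2
          have e : 𝕏.w x' x' x' x' = x' := hX.wi x'
          simp only [Alg.prod, e] at this
          exact this
    have hTd : ∀ s, s ∈ dom T := by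
      intro s
      obtain ⟨y, hy, g1⟩ := h1 x hx s
      obtain ⟨s', g2⟩ := htot x' hx' y hy
      exact ⟨s', y, hy, g1, g2⟩
    have hTc : cod T = Set.univ := by
      apply Set.eq_univ_of_forall
      intro s'
      obtain ⟨y, hy, g1⟩ := h1 x' hx' s'
      obtain ⟨s, g2⟩ := htot x hx y hy
      exact ⟨s, y, hy, g2, g1⟩
    rcases simple_full hS hS hT hTd hSs hStf (by rw [hTc]; exact hStf) with h | h
    · exact h s s' b ⟨y, hy, e1, e2⟩ ⟨y', hy', e3, e4⟩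
    · exfalso
      apply hZ
      refine ⟨(x, x'), ?_, ?_⟩
      · rw [hdom]
        exact ⟨hx, hx'⟩
      · rintro ⟨s, s'⟩ -
        obtain ⟨y, hy, g1, g2⟩ := h s s' (by rw [hTc]; trivial)
        exact ⟨hx, hx', y, hy, g1, g2⟩
  -- the function
  choose! g hg using htot
  have hgu : ∀ x ∈ UX, ∀ y ∈ UY, ∀ s, (x, y, s) ∈ Γ → g x y = s :=
    fun x hx y hy s hs => huniq _ _ _ _ (hg x hx y hy) hs
  have hgv : ∀ x1 ∈ UX, ∀ x2 ∈ UX, ∀ x3 ∈ UX, ∀ y1 ∈ UY, ∀ y2 ∈ UY, ∀ y3 ∈ UY,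
      g (𝕏.v x1 x2 x3) (𝕐.v y1 y2 y3) = 𝕊.v (g x1 y1) (g x2 y2) (g x3 y3) := by
    intro x1 a1 x2 a2 x3 a3 y1 b1 y2 b2 y3 b3
    exact hgu _ (hUX.1 _ a1 _ a2 _ a3) _ (hUY.1 _ b1 _ b2 _ b3) _
      (hΓ.1 _ (hg _ a1 _ b1) _ (hg _ a2 _ b2) _ (hg _ a3 _ b3))
  have hgw : ∀ x1 ∈ UX, ∀ x2 ∈ UX, ∀ x3 ∈ UX, ∀ x4 ∈ UX, ∀ y1 ∈ UY, ∀ y2 ∈ UY, ∀ y3 ∈ UY, ∀ y4 ∈ UY,
      g (𝕏.w x1 x2 x3 x4) (𝕐.w y1 y2 y3 y4) = 𝕊.w (g x1 y1) (g x2 y2) (g x3 y3) (g x4 y4) := by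
    intro x1 a1 x2 a2 x3 a3 x4 a4 y1 b1 y2 b2 y3 b3 y4 b4
    exact hgu _ (hUX.2 _ a1 _ a2 _ a3 _ a4) _ (hUY.2 _ b1 _ b2 _ b3 _ b4) _
      (hΓ.2 _ (hg _ a1 _ b1) _ (hg _ a2 _ b2) _ (hg _ a3 _ b3) _ (hg _ a4 _ b4))
  have hgf : ∀ x ∈ UX, ∀ x' ∈ UX, ∀ y ∈ UY, ∀ y' ∈ UY, g x' y = g x' y' → g x y = g x y' := by
    intro x hx x' hx' y hy y' hy' e
    have e4 := hg x' hx' y' hy'
    rw [← e] at e4
    exact hfun x hx x' hx' y hy y' hy' _ _ _ (hg x hx y hy) (hg x' hx' y hy) (hg x hx y' hy') e4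
  choose yy hyy hyΓ using h1 x₀ hx₀
  have hyg : ∀ s, g x₀ (yy s) = s := fun s => hgu _ hx₀ _ (hyy s) _ (hyΓ s)
  -- the map
  let σ : X → S → S := fun x s => g x (yy s)
  have hσ : ∀ x ∈ UX, ∀ y ∈ UY, g x y = σ x (g x₀ y) := by
    intro x hx y hy
    exact hgf x hx x₀ hx₀ _ hy _ (hyy _) (hyg _).symm
  have hσinj : ∀ x ∈ UX, ∀ s s', σ x s = σ x s' → s = s' := by
    intro x hx s s' e
    have := hgf x₀ hx₀ x hx _ (hyy s) _ (hyy s') e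
    rwa [hyg, hyg] at this
  have hσid : ∀ x ∈ UX, ∀ s, σ x s = s := by
    intro x hx s
    let ξ := 𝕏.v x₀ x₀ x
    have hξ : ξ ∈ UX := hUX.1 _ hx₀ _ hx₀ _ hx
    have g0 : ∀ s1 s2 s3, g x₀ (𝕐.v (yy s1) (yy s2) (yy s3)) = 𝕊.v s1 s2 s3 := by
      intro s1 s2 s3
      have := hgv x₀ hx₀ x₀ hx₀ x₀ hx₀ _ (hyy s1) _ (hyy s2) _ (hyy s3)
      rwa [hX.vi, hyg, hyg, hyg] at this
    have g0w : ∀ s1 s2 s3 s4, g x₀ (𝕐.w (yy s1) (yy s2) (yy s3) (yy s4)) = 𝕊.w s1 s2 s3 s4 := by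
      intro s1 s2 s3 s4
      have := hgw x₀ hx₀ x₀ hx₀ x₀ hx₀ x₀ hx₀ _ (hyy s1) _ (hyy s2) _ (hyy s3) _ (hyy s4)
      rwa [hX.wi, hyg, hyg, hyg, hyg] at this
    have v1 : ∀ s1 s2 s3, 𝕊.v (σ x s1) s2 s3 = σ ξ (𝕊.v s1 s2 s3) := by
      intro s1 s2 s3
      have := hgv x hx x₀ hx₀ x₀ hx₀ _ (hyy s1) _ (hyy s2) _ (hyy s3)
      rw [hX.v0, hyg, hyg, hσ ξ hξ _ (hUY.1 _ (hyy s1) _ (hyy s2) _ (hyy s3)), g0] at this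
      exact this.symm
    have v2 : ∀ s1 s2 s3, 𝕊.v s1 (σ x s2) s3 = σ ξ (𝕊.v s1 s2 s3) := by
      intro s1 s2 s3
      have := hgv x₀ hx₀ x hx x₀ hx₀ _ (hyy s1) _ (hyy s2) _ (hyy s3)
      rw [hX.v1, hyg, hyg, hσ ξ hξ _ (hUY.1 _ (hyy s1) _ (hyy s2) _ (hyy s3)), g0] at this
      exact this.symm
    have v3 : ∀ s1 s2 s3, 𝕊.v s1 s2 (σ x s3) = σ ξ (𝕊.v s1 s2 s3) := by
      intro s1 s2 s3
      have := hgv x₀ hx₀ x₀ hx₀ x hx _ (hyy s1) _ (hyy s2) _ (hyy s3)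
      rw [hyg, hyg, hσ ξ hξ _ (hUY.1 _ (hyy s1) _ (hyy s2) _ (hyy s3)), g0] at this
      exact this.symm
    have w1 : ∀ s1 s2 s3 s4, 𝕊.w (σ x s1) s2 s3 s4 = σ ξ (𝕊.w s1 s2 s3 s4) := by
      intro s1 s2 s3 s4
      have := hgw x hx x₀ hx₀ x₀ hx₀ x₀ hx₀ _ (hyy s1) _ (hyy s2) _ (hyy s3) _ (hyy s4)
      rw [hX.w0, hyg, hyg, hyg, hσ ξ hξ _ (hUY.2 _ (hyy s1) _ (hyy s2) _ (hyy s3) _ (hyy s4)), g0w] at this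
      exact this.symm
    have w2 : ∀ s1 s2 s3 s4, 𝕊.w s1 (σ x s2) s3 s4 = σ ξ (𝕊.w s1 s2 s3 s4) := by
      intro s1 s2 s3 s4
      have := hgw x₀ hx₀ x hx x₀ hx₀ x₀ hx₀ _ (hyy s1) _ (hyy s2) _ (hyy s3) _ (hyy s4)
      rw [hX.w1, hyg, hyg, hyg, hσ ξ hξ _ (hUY.2 _ (hyy s1) _ (hyy s2) _ (hyy s3) _ (hyy s4)), g0w] at this
      exact this.symm
    have w3 : ∀ s1 s2 s3 s4, 𝕊.w s1 s2 (σ x s3) s4 = σ ξ (𝕊.w s1 s2 s3 s4) := by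
      intro s1 s2 s3 s4
      have := hgw x₀ hx₀ x₀ hx₀ x hx x₀ hx₀ _ (hyy s1) _ (hyy s2) _ (hyy s3) _ (hyy s4)
      rw [hX.w2, hyg, hyg, hyg, hσ ξ hξ _ (hUY.2 _ (hyy s1) _ (hyy s2) _ (hyy s3) _ (hyy s4)), g0w] at this
      exact this.symm
    have w4 : ∀ s1 s2 s3 s4, 𝕊.w s1 s2 s3 (σ x s4) = σ ξ (𝕊.w s1 s2 s3 s4) := by
      intro s1 s2 s3 s4
      have := hgw x₀ hx₀ x₀ hx₀ x₀ hx₀ x hx _ (hyy s1) _ (hyy s2) _ (hyy s3) _ (hyy s4)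
      rw [hX.w3, hyg, hyg, hyg, hσ ξ hξ _ (hUY.2 _ (hyy s1) _ (hyy s2) _ (hyy s3) _ (hyy s4)), g0w] at this
      exact this.symm
    have k3 : σ x s = σ ξ (σ ξ (σ ξ s)) := by
      have e := hS.vi (σ x s)
      rw [v1, v2, v3, hS.vi] at e
      exact e.symm
    have k4 : σ x s = σ ξ (σ ξ (σ ξ (σ ξ s))) := by
      have e := hS.wi (σ x s)
      rw [w1, w2, w3, w4, hS.wi] at e
      exact e.symm
    have k5 : σ ξ s = s := by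
      have e : σ ξ (σ ξ (σ ξ (σ ξ s))) = σ ξ (σ ξ (σ ξ s)) := by rw [← k4, ← k3]
      exact hσinj ξ hξ _ _ (hσinj ξ hξ _ _ (hσinj ξ hξ _ _ e))
    rw [k3, k5, k5, k5]
  refine ⟨fun s s' => ?_⟩
  obtain ⟨x, hx, e1⟩ := h2 y₀ hy₀ s
  obtain ⟨x', hx', e2⟩ := h2 y₀ hy₀ s'
  rw [← hgu _ hx _ hy₀ _ e1, ← hgu _ hx' _ hy₀ _ e2, hσ x hx y₀ hy₀, hσ x' hx' y₀ hy₀, hσid x hx, hσid x' hx']

end Pool.Agent.BWC
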